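import Pool.Agent.LibCX37.Q2

/-!
[CX A0] **A perturbation which lowers the energy.** Reverse Fatou lemma.
-/

set_option autoImplicit false

namespace Pool.Agent.LibCX37

open MeasureTheory Set Filter Topology
open scoped ENNReal

theorem a0_meas (g : unitInterval → ℝ × ℝ) (hg : Measurable g) :
    Measurable (fun x : unitInterval × unitInterval × unitInterval × unitInterval =>
      Nn (g x.1) (g x.2.1) (g x.2.2.1) (g x.2.2.2)) := by
  have h1 : Measurable (fun x : unitInterval × unitInterval × unitInterval × unitInterval =>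
      ((g x.1, g x.2.1, g x.2.2.1, g x.2.2.2) : (ℝ × ℝ) × (ℝ × ℝ) × (ℝ × ℝ) × (ℝ × ℝ))) := by
    fun_prop
  have h2 := measurable_Nn.comp h1
  exact h2

theorem exists_En_lt (f : unitInterval → ℝ × ℝ) (hf : Measurable f)
    (g : ℕ → unitInterval → ℝ × ℝ) (hg : ∀ n, Measurable (g n))
    (hlim : ∀ a, Tendsto (fun n => g n a) atTop (𝓝 (f a)))
    (W : Set (unitInterval × unitInterval × unitInterval × unitInterval)) (hW : MeasurableSet W)
    (hpos : 0 < volume W)
    (hdrop : ∀ᵐ x : unitInterval × unitInterval × unitInterval × unitInterval, x ∈ W →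
      ∀ᶠ n in atTop, Nn (g n x.1) (g n x.2.1) (g n x.2.2.1) (g n x.2.2.2) + 1 ≤
        Nn (f x.1) (f x.2.1) (f x.2.2.1) (f x.2.2.2)) : ∃ n, En (g n) < En f := by
  by_contra hcon
  push Not at hcon
  set F : unitInterval × unitInterval × unitInterval × unitInterval → ℝ≥0∞ :=
    fun x => Nn (f x.1) (f x.2.1) (f x.2.2.1) (f x.2.2.2) with hF
  set G : ℕ → unitInterval × unitInterval × unitInterval × unitInterval → ℝ≥0∞ :=
    fun n x => Nn (g n x.1) (g n x.2.1) (g n x.2.2.1) (g n x.2.2.2) with hG
  have h1 : limsup (fun n => ∫⁻ x, G n x) atTop ≤ ∫⁻ x, limsup (fun n => G n x) atTop := by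
    refine limsup_lintegral_le (fun _ => 3) (fun n => a0_meas (g n) (hg n))
      (fun n => Eventually.of_forall fun x => Nn_le_three _ _ _ _) ?_
    rw [lintegral_const, measure_univ, mul_one]
    norm_num
  have h2 : En f ≤ limsup (fun n => ∫⁻ x, G n x) atTop := by
    have h3 : (fun _ : ℕ => En f) ≤ fun n => ∫⁻ x, G n x := fun n => hcon n
    calc En f = limsup (fun _ : ℕ => En f) atTop := (limsup_const _).symm
      _ ≤ limsup (fun n => ∫⁻ x, G n x) atTop := limsup_le_limsup (Eventually.of_forall h3)
  have h4 : ∀ᵐ x : unitInterval × unitInterval × unitInterval × unitInterval,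
      limsup (fun n => G n x) atTop + W.indicator (fun _ => (1 : ℝ≥0∞)) x ≤ F x := by
    filter_upwards [hdrop] with x hx
    have hx1 : ∀ᶠ n in atTop, G n x ≤ F x :=
      Nn_usc atTop (fun n => g n x.1) (fun n => g n x.2.1) (fun n => g n x.2.2.1)
        (fun n => g n x.2.2.2) _ _ _ _ (hlim _) (hlim _) (hlim _) (hlim _)
    by_cases hxW : x ∈ W
    · rw [indicator_of_mem hxW]
      have hx2 := hx hxW
      obtain ⟨n, hn⟩ := hx2.exists
      have hx3 : 1 ≤ F x := le_trans le_add_self hn
      have hx4 : limsup (fun n => G n x) atTop ≤ F x - 1 := by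
        refine limsup_le_of_le (h := ?_)
        filter_upwards [hx2] with n hn
        exact ENNReal.le_sub_of_add_le_right ENNReal.one_ne_top hn
      calc limsup (fun n => G n x) atTop + 1 ≤ F x - 1 + 1 := add_le_add_left hx4 1
        _ = F x := tsub_add_cancel_of_le hx3
    · rw [indicator_of_notMem hxW, add_zero]
      exact limsup_le_of_le (h := hx1)
  have h5 : ∫⁻ x, (limsup (fun n => G n x) atTop + W.indicator (fun _ => (1 : ℝ≥0∞)) x)
      ≤ ∫⁻ x, F x := lintegral_mono_ae h4
  rw [lintegral_add_right _ (measurable_const.indicator hW), lintegral_indicator hW,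
    lintegral_const, Measure.restrict_apply_univ, one_mul] at h5
  have h6 : En f + volume W ≤ En f := by
    calc En f + volume W ≤ (∫⁻ x, limsup (fun n => G n x) atTop) + volume W :=
          add_le_add_left (h2.trans h1) _
      _ ≤ ∫⁻ x, F x := h5
      _ = En f := rfl
  have h7 : En f ≠ ∞ := ne_top_of_le_ne_top (by norm_num) (En_le_three f)
  have h8 : volume W ≤ 0 := by
    have h9 : En f + volume W ≤ En f + 0 := by rwa [add_zero]
    exact (ENNReal.add_le_add_iff_left h7).1 h9
  exact absurd h8 (not_le.2 hpos)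

end Pool.Agent.LibCX37
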