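import Pool.Agent.LibCX37.A0

/-!
[CX A1] **An optimal drawing has no atoms.**
-/

set_option autoImplicit false

namespace Pool.Agent.LibCX37

open MeasureTheory Set Filter Topology
open scoped ENNReal

theorem a1_ne {β : Type} [MeasureSpace β] [SFinite (volume : Measure β)] (h : β → unitInterval)
    (hh : Measurable h) : ∀ᵐ x : unitInterval × β, x.1 ≠ h x.2 := by
  have h1 : MeasurableSet {x : unitInterval × β | x.1 = h x.2} :=
    measurableSet_eq_fun measurable_fst (hh.comp measurable_snd)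
  have h2 : volume {x : unitInterval × β | x.1 = h x.2} = 0 := by
    rw [Measure.volume_eq_prod, Measure.prod_apply_symm h1, lintegral_eq_zero_iff']
    · refine Eventually.of_forall fun y => ?_
      have h3 : (fun x : unitInterval => (x, y)) ⁻¹' {x : unitInterval × β | x.1 = h x.2}
          = {h y} := by
        ext x
        simp
      change volume ((fun x : unitInterval => (x, y)) ⁻¹' {x : unitInterval × β | x.1 = h x.2}) = 0
      rw [h3]
      exact measure_singleton _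
    · exact (measurable_measure_prodMk_right h1).aemeasurable
  rw [ae_iff]
  have h4 : {x : unitInterval × β | ¬ x.1 ≠ h x.2} = {x : unitInterval × β | x.1 = h x.2} := by
    ext x
    simp
  rw [h4]
  exact h2

theorem a1_snd {α β : Type} [MeasureSpace α] [MeasureSpace β] [SFinite (volume : Measure β)]
    {P : β → Prop} (h : ∀ᵐ y : β, P y) : ∀ᵐ x : α × β, P x.2 :=
  Measure.quasiMeasurePreserving_snd.ae h

theorem a1_distinct : ∀ᵐ x : unitInterval × unitInterval × unitInterval × unitInterval,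
    x.1 ≠ x.2.1 ∧ x.1 ≠ x.2.2.1 ∧ x.1 ≠ x.2.2.2 ∧ x.2.1 ≠ x.2.2.1 ∧ x.2.1 ≠ x.2.2.2 ∧
      x.2.2.1 ≠ x.2.2.2 := by
  have e1 := a1_ne (β := unitInterval × unitInterval × unitInterval) (fun y => y.1)
    measurable_fst
  have e2 := a1_ne (β := unitInterval × unitInterval × unitInterval) (fun y => y.2.1)
    (measurable_fst.comp measurable_snd)
  have e3 := a1_ne (β := unitInterval × unitInterval × unitInterval) (fun y => y.2.2)
    (measurable_snd.comp measurable_snd)
  have e4 := a1_snd (α := unitInterval) (a1_ne (β := unitInterval × unitInterval)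
    (fun y => y.1) measurable_fst)
  have e5 := a1_snd (α := unitInterval) (a1_ne (β := unitInterval × unitInterval)
    (fun y => y.2) measurable_snd)
  have e6 := a1_snd (α := unitInterval) (a1_snd (α := unitInterval)
    (a1_ne (β := unitInterval) (fun y => y) measurable_id))
  filter_upwards [e1, e2, e3, e4, e5, e6] with x h1 h2 h3 h4 h5 h6
  exact ⟨h1, h2, h3, h4, h5, h6⟩

/-- the moved point -/
noncomputable def a1_pt (y : ℝ × ℝ) (δ : ℝ) (a : unitInterval) : ℝ × ℝ :=
  (y.1 + δ * a, y.2 + δ * (a : ℝ) ^ 2)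

theorem a1_det (y : ℝ × ℝ) {δ : ℝ} (hδ : 0 < δ) {a b c : unitInterval} (h1 : a ≠ b) (h2 : a ≠ c)
    (h3 : b ≠ c) : det (a1_pt y δ a) (a1_pt y δ b) (a1_pt y δ c) ≠ 0 := by
  have e : det (a1_pt y δ a) (a1_pt y δ b) (a1_pt y δ c)
      = δ ^ 2 * (((b : ℝ) - a) * ((c : ℝ) - a) * ((c : ℝ) - b)) := by
    unfold det a1_pt
    ring
  have n1 : (b : ℝ) - a ≠ 0 := sub_ne_zero.2 fun h => h1 (Subtype.ext h.symm)
  have n2 : (c : ℝ) - a ≠ 0 := sub_ne_zero.2 fun h => h2 (Subtype.ext h.symm)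
  have n3 : (c : ℝ) - b ≠ 0 := sub_ne_zero.2 fun h => h3 (Subtype.ext h.symm)
  rw [e]
  exact mul_ne_zero (pow_ne_zero 2 hδ.ne') (mul_ne_zero (mul_ne_zero n1 n2) n3)

theorem a1_ind (y : ℝ × ℝ) : Nn y y y y = 3 := by
  have h1 : Meets y y y y := by
    refine ⟨y, ?_, ?_⟩ <;> exact left_mem_segment ℝ y y
  have h2 : ind y y y y = 1 := by
    unfold ind
    rw [if_pos h1]
  unfold Nn
  rw [h2]
  norm_num

theorem Attains.no_atom {f : unitInterval → ℝ × ℝ} (h : Attains f) (y : ℝ × ℝ) :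
    volume (f ⁻¹' {y}) = 0 := by
  classical
  by_contra hne
  have hf : Measurable f := h.1.1
  have hS : MeasurableSet (f ⁻¹' {y}) := hf (measurableSet_singleton y)
  have hpt : ∀ δ : ℝ, Continuous (a1_pt y δ) := by
    intro δ
    unfold a1_pt
    fun_prop
  let g : ℕ → unitInterval → ℝ × ℝ := fun n =>
    (f ⁻¹' {y}).piecewise (a1_pt y (1 / ((n : ℝ) + 1))) f
  have hgm : ∀ n, Measurable (g n) := fun n =>
    Measurable.piecewise hS (hpt _).measurable hf
  have hgS : ∀ n, ∀ a ∈ f ⁻¹' {y}, g n a = a1_pt y (1 / ((n : ℝ) + 1)) a := fun n a ha =>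
    piecewise_eq_of_mem _ _ _ ha
  have hgN : ∀ n, ∀ a, a ∉ f ⁻¹' {y} → g n a = f a := fun n a ha =>
    piecewise_eq_of_notMem _ _ _ ha
  have hlim : ∀ a, Tendsto (fun n => g n a) atTop (𝓝 (f a)) := by
    intro a
    by_cases ha : a ∈ f ⁻¹' {y}
    · have h1 : (fun n => g n a) = fun n : ℕ => a1_pt y (1 / ((n : ℝ) + 1)) a :=
        funext fun n => hgS n a ha
      have h2 : f a = a1_pt y 0 a := by
        have h3 : f a = y := ha
        rw [h3]
        unfold a1_pt
        simp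
      rw [h1, h2]
      have h3 : Continuous fun δ : ℝ => a1_pt y δ a := by
        unfold a1_pt
        fun_prop
      exact (h3.tendsto 0).comp tendsto_one_div_add_atTop_nhds_zero_nat
    · have h1 : (fun n => g n a) = fun _ : ℕ => f a := funext fun n => hgN n a ha
      rw [h1]
      exact tendsto_const_nhds
  have hgd : ∀ n, IsDrawing (g n) := by
    intro n
    refine ⟨hgm n, ?_⟩
    refine (h.1.2.union (isCompact_range (hpt (1 / ((n : ℝ) + 1)))).isBounded).subset ?_
    rintro _ ⟨a, rfl⟩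
    by_cases ha : a ∈ f ⁻¹' {y}
    · rw [hgS n a ha]
      exact Or.inr ⟨a, rfl⟩
    · rw [hgN n a ha]
      exact Or.inl ⟨a, rfl⟩
  obtain ⟨n, hn⟩ := exists_En_lt f hf g hgm hlim
    ((f ⁻¹' {y}) ×ˢ (f ⁻¹' {y}) ×ˢ (f ⁻¹' {y}) ×ˢ (f ⁻¹' {y}))
    (hS.prod (hS.prod (hS.prod hS))) (by
      rw [Measure.volume_eq_prod, Measure.prod_prod, Measure.volume_eq_prod, Measure.prod_prod,
        Measure.volume_eq_prod, Measure.prod_prod]
      have hp : 0 < volume (f ⁻¹' {y}) := pos_iff_ne_zero.2 hne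
      exact ENNReal.mul_pos hp.ne' (ENNReal.mul_pos hp.ne' (ENNReal.mul_pos hp.ne' hp.ne').ne').ne')
    (by
      filter_upwards [a1_distinct] with x hx hxW
      obtain ⟨d1, d2, d3, d4, d5, d6⟩ := hx
      obtain ⟨w1, w2, w3, w4⟩ := hxW
      refine Eventually.of_forall fun n => ?_
      have hδ : (0 : ℝ) < 1 / ((n : ℝ) + 1) := by positivity
      rw [hgS n _ w1, hgS n _ w2, hgS n _ w3, hgS n _ w4]
      have hGP : GP (a1_pt y (1 / ((n : ℝ) + 1)) x.1) (a1_pt y (1 / ((n : ℝ) + 1)) x.2.1)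
          (a1_pt y (1 / ((n : ℝ) + 1)) x.2.2.1) (a1_pt y (1 / ((n : ℝ) + 1)) x.2.2.2) :=
        ⟨a1_det y hδ d1 d2 d4, a1_det y hδ d1 d3 d5, a1_det y hδ d2 d3 d6, a1_det y hδ d4 d5 d6⟩
      have e1 : f x.1 = y := w1
      have e2 : f x.2.1 = y := w2
      have e3 : f x.2.2.1 = y := w3
      have e4 : f x.2.2.2 = y := w4
      rw [e1, e2, e3, e4, a1_ind]
      calc Nn _ _ _ _ + 1 ≤ 1 + 1 := add_le_add_left (Nn_le_one _ _ _ _ hGP) 1
        _ ≤ 3 := by norm_num)
  exact absurd (h.En_le (hgd n)) (not_le.2 hn)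

end Pool.Agent.LibCX37
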