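import Pool.Agent.LibCX37.A1

/-!
[CX A2] **An optimal drawing charges no line.**
PROOF. Let `w ≠ 0`, `S = {ω | det p (p+w) (f ω) = 0}` of positive measure. For `z` with `det p (p+w) z = 0`: `z = p + s w` with
`s = s(z) = ((z-p)·w)/(w·w)` (continuous in `z`, bounded on bounded sets). Let `n' = (-w.2, w.1)`. Put
`g n ω = f ω + (1/(n+1)) s(f ω)² n'` on `S`, `g n = f` off `S` (measurable, bounded, `→ f`).
For `x ∈ S⁴` with the four numbers `s(f x.i)` distinct (a.e.: `f` has no atoms by A1, and on `S` the number `s(f ω)` determines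
`f ω`, so the set of pairs with equal `s` is null by Tonelli): the points `g n x.i = p + s_i w + δ s_i² n'` are in general
position, `det = δ (w·w)·(s_b-s_a)(s_c-s_a)(s_c-s_b)` up to sign (ring), so `Nn ≤ 1`; and four distinct collinear points have at least two
meeting pairings (LEMMA: for distinct reals `a b c d`, at least two of `[a,b]∩[c,d]`, `[a,c]∩[b,d]`, `[a,d]∩[b,c]` (unordered intervals)
are nonempty; the points `p + s w` in the order of `s`; common point `p + t w` with `t = max of the two minima`), so `Nn (f ..) ≥ 2`.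
Conclude with `exists_En_lt` and `Attains.En_le` as in A1.
-/

set_option autoImplicit false

namespace Pool.Agent.LibCX37

open MeasureTheory Set Filter Topology
open scoped ENNReal

theorem a2_mem_segment (p w : ℝ × ℝ) {a b t : ℝ} (ht : t ∈ uIcc a b) :
    p + t • w ∈ segment ℝ (p + a • w) (p + b • w) := by
  rw [← segment_eq_uIcc] at ht
  obtain ⟨u, v, hu, hv, huv, rfl⟩ := ht
  refine ⟨u, v, hu, hv, huv, ?_⟩
  have h1 : v = 1 - u := by linarith
  subst h1
  ext
  · simp only [Prod.fst_add, Prod.smul_fst, smul_eq_mul]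
    ring
  · simp only [Prod.snd_add, Prod.smul_snd, smul_eq_mul]
    ring

theorem a2_meets (p w : ℝ × ℝ) {a b c d t : ℝ} (h1 : t ∈ uIcc a b) (h2 : t ∈ uIcc c d) :
    Meets (p + a • w) (p + b • w) (p + c • w) (p + d • w) :=
  ⟨p + t • w, a2_mem_segment p w h1, a2_mem_segment p w h2⟩

theorem a2_disj (p w : ℝ × ℝ) {a b c d : ℝ}
    (h : ¬ Meets (p + a • w) (p + b • w) (p + c • w) (p + d • w)) :
    Meets (p + a • w) (p + c • w) (p + b • w) (p + d • w) ∧
    Meets (p + a • w) (p + d • w) (p + b • w) (p + c • w) := by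
  by_cases h1 : max a b < min c d
  · have e1 : a ≤ max a b := le_max_left _ _
    have e2 : b ≤ max a b := le_max_right _ _
    have e3 : min c d ≤ c := min_le_left _ _
    have e4 : min c d ≤ d := min_le_right _ _
    constructor
    · exact a2_meets p w (t := max a b) (mem_uIcc.2 (Or.inl ⟨e1, by linarith⟩))
        (mem_uIcc.2 (Or.inl ⟨e2, by linarith⟩))
    · exact a2_meets p w (t := max a b) (mem_uIcc.2 (Or.inl ⟨e1, by linarith⟩))
        (mem_uIcc.2 (Or.inl ⟨e2, by linarith⟩))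
  · by_cases h2 : max c d < min a b
    · have e1 : c ≤ max c d := le_max_left _ _
      have e2 : d ≤ max c d := le_max_right _ _
      have e3 : min a b ≤ a := min_le_left _ _
      have e4 : min a b ≤ b := min_le_right _ _
      constructor
      · exact a2_meets p w (t := max c d) (mem_uIcc.2 (Or.inr ⟨e1, by linarith⟩))
          (mem_uIcc.2 (Or.inr ⟨e2, by linarith⟩))
      · exact a2_meets p w (t := max c d) (mem_uIcc.2 (Or.inr ⟨e2, by linarith⟩))
          (mem_uIcc.2 (Or.inr ⟨e1, by linarith⟩))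
    · exfalso
      apply h
      have h1' := not_lt.1 h1
      have h2' := not_lt.1 h2
      apply a2_meets p w (t := max (min a b) (min c d))
      · rw [uIcc, mem_Icc]
        exact ⟨le_max_left _ _, max_le (min_le_max) h1'⟩
      · rw [uIcc, mem_Icc]
        exact ⟨le_max_right _ _, max_le h2' (min_le_max)⟩

/-- four distinct collinear points have at least two meeting pairings -/
theorem two_le_Nn_of_collinear (p w : ℝ × ℝ) (a b c d : ℝ) (hab : a ≠ b) (hac : a ≠ c)
    (had : a ≠ d) (hbc : b ≠ c) (hbd : b ≠ d) (hcd : c ≠ d) :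
    2 ≤ Nn (p + a • w) (p + b • w) (p + c • w) (p + d • w) := by
  have h2 : (2 : ℝ≥0∞) = 1 + 1 := by norm_num
  unfold Nn ind
  by_cases h : Meets (p + a • w) (p + b • w) (p + c • w) (p + d • w)
  · by_cases h' : Meets (p + a • w) (p + c • w) (p + b • w) (p + d • w)
    · rw [if_pos h, if_pos h', h2]
      exact le_self_add
    · obtain ⟨h3, h4⟩ := a2_disj p w h'
      have h5 : Meets (p + a • w) (p + d • w) (p + b • w) (p + c • w) := by
        unfold Meets at h4 ⊢
        rwa [segment_symm ℝ (p + b • w) (p + c • w)]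
      rw [if_pos h, if_pos h5, h2]
      gcongr
      exact le_self_add
  · obtain ⟨h3, h4⟩ := a2_disj p w h
    rw [if_pos h3, if_pos h4, h2]
    gcongr
    exact le_add_self

/-- the coordinate along the line -/
noncomputable def a2s (p w z : ℝ × ℝ) : ℝ :=
  ((z.1 - p.1) * w.1 + (z.2 - p.2) * w.2) / (w.1 ^ 2 + w.2 ^ 2)

/-- the moved point -/
noncomputable def a2G (p w : ℝ × ℝ) (x : (ℝ × ℝ) × ℝ) : ℝ × ℝ :=
  x.1 + x.2 • ((a2s p w x.1) ^ 2 • ((-w.2, w.1) : ℝ × ℝ))

theorem a2_ww {w : ℝ × ℝ} (hw : w ≠ 0) : 0 < w.1 ^ 2 + w.2 ^ 2 := by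
  by_contra h
  apply hw
  have h1 : w.1 ^ 2 + w.2 ^ 2 ≤ 0 := not_lt.1 h
  have h2 : w.1 ^ 2 = 0 := le_antisymm (by nlinarith [sq_nonneg w.2]) (sq_nonneg _)
  have h3 : w.2 ^ 2 = 0 := le_antisymm (by nlinarith [sq_nonneg w.1]) (sq_nonneg _)
  ext
  · exact pow_eq_zero_iff (two_ne_zero) |>.1 h2
  · exact pow_eq_zero_iff (two_ne_zero) |>.1 h3

theorem a2_on_line {p w z : ℝ × ℝ} (hw : w ≠ 0) (hz : det p (p + w) z = 0) :
    z = p + a2s p w z • w := by
  have h0 := a2_ww hw
  unfold det at hz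
  simp only [Prod.fst_add, Prod.snd_add, add_sub_cancel_left] at hz
  have h1 : w.1 * (z.2 - p.2) = w.2 * (z.1 - p.1) := by linarith
  ext
  · simp only [Prod.fst_add, Prod.smul_fst, smul_eq_mul, a2s]
    field_simp
    linear_combination (-w.2) * h1
  · simp only [Prod.snd_add, Prod.smul_snd, smul_eq_mul, a2s]
    field_simp
    linear_combination (w.1) * h1

theorem a2_continuous_s (p w : ℝ × ℝ) : Continuous (a2s p w) := by
  unfold a2s
  fun_prop

theorem a2_continuous_G (p w : ℝ × ℝ) : Continuous (a2G p w) := by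
  unfold a2G
  have := a2_continuous_s p w
  fun_prop

theorem a2_det (p w : ℝ × ℝ) (δ a b c : ℝ) :
    det (p + a • w + δ • (a ^ 2 • ((-w.2, w.1) : ℝ × ℝ)))
      (p + b • w + δ • (b ^ 2 • ((-w.2, w.1) : ℝ × ℝ)))
      (p + c • w + δ • (c ^ 2 • ((-w.2, w.1) : ℝ × ℝ))) =
    δ * (w.1 ^ 2 + w.2 ^ 2) * ((b - a) * (c - a) * (c - b)) := by
  unfold det
  simp only [Prod.fst_add, Prod.snd_add, Prod.smul_fst, Prod.smul_snd, smul_eq_mul]
  ring

theorem a2_GP {p w : ℝ × ℝ} (hw : w ≠ 0) {δ : ℝ} (hδ : 0 < δ) {a b c d : ℝ} (hab : a ≠ b)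
    (hac : a ≠ c) (had : a ≠ d) (hbc : b ≠ c) (hbd : b ≠ d) (hcd : c ≠ d) :
    GP (p + a • w + δ • (a ^ 2 • ((-w.2, w.1) : ℝ × ℝ)))
      (p + b • w + δ • (b ^ 2 • ((-w.2, w.1) : ℝ × ℝ)))
      (p + c • w + δ • (c ^ 2 • ((-w.2, w.1) : ℝ × ℝ)))
      (p + d • w + δ • (d ^ 2 • ((-w.2, w.1) : ℝ × ℝ))) := by
  have h0 := (a2_ww hw).ne'
  have h1 := hδ.ne'
  have key : ∀ x y z : ℝ, x ≠ y → x ≠ z → y ≠ z →
      δ * (w.1 ^ 2 + w.2 ^ 2) * ((y - x) * (z - x) * (z - y)) ≠ 0 := by
    intro x y z hxy hxz hyz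
    have h2 : y - x ≠ 0 := sub_ne_zero.2 hxy.symm
    have h3 : z - x ≠ 0 := sub_ne_zero.2 hxz.symm
    have h4 : z - y ≠ 0 := sub_ne_zero.2 hyz.symm
    positivity
  refine ⟨?_, ?_, ?_, ?_⟩
  · rw [a2_det]; exact key _ _ _ hab hac hbc
  · rw [a2_det]; exact key _ _ _ hab had hbd
  · rw [a2_det]; exact key _ _ _ hac had hcd
  · rw [a2_det]; exact key _ _ _ hbc hbd hcd

theorem a2_ne {X : Type*} [MeasureSpace X] [SFinite (volume : Measure X)]
    {f : unitInterval → ℝ × ℝ} (hf : Measurable f) (hat : ∀ y, volume (f ⁻¹' {y}) = 0)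
    {k : X → ℝ × ℝ} (hk : Measurable k) : ∀ᵐ x : unitInterval × X, f x.1 ≠ k x.2 := by
  rw [ae_iff]
  simp only [ne_eq, not_not]
  have hm : MeasurableSet {x : unitInterval × X | f x.1 = k x.2} :=
    measurableSet_eq_fun (hf.comp measurable_fst) (hk.comp measurable_snd)
  rw [Measure.volume_eq_prod, Measure.prod_apply_symm hm]
  have h1 : ∀ y : X, volume ((fun x : unitInterval => (x, y)) ⁻¹'
      {x : unitInterval × X | f x.1 = k x.2}) = 0 := fun y => hat (k y)
  simp only [h1, lintegral_zero]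

theorem Attains.noLines {f : unitInterval → ℝ × ℝ} (h : Attains f) : NoLines (law f) := by
  intro p w hw
  by_contra hne
  have hf : Measurable f := h.1.1
  have hline : MeasurableSet {z : ℝ × ℝ | det p (p + w) z = 0} := by
    apply measurableSet_eq_fun _ measurable_const
    unfold det
    fun_prop
  rw [law, Measure.map_apply hf hline] at hne
  set S : Set unitInterval := f ⁻¹' {z : ℝ × ℝ | det p (p + w) z = 0} with hS
  have hSm : MeasurableSet S := hf hline
  have hSpos : 0 < volume S := pos_iff_ne_zero.2 hne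
  have hSline : ∀ ω ∈ S, f ω = p + a2s p w (f ω) • w := fun ω hω => a2_on_line hw hω
  -- the perturbed drawings
  set δ : ℕ → unitInterval → ℝ := fun n => S.indicator (fun _ => 1 / ((n : ℝ) + 1)) with hδ
  have hδm : ∀ n, Measurable (δ n) := fun n => measurable_const.indicator hSm
  have hδ0 : ∀ n ω, δ n ω ∈ Icc (0 : ℝ) 1 := by
    intro n ω
    have hn : (0 : ℝ) ≤ n := Nat.cast_nonneg n
    by_cases hω : ω ∈ S
    · simp only [hδ, indicator_of_mem hω]
      constructor
      · positivity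
      · rw [div_le_one (by positivity)]; linarith
    · simp [hδ, indicator_of_notMem hω]
  set g : ℕ → unitInterval → ℝ × ℝ := fun n ω => a2G p w (f ω, δ n ω) with hg
  have hgm : ∀ n, Measurable (g n) := fun n =>
    (a2_continuous_G p w).measurable.comp (hf.prodMk (hδm n))
  have hgd : ∀ n, IsDrawing (g n) := by
    intro n
    refine ⟨hgm n, ?_⟩
    have h1 : IsCompact (closure (range f) ×ˢ Icc (0 : ℝ) 1) :=
      h.1.2.isCompact_closure.prod isCompact_Icc
    refine (h1.image (a2_continuous_G p w)).isBounded.subset ?_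
    rintro _ ⟨ω, rfl⟩
    exact ⟨(f ω, δ n ω), ⟨subset_closure (mem_range_self ω), hδ0 n ω⟩, rfl⟩
  have hlim : ∀ ω, Tendsto (fun n => g n ω) atTop (𝓝 (f ω)) := by
    intro ω
    have h1 : Tendsto (fun n => δ n ω) atTop (𝓝 0) := by
      by_cases hω : ω ∈ S
      · simp only [hδ, indicator_of_mem hω]
        exact tendsto_one_div_add_atTop_nhds_zero_nat
      · simp only [hδ, indicator_of_notMem hω]
        exact tendsto_const_nhds
    have h2 : Tendsto (fun n => (f ω, δ n ω)) atTop (𝓝 (f ω, (0 : ℝ))) :=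
      tendsto_const_nhds.prodMk_nhds h1
    have h3 := ((a2_continuous_G p w).tendsto (f ω, (0 : ℝ))).comp h2
    have h4 : a2G p w (f ω, (0 : ℝ)) = f ω := by simp [a2G]
    rw [h4] at h3
    exact h3
  have hW : MeasurableSet (S ×ˢ S ×ˢ S ×ˢ S) := hSm.prod (hSm.prod (hSm.prod hSm))
  have hWpos : 0 < volume (S ×ˢ S ×ˢ S ×ˢ S) := by
    simp only [Measure.volume_eq_prod, Measure.prod_prod]
    positivity
  have hat : ∀ y, volume (f ⁻¹' {y}) = 0 := fun y => h.no_atom y
  have e12 : ∀ᵐ x : unitInterval × unitInterval × unitInterval × unitInterval,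
      f x.1 ≠ f x.2.1 :=
    a2_ne hf hat (k := fun y : unitInterval × unitInterval × unitInterval => f y.1)
      (hf.comp measurable_fst)
  have e13 : ∀ᵐ x : unitInterval × unitInterval × unitInterval × unitInterval,
      f x.1 ≠ f x.2.2.1 :=
    a2_ne hf hat (k := fun y : unitInterval × unitInterval × unitInterval => f y.2.1)
      (hf.comp measurable_snd.fst)
  have e14 : ∀ᵐ x : unitInterval × unitInterval × unitInterval × unitInterval,
      f x.1 ≠ f x.2.2.2 :=
    a2_ne hf hat (k := fun y : unitInterval × unitInterval × unitInterval => f y.2.2)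
      (hf.comp measurable_snd.snd)
  have e23' : ∀ᵐ x : unitInterval × unitInterval × unitInterval,
      f x.1 ≠ f x.2.1 :=
    a2_ne hf hat (k := fun y : unitInterval × unitInterval => f y.1) (hf.comp measurable_fst)
  have e24' : ∀ᵐ x : unitInterval × unitInterval × unitInterval,
      f x.1 ≠ f x.2.2 :=
    a2_ne hf hat (k := fun y : unitInterval × unitInterval => f y.2) (hf.comp measurable_snd)
  have e34'' : ∀ᵐ x : unitInterval × unitInterval, f x.1 ≠ f x.2 := a2_ne hf hat hf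
  have e34' : ∀ᵐ x : unitInterval × unitInterval × unitInterval, f x.2.1 ≠ f x.2.2 :=
    Measure.quasiMeasurePreserving_snd.ae e34''
  have e23 : ∀ᵐ x : unitInterval × unitInterval × unitInterval × unitInterval,
      f x.2.1 ≠ f x.2.2.1 := Measure.quasiMeasurePreserving_snd.ae e23'
  have e24 : ∀ᵐ x : unitInterval × unitInterval × unitInterval × unitInterval,
      f x.2.1 ≠ f x.2.2.2 := Measure.quasiMeasurePreserving_snd.ae e24'
  have e34 : ∀ᵐ x : unitInterval × unitInterval × unitInterval × unitInterval,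
      f x.2.2.1 ≠ f x.2.2.2 := Measure.quasiMeasurePreserving_snd.ae e34'
  have hdrop : ∀ᵐ x : unitInterval × unitInterval × unitInterval × unitInterval,
      x ∈ S ×ˢ S ×ˢ S ×ˢ S → ∀ᶠ n in atTop,
        Nn (g n x.1) (g n x.2.1) (g n x.2.2.1) (g n x.2.2.2) + 1 ≤
        Nn (f x.1) (f x.2.1) (f x.2.2.1) (f x.2.2.2) := by
    filter_upwards [e12, e13, e14, e23, e24, e34] with x h12 h13 h14 h23 h24 h34
    rintro ⟨hx1, hx2, hx3, hx4⟩
    refine Filter.Eventually.of_forall fun n => ?_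
    have hne : ∀ ω ∈ S, ∀ ω' ∈ S, f ω ≠ f ω' → a2s p w (f ω) ≠ a2s p w (f ω') := by
      intro ω hω ω' hω' h1 h2
      apply h1
      rw [hSline ω hω, hSline ω' hω', h2]
    have s12 := hne _ hx1 _ hx2 h12
    have s13 := hne _ hx1 _ hx3 h13
    have s14 := hne _ hx1 _ hx4 h14
    have s23 := hne _ hx2 _ hx3 h23
    have s24 := hne _ hx2 _ hx4 h24
    have s34 := hne _ hx3 _ hx4 h34
    have hn : (0 : ℝ) < 1 / ((n : ℝ) + 1) := by positivity
    have hgS : ∀ ω ∈ S, g n ω = p + a2s p w (f ω) • w +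
        (1 / ((n : ℝ) + 1)) • ((a2s p w (f ω)) ^ 2 • ((-w.2, w.1) : ℝ × ℝ)) := by
      intro ω hω
      simp only [hg, a2G, hδ, indicator_of_mem hω]
      congr 1
      exact hSline ω hω
    have hle : Nn (g n x.1) (g n x.2.1) (g n x.2.2.1) (g n x.2.2.2) ≤ 1 := by
      apply Nn_le_one
      rw [hgS _ hx1, hgS _ hx2, hgS _ hx3, hgS _ hx4]
      exact a2_GP hw hn s12 s13 s14 s23 s24 s34
    have hge : 2 ≤ Nn (f x.1) (f x.2.1) (f x.2.2.1) (f x.2.2.2) := by
      rw [hSline _ hx1, hSline _ hx2, hSline _ hx3, hSline _ hx4]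
      exact two_le_Nn_of_collinear p w _ _ _ _ s12 s13 s14 s23 s24 s34
    calc Nn (g n x.1) (g n x.2.1) (g n x.2.2.1) (g n x.2.2.2) + 1 ≤ 1 + 1 := by gcongr
      _ = 2 := by norm_num
      _ ≤ _ := hge
  obtain ⟨n, hn⟩ := exists_En_lt f hf g hgm hlim _ hW hWpos hdrop
  exact absurd (h.En_le (hgd n)) (not_le.2 hn)

end Pool.Agent.LibCX37
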