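import Pool.Agent.LibCX37.G2

/-!
[CZ B0] Definitions for the three-arc drawing (energy `11/27 < 1/2`).
-/

set_option autoImplicit false

namespace Pool.Agent.LibCX37

open MeasureTheory Set Filter Topology
open scoped ENNReal

/-- three short convex arcs near the vertices of a triangle; each line through two points of one arc separates the two other arcs -/
noncomputable def arcP (i : Fin 3) (t : ℝ) : ℝ × ℝ :=
  if i = 0 then (t + t ^ 2 / 4, t) else if i = 1 then (30 - 2 * t, t + t ^ 2 / 8) else
    (t + t ^ 2 / 8, 30 - 2 * t)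

/-- the number of the indices `i, j, k, l` equal to `m` -/
def cnt (i j k l m : Fin 3) : ℕ :=
  (if i = m then 1 else 0) + (if j = m then 1 else 0) + (if k = m then 1 else 0) +
    (if l = m then 1 else 0)

/-- the patterns with energy zero: the three arcs all occur, or three points on arc `0` and one on `2`, or three points on arc `1`
(or `2`) and one on `0` -/
def arcZ (i j k l : Fin 3) : Prop :=
  (0 < cnt i j k l 0 ∧ 0 < cnt i j k l 1 ∧ 0 < cnt i j k l 2) ∨
  (cnt i j k l 0 = 3 ∧ cnt i j k l 2 = 1) ∨ (cnt i j k l 1 = 3 ∧ cnt i j k l 0 = 1) ∨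
  (cnt i j k l 2 = 3 ∧ cnt i j k l 0 = 1)

instance (i j k l : Fin 3) : Decidable (arcZ i j k l) := by
  unfold arcZ
  infer_instance

/-- the bound for the pattern -/
noncomputable def arcB (i j k l : Fin 3) : ℝ≥0∞ := if arcZ i j k l then 0 else 1

end Pool.Agent.LibCX37
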