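import Pool.Agent.LibCX37.B0

/-!
[CZ B1] **The three arcs, geometry.**
PROOF. Put `P i t = arcP i t`. All parameters are in `[0,1]`.
(1) `det (P i t) (P i t') (P j s) = (t' - t) * R` where for `i ≠ j` the factor `R` has a constant sign `σ i j`:
`σ 0 1 = -1, σ 0 2 = 1, σ 1 0 = 1, σ 1 2 = -1, σ 2 0 = -1, σ 2 1 = 1` (`R` is a polynomial which is a large constant plus small terms; write `det`
out, `ring_nf`, factor `(t' - t)`, then `nlinarith` with the products of the bounds). A convenient form: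
`0 < σ i j * (det (P i t) (P i t') (P j s) * (t' - t))` for `t ≠ t'` (`= σ R (t'-t)²`).
(2) `det (P i a) (P i b) (P i c) = κ i * (b - a) * (c - a) * (c - b)` with `κ 0 = -1/4, κ 1 = -1/4, κ 2 = 1/4` (`ring`).
(3) `0 < det (P 0 a) (P 1 b) (P 2 c)` (about 900).
Hence all determinants of three points with distinct parameters are nonzero, so `GP`, and `Nn ≤ 1` (`Nn_le_one`).
(4) `i, j, k` distinct, `a ≠ b`: `Nn (P i a) (P i b) (P j c) (P k d) = 0` by `Nn_eq_zero`: `det p q r * det p q s < 0` as `σ i j = -σ i k`, and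
`det (P i a) (P j c) (P k d)`, `det (P i b) (P j c) (P k d)` have the same sign by (3).
(5) `(i,j)` one of `(0,2), (1,0), (2,0)`, `a, b, c` distinct: `Nn (P i a) (P i b) (P i c) (P j d) = 0`: by symmetry (`Nn_swap12`, `Nn_swap23`, ...)
`a < b < c`; then `Nn_eq_zero` for the order `p = P i b, q = P j d, r = P i a, s = P i c`: `det p q r * det p q s < 0` (from (1):
`det (P i b) (P j d) (P i a) = - det (P i b) (P i a) (P j d)`, `det (P i b) (P j d) (P i c) = - det (P i b) (P i c) (P j d)`, and `(a-b)(c-b) < 0`), and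
`0 < det p r s * det q r s`: `det (P i b) (P i a) (P i c) = κ i (a-b)(c-b)(c-a)` has the sign `-κ i`, `det (P j d) (P i a) (P i c) =
det (P i a) (P i c) (P j d)` has the sign `σ i j = -sign κ i`.
(6) The general statement: 81 patterns, reduce by the symmetries `Nn_swap12`, `Nn_swap23`, `Nn_swap34` of `Nn` to (4), (5) or `Nn_le_one`.
(It may help to prove (4) and (5) for each position of the arguments first, then `fin_cases i <;> fin_cases j <;> fin_cases k <;> fin_cases l`.)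
-/

set_option autoImplicit false

namespace Pool.Agent.LibCX37

open MeasureTheory Set Filter Topology
open scoped ENNReal

theorem b1_P0 (t : ℝ) : arcP 0 t = (t + t ^ 2 / 4, t) := by simp [arcP]

theorem b1_P1 (t : ℝ) : arcP 1 t = (30 - 2 * t, t + t ^ 2 / 8) := by simp [arcP]

theorem b1_P2 (t : ℝ) : arcP 2 t = (t + t ^ 2 / 8, 30 - 2 * t) := by
  have h1 : ¬ ((2 : Fin 3) = 0) := by decide
  have h2 : ¬ ((2 : Fin 3) = 1) := by decide
  unfold arcP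
  rw [if_neg h1, if_neg h2]

theorem b1_sq {t : ℝ} (h0 : 0 ≤ t) (h1 : t ≤ 1) : 0 ≤ t ^ 2 ∧ t ^ 2 ≤ 1 := by
  constructor
  · positivity
  · nlinarith

theorem b1_mul {x y : ℝ} (h1 : -2 ≤ x) (h2 : x ≤ 2) (h3 : -2 ≤ y) (h4 : y ≤ 2) :
    -4 ≤ x * y ∧ x * y ≤ 4 := by
  constructor
  · nlinarith [mul_nonneg (sub_nonneg.mpr h2) (sub_nonneg.mpr h4),
      mul_nonneg (sub_nonneg.mpr h1) (sub_nonneg.mpr h3)]
  · nlinarith [mul_nonneg (sub_nonneg.mpr h2) (sub_nonneg.mpr h3),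
      mul_nonneg (sub_nonneg.mpr h1) (sub_nonneg.mpr h4)]

theorem b1_pos_of {x y : ℝ} (h : 0 < x * y) (hx : 0 ≤ x) : 0 < y := by
  by_contra hcon
  have := mul_nonneg hx (neg_nonneg.mpr (not_lt.mp hcon))
  linarith

theorem b1_sqpos {t u : ℝ} (h : t ≠ u) : 0 < (u - t) ^ 2 := by
  have h1 : u - t ≠ 0 := sub_ne_zero.mpr (Ne.symm h)
  positivity

theorem b1_01 (t u s : ℝ) (ht : 0 ≤ t) (ht' : t ≤ 1) (hu : 0 ≤ u) (hu' : u ≤ 1) (hs : 0 ≤ s)
    (hs' : s ≤ 1) (h : t ≠ u) : det (arcP 0 t) (arcP 0 u) (arcP 1 s) * (u - t) < 0 := by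
  obtain ⟨t0, t1⟩ := b1_sq ht ht'
  obtain ⟨s0, s1⟩ := b1_sq hs hs'
  have e : det (arcP 0 t) (arcP 0 u) (arcP 1 s) * (u - t) =
      (u - t) ^ 2 * ((1 + (u + t) / 4) * (s + s ^ 2 / 8 - t) - (30 - 2 * s - t - t ^ 2 / 4)) := by
    rw [b1_P0, b1_P0, b1_P1]
    unfold det
    ring
  have h2 := b1_mul (x := 1 + (u + t) / 4) (y := s + s ^ 2 / 8 - t) (by linarith) (by linarith)
    (by linarith) (by linarith)
  rw [e]
  exact mul_neg_of_pos_of_neg (b1_sqpos h) (by linarith [h2.1, h2.2])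

theorem b1_02 (t u s : ℝ) (ht : 0 ≤ t) (ht' : t ≤ 1) (hu : 0 ≤ u) (hu' : u ≤ 1) (hs : 0 ≤ s)
    (hs' : s ≤ 1) (h : t ≠ u) : 0 < det (arcP 0 t) (arcP 0 u) (arcP 2 s) * (u - t) := by
  obtain ⟨t0, t1⟩ := b1_sq ht ht'
  obtain ⟨s0, s1⟩ := b1_sq hs hs'
  have e : det (arcP 0 t) (arcP 0 u) (arcP 2 s) * (u - t) =
      (u - t) ^ 2 * ((1 + (u + t) / 4) * (30 - 2 * s - t) - (s + s ^ 2 / 8 - t - t ^ 2 / 4)) := by
    rw [b1_P0, b1_P0, b1_P2]
    unfold det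
    ring
  have h2 : 0 ≤ (u + t) / 4 * (30 - 2 * s - t) := mul_nonneg (by linarith) (by linarith)
  rw [e]
  exact mul_pos (b1_sqpos h) (by linarith)

theorem b1_10 (t u s : ℝ) (ht : 0 ≤ t) (ht' : t ≤ 1) (hu : 0 ≤ u) (hu' : u ≤ 1) (hs : 0 ≤ s)
    (hs' : s ≤ 1) (h : t ≠ u) : 0 < det (arcP 1 t) (arcP 1 u) (arcP 0 s) * (u - t) := by
  obtain ⟨t0, t1⟩ := b1_sq ht ht'
  obtain ⟨s0, s1⟩ := b1_sq hs hs'
  have e : det (arcP 1 t) (arcP 1 u) (arcP 0 s) * (u - t) =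
      (u - t) ^ 2 * ((1 + (u + t) / 8) * (30 - 2 * t - s - s ^ 2 / 4) -
        2 * (s - t - t ^ 2 / 8)) := by
    rw [b1_P1, b1_P1, b1_P0]
    unfold det
    ring
  have h2 : 0 ≤ (u + t) / 8 * (30 - 2 * t - s - s ^ 2 / 4) :=
    mul_nonneg (by linarith) (by linarith)
  rw [e]
  exact mul_pos (b1_sqpos h) (by linarith)

theorem b1_12 (t u s : ℝ) (ht : 0 ≤ t) (ht' : t ≤ 1) (hu : 0 ≤ u) (hu' : u ≤ 1) (hs : 0 ≤ s)
    (hs' : s ≤ 1) (h : t ≠ u) : det (arcP 1 t) (arcP 1 u) (arcP 2 s) * (u - t) < 0 := by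
  obtain ⟨t0, t1⟩ := b1_sq ht ht'
  obtain ⟨s0, s1⟩ := b1_sq hs hs'
  have e : det (arcP 1 t) (arcP 1 u) (arcP 2 s) * (u - t) =
      (u - t) ^ 2 * ((1 + (u + t) / 8) * (30 - 2 * t - s - s ^ 2 / 8) -
        2 * (30 - 2 * s - t - t ^ 2 / 8)) := by
    rw [b1_P1, b1_P1, b1_P2]
    unfold det
    ring
  have h2 : (1 + (u + t) / 8) * (30 - 2 * t - s - s ^ 2 / 8) ≤ (5 / 4) * 30 :=
    mul_le_mul (by linarith) (by linarith) (by linarith) (by norm_num)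
  rw [e]
  exact mul_neg_of_pos_of_neg (b1_sqpos h) (by linarith)

theorem b1_20 (t u s : ℝ) (ht : 0 ≤ t) (ht' : t ≤ 1) (hu : 0 ≤ u) (hu' : u ≤ 1) (hs : 0 ≤ s)
    (hs' : s ≤ 1) (h : t ≠ u) : det (arcP 2 t) (arcP 2 u) (arcP 0 s) * (u - t) < 0 := by
  obtain ⟨t0, t1⟩ := b1_sq ht ht'
  obtain ⟨s0, s1⟩ := b1_sq hs hs'
  have e : det (arcP 2 t) (arcP 2 u) (arcP 0 s) * (u - t) =
      (u - t) ^ 2 * (2 * (s + s ^ 2 / 4 - t - t ^ 2 / 8) -
        (1 + (u + t) / 8) * (30 - 2 * t - s)) := by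
    rw [b1_P2, b1_P2, b1_P0]
    unfold det
    ring
  have h2 : 0 ≤ (u + t) / 8 * (30 - 2 * t - s) :=
    mul_nonneg (by linarith) (by linarith)
  rw [e]
  exact mul_neg_of_pos_of_neg (b1_sqpos h) (by linarith)

theorem b1_21 (t u s : ℝ) (ht : 0 ≤ t) (ht' : t ≤ 1) (hu : 0 ≤ u) (hu' : u ≤ 1) (hs : 0 ≤ s)
    (hs' : s ≤ 1) (h : t ≠ u) : 0 < det (arcP 2 t) (arcP 2 u) (arcP 1 s) * (u - t) := by
  obtain ⟨t0, t1⟩ := b1_sq ht ht'
  obtain ⟨s0, s1⟩ := b1_sq hs hs'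
  have e : det (arcP 2 t) (arcP 2 u) (arcP 1 s) * (u - t) =
      (u - t) ^ 2 * (2 * (30 - 2 * s - t - t ^ 2 / 8) -
        (1 + (u + t) / 8) * (30 - 2 * t - s - s ^ 2 / 8)) := by
    rw [b1_P2, b1_P2, b1_P1]
    unfold det
    ring
  have h2 : (1 + (u + t) / 8) * (30 - 2 * t - s - s ^ 2 / 8) ≤ (5 / 4) * 30 :=
    mul_le_mul (by linarith) (by linarith) (by linarith) (by norm_num)
  rw [e]
  exact mul_pos (b1_sqpos h) (by linarith)

/-- the sign of two points on arc `i` and one on arc `j` -/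
noncomputable def b1S (i j : Fin 3) : ℝ :=
  if i = 0 ∧ j = 1 ∨ i = 1 ∧ j = 2 ∨ i = 2 ∧ j = 0 then -1 else 1

theorem b1_S_neg (i j : Fin 3) (h : i = 0 ∧ j = 1 ∨ i = 1 ∧ j = 2 ∨ i = 2 ∧ j = 0) :
    b1S i j = -1 := by
  unfold b1S
  rw [if_pos h]

theorem b1_S_pos (i j : Fin 3) (h : ¬ (i = 0 ∧ j = 1 ∨ i = 1 ∧ j = 2 ∨ i = 2 ∧ j = 0)) :
    b1S i j = 1 := by
  unfold b1S
  rw [if_neg h]

theorem b1_pairs (i j : Fin 3) (h : i ≠ j) : (i = 0 ∧ j = 1) ∨ (i = 0 ∧ j = 2) ∨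
    (i = 1 ∧ j = 0) ∨ (i = 1 ∧ j = 2) ∨ (i = 2 ∧ j = 0) ∨ (i = 2 ∧ j = 1) := by
  revert i j
  decide

theorem b1_sig (i j : Fin 3) (hij : i ≠ j) (t u s : ℝ) (ht : 0 ≤ t) (ht' : t ≤ 1) (hu : 0 ≤ u)
    (hu' : u ≤ 1) (hs : 0 ≤ s) (hs' : s ≤ 1) (h : t ≠ u) :
    0 < b1S i j * (det (arcP i t) (arcP i u) (arcP j s) * (u - t)) := by
  rcases b1_pairs i j hij with ⟨rfl, rfl⟩ | ⟨rfl, rfl⟩ | ⟨rfl, rfl⟩ | ⟨rfl, rfl⟩ | ⟨rfl, rfl⟩ |
    ⟨rfl, rfl⟩
  · rw [b1_S_neg 0 1 (by decide)]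
    linarith [b1_01 t u s ht ht' hu hu' hs hs' h]
  · rw [b1_S_pos 0 2 (by decide)]
    linarith [b1_02 t u s ht ht' hu hu' hs hs' h]
  · rw [b1_S_pos 1 0 (by decide)]
    linarith [b1_10 t u s ht ht' hu hu' hs hs' h]
  · rw [b1_S_neg 1 2 (by decide)]
    linarith [b1_12 t u s ht ht' hu hu' hs hs' h]
  · rw [b1_S_neg 2 0 (by decide)]
    linarith [b1_20 t u s ht ht' hu hu' hs hs' h]
  · rw [b1_S_pos 2 1 (by decide)]
    linarith [b1_21 t u s ht ht' hu hu' hs hs' h]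

theorem b1_tri0 (a b c : ℝ) (ha : 0 ≤ a) (ha' : a ≤ 1) (hb : 0 ≤ b) (hb' : b ≤ 1) (hc : 0 ≤ c)
    (hc' : c ≤ 1) : 0 < det (arcP 0 a) (arcP 1 b) (arcP 2 c) := by
  obtain ⟨a0, a1⟩ := b1_sq ha ha'
  obtain ⟨b0, b1⟩ := b1_sq hb hb'
  obtain ⟨c0, c1⟩ := b1_sq hc hc'
  rw [b1_P0, b1_P1, b1_P2]
  unfold det
  simp only
  have h1 : (20 : ℝ) * 20 ≤ (30 - 2 * b - (a + a ^ 2 / 4)) * (30 - 2 * c - a) :=
    mul_le_mul (by linarith) (by linarith) (by norm_num) (by linarith)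
  have h2 := b1_mul (x := b + b ^ 2 / 8 - a) (y := c + c ^ 2 / 8 - (a + a ^ 2 / 4))
    (by linarith) (by linarith) (by linarith) (by linarith)
  linarith [h2.1, h2.2]

theorem b1_trip (i j k : Fin 3) (h1 : i ≠ j) (h2 : i ≠ k) (h3 : j ≠ k) :
    (i = 0 ∧ j = 1 ∧ k = 2) ∨ (i = 0 ∧ j = 2 ∧ k = 1) ∨ (i = 1 ∧ j = 0 ∧ k = 2) ∨
    (i = 1 ∧ j = 2 ∧ k = 0) ∨ (i = 2 ∧ j = 0 ∧ k = 1) ∨ (i = 2 ∧ j = 1 ∧ k = 0) := by
  revert i j k
  decide

theorem b1_tri (i j k : Fin 3) (h1 : i ≠ j) (h2 : i ≠ k) (h3 : j ≠ k) (a b c : ℝ) (ha : 0 ≤ a)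
    (ha' : a ≤ 1) (hb : 0 ≤ b) (hb' : b ≤ 1) (hc : 0 ≤ c) (hc' : c ≤ 1) :
    b1S i j * det (arcP i a) (arcP j b) (arcP k c) < 0 := by
  have c1 : ∀ p q r : ℝ × ℝ, det p q r = det q r p := fun p q r => by unfold det; ring
  have c2 : ∀ p q r : ℝ × ℝ, det p q r = - det p r q := fun p q r => by unfold det; ring
  rcases b1_trip i j k h1 h2 h3 with ⟨rfl, rfl, rfl⟩ | ⟨rfl, rfl, rfl⟩ | ⟨rfl, rfl, rfl⟩ |
    ⟨rfl, rfl, rfl⟩ | ⟨rfl, rfl, rfl⟩ | ⟨rfl, rfl, rfl⟩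
  · rw [b1_S_neg 0 1 (by decide)]
    linarith [b1_tri0 a b c ha ha' hb hb' hc hc']
  · rw [b1_S_pos 0 2 (by decide), c2]
    linarith [b1_tri0 a c b ha ha' hc hc' hb hb']
  · rw [b1_S_pos 1 0 (by decide), c1, c2]
    linarith [b1_tri0 b a c hb hb' ha ha' hc hc']
  · rw [b1_S_neg 1 2 (by decide), ← c1]
    linarith [b1_tri0 c a b hc hc' ha ha' hb hb']
  · rw [b1_S_neg 2 0 (by decide), c1]
    linarith [b1_tri0 b c a hb hb' hc hc' ha ha']
  · rw [b1_S_pos 2 1 (by decide), ← c1, c2]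
    linarith [b1_tri0 c b a hc hc' hb hb' ha ha']

/-- the curvature of arc `i` -/
noncomputable def b1K (i : Fin 3) : ℝ := if i = 2 then 1 else -1

theorem b1_same (i : Fin 3) (a b c : ℝ) : det (arcP i a) (arcP i b) (arcP i c) =
    b1K i / 4 * ((b - a) * (c - a) * (c - b)) := by
  have h : i = 0 ∨ i = 1 ∨ i = 2 := by
    revert i
    decide
  rcases h with rfl | rfl | rfl
  · have e : b1K 0 = -1 := by
      unfold b1K
      rw [if_neg (by decide)]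
    rw [e, b1_P0, b1_P0, b1_P0]
    unfold det
    ring
  · have e : b1K 1 = -1 := by
      unfold b1K
      rw [if_neg (by decide)]
    rw [e, b1_P1, b1_P1, b1_P1]
    unfold det
    ring
  · have e : b1K 2 = 1 := by
      unfold b1K
      rw [if_pos rfl]
    rw [e, b1_P2, b1_P2, b1_P2]
    unfold det
    ring

theorem b1_K_ne (i : Fin 3) : b1K i ≠ 0 := by
  unfold b1K
  split_ifs <;> norm_num

theorem b1_S_ne (i j : Fin 3) : b1S i j ≠ 0 := by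
  unfold b1S
  split_ifs <;> norm_num

theorem b1_two_ne (i j : Fin 3) (hij : i ≠ j) (t u s : ℝ) (ht : t ∈ Icc (0 : ℝ) 1)
    (hu : u ∈ Icc (0 : ℝ) 1) (hs : s ∈ Icc (0 : ℝ) 1) (h : t ≠ u) :
    det (arcP i t) (arcP i u) (arcP j s) ≠ 0 := by
  intro h0
  have h1 := b1_sig i j hij t u s ht.1 ht.2 hu.1 hu.2 hs.1 hs.2 h
  rw [h0] at h1
  simp at h1

theorem b1_det_ne (i j k : Fin 3) (a b c : ℝ) (ha : a ∈ Icc (0 : ℝ) 1) (hb : b ∈ Icc (0 : ℝ) 1)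
    (hc : c ∈ Icc (0 : ℝ) 1) (hab : a ≠ b) (hac : a ≠ c) (hbc : b ≠ c) :
    det (arcP i a) (arcP j b) (arcP k c) ≠ 0 := by
  have c1 : ∀ p q r : ℝ × ℝ, det p q r = det q r p := fun p q r => by unfold det; ring
  have c2 : ∀ p q r : ℝ × ℝ, det p q r = - det p r q := fun p q r => by unfold det; ring
  by_cases h1 : i = j
  · subst h1
    by_cases h2 : i = k
    · subst h2
      rw [b1_same]
      have e1 : b - a ≠ 0 := sub_ne_zero.mpr hab.symm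
      have e2 : c - a ≠ 0 := sub_ne_zero.mpr hac.symm
      have e3 : c - b ≠ 0 := sub_ne_zero.mpr hbc.symm
      exact mul_ne_zero (div_ne_zero (b1_K_ne i) (by norm_num))
        (mul_ne_zero (mul_ne_zero e1 e2) e3)
    · exact b1_two_ne i k h2 a b c ha hb hc hab
  · by_cases h2 : i = k
    · subst h2
      rw [c2]
      exact neg_ne_zero.mpr (b1_two_ne i j h1 a c b ha hc hb hac)
    · by_cases h3 : j = k
      · subst h3
        rw [c1]
        exact b1_two_ne j i (Ne.symm h1) b c a hb hc ha hbc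
      · intro h0
        have h4 := b1_tri i j k h1 h2 h3 a b c ha.1 ha.2 hb.1 hb.2 hc.1 hc.2
        rw [h0] at h4
        simp at h4

theorem b1_GP (i j k l : Fin 3) (a b c d : ℝ) (ha : a ∈ Icc (0 : ℝ) 1) (hb : b ∈ Icc (0 : ℝ) 1)
    (hc : c ∈ Icc (0 : ℝ) 1) (hd : d ∈ Icc (0 : ℝ) 1) (hab : a ≠ b) (hac : a ≠ c) (had : a ≠ d)
    (hbc : b ≠ c) (hbd : b ≠ d) (hcd : c ≠ d) :
    GP (arcP i a) (arcP j b) (arcP k c) (arcP l d) :=
  ⟨b1_det_ne i j k a b c ha hb hc hab hac hbc, b1_det_ne i j l a b d ha hb hd hab had hbd,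
    b1_det_ne i k l a c d ha hc hd hac had hcd, b1_det_ne j k l b c d hb hc hd hbc hbd hcd⟩

/-- two points of arc `i`, one of `j`, one of `k` -/
theorem b1_three (i j k : Fin 3) (h1 : i ≠ j) (h2 : i ≠ k) (h3 : j ≠ k) (a b c d : ℝ)
    (ha : a ∈ Icc (0 : ℝ) 1) (hb : b ∈ Icc (0 : ℝ) 1) (hc : c ∈ Icc (0 : ℝ) 1)
    (hd : d ∈ Icc (0 : ℝ) 1) (hab : a ≠ b) :
    Nn (arcP i a) (arcP i b) (arcP j c) (arcP k d) = 0 := by
  have hopp : b1S i j * b1S i k = -1 := by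
    rcases b1_trip i j k h1 h2 h3 with ⟨rfl, rfl, rfl⟩ | ⟨rfl, rfl, rfl⟩ | ⟨rfl, rfl, rfl⟩ |
      ⟨rfl, rfl, rfl⟩ | ⟨rfl, rfl, rfl⟩ | ⟨rfl, rfl, rfl⟩
    · rw [b1_S_neg 0 1 (by decide), b1_S_pos 0 2 (by decide)]; norm_num
    · rw [b1_S_neg 0 1 (by decide), b1_S_pos 0 2 (by decide)]; norm_num
    · rw [b1_S_pos 1 0 (by decide), b1_S_neg 1 2 (by decide)]; norm_num
    · rw [b1_S_pos 1 0 (by decide), b1_S_neg 1 2 (by decide)]; norm_num
    · rw [b1_S_neg 2 0 (by decide), b1_S_pos 2 1 (by decide)]; norm_num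
    · rw [b1_S_neg 2 0 (by decide), b1_S_pos 2 1 (by decide)]; norm_num
  apply Nn_eq_zero
  · have g1 := b1_sig i j h1 a b c ha.1 ha.2 hb.1 hb.2 hc.1 hc.2 hab
    have g2 := b1_sig i k h2 a b d ha.1 ha.2 hb.1 hb.2 hd.1 hd.2 hab
    have g3 := mul_pos g1 g2
    have e : b1S i j * (det (arcP i a) (arcP i b) (arcP j c) * (b - a)) *
        (b1S i k * (det (arcP i a) (arcP i b) (arcP k d) * (b - a))) =
        (b1S i j * b1S i k) * ((b - a) ^ 2 *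
        (det (arcP i a) (arcP i b) (arcP j c) * det (arcP i a) (arcP i b) (arcP k d))) := by
      ring
    rw [e, hopp] at g3
    by_contra hcon
    have hcon' := not_lt.mp hcon
    have := mul_nonneg (sq_nonneg (b - a)) hcon'
    linarith
  · have g1 := b1_tri i j k h1 h2 h3 a c d ha.1 ha.2 hc.1 hc.2 hd.1 hd.2
    have g2 := b1_tri i j k h1 h2 h3 b c d hb.1 hb.2 hc.1 hc.2 hd.1 hd.2
    have g3 := mul_pos_of_neg_of_neg g1 g2
    have e : b1S i j * det (arcP i a) (arcP j c) (arcP k d) *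
        (b1S i j * det (arcP i b) (arcP j c) (arcP k d)) = b1S i j ^ 2 *
        (det (arcP i a) (arcP j c) (arcP k d) * det (arcP i b) (arcP j c) (arcP k d)) := by
      ring
    rw [e] at g3
    exact b1_pos_of g3 (sq_nonneg _)

/-- the pairs `(i, j)` with three points on arc `i` and one on `j` of energy zero -/
def b1G (i j : Fin 3) : Prop := (i = 0 ∧ j = 2) ∨ (i = 1 ∧ j = 0) ∨ (i = 2 ∧ j = 0)

instance (i j : Fin 3) : Decidable (b1G i j) := by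
  unfold b1G
  infer_instance

theorem b1_mid (i j : Fin 3) (hG : b1G i j) (a b c d : ℝ) (ha : a ∈ Icc (0 : ℝ) 1)
    (hb : b ∈ Icc (0 : ℝ) 1) (hc : c ∈ Icc (0 : ℝ) 1) (hd : d ∈ Icc (0 : ℝ) 1) (hac : a ≠ c)
    (h : (a - b) * (c - b) < 0) : Nn (arcP i b) (arcP j d) (arcP i a) (arcP i c) = 0 := by
  have hij : i ≠ j := by
    rcases hG with ⟨rfl, rfl⟩ | ⟨rfl, rfl⟩ | ⟨rfl, rfl⟩ <;> decide
  have hKS : b1K i * b1S i j = -1 := by
    rcases hG with ⟨rfl, rfl⟩ | ⟨rfl, rfl⟩ | ⟨rfl, rfl⟩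
    · rw [b1_S_pos 0 2 (by decide)]
      unfold b1K
      rw [if_neg (by decide)]
      norm_num
    · rw [b1_S_pos 1 0 (by decide)]
      unfold b1K
      rw [if_neg (by decide)]
      norm_num
    · rw [b1_S_neg 2 0 (by decide)]
      unfold b1K
      rw [if_pos rfl]
      norm_num
  have hba : b ≠ a := by
    rintro rfl
    simp at h
  have hbc : b ≠ c := by
    rintro rfl
    simp at h
  have c2 : ∀ p q r : ℝ × ℝ, det p q r = - det p r q := fun p q r => by unfold det; ring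
  have c1 : ∀ p q r : ℝ × ℝ, det p q r = det q r p := fun p q r => by unfold det; ring
  apply Nn_eq_zero
  · rw [c2 (arcP i b) (arcP j d) (arcP i a), c2 (arcP i b) (arcP j d) (arcP i c), neg_mul_neg]
    have g1 := b1_sig i j hij b a d hb.1 hb.2 ha.1 ha.2 hd.1 hd.2 hba
    have g2 := b1_sig i j hij b c d hb.1 hb.2 hc.1 hc.2 hd.1 hd.2 hbc
    have g3 := mul_pos g1 g2
    have e : b1S i j * (det (arcP i b) (arcP i a) (arcP j d) * (a - b)) *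
        (b1S i j * (det (arcP i b) (arcP i c) (arcP j d) * (c - b))) =
        ((a - b) * (c - b)) * (b1S i j ^ 2 *
        (det (arcP i b) (arcP i a) (arcP j d) * det (arcP i b) (arcP i c) (arcP j d))) := by
      ring
    rw [e] at g3
    have g4 := (neg_iff_neg_of_mul_pos g3).mp h
    by_contra hcon
    have hcon' := not_lt.mp hcon
    have := mul_nonneg (sq_nonneg (b1S i j)) hcon'
    linarith
  · rw [b1_same, c1 (arcP j d) (arcP i a) (arcP i c)]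
    have g1 := b1_sig i j hij a c d ha.1 ha.2 hc.1 hc.2 hd.1 hd.2 hac
    have e : (b1S i j) ^ 2 * (b1K i / 4 * ((a - b) * (c - b) * (c - a)) *
        det (arcP i a) (arcP i c) (arcP j d)) = (b1K i * b1S i j) * ((a - b) * (c - b)) / 4 *
        (b1S i j * (det (arcP i a) (arcP i c) (arcP j d) * (c - a))) := by
      ring
    have g2 : 0 < (b1S i j) ^ 2 * (b1K i / 4 * ((a - b) * (c - b) * (c - a)) *
        det (arcP i a) (arcP i c) (arcP j d)) := by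
      rw [e, hKS]
      exact mul_pos (by linarith) g1
    exact b1_pos_of g2 (sq_nonneg _)

theorem b1_middle (a b c : ℝ) (hab : a ≠ b) (hac : a ≠ c) (hbc : b ≠ c) :
    (a - b) * (c - b) < 0 ∨ (b - a) * (c - a) < 0 ∨ (a - c) * (b - c) < 0 := by
  rcases lt_or_gt_of_ne hab with h1 | h1 <;> rcases lt_or_gt_of_ne hac with h2 | h2 <;>
    rcases lt_or_gt_of_ne hbc with h3 | h3
  · left; exact mul_neg_of_neg_of_pos (by linarith) (by linarith)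
  · right; right; exact mul_neg_of_neg_of_pos (by linarith) (by linarith)
  · linarith
  · right; left; exact mul_neg_of_pos_of_neg (by linarith) (by linarith)
  · right; left; exact mul_neg_of_neg_of_pos (by linarith) (by linarith)
  · linarith
  · right; right; exact mul_neg_of_pos_of_neg (by linarith) (by linarith)
  · left; exact mul_neg_of_pos_of_neg (by linarith) (by linarith)

/-- three points of arc `i` and one of `j` -/
theorem b1_one (i j : Fin 3) (hG : b1G i j) (a b c d : ℝ) (ha : a ∈ Icc (0 : ℝ) 1)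
    (hb : b ∈ Icc (0 : ℝ) 1) (hc : c ∈ Icc (0 : ℝ) 1) (hd : d ∈ Icc (0 : ℝ) 1) (hab : a ≠ b)
    (hac : a ≠ c) (hbc : b ≠ c) : Nn (arcP i a) (arcP i b) (arcP i c) (arcP j d) = 0 := by
  rcases b1_middle a b c hab hac hbc with h | h | h
  · -- order b d a c
    have g := b1_mid i j hG a b c d ha hb hc hd hac h
    rw [← Nn_swap12, ← Nn_swap34, ← Nn_swap23]
    exact g
  · have g := b1_mid i j hG b a c d hb ha hc hd hbc h
    rw [← Nn_swap34, ← Nn_swap23]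
    exact g
  · have g := b1_mid i j hG a c b d ha hc hb hd hab h
    rw [← Nn_swap23, ← Nn_swap12, ← Nn_swap34, ← Nn_swap23]
    exact g

/-- three arcs occur -/
def b1C (i j k l : Fin 3) : Prop :=
  (i = j ∧ i ≠ k ∧ i ≠ l ∧ k ≠ l) ∨ (i = k ∧ i ≠ j ∧ i ≠ l ∧ j ≠ l) ∨
    (i = l ∧ i ≠ j ∧ i ≠ k ∧ j ≠ k) ∨ (j = k ∧ j ≠ i ∧ j ≠ l ∧ i ≠ l) ∨
    (j = l ∧ j ≠ i ∧ j ≠ k ∧ i ≠ k) ∨ (k = l ∧ k ≠ i ∧ k ≠ j ∧ i ≠ j)

/-- three points on one arc -/
def b1E (i j k l : Fin 3) : Prop :=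
  (i = j ∧ j = k ∧ b1G i l) ∨ (i = j ∧ j = l ∧ b1G i k) ∨ (i = k ∧ k = l ∧ b1G i j) ∨
    (j = k ∧ k = l ∧ b1G j i)

instance (i j k l : Fin 3) : Decidable (b1C i j k l) := by
  unfold b1C
  infer_instance

instance (i j k l : Fin 3) : Decidable (b1E i j k l) := by
  unfold b1E
  infer_instance

theorem b1_cases : ∀ i j k l : Fin 3, arcZ i j k l → b1C i j k l ∨ b1E i j k l := by
  decide

theorem arc_Nn_le (i j k l : Fin 3) (a b c d : ℝ) (ha : a ∈ Icc (0 : ℝ) 1) (hb : b ∈ Icc (0 : ℝ) 1)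
    (hc : c ∈ Icc (0 : ℝ) 1) (hd : d ∈ Icc (0 : ℝ) 1) (hab : a ≠ b) (hac : a ≠ c) (had : a ≠ d)
    (hbc : b ≠ c) (hbd : b ≠ d) (hcd : c ≠ d) :
    Nn (arcP i a) (arcP j b) (arcP k c) (arcP l d) ≤ arcB i j k l := by
  unfold arcB
  split_ifs with h
  · apply le_of_eq
    rcases b1_cases i j k l h with (⟨rfl, h1, h2, h3⟩ | ⟨rfl, h1, h2, h3⟩ | ⟨rfl, h1, h2, h3⟩ |
      ⟨rfl, h1, h2, h3⟩ | ⟨rfl, h1, h2, h3⟩ | ⟨rfl, h1, h2, h3⟩) | (⟨rfl, rfl, h1⟩ |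
      ⟨rfl, rfl, h1⟩ | ⟨rfl, rfl, h1⟩ | ⟨rfl, rfl, h1⟩)
    · exact b1_three i k l h1 h2 h3 a b c d ha hb hc hd hab
    · rw [Nn_swap23]
      exact b1_three i j l h1 h2 h3 a c b d ha hc hb hd hac
    · -- i, j, k, i
      rw [Nn_swap34, Nn_swap23]
      exact b1_three i j k h1 h2 h3 a d b c ha hd hb hc had
    · -- i, j, j, l
      rw [Nn_swap12, Nn_swap23]
      exact b1_three j i l h1 h2 h3 b c a d hb hc ha hd hbc
    · -- i, j, k, j
      rw [Nn_swap12, Nn_swap34, Nn_swap23]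
      exact b1_three j i k h1 h2 h3 b d a c hb hd ha hc hbd
    · -- i, j, k, k
      rw [Nn_swap23, Nn_swap12, Nn_swap34, Nn_swap23]
      exact b1_three k i j h1 h2 h3 c d a b hc hd ha hb hcd
    · exact b1_one i l h1 a b c d ha hb hc hd hab hac hbc
    · rw [Nn_swap34]
      exact b1_one i k h1 a b d c ha hb hd hc hab had hbd
    · rw [Nn_swap23, Nn_swap34]
      exact b1_one i j h1 a c d b ha hc hd hb hac had hcd
    · rw [Nn_swap12, Nn_swap23, Nn_swap34]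
      exact b1_one j i h1 b c d a hb hc hd ha hbc hbd hcd
  · exact Nn_le_one _ _ _ _ (b1_GP i j k l a b c d ha hb hc hd hab hac had hbc hbd hcd)

end Pool.Agent.LibCX37
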