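import Pool.Agent.LibCX37.B1
import Pool.Agent.LibCX37.A1

/-!
[CZ B2] **The three arcs, energy.** The drawing has energy at most `33/81 < 1/2`.
PROOF. `idx ω = 0, 1, 2` on `ω < 1/3`, `1/3 ≤ ω < 2/3`, `2/3 ≤ ω`; `g ω = arcP (idx ω) ω`, a bounded measurable map. By `arc_Nn_le` and `a1_distinct`
(A1: almost all quadruples have distinct entries) `En g ≤ ∫⁻ x, arcB (idx x.1) (idx x.2.1) (idx x.2.2.1) (idx x.2.2.2)`. For every
`F : Fin 3 → ℝ≥0∞`: `∫⁻ ω, F (idx ω) = (F 0 + F 1 + F 2) / 3` (each of the three sets has volume `1/3`); four times (`lintegral_prod`, all functions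
of finitely many values are measurable), so the integral is `(∑ i j k l, arcB i j k l) / 81`, and this sum is `33` (for example
`∑ = ∑ (if arcZ .. then 0 else 1) = card` cast of a natural number found by `decide`; 33 of the 81 patterns are not in `arcZ`).
-/

set_option autoImplicit false

namespace Pool.Agent.LibCX37

open MeasureTheory Set Filter Topology
open scoped ENNReal

/-- the index of the arc -/
noncomputable def b2idx (ω : unitInterval) : Fin 3 :=
  if (ω : ℝ) < 1 / 3 then 0 else if (ω : ℝ) < 2 / 3 then 1 else 2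

theorem b2_meas : Measurable b2idx := by
  unfold b2idx
  exact Measurable.ite (measurableSet_lt measurable_subtype_coe measurable_const)
    measurable_const (Measurable.ite (measurableSet_lt measurable_subtype_coe measurable_const)
      measurable_const measurable_const)

/-- the point `1/3` -/
noncomputable def b2p : unitInterval := ⟨1 / 3, by norm_num, by norm_num⟩

/-- the point `2/3` -/
noncomputable def b2q : unitInterval := ⟨2 / 3, by norm_num, by norm_num⟩

theorem b2_third : ENNReal.ofReal (1 / 3) = 1 / 3 := by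
  rw [ENNReal.ofReal_div_of_pos (by norm_num)]
  norm_num

theorem b2_pre0 : b2idx ⁻¹' {0} = Iio b2p := by
  ext ω
  simp only [mem_preimage, mem_singleton_iff, mem_Iio]
  have e : ω < b2p ↔ (ω : ℝ) < 1 / 3 := Iff.rfl
  rw [e]
  unfold b2idx
  split_ifs with h1 h2
  · exact ⟨fun _ => h1, fun _ => rfl⟩
  · exact ⟨fun h => absurd h (by decide), fun h => absurd h h1⟩
  · exact ⟨fun h => absurd h (by decide), fun h => absurd h h1⟩

theorem b2_pre1 : b2idx ⁻¹' {1} = Ico b2p b2q := by
  ext ω
  simp only [mem_preimage, mem_singleton_iff, mem_Ico]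
  have e : b2p ≤ ω ↔ 1 / 3 ≤ (ω : ℝ) := Iff.rfl
  have e2 : ω < b2q ↔ (ω : ℝ) < 2 / 3 := Iff.rfl
  rw [e, e2]
  unfold b2idx
  split_ifs with h1 h2
  · constructor
    · intro h
      exact absurd h (by decide)
    · rintro ⟨h, -⟩
      linarith
  · constructor
    · intro _
      exact ⟨not_lt.mp h1, h2⟩
    · intro _
      rfl
  · constructor
    · intro h
      exact absurd h (by decide)
    · rintro ⟨-, h⟩
      exact absurd h h2

theorem b2_pre2 : b2idx ⁻¹' {2} = Ici b2q := by
  ext ω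
  simp only [mem_preimage, mem_singleton_iff, mem_Ici]
  have e : b2q ≤ ω ↔ 2 / 3 ≤ (ω : ℝ) := Iff.rfl
  rw [e]
  unfold b2idx
  split_ifs with h1 h2
  · constructor
    · intro h
      exact absurd h (by decide)
    · intro h
      linarith
  · constructor
    · intro h
      exact absurd h (by decide)
    · intro h
      linarith
  · constructor
    · intro _
      exact not_lt.mp h2
    · intro _
      rfl

theorem b2_vol (i : Fin 3) : Measure.map b2idx volume {i} = 1 / 3 := by
  rw [Measure.map_apply b2_meas (measurableSet_singleton _)]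
  have h : i = 0 ∨ i = 1 ∨ i = 2 := by
    revert i
    decide
  rcases h with rfl | rfl | rfl
  · rw [b2_pre0, unitInterval.volume_Iio, ← b2_third]
    rfl
  · rw [b2_pre1, unitInterval.volume_Ico, ← b2_third]
    congr 1
    have e1 : (b2q : ℝ) = 2 / 3 := rfl
    have e2 : (b2p : ℝ) = 1 / 3 := rfl
    rw [e1, e2]
    norm_num
  · rw [b2_pre2, unitInterval.volume_Ici, ← b2_third]
    congr 1
    have e1 : (b2q : ℝ) = 2 / 3 := rfl
    rw [e1]
    norm_num

theorem b2_int (F : Fin 3 → ℝ≥0∞) : ∫⁻ ω : unitInterval, F (b2idx ω) = (∑ i, F i) * (1 / 3) := by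
  have h1 : ∫⁻ ω : unitInterval, F (b2idx ω) = ∫⁻ i, F i ∂(Measure.map b2idx volume) :=
    (lintegral_map (measurable_of_finite F) b2_meas).symm
  rw [h1, lintegral_fintype, Finset.sum_mul]
  apply Finset.sum_congr rfl
  intro i _
  rw [b2_vol]

theorem b2_prod {β : Type} [MeasureSpace β] [SFinite (volume : Measure β)]
    (F : Fin 3 → β → ℝ≥0∞) (hF : ∀ i, Measurable (F i)) :
    ∫⁻ x : unitInterval × β, F (b2idx x.1) x.2 = (∑ i, ∫⁻ y, F i y) * (1 / 3) := by
  have h1 : Measurable (fun z : Fin 3 × β => F z.1 z.2) :=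
    measurable_from_prod_countable_right hF
  have h2 : Measurable (fun x : unitInterval × β => (b2idx x.1, x.2)) :=
    (b2_meas.comp measurable_fst).prodMk measurable_snd
  have h3 : Measurable (fun x : unitInterval × β => F (b2idx x.1) x.2) := h1.comp h2
  rw [Measure.volume_eq_prod, lintegral_prod _ h3.aemeasurable]
  exact b2_int (fun i => ∫⁻ y, F i y)

theorem b2_four (F : Fin 3 → Fin 3 → Fin 3 → Fin 3 → ℝ≥0∞) :
    ∫⁻ x : unitInterval × unitInterval × unitInterval × unitInterval,
      F (b2idx x.1) (b2idx x.2.1) (b2idx x.2.2.1) (b2idx x.2.2.2) =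
      (∑ i, ∑ j, ∑ k, ∑ l, F i j k l) * (1 / 3) ^ 4 := by
  have m3 : ∀ i j k, Measurable (fun ω : unitInterval => F i j k (b2idx ω)) := by
    intro i j k
    exact (measurable_of_finite (F i j k)).comp b2_meas
  have m2 : ∀ i j, Measurable (fun x : unitInterval × unitInterval =>
      F i j (b2idx x.1) (b2idx x.2)) := by
    intro i j
    have h1 : Measurable (fun z : Fin 3 × Fin 3 => F i j z.1 z.2) := measurable_of_finite _
    have h2 : Measurable (fun x : unitInterval × unitInterval => (b2idx x.1, b2idx x.2)) :=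
      (b2_meas.comp measurable_fst).prodMk (b2_meas.comp measurable_snd)
    exact h1.comp h2
  have m1 : ∀ i, Measurable (fun x : unitInterval × unitInterval × unitInterval =>
      F i (b2idx x.1) (b2idx x.2.1) (b2idx x.2.2)) := by
    intro i
    have h1 : Measurable (fun z : Fin 3 × Fin 3 × Fin 3 => F i z.1 z.2.1 z.2.2) :=
      measurable_of_finite _
    have h2 : Measurable (fun x : unitInterval × unitInterval × unitInterval =>
        (b2idx x.1, b2idx x.2.1, b2idx x.2.2)) :=
      (b2_meas.comp measurable_fst).prodMk ((b2_meas.comp (measurable_fst.comp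
        measurable_snd)).prodMk (b2_meas.comp (measurable_snd.comp measurable_snd)))
    exact h1.comp h2
  have e3 : ∀ i j k, ∫⁻ ω : unitInterval, F i j k (b2idx ω) = (∑ l, F i j k l) * (1 / 3) :=
    fun i j k => b2_int (F i j k)
  have e2 : ∀ i j, ∫⁻ x : unitInterval × unitInterval, F i j (b2idx x.1) (b2idx x.2) =
      (∑ k, ∑ l, F i j k l) * (1 / 3) ^ 2 := by
    intro i j
    have h := b2_prod (β := unitInterval) (fun k ω => F i j k (b2idx ω)) (fun k => m3 i j k)
    rw [h]
    simp only [e3]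
    rw [← Finset.sum_mul, sq, mul_assoc]
  have e1 : ∀ i, ∫⁻ x : unitInterval × unitInterval × unitInterval,
      F i (b2idx x.1) (b2idx x.2.1) (b2idx x.2.2) =
      (∑ j, ∑ k, ∑ l, F i j k l) * (1 / 3) ^ 3 := by
    intro i
    have h := b2_prod (β := unitInterval × unitInterval)
      (fun j x => F i j (b2idx x.1) (b2idx x.2)) (fun j => m2 i j)
    rw [h]
    simp only [e2]
    rw [← Finset.sum_mul, mul_assoc, ← pow_succ]
  have h := b2_prod (β := unitInterval × unitInterval × unitInterval)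
    (fun i x => F i (b2idx x.1) (b2idx x.2.1) (b2idx x.2.2)) m1
  rw [h]
  simp only [e1]
  rw [← Finset.sum_mul, mul_assoc, ← pow_succ]

theorem b2_sum : (∑ i, ∑ j, ∑ k, ∑ l, arcB i j k l) = 33 := by
  have h1 : ∀ i j k l, arcB i j k l = ((if arcZ i j k l then 0 else 1 : ℕ) : ℝ≥0∞) := by
    intro i j k l
    unfold arcB
    split_ifs <;> simp
  simp only [h1]
  have h2 : (∑ i : Fin 3, ∑ j : Fin 3, ∑ k : Fin 3, ∑ l : Fin 3,
      (if arcZ i j k l then 0 else 1 : ℕ)) = 33 := by decide
  have h3 := congrArg (fun n : ℕ => (n : ℝ≥0∞)) h2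
  simp only [Nat.cast_sum] at h3
  rw [h3]
  norm_num

/-- the three-arc drawing -/
noncomputable def b2g (ω : unitInterval) : ℝ × ℝ := arcP (b2idx ω) ω

theorem b2_g_eq (ω : unitInterval) : b2g ω = if (ω : ℝ) < 1 / 3 then
    ((ω : ℝ) + (ω : ℝ) ^ 2 / 4, (ω : ℝ)) else if (ω : ℝ) < 2 / 3 then
    (30 - 2 * (ω : ℝ), (ω : ℝ) + (ω : ℝ) ^ 2 / 8) else
    ((ω : ℝ) + (ω : ℝ) ^ 2 / 8, 30 - 2 * (ω : ℝ)) := by
  unfold b2g b2idx
  split_ifs
  · rw [b1_P0]
  · rw [b1_P1]
  · rw [b1_P2]

theorem b2_g_meas : Measurable b2g := by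
  have h : b2g = fun ω : unitInterval => if (ω : ℝ) < 1 / 3 then
    ((ω : ℝ) + (ω : ℝ) ^ 2 / 4, (ω : ℝ)) else if (ω : ℝ) < 2 / 3 then
    (30 - 2 * (ω : ℝ), (ω : ℝ) + (ω : ℝ) ^ 2 / 8) else
    ((ω : ℝ) + (ω : ℝ) ^ 2 / 8, 30 - 2 * (ω : ℝ)) := by
    funext ω
    exact b2_g_eq ω
  rw [h]
  refine Measurable.ite (measurableSet_lt measurable_subtype_coe measurable_const) ?_
    (Measurable.ite (measurableSet_lt measurable_subtype_coe measurable_const) ?_ ?_)
  · fun_prop
  · fun_prop
  · fun_prop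

theorem b2_g_bdd : Bornology.IsBounded (range b2g) := by
  apply (Metric.isBounded_closedBall (x := (0 : ℝ × ℝ)) (r := 30)).subset
  rintro z ⟨ω, rfl⟩
  rw [mem_closedBall_zero_iff, b2_g_eq]
  have h0 := ω.2.1
  have h1 := ω.2.2
  have h2 := b1_sq h0 h1
  split_ifs
  · rw [Prod.norm_def]
    apply max_le
    · rw [Real.norm_eq_abs, abs_le]
      constructor <;> simp only <;> linarith [h2.1, h2.2]
    · rw [Real.norm_eq_abs, abs_le]
      constructor <;> simp only <;> linarith [h2.1, h2.2]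
  · rw [Prod.norm_def]
    apply max_le
    · rw [Real.norm_eq_abs, abs_le]
      constructor <;> simp only <;> linarith [h2.1, h2.2]
    · rw [Real.norm_eq_abs, abs_le]
      constructor <;> simp only <;> linarith [h2.1, h2.2]
  · rw [Prod.norm_def]
    apply max_le
    · rw [Real.norm_eq_abs, abs_le]
      constructor <;> simp only <;> linarith [h2.1, h2.2]
    · rw [Real.norm_eq_abs, abs_le]
      constructor <;> simp only <;> linarith [h2.1, h2.2]

theorem exists_drawing_lt_half : ∃ g : unitInterval → ℝ × ℝ, IsDrawing g ∧ En g < 1 / 2 := by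
  refine ⟨b2g, ⟨b2_g_meas, b2_g_bdd⟩, ?_⟩
  have h1 : En b2g ≤ ∫⁻ x : unitInterval × unitInterval × unitInterval × unitInterval,
      arcB (b2idx x.1) (b2idx x.2.1) (b2idx x.2.2.1) (b2idx x.2.2.2) := by
    unfold En
    apply lintegral_mono_ae
    filter_upwards [a1_distinct] with x hx
    obtain ⟨g1, g2, g3, g4, g5, g6⟩ := hx
    exact arc_Nn_le _ _ _ _ _ _ _ _ x.1.2 x.2.1.2 x.2.2.1.2 x.2.2.2.2
      (fun h => g1 (Subtype.ext h)) (fun h => g2 (Subtype.ext h)) (fun h => g3 (Subtype.ext h))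
      (fun h => g4 (Subtype.ext h)) (fun h => g5 (Subtype.ext h)) (fun h => g6 (Subtype.ext h))
  rw [b2_four arcB, b2_sum] at h1
  refine lt_of_le_of_lt h1 ?_
  have e1 : (33 : ℝ≥0∞) * (1 / 3) ^ 4 = ENNReal.ofReal (33 * (1 / 3) ^ 4) := by
    rw [ENNReal.ofReal_mul (by norm_num), ENNReal.ofReal_pow (by norm_num), b2_third]
    norm_num
  have e2 : (1 / 2 : ℝ≥0∞) = ENNReal.ofReal (1 / 2) := by
    rw [ENNReal.ofReal_div_of_pos (by norm_num)]
    norm_num
  rw [e1, e2]
  exact (ENNReal.ofReal_lt_ofReal_iff (by norm_num)).mpr (by norm_num)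

end Pool.Agent.LibCX37
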