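import Pool.Agent.LibCX37.G0

/-!
[CX G2] **The number of meeting pairings: symmetry, bounds, sign rules.**
PROOF. Symmetry: `Meets p q r s ↔ Meets q p r s ↔ Meets r s p q` (`segment_symm`, `inter_comm`), so `ind` has these symmetries and `Nn` is
symmetric under the three adjacent transpositions (the three summands are permuted).
Sign rules, with `o1 = det q r s, o2 = det p r s, o3 = det p q s, o4 = det p q r`, `o1 - o2 + o3 - o4 = 0` (`det_rel`). In general
position (`sign_of_meets`, `meets_of_sign`, and the antisymmetry of `det`): `Meets p q r s ↔ o3 o4 < 0 ∧ o1 o2 < 0`;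
`Meets p r q s ↔ o2 o4 > 0 ∧ o1 o3 > 0`; `Meets p s q r ↔ o2 o3 < 0 ∧ o1 o4 < 0`. Any two of the three give
`o1, o3` of one sign and `o2, o4` of the other sign, against `o1 - o2 + o3 - o4 = 0`: `Nn ≤ 1`.
(`one_le_Nn`) `o3 o4 > 0`, `o1 o2 > 0`: if `o2 o4 > 0` the second holds, if `o2 o4 < 0` the third.
(`Nn_eq_zero`) `o3 o4 < 0`, `o1 o2 > 0`: the first fails; the second and the third would give `o1 o2 o3 o4 > 0`.
(All four determinants are nonzero in both, so `GP` holds.)
-/

set_option autoImplicit false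

namespace Pool.Agent.LibCX37

open MeasureTheory Set Filter Topology
open scoped ENNReal

theorem g2_meets_swap12 (p q r s : ℝ × ℝ) : Meets q p r s ↔ Meets p q r s := by
  unfold Meets
  rw [segment_symm ℝ q p]

theorem g2_meets_swap34 (p q r s : ℝ × ℝ) : Meets p q s r ↔ Meets p q r s := by
  unfold Meets
  rw [segment_symm ℝ s r]

theorem g2_meets_swap (p q r s : ℝ × ℝ) : Meets r s p q ↔ Meets p q r s := by
  unfold Meets
  rw [inter_comm]

theorem g2_ind_congr {p q r s p' q' r' s' : ℝ × ℝ} (h : Meets p q r s ↔ Meets p' q' r' s') :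
    ind p q r s = ind p' q' r' s' := by
  unfold ind
  by_cases h1 : Meets p q r s
  · rw [if_pos h1, if_pos (h.mp h1)]
  · rw [if_neg h1, if_neg (fun h2 => h1 (h.mpr h2))]

theorem Nn_swap12 (p q r s : ℝ × ℝ) : Nn q p r s = Nn p q r s := by
  unfold Nn
  rw [g2_ind_congr (g2_meets_swap12 p q r s)]
  -- ind q r p s = ind p s q r ; ind q s p r = ind p r q s
  rw [g2_ind_congr (g2_meets_swap p s q r), g2_ind_congr (g2_meets_swap p r q s)]
  ring

theorem Nn_swap23 (p q r s : ℝ × ℝ) : Nn p r q s = Nn p q r s := by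
  unfold Nn
  rw [g2_ind_congr (g2_meets_swap34 p s q r)]
  ring

theorem Nn_swap34 (p q r s : ℝ × ℝ) : Nn p q s r = Nn p q r s := by
  unfold Nn
  rw [g2_ind_congr (g2_meets_swap34 p q r s)]
  ring

theorem g2_ind_le_one (p q r s : ℝ × ℝ) : ind p q r s ≤ 1 := by
  unfold ind
  split_ifs
  · exact le_rfl
  · exact zero_le_one

theorem Nn_le_three (p q r s : ℝ × ℝ) : Nn p q r s ≤ 3 := by
  unfold Nn
  calc ind p q r s + ind p r q s + ind p s q r ≤ 1 + 1 + 1 :=
        add_le_add (add_le_add (g2_ind_le_one _ _ _ _) (g2_ind_le_one _ _ _ _))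
          (g2_ind_le_one _ _ _ _)
    _ = 3 := by norm_num

theorem g2_gp23 {p q r s : ℝ × ℝ} (h : GP p q r s) : GP p r q s := by
  obtain ⟨h1, h2, h3, h4⟩ := h
  refine ⟨?_, h3, h2, ?_⟩
  · intro h; apply h1; unfold det at *; linarith
  · intro h; apply h4; unfold det at *; linarith

theorem g2_gp24 {p q r s : ℝ × ℝ} (h : GP p q r s) : GP p s q r := by
  obtain ⟨h1, h2, h3, h4⟩ := h
  refine ⟨?_, ?_, h1, ?_⟩
  · intro h; apply h2; unfold det at *; linarith
  · intro h; apply h3; unfold det at *; linarith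
  · intro h; apply h4; unfold det at *; linarith

/-- the three meeting patterns in terms of the signs -/
theorem g2_signs1 (p q r s : ℝ × ℝ) (h : GP p q r s) :
    Meets p q r s ↔ det p q r * det p q s < 0 ∧ det p r s * det q r s < 0 :=
  ⟨fun hm => sign_of_meets p q r s h hm, fun hm => meets_of_sign p q r s hm.1 hm.2⟩

theorem g2_signs2 (p q r s : ℝ × ℝ) (h : GP p q r s) :
    Meets p r q s ↔ 0 < det p q r * det p r s ∧ 0 < det p q s * det q r s := by
  rw [g2_signs1 p r q s (g2_gp23 h)]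
  have e1 : det p r q = - det p q r := by unfold det; ring
  have e2 : det r q s = - det q r s := by unfold det; ring
  rw [e1, e2]
  constructor
  · rintro ⟨a, b⟩
    constructor <;> nlinarith
  · rintro ⟨a, b⟩
    constructor <;> nlinarith

theorem g2_signs3 (p q r s : ℝ × ℝ) (h : GP p q r s) :
    Meets p s q r ↔ det p q s * det p r s < 0 ∧ det p q r * det q r s < 0 := by
  rw [g2_signs1 p s q r (g2_gp24 h)]
  have e1 : det p s q = - det p q s := by unfold det; ring
  have e2 : det p s r = - det p r s := by unfold det; ring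
  have e3 : det s q r = det q r s := by unfold det; ring
  rw [e1, e2, e3]
  constructor
  · rintro ⟨a, b⟩
    exact ⟨by nlinarith, b⟩
  · rintro ⟨a, b⟩
    exact ⟨by nlinarith, b⟩

/-- the linear relation between the four determinants -/
theorem g2_rel (p q r s : ℝ × ℝ) : det q r s = det p r s - det p q s + det p q r := by
  have := det_rel p q r s
  linarith

theorem Nn_le_one (p q r s : ℝ × ℝ) (h : GP p q r s) : Nn p q r s ≤ 1 := by
  have s1 := g2_signs1 p q r s h
  have s2 := g2_signs2 p q r s h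
  have s3 := g2_signs3 p q r s h
  have hr := g2_rel p q r s
  have n12 : ¬ (Meets p q r s ∧ Meets p r q s) := by
    rw [s1, s2]
    rintro ⟨⟨a, b⟩, c, d⟩
    rcases mul_neg_iff.mp a with ⟨a1, a2⟩ | ⟨a1, a2⟩ <;>
    rcases mul_pos_iff.mp c with ⟨c1, c2⟩ | ⟨c1, c2⟩ <;>
    rcases mul_pos_iff.mp d with ⟨d1, d2⟩ | ⟨d1, d2⟩ <;> linarith
  have n13 : ¬ (Meets p q r s ∧ Meets p s q r) := by
    rw [s1, s3]
    rintro ⟨⟨a, b⟩, c, d⟩
    rcases mul_neg_iff.mp a with ⟨a1, a2⟩ | ⟨a1, a2⟩ <;>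
    rcases mul_neg_iff.mp c with ⟨c1, c2⟩ | ⟨c1, c2⟩ <;>
    rcases mul_neg_iff.mp d with ⟨d1, d2⟩ | ⟨d1, d2⟩ <;> linarith
  have n23 : ¬ (Meets p r q s ∧ Meets p s q r) := by
    rw [s2, s3]
    rintro ⟨⟨a, b⟩, c, d⟩
    rcases mul_pos_iff.mp a with ⟨a1, a2⟩ | ⟨a1, a2⟩ <;>
    rcases mul_neg_iff.mp c with ⟨c1, c2⟩ | ⟨c1, c2⟩ <;>
    rcases mul_neg_iff.mp d with ⟨d1, d2⟩ | ⟨d1, d2⟩ <;> linarith
  unfold Nn ind
  by_cases h1 : Meets p q r s
  · rw [if_pos h1, if_neg (fun h2 => n12 ⟨h1, h2⟩), if_neg (fun h2 => n13 ⟨h1, h2⟩)]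
    simp
  · rw [if_neg h1]
    by_cases h2 : Meets p r q s
    · rw [if_pos h2, if_neg (fun h3 => n23 ⟨h2, h3⟩)]
      simp
    · rw [if_neg h2]
      split_ifs <;> simp

theorem one_le_Nn (p q r s : ℝ × ℝ) (h1 : 0 < det p q r * det p q s)
    (h2 : 0 < det p r s * det q r s) : 1 ≤ Nn p q r s := by
  have a1 : det p q r ≠ 0 := left_ne_zero_of_mul h1.ne'
  have a2 : det p q s ≠ 0 := right_ne_zero_of_mul h1.ne'
  have a3 : det p r s ≠ 0 := left_ne_zero_of_mul h2.ne'
  have a4 : det q r s ≠ 0 := right_ne_zero_of_mul h2.ne'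
  have hg : GP p q r s := ⟨a1, a2, a3, a4⟩
  have key : Meets p r q s ∨ Meets p s q r := by
    rw [g2_signs2 p q r s hg, g2_signs3 p q r s hg]
    rcases lt_or_gt_of_ne a1 with b1 | b1 <;> rcases lt_or_gt_of_ne a2 with b2 | b2 <;>
    rcases lt_or_gt_of_ne a3 with b3 | b3 <;> rcases lt_or_gt_of_ne a4 with b4 | b4 <;>
    first
    | (exfalso; nlinarith [mul_neg_of_neg_of_pos b1 b2])
    | (exfalso; nlinarith [mul_neg_of_pos_of_neg b1 b2])
    | (exfalso; nlinarith [mul_neg_of_neg_of_pos b3 b4])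
    | (exfalso; nlinarith [mul_neg_of_pos_of_neg b3 b4])
    | (left; constructor <;> first | exact mul_pos_of_neg_of_neg (by assumption) (by assumption) | exact mul_pos (by assumption) (by assumption))
    | (right; constructor <;> first | exact mul_neg_of_neg_of_pos (by assumption) (by assumption) | exact mul_neg_of_pos_of_neg (by assumption) (by assumption))
  unfold Nn ind
  rcases key with h | h
  · rw [if_pos h]
    exact le_trans le_add_self le_self_add
  · rw [if_pos h]
    exact le_add_self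

theorem Nn_eq_zero (p q r s : ℝ × ℝ) (h1 : det p q r * det p q s < 0)
    (h2 : 0 < det p r s * det q r s) : Nn p q r s = 0 := by
  have a1 : det p q r ≠ 0 := left_ne_zero_of_mul h1.ne
  have a2 : det p q s ≠ 0 := right_ne_zero_of_mul h1.ne
  have a3 : det p r s ≠ 0 := left_ne_zero_of_mul h2.ne'
  have a4 : det q r s ≠ 0 := right_ne_zero_of_mul h2.ne'
  have hg : GP p q r s := ⟨a1, a2, a3, a4⟩
  have m1 : ¬ Meets p q r s := by
    rw [g2_signs1 p q r s hg]
    rintro ⟨_, h⟩
    linarith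
  have m2 : ¬ Meets p r q s := by
    rw [g2_signs2 p q r s hg]
    rintro ⟨h, h'⟩
    nlinarith [mul_pos h h', mul_neg_of_neg_of_pos h1 h2]
  have m3 : ¬ Meets p s q r := by
    rw [g2_signs3 p q r s hg]
    rintro ⟨h, h'⟩
    nlinarith [mul_pos_of_neg_of_neg h h', mul_neg_of_neg_of_pos h1 h2]
  unfold Nn ind
  rw [if_neg m1, if_neg m2, if_neg m3]
  simp

end Pool.Agent.LibCX37
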