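import Pool.Agent.LibCX37.G1
import Pool.Agent.LibCX37.G2

/-!
[CX C1] **One point in the cluster.**
PROOF. With `v n ω = x + (1/(n+1)) • (ω • u)` (`→ x`), `quad (map (v n) (volume.restrict S)) m m m = ∫⁻ ω in S, Psi m (v n ω)`
(`lintegral_map`). `Psi m` is upper semicontinuous: for `z_n → x`, `limsup Nn z_n b c d ≤ Nn x b c d` for all `b, c, d` (`Nn_usc`), so by
reverse Fatou (`limsup_lintegral_le`, bounded by `3`, `m` finite, three times or once on the product measure)
`limsup Psi m (z_n) ≤ Psi m x`. Once more reverse Fatou in `ω`: `limsup ≤ ∫⁻ ω in S, Psi m x = volume S * Psi m x`.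
-/

set_option autoImplicit false

namespace Pool.Agent.LibCX37

open MeasureTheory Set Filter Topology
open scoped ENNReal

/-- the law of the cluster at `x` in the direction `u`, of size `1/(n+1)`, carried by `S` -/
noncomputable def clus (S : Set unitInterval) (x u : ℝ × ℝ) (n : ℕ) : Measure (ℝ × ℝ) :=
  Measure.map (fun ω : unitInterval => x + ((1 / ((n : ℝ) + 1)) * (ω : ℝ)) • u) (volume.restrict S)

theorem c1_measurable_v (x u : ℝ × ℝ) (n : ℕ) :
    Measurable (fun ω : unitInterval => x + ((1 / ((n : ℝ) + 1)) * (ω : ℝ)) • u) := by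
  have h : Continuous (fun ω : unitInterval => x + ((1 / ((n : ℝ) + 1)) * (ω : ℝ)) • u) := by
    fun_prop
  exact h.measurable

theorem clus_univ (S : Set unitInterval) (x u : ℝ × ℝ) (n : ℕ) : clus S x u n univ = volume S := by
  rw [clus, Measure.map_apply (c1_measurable_v x u n) MeasurableSet.univ, preimage_univ,
    Measure.restrict_apply_univ]

theorem c1_triple (z : ℝ × ℝ) :
    Measurable (fun x : (ℝ × ℝ) × (ℝ × ℝ) × (ℝ × ℝ) => Nn z x.1 x.2.1 x.2.2) := by
  have h : Measurable (fun x : (ℝ × ℝ) × (ℝ × ℝ) × (ℝ × ℝ) => (z, x)) :=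
    measurable_const.prodMk measurable_id
  have h2 := measurable_Nn.comp h
  exact h2

theorem c1_Psi (m : Measure (ℝ × ℝ)) [IsFiniteMeasure m] (z : ℝ × ℝ) :
    Psi m z = ∫⁻ x : (ℝ × ℝ) × (ℝ × ℝ) × (ℝ × ℝ), Nn z x.1 x.2.1 x.2.2 ∂(m.prod (m.prod m)) := by
  rw [lintegral_prod _ (c1_triple z).aemeasurable]
  unfold Psi
  congr 1
  funext b
  have h : Measurable (fun x : (ℝ × ℝ) × (ℝ × ℝ) => Nn z b x.1 x.2) := by
    have h1 : Measurable (fun x : (ℝ × ℝ) × (ℝ × ℝ) => (b, x)) :=
      measurable_const.prodMk measurable_id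
    have h2 := (c1_triple z).comp h1
    exact h2
  rw [lintegral_prod _ h.aemeasurable]

theorem c1_Psi_measurable (m : Measure (ℝ × ℝ)) [IsFiniteMeasure m] : Measurable (Psi m) := by
  have h1 : Psi m = fun z => ∫⁻ x : (ℝ × ℝ) × (ℝ × ℝ) × (ℝ × ℝ), Nn z x.1 x.2.1 x.2.2
      ∂(m.prod (m.prod m)) := by
    funext z
    exact c1_Psi m z
  rw [h1]
  exact measurable_Nn.lintegral_prod_right'

theorem c1_Psi_le (m : Measure (ℝ × ℝ)) [IsFiniteMeasure m] (z : ℝ × ℝ) :
    Psi m z ≤ 3 * (m.prod (m.prod m)) univ := by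
  rw [c1_Psi]
  calc _ ≤ ∫⁻ _x : (ℝ × ℝ) × (ℝ × ℝ) × (ℝ × ℝ), 3 ∂(m.prod (m.prod m)) :=
        lintegral_mono fun x => Nn_le_three _ _ _ _
    _ = 3 * (m.prod (m.prod m)) univ := lintegral_const 3

theorem c1_Psi_usc (m : Measure (ℝ × ℝ)) [IsFiniteMeasure m] (z : ℕ → ℝ × ℝ) (x : ℝ × ℝ)
    (hz : Tendsto z atTop (𝓝 x)) : limsup (fun n => Psi m (z n)) atTop ≤ Psi m x := by
  simp only [c1_Psi]
  refine (limsup_lintegral_le (fun _ => (3 : ℝ≥0∞)) (fun n => c1_triple (z n)) (fun n =>
    Filter.Eventually.of_forall fun x => Nn_le_three _ _ _ _) ?_).trans ?_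
  · rw [lintegral_const]
    exact ENNReal.mul_ne_top (by norm_num) (measure_ne_top _ _)
  · apply lintegral_mono
    intro p
    have h1 := Nn_usc atTop z (fun _ => p.1) (fun _ => p.2.1) (fun _ => p.2.2) x p.1 p.2.1 p.2.2
      hz tendsto_const_nhds tendsto_const_nhds tendsto_const_nhds
    exact limsup_le_of_le (by isBoundedDefault) h1

theorem cluster_one (m : Measure (ℝ × ℝ)) [IsFiniteMeasure m] (S : Set unitInterval)
    (x u : ℝ × ℝ) (η : ℝ≥0∞) (hη : 0 < η) :
    ∀ᶠ n in atTop, quad (clus S x u n) m m m ≤ volume S * Psi m x + η := by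
  have hfin : volume S * Psi m x ≠ ∞ := by
    apply ENNReal.mul_ne_top (measure_ne_top _ _)
    exact ne_top_of_le_ne_top (ENNReal.mul_ne_top (by norm_num) (measure_ne_top _ _))
      (c1_Psi_le m x)
  have h1 : ∀ n, quad (clus S x u n) m m m =
      ∫⁻ ω in S, Psi m (x + ((1 / ((n : ℝ) + 1)) * (ω : ℝ)) • u) := by
    intro n
    show ∫⁻ a, Psi m a ∂(clus S x u n) = _
    rw [clus, lintegral_map (c1_Psi_measurable m) (c1_measurable_v x u n)]
  have h2 : limsup (fun n : ℕ => ∫⁻ ω in S, Psi m (x + ((1 / ((n : ℝ) + 1)) * (ω : ℝ)) • u)) atTop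
      ≤ volume S * Psi m x := by
    refine (limsup_lintegral_le (fun _ => 3 * (m.prod (m.prod m)) univ)
      (fun n => (c1_Psi_measurable m).comp (c1_measurable_v x u n)) (fun n =>
      Filter.Eventually.of_forall fun ω => c1_Psi_le _ _) ?_).trans ?_
    · rw [lintegral_const]
      exact ENNReal.mul_ne_top (ENNReal.mul_ne_top (by norm_num) (measure_ne_top _ _))
        (measure_ne_top _ _)
    · calc _ ≤ ∫⁻ _ω in S, Psi m x := by
            apply lintegral_mono
            intro ω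
            apply c1_Psi_usc m (fun n : ℕ => x + ((1 / ((n : ℝ) + 1)) * (ω : ℝ)) • u) x
            have h3 : Tendsto (fun n : ℕ => x + ((1 / ((n : ℝ) + 1)) * (ω : ℝ)) • u) atTop
                (𝓝 (x + ((0 : ℝ) * (ω : ℝ)) • u)) := by
              apply Tendsto.const_add
              apply Tendsto.smul_const
              apply Tendsto.mul_const
              exact tendsto_one_div_add_atTop_nhds_zero_nat
            simpa using h3
        _ = volume S * Psi m x := by
            rw [lintegral_const, Measure.restrict_apply_univ, mul_comm]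
  have h3 : volume S * Psi m x < volume S * Psi m x + η := ENNReal.lt_add_right hfin hη.ne'
  have h4 := eventually_lt_of_limsup_lt (lt_of_le_of_lt h2 h3)
  filter_upwards [h4] with n hn
  rw [h1 n]
  exact hn.le

end Pool.Agent.LibCX37
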