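import Pool.Agent.LibCX37.C1

/-!
[CX C2] **Two points in the cluster.**
PROOF. `quad σ_n σ_n m m = ∫⁻ ω in S, ∫⁻ ω' in S, ∫⁻ c, ∫⁻ d, Nn (v n ω) (v n ω') c d` (`lintegral_map`), `v n ω = x + (ω/(n+1)) u`.
For `ω ≠ ω'` and `c, d` with `det x (x+u) c ≠ 0 ≠ det x (x+u) d`, `det x c d ≠ 0` (all but a null set: `NoLines m`; for fixed `c ≠ x` the
`d` with `det x c d = 0` are on the line `x, x + (c - x)`; `c = x` is null): with `δ = 1/(n+1)`,
`det (v n ω) (v n ω') c = δ (ω'-ω) det x (x+u) c` (ring: `c` and the line through `x` in direction `u`), and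
`det (v n ω) c d → det x c d ≠ 0`, `det (v n ω') c d → det x c d`. So eventually `0 < det (v n ω) c d * det (v n ω') c d`. If
`det x (x+u) c * det x (x+u) d < 0` then `Nn = 0` eventually (`Nn_eq_zero`), if it is `> 0` then `GP` holds and `Nn ≤ 1` eventually
(`Nn_le_one`). So `limsup Nn ≤ 1[det x (x+u) c * det x (x+u) d > 0]` a.e., and by reverse Fatou the limsup of the integrals is at most
`(volume S)² (m{det > 0}² + m{det < 0}²) = (volume S)² (m univ)²/2`.
-/

set_option autoImplicit false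

namespace Pool.Agent.LibCX37

open MeasureTheory Set Filter Topology
open scoped ENNReal

theorem c2_null_singleton (m : Measure (ℝ × ℝ)) (hm : NoLines m) (x : ℝ × ℝ) : m {x} = 0 := by
  refine measure_mono_null ?_ (hm x (1, 0) (by simp))
  rintro z rfl
  simp [det]

theorem c2_ae_det_ne (m : Measure (ℝ × ℝ)) [IsFiniteMeasure m] (hm : NoLines m) (x : ℝ × ℝ) :
    ∀ᵐ z ∂(m.prod m), det x z.1 z.2 ≠ 0 := by
  have hms : MeasurableSet {z : (ℝ × ℝ) × (ℝ × ℝ) | det x z.1 z.2 = 0} := by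
    apply measurableSet_eq_fun _ measurable_const
    unfold det
    fun_prop
  rw [ae_iff]
  simp only [ne_eq, not_not]
  rw [Measure.measure_prod_null hms]
  have h0 : ∀ᵐ c ∂m, c ≠ x := by
    rw [ae_iff]
    simpa using c2_null_singleton m hm x
  filter_upwards [h0] with c hc
  have := hm x (c - x) (sub_ne_zero.mpr hc)
  rw [add_sub_cancel] at this
  exact this

theorem c2_prod_pos (m : Measure (ℝ × ℝ)) [IsFiniteMeasure m] (x u : ℝ × ℝ)
    (h1 : m {z | 0 < det x (x + u) z} = m univ / 2)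
    (h2 : m {z | det x (x + u) z < 0} = m univ / 2) :
    (m.prod m) {z | 0 < det x (x + u) z.1 * det x (x + u) z.2} = (m univ) ^ 2 / 2 := by
  have hme : Measurable (fun z : ℝ × ℝ => det x (x + u) z) := by
    unfold det
    fun_prop
  have hset : {z : (ℝ × ℝ) × (ℝ × ℝ) | 0 < det x (x + u) z.1 * det x (x + u) z.2} =
      {z | 0 < det x (x + u) z} ×ˢ {z | 0 < det x (x + u) z} ∪
      {z | det x (x + u) z < 0} ×ˢ {z | det x (x + u) z < 0} := by
    ext z
    simp only [mem_ofPred_eq, mem_union, mem_prod, mul_pos_iff]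
  rw [hset, measure_union, Measure.prod_prod, Measure.prod_prod, h1, h2]
  · have : (m univ) ^ 2 / 2 = (m univ / 2) * (m univ / 2) * 2 := by
      rw [ENNReal.div_eq_inv_mul, ENNReal.div_eq_inv_mul]
      have h22 : (2 : ℝ≥0∞)⁻¹ * 2 = 1 := ENNReal.inv_mul_cancel (by norm_num) (by norm_num)
      calc (2 : ℝ≥0∞)⁻¹ * m univ ^ 2 = (2 : ℝ≥0∞)⁻¹ * m univ ^ 2 * 1 := by rw [mul_one]
        _ = (2 : ℝ≥0∞)⁻¹ * m univ ^ 2 * (2⁻¹ * 2) := by rw [h22]
        _ = 2⁻¹ * m univ * (2⁻¹ * m univ) * 2 := by ring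
    rw [this]
    ring
  · rw [Set.disjoint_left]
    rintro z ⟨ha, _⟩ ⟨hb, _⟩
    simp only [mem_ofPred_eq] at ha hb
    linarith
  · exact (measurableSet_lt hme measurable_const).prod (measurableSet_lt hme measurable_const)

theorem c2_det_line (x u : ℝ × ℝ) (a b : ℝ) (c : ℝ × ℝ) :
    det (x + a • u) (x + b • u) c = (b - a) * det x (x + u) c := by
  simp only [det, Prod.fst_add, Prod.snd_add, Prod.smul_fst, Prod.smul_snd, smul_eq_mul]
  ring

/-- the cluster point -/
noncomputable def c2_v (x u : ℝ × ℝ) (n : ℕ) (ω : unitInterval) : ℝ × ℝ :=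
  x + ((1 / ((n : ℝ) + 1)) * (ω : ℝ)) • u

theorem c2_v_meas (x u : ℝ × ℝ) (n : ℕ) : Measurable (c2_v x u n) := by
  unfold c2_v
  fun_prop

theorem c2_v_tendsto (x u : ℝ × ℝ) (ω : unitInterval) :
    Tendsto (fun n => c2_v x u n ω) atTop (𝓝 x) := by
  unfold c2_v
  have h : Tendsto (fun n : ℕ => x + ((1 / ((n : ℝ) + 1)) * (ω : ℝ)) • u) atTop
      (𝓝 (x + (0 * (ω : ℝ)) • u)) :=
    tendsto_const_nhds.add ((tendsto_one_div_add_atTop_nhds_zero_nat.mul_const _).smul_const _)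
  simpa using h

theorem c2_point (x u : ℝ × ℝ) (ω ω' : unitInterval) (hne : ω ≠ ω') (c d : ℝ × ℝ)
    (hc : det x (x + u) c ≠ 0) (hd : det x (x + u) d ≠ 0) (hcd : det x c d ≠ 0) :
    ∀ᶠ n in atTop, Nn (c2_v x u n ω) (c2_v x u n ω') c d ≤
      indicator {z : (ℝ × ℝ) × (ℝ × ℝ) | 0 < det x (x + u) z.1 * det x (x + u) z.2}
        (fun _ => (1 : ℝ≥0∞)) (c, d) := by
  have hcont : ∀ ω : unitInterval,
      Tendsto (fun n => det (c2_v x u n ω) c d) atTop (𝓝 (det x c d)) := by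
    intro ω
    have hcn : Continuous (fun p : ℝ × ℝ => det p c d) := by
      unfold det
      fun_prop
    exact (hcn.tendsto x).comp (c2_v_tendsto x u ω)
  have hprod : Tendsto (fun n => det (c2_v x u n ω) c d * det (c2_v x u n ω') c d) atTop
      (𝓝 (det x c d * det x c d)) := (hcont ω).mul (hcont ω')
  have hpos : 0 < det x c d * det x c d := mul_self_pos.mpr hcd
  have hne' : (ω' : ℝ) - (ω : ℝ) ≠ 0 := sub_ne_zero.mpr (fun h => hne (Subtype.ext h.symm))
  filter_upwards [hprod.eventually (lt_mem_nhds hpos)] with n hn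
  have hδ : (0 : ℝ) < 1 / ((n : ℝ) + 1) := by positivity
  have hk : ∀ c : ℝ × ℝ, det (c2_v x u n ω) (c2_v x u n ω') c =
      ((1 / ((n : ℝ) + 1)) * ((ω' : ℝ) - ω)) * det x (x + u) c := by
    intro c
    unfold c2_v
    rw [c2_det_line]
    ring
  have hK : (1 / ((n : ℝ) + 1)) * ((ω' : ℝ) - ω) ≠ 0 := mul_ne_zero hδ.ne' hne'
  have hKK : 0 < ((1 / ((n : ℝ) + 1)) * ((ω' : ℝ) - ω)) * ((1 / ((n : ℝ) + 1)) * ((ω' : ℝ) - ω)) :=
    mul_self_pos.mpr hK
  rcases lt_or_gt_of_ne (mul_ne_zero hc hd) with hneg | hps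
  · rw [Nn_eq_zero _ _ _ _ _ hn]
    · exact zero_le
    · rw [hk, hk]
      have := mul_neg_of_pos_of_neg hKK hneg
      linarith [this, mul_mul_mul_comm ((1 / ((n : ℝ) + 1)) * ((ω' : ℝ) - ω)) (det x (x + u) c)
        ((1 / ((n : ℝ) + 1)) * ((ω' : ℝ) - ω)) (det x (x + u) d)]
  · rw [indicator_of_mem (by exact hps)]
    apply Nn_le_one
    refine ⟨?_, ?_, left_ne_zero_of_mul hn.ne', right_ne_zero_of_mul hn.ne'⟩
    · rw [hk]; exact mul_ne_zero hK hc
    · rw [hk]; exact mul_ne_zero hK hd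

theorem c2_meas_Nn {α : Type*} [MeasurableSpace α] {a b c d : α → ℝ × ℝ} (ha : Measurable a)
    (hb : Measurable b) (hc : Measurable c) (hd : Measurable d) :
    Measurable (fun z => Nn (a z) (b z) (c z) (d z)) := by
  have h4 : Measurable (fun z => (a z, b z, c z, d z)) := ha.prodMk (hb.prodMk (hc.prodMk hd))
  have h5 := Measurable.comp measurable_Nn h4
  exact h5

theorem c2_quad_eq (m : Measure (ℝ × ℝ)) [IsFiniteMeasure m] (S : Set unitInterval)
    (x u : ℝ × ℝ) (n : ℕ) : quad (clus S x u n) (clus S x u n) m m =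
      ∫⁻ z, Nn (c2_v x u n z.1.1) (c2_v x u n z.1.2) z.2.1 z.2.2
        ∂(((volume.restrict S).prod (volume.restrict S)).prod (m.prod m)) := by
  have hv := c2_v_meas x u n
  have hN : Measurable (fun z : ((ℝ × ℝ) × (ℝ × ℝ)) × ((ℝ × ℝ) × (ℝ × ℝ)) =>
      Nn z.1.1 z.1.2 z.2.1 z.2.2) :=
    c2_meas_Nn (by fun_prop) (by fun_prop) (by fun_prop) (by fun_prop)
  have hNv : Measurable (fun z : (unitInterval × unitInterval) × ((ℝ × ℝ) × (ℝ × ℝ)) =>
      Nn (c2_v x u n z.1.1) (c2_v x u n z.1.2) z.2.1 z.2.2) :=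
    c2_meas_Nn (hv.comp (by fun_prop)) (hv.comp (by fun_prop)) (by fun_prop) (by fun_prop)
  rw [lintegral_prod _ hNv.aemeasurable]
  have hg : Measurable (fun p : (ℝ × ℝ) × (ℝ × ℝ) => ∫⁻ q, Nn p.1 p.2 q.1 q.2 ∂(m.prod m)) :=
    hN.lintegral_prod_right'
  have hgv : Measurable (fun p : unitInterval × unitInterval =>
      ∫⁻ q, Nn (c2_v x u n p.1) (c2_v x u n p.2) q.1 q.2 ∂(m.prod m)) :=
    hNv.lintegral_prod_right'
  rw [lintegral_prod _ hgv.aemeasurable]
  unfold quad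
  have e : ∀ a b : ℝ × ℝ, ∫⁻ c, ∫⁻ d, Nn a b c d ∂m ∂m = ∫⁻ q, Nn a b q.1 q.2 ∂(m.prod m) := by
    intro a b
    have : Measurable (fun q : (ℝ × ℝ) × (ℝ × ℝ) => Nn a b q.1 q.2) :=
      c2_meas_Nn measurable_const measurable_const measurable_fst measurable_snd
    rw [lintegral_prod _ this.aemeasurable]
  simp only [e]
  unfold clus
  change ∫⁻ a, ∫⁻ b, ∫⁻ q, Nn a b q.1 q.2 ∂(m.prod m) ∂(Measure.map (c2_v x u n) (volume.restrict S))
    ∂(Measure.map (c2_v x u n) (volume.restrict S)) = _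
  rw [lintegral_map hg.lintegral_prod_right' hv]
  refine lintegral_congr fun ω => ?_
  have hgω : Measurable (fun b : ℝ × ℝ => ∫⁻ q, Nn (c2_v x u n ω) b q.1 q.2 ∂(m.prod m)) := by
    have h6 : Measurable (fun b : ℝ × ℝ => ((c2_v x u n ω, b) : (ℝ × ℝ) × (ℝ × ℝ))) :=
      measurable_const.prodMk measurable_id
    have h7 := Measurable.comp hg h6
    exact h7
  have h8 := lintegral_map (μ := volume.restrict S) hgω hv
  exact h8

theorem cluster_two (m : Measure (ℝ × ℝ)) [IsFiniteMeasure m] (hm : NoLines m)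
    (S : Set unitInterval) (x u : ℝ × ℝ) (hu : u ≠ 0)
    (h1 : m {z | 0 < det x (x + u) z} = m univ / 2)
    (h2 : m {z | det x (x + u) z < 0} = m univ / 2) (η : ℝ≥0∞) (hη : 0 < η) :
    ∀ᶠ n in atTop, quad (clus S x u n) (clus S x u n) m m ≤
      (volume S) ^ 2 * (m univ) ^ 2 / 2 + η := by
  set P := ((volume.restrict S).prod (volume.restrict S)).prod (m.prod m) with hP
  let A : Set ((ℝ × ℝ) × (ℝ × ℝ)) := {z | 0 < det x (x + u) z.1 * det x (x + u) z.2}
  let G : (unitInterval × unitInterval) × ((ℝ × ℝ) × (ℝ × ℝ)) → ℝ≥0∞ :=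
    fun z => indicator A (fun _ => (1 : ℝ≥0∞)) z.2
  have hA : MeasurableSet A := by
    apply measurableSet_lt measurable_const
    unfold det
    fun_prop
  have hNv : ∀ n, Measurable (fun z : (unitInterval × unitInterval) × ((ℝ × ℝ) × (ℝ × ℝ)) =>
      Nn (c2_v x u n z.1.1) (c2_v x u n z.1.2) z.2.1 z.2.2) := by
    intro n
    have hv := c2_v_meas x u n
    exact c2_meas_Nn (hv.comp (by fun_prop)) (hv.comp (by fun_prop)) (by fun_prop) (by fun_prop)
  have hlim := limsup_lintegral_le (μ := P) (f := fun n z =>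
    Nn (c2_v x u n z.1.1) (c2_v x u n z.1.2) z.2.1 z.2.2) (fun _ => 3) hNv
    (fun n => Eventually.of_forall fun z => Nn_le_three _ _ _ _) (by
      rw [lintegral_const]
      exact ENNReal.mul_ne_top (by norm_num) (measure_ne_top P _))
  have hle : ∫⁻ z, limsup (fun n => Nn (c2_v x u n z.1.1) (c2_v x u n z.1.2) z.2.1 z.2.2) atTop ∂P ≤
      ∫⁻ z, G z ∂P := by
    apply lintegral_mono_ae
    have hc0 : ∀ᵐ c ∂m, det x (x + u) c ≠ 0 := by
      rw [ae_iff]
      simpa using hm x u hu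
    have ha1 : ∀ᵐ z ∂P, z.1.1 ≠ z.1.2 := by
      have h11 : ∀ᵐ q ∂((volume.restrict S).prod (volume.restrict S)), q.1 ≠ q.2 := by
        have hms : MeasurableSet {q : unitInterval × unitInterval | q.1 = q.2} :=
          measurableSet_eq_fun measurable_fst measurable_snd
        rw [ae_iff]
        simp only [ne_eq, not_not]
        rw [Measure.measure_prod_null hms]
        refine Eventually.of_forall fun a => ?_
        change (volume.restrict S) {b | a = b} = 0
        have : {b : unitInterval | a = b} = {a} := by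
          ext b
          simp [eq_comm]
        rw [this]
        exact measure_singleton a
      exact Measure.quasiMeasurePreserving_fst.ae h11
    have ha2 : ∀ᵐ z ∂P, det x (x + u) z.2.1 ≠ 0 :=
      (Measure.quasiMeasurePreserving_fst.comp Measure.quasiMeasurePreserving_snd).ae hc0
    have ha3 : ∀ᵐ z ∂P, det x (x + u) z.2.2 ≠ 0 :=
      (Measure.quasiMeasurePreserving_snd.comp Measure.quasiMeasurePreserving_snd).ae hc0
    have ha4 : ∀ᵐ z ∂P, det x z.2.1 z.2.2 ≠ 0 :=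
      Measure.quasiMeasurePreserving_snd.ae (c2_ae_det_ne m hm x)
    filter_upwards [ha1, ha2, ha3, ha4] with z z1 z2 z3 z4
    exact limsup_le_of_le (by isBoundedDefault) (c2_point x u z.1.1 z.1.2 z1 z.2.1 z.2.2 z2 z3 z4)
  have hG : ∫⁻ z, G z ∂P = (volume S) ^ 2 * (m univ) ^ 2 / 2 := by
    have hind : G = indicator (univ ×ˢ A) (fun _ => (1 : ℝ≥0∞)) := by
      funext z
      by_cases hz : z.2 ∈ A
      · simp only [G]
        rw [indicator_of_mem hz, indicator_of_mem (by simpa using hz)]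
      · simp only [G]
        rw [indicator_of_notMem hz, indicator_of_notMem (by simpa using hz)]
    rw [hind, lintegral_indicator_const (MeasurableSet.univ.prod hA), one_mul, hP,
      Measure.prod_prod, ← univ_prod_univ, Measure.prod_prod, Measure.restrict_apply_univ,
      c2_prod_pos m x u h1 h2, ENNReal.div_eq_inv_mul, ENNReal.div_eq_inv_mul]
    ring
  have hfin : (volume S) ^ 2 * (m univ) ^ 2 / 2 ≠ ∞ := by
    apply ENNReal.div_ne_top _ (by norm_num)
    exact ENNReal.mul_ne_top (ENNReal.pow_ne_top (measure_ne_top _ _))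
      (ENNReal.pow_ne_top (measure_ne_top _ _))
  have hlt : limsup (fun n => ∫⁻ z, Nn (c2_v x u n z.1.1) (c2_v x u n z.1.2) z.2.1 z.2.2 ∂P) atTop <
      (volume S) ^ 2 * (m univ) ^ 2 / 2 + η :=
    lt_of_le_of_lt (hlim.trans (hle.trans_eq hG)) (ENNReal.lt_add_right hfin hη.ne')
  filter_upwards [eventually_lt_of_limsup_lt hlt] with n hn
  rw [c2_quad_eq]
  exact hn.le

end Pool.Agent.LibCX37
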