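import Pool.Agent.LibCX37.Defs

/-!
[CX H1] **Halving line through a point.**
PROOF. `u(φ) = (cos φ, sin φ)`, `F(φ) = m {z | 0 < det x (x + u(φ)) z}` (real valued: `toReal`). `F` is continuous: if `φ_n → φ` then for every
`z` with `det x (x+u(φ)) z ≠ 0` (all but a null set, `NoLines`) the indicator of `{0 < det x (x+u(φ_n)) z}` converges to that for `φ`;
dominated convergence (`m` finite). `F(φ+π) = m {z | det x (x+u(φ)) z < 0}` and so `F(φ) + F(φ+π) = m univ`. By the intermediate value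
theorem `F(φ) - F(φ+π)` vanishes for some `φ ∈ [0,π]`.
-/

set_option autoImplicit false

namespace Pool.Agent.LibCX37

open MeasureTheory Set Filter Topology
open scoped ENNReal

/-- the determinant with the direction `(cos φ, sin φ)` -/
noncomputable def h1D (x : ℝ × ℝ) (φ : ℝ) (z : ℝ × ℝ) : ℝ :=
  det x (x + (Real.cos φ, Real.sin φ)) z

theorem h1D_eq (x : ℝ × ℝ) (φ : ℝ) (z : ℝ × ℝ) :
    h1D x φ z = Real.cos φ * (z.2 - x.2) - Real.sin φ * (z.1 - x.1) := by
  unfold h1D det
  simp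

theorem h1D_pi (x : ℝ × ℝ) (φ : ℝ) (z : ℝ × ℝ) : h1D x (φ + Real.pi) z = - h1D x φ z := by
  rw [h1D_eq, h1D_eq, Real.cos_add_pi, Real.sin_add_pi]
  ring

theorem h1D_cont (x : ℝ × ℝ) (φ : ℝ) : Continuous (h1D x φ) := by
  have h : h1D x φ = fun z => Real.cos φ * (z.2 - x.2) - Real.sin φ * (z.1 - x.1) := by
    funext z
    exact h1D_eq x φ z
  rw [h]
  fun_prop

theorem h1D_cont' (x z : ℝ × ℝ) : Continuous (fun φ => h1D x φ z) := by
  have h : (fun φ => h1D x φ z) =
      fun φ => Real.cos φ * (z.2 - x.2) - Real.sin φ * (z.1 - x.1) := by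
    funext φ
    exact h1D_eq x φ z
  rw [h]
  fun_prop

theorem h1_ne (φ : ℝ) : ((Real.cos φ, Real.sin φ) : ℝ × ℝ) ≠ 0 := by
  intro h
  have h1 := congrArg Prod.fst h
  have h2 := congrArg Prod.snd h
  simp only [Prod.fst_zero, Prod.snd_zero] at h1 h2
  have h3 := Real.sin_sq_add_cos_sq φ
  rw [h1, h2] at h3
  norm_num at h3

theorem h1_meas (x : ℝ × ℝ) (φ : ℝ) : MeasurableSet {z | 0 < h1D x φ z} :=
  (isOpen_lt continuous_const (h1D_cont x φ)).measurableSet

theorem h1_contF (m : Measure (ℝ × ℝ)) [IsFiniteMeasure m] (h : NoLines m) (x : ℝ × ℝ) :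
    Continuous fun φ : ℝ => m.real {z | 0 < h1D x φ z} := by
  rw [continuous_iff_continuousAt]
  intro φ₀
  have h1 : (fun φ : ℝ => m.real {z | 0 < h1D x φ z}) =
      fun φ : ℝ => ∫ z, ({z | 0 < h1D x φ z} : Set (ℝ × ℝ)).indicator (1 : ℝ × ℝ → ℝ) z ∂m := by
    funext φ
    rw [integral_indicator_one (h1_meas x φ)]
  rw [h1]
  refine continuousAt_of_dominated (bound := fun _ => (1 : ℝ)) ?_ ?_ ?_ ?_
  · refine Eventually.of_forall fun φ => ?_
    exact ((measurable_one).indicator (h1_meas x φ)).aestronglyMeasurable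
  · refine Eventually.of_forall fun φ => Eventually.of_forall fun z => ?_
    by_cases hz : z ∈ {z | 0 < h1D x φ z}
    · rw [Set.indicator_of_mem hz]
      simp
    · rw [Set.indicator_of_notMem hz]
      simp
  · exact integrable_const _
  · have h2 : ∀ᵐ z ∂m, h1D x φ₀ z ≠ 0 := by
      rw [ae_iff]
      have h3 := h x (Real.cos φ₀, Real.sin φ₀) (h1_ne φ₀)
      simpa [h1D] using h3
    filter_upwards [h2] with z hz
    rcases lt_or_gt_of_ne hz with hz | hz
    · have e1 := ((h1D_cont' x z).tendsto φ₀).eventually_lt_const hz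
      have e2 : ∀ᶠ φ in 𝓝 φ₀, ({z | 0 < h1D x φ z} : Set (ℝ × ℝ)).indicator
          (1 : ℝ × ℝ → ℝ) z = 0 := by
        filter_upwards [e1] with φ hφ
        refine Set.indicator_of_notMem ?_ _
        simp only [mem_setOf_eq, not_lt]
        exact hφ.le
      exact ContinuousAt.congr continuousAt_const (e2.mono fun φ hφ => hφ.symm)
    · have e1 := ((h1D_cont' x z).tendsto φ₀).eventually_const_lt hz
      have e2 : ∀ᶠ φ in 𝓝 φ₀, ({z | 0 < h1D x φ z} : Set (ℝ × ℝ)).indicator
          (1 : ℝ × ℝ → ℝ) z = 1 := by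
        filter_upwards [e1] with φ hφ
        rw [Set.indicator_of_mem (by exact hφ)]
        rfl
      exact ContinuousAt.congr continuousAt_const (e2.mono fun φ hφ => hφ.symm)

theorem h1_neg (x : ℝ × ℝ) (φ : ℝ) : {z | 0 < h1D x (φ + Real.pi) z} = {z | h1D x φ z < 0} := by
  ext z
  simp only [mem_setOf_eq, h1D_pi]
  constructor <;> intro h <;> linarith

theorem h1_add (m : Measure (ℝ × ℝ)) [IsFiniteMeasure m] (h : NoLines m) (x : ℝ × ℝ) (φ : ℝ) :
    m {z | 0 < h1D x φ z} + m {z | h1D x φ z < 0} = m univ := by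
  have hs' : MeasurableSet {z | h1D x φ z < 0} :=
    (isOpen_lt (h1D_cont x φ) continuous_const).measurableSet
  have hdisj : Disjoint {z | 0 < h1D x φ z} {z | h1D x φ z < 0} := by
    rw [Set.disjoint_left]
    intro z hz hz'
    simp only [mem_setOf_eq] at hz hz'
    linarith
  rw [← measure_union hdisj hs']
  have hc : m ({z | 0 < h1D x φ z} ∪ {z | h1D x φ z < 0})ᶜ = 0 := by
    have h3 := h x (Real.cos φ, Real.sin φ) (h1_ne φ)
    have h4 : ({z | 0 < h1D x φ z} ∪ {z | h1D x φ z < 0})ᶜ =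
        {z | det x (x + (Real.cos φ, Real.sin φ)) z = 0} := by
      ext z
      simp only [mem_compl_iff, mem_union, mem_setOf_eq, not_or, not_lt]
      change (h1D x φ z ≤ 0 ∧ 0 ≤ h1D x φ z) ↔ h1D x φ z = 0
      constructor
      · rintro ⟨ha, hb⟩
        exact le_antisymm ha hb
      · intro hh
        exact ⟨hh.le, hh.ge⟩
    rw [h4]
    exact h3
  have h5 := measure_add_measure_compl (μ := m) ((h1_meas x φ).union hs')
  rw [hc, add_zero] at h5
  exact h5

theorem exists_halving (m : Measure (ℝ × ℝ)) [IsFiniteMeasure m] (h : NoLines m) (x : ℝ × ℝ) :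
    ∃ u : ℝ × ℝ, u ≠ 0 ∧ m {z | 0 < det x (x + u) z} = m univ / 2 ∧
      m {z | det x (x + u) z < 0} = m univ / 2 := by
  obtain ⟨F, hF⟩ : ∃ F : ℝ → ℝ, F = fun φ : ℝ => m.real {z | 0 < h1D x φ z} := ⟨_, rfl⟩
  have hcont : Continuous F := by
    rw [hF]
    exact h1_contF m h x
  have hg : Continuous fun φ => F φ - F (φ + Real.pi) := by
    exact hcont.sub (hcont.comp (continuous_id.add continuous_const))
  have hper : F (Real.pi + Real.pi) = F 0 := by
    rw [hF]
    have h1 : ∀ z, h1D x (Real.pi + Real.pi) z = h1D x 0 z := by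
      intro z
      have h2 := h1D_pi x 0 z
      rw [zero_add] at h2
      rw [h1D_pi, h2, neg_neg]
    simp only [h1]
  have h0 : (0 : ℝ) ∈ range fun φ => F φ - F (φ + Real.pi) := by
    rcases le_total (F 0) (F Real.pi) with hle | hle
    · refine mem_range_of_exists_le_of_exists_ge hg ⟨0, ?_⟩ ⟨Real.pi, ?_⟩
      · rw [zero_add]; linarith
      · rw [hper]; linarith
    · refine mem_range_of_exists_le_of_exists_ge hg ⟨Real.pi, ?_⟩ ⟨0, ?_⟩
      · rw [hper]; linarith
      · rw [zero_add]; linarith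
  obtain ⟨φ, hφ⟩ := h0
  simp only at hφ
  have heq : m {z | 0 < h1D x φ z} = m {z | h1D x φ z < 0} := by
    have h1 : m.real {z | 0 < h1D x φ z} = m.real {z | 0 < h1D x (φ + Real.pi) z} := by
      have h2 : F φ = F (φ + Real.pi) := by linarith
      rw [hF] at h2
      exact h2
    rw [h1_neg] at h1
    exact (ENNReal.toReal_eq_toReal_iff' (measure_ne_top m _) (measure_ne_top m _)).mp h1
  have hadd := h1_add m h x φ
  have hhalf : m {z | h1D x φ z < 0} = m univ / 2 := by
    rw [ENNReal.eq_div_iff (by norm_num) (by norm_num), two_mul]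
    rw [heq] at hadd
    exact hadd
  exact ⟨(Real.cos φ, Real.sin φ), h1_ne φ, heq.trans hhalf, hhalf⟩

end Pool.Agent.LibCX37
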