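import Pool.Agent.LibCX37.G1
import Pool.Agent.LibCX37.G2

/-!
[CX Q1] **Expansion of the mixed energy.**
PROOF. `quad` is additive in each argument: the outer measure by `lintegral_add_measure`, the inner ones by `lintegral_add_measure` and
`lintegral_add_left` (measurability of the inner integrals in the parameters: `Measurable.lintegral_prod_right'`, from `measurable_Nn`).
`quad` is symmetric under adjacent transpositions of the measures: Tonelli (`lintegral_lintegral_swap`) and `Nn_swap12, Nn_swap23,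
Nn_swap34`. Expand `(τ + σ)` in the four places (16 terms) and sort them.
The bounds: `Nn ≤ 3`, so `quad m₁ m₂ m₃ m₄ ≤ 3 m₁(univ) m₂(univ) m₃(univ) m₄(univ)`. (`s`-finite or finite measures.)
-/

set_option autoImplicit false

namespace Pool.Agent.LibCX37

open MeasureTheory Set Filter Topology
open scoped ENNReal

section Gen

variable {X : Type*} [MeasurableSpace X] {F : X → X → X → X → ℝ≥0∞}

theorem q1_gen4 (hF : Measurable (fun x : X × X × X × X => F x.1 x.2.1 x.2.2.1 x.2.2.2)) :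
    Measurable (fun z : ((X × X) × X) × X => F z.1.1.1 z.1.1.2 z.1.2 z.2) := by
  have h : Measurable (fun z : ((X × X) × X) × X =>
      ((z.1.1.1, z.1.1.2, z.1.2, z.2) : X × X × X × X)) :=
    Measurable.prodMk (measurable_fst.fst.fst) (Measurable.prodMk (measurable_fst.fst.snd)
      (Measurable.prodMk measurable_fst.snd measurable_snd))
  exact hF.comp h

theorem q1_gen3 (hF : Measurable (fun x : X × X × X × X => F x.1 x.2.1 x.2.2.1 x.2.2.2))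
    (m₄ : Measure X) [IsFiniteMeasure m₄] :
    Measurable (fun z : (X × X) × X => ∫⁻ d, F z.1.1 z.1.2 z.2 d ∂m₄) :=
  (q1_gen4 hF).lintegral_prod_right'

theorem q1_gen2 (hF : Measurable (fun x : X × X × X × X => F x.1 x.2.1 x.2.2.1 x.2.2.2))
    (m₃ m₄ : Measure X) [IsFiniteMeasure m₃] [IsFiniteMeasure m₄] :
    Measurable (fun z : X × X => ∫⁻ c, ∫⁻ d, F z.1 z.2 c d ∂m₄ ∂m₃) :=
  (q1_gen3 hF m₄).lintegral_prod_right'

theorem q1_gen23 (hF : Measurable (fun x : X × X × X × X => F x.1 x.2.1 x.2.2.1 x.2.2.2))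
    (m₄ : Measure X) [IsFiniteMeasure m₄] (a : X) :
    Measurable (fun z : X × X => ∫⁻ d, F a z.1 z.2 d ∂m₄) := by
  have h : Measurable (fun z : X × X => (((a, z.1), z.2) : (X × X) × X)) :=
    Measurable.prodMk (Measurable.prodMk measurable_const measurable_fst) measurable_snd
  exact (q1_gen3 hF m₄).comp h

theorem q1_gen34 (hF : Measurable (fun x : X × X × X × X => F x.1 x.2.1 x.2.2.1 x.2.2.2))
    (a b : X) : Measurable (fun z : X × X => F a b z.1 z.2) := by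
  have h : Measurable (fun z : X × X => ((a, b, z.1, z.2) : X × X × X × X)) :=
    Measurable.prodMk measurable_const (Measurable.prodMk measurable_const
      (Measurable.prodMk measurable_fst measurable_snd))
  exact hF.comp h

theorem q1_gswap12 (hF : Measurable (fun x : X × X × X × X => F x.1 x.2.1 x.2.2.1 x.2.2.2))
    (hs : ∀ a b c d, F b a c d = F a b c d) (m₁ m₂ m₃ m₄ : Measure X) [IsFiniteMeasure m₁]
    [IsFiniteMeasure m₂] [IsFiniteMeasure m₃] [IsFiniteMeasure m₄] :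
    (∫⁻ a, ∫⁻ b, ∫⁻ c, ∫⁻ d, F a b c d ∂m₄ ∂m₃ ∂m₂ ∂m₁) =
      ∫⁻ a, ∫⁻ b, ∫⁻ c, ∫⁻ d, F a b c d ∂m₄ ∂m₃ ∂m₁ ∂m₂ := by
  have h := lintegral_lintegral_swap (μ := m₁) (ν := m₂)
    (f := fun a b => ∫⁻ c, ∫⁻ d, F a b c d ∂m₄ ∂m₃) (q1_gen2 hF m₃ m₄).aemeasurable
  refine h.trans ?_
  refine lintegral_congr (fun b => lintegral_congr (fun a => lintegral_congr (fun c =>
    lintegral_congr (fun d => ?_))))
  exact hs b a c d

theorem q1_gswap23 (hF : Measurable (fun x : X × X × X × X => F x.1 x.2.1 x.2.2.1 x.2.2.2))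
    (hs : ∀ a b c d, F a c b d = F a b c d) (m₁ m₂ m₃ m₄ : Measure X) [IsFiniteMeasure m₁]
    [IsFiniteMeasure m₂] [IsFiniteMeasure m₃] [IsFiniteMeasure m₄] :
    (∫⁻ a, ∫⁻ b, ∫⁻ c, ∫⁻ d, F a b c d ∂m₄ ∂m₃ ∂m₂ ∂m₁) =
      ∫⁻ a, ∫⁻ b, ∫⁻ c, ∫⁻ d, F a b c d ∂m₄ ∂m₂ ∂m₃ ∂m₁ := by
  refine lintegral_congr (fun a => ?_)
  have h := lintegral_lintegral_swap (μ := m₂) (ν := m₃)
    (f := fun b c => ∫⁻ d, F a b c d ∂m₄) (q1_gen23 hF m₄ a).aemeasurable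
  refine h.trans ?_
  refine lintegral_congr (fun c => lintegral_congr (fun b => lintegral_congr (fun d => ?_)))
  exact hs a c b d

theorem q1_gswap34 (hF : Measurable (fun x : X × X × X × X => F x.1 x.2.1 x.2.2.1 x.2.2.2))
    (hs : ∀ a b c d, F a b d c = F a b c d) (m₁ m₂ m₃ m₄ : Measure X) [IsFiniteMeasure m₁]
    [IsFiniteMeasure m₂] [IsFiniteMeasure m₃] [IsFiniteMeasure m₄] :
    (∫⁻ a, ∫⁻ b, ∫⁻ c, ∫⁻ d, F a b c d ∂m₄ ∂m₃ ∂m₂ ∂m₁) =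
      ∫⁻ a, ∫⁻ b, ∫⁻ c, ∫⁻ d, F a b c d ∂m₃ ∂m₄ ∂m₂ ∂m₁ := by
  refine lintegral_congr (fun a => lintegral_congr (fun b => ?_))
  have h := lintegral_lintegral_swap (μ := m₃) (ν := m₄)
    (f := fun c d => F a b c d) (q1_gen34 hF a b).aemeasurable
  refine h.trans ?_
  refine lintegral_congr (fun d => lintegral_congr (fun c => ?_))
  exact hs a b d c

end Gen

theorem q1_swap12 (m₁ m₂ m₃ m₄ : Measure (ℝ × ℝ)) [IsFiniteMeasure m₁] [IsFiniteMeasure m₂]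
    [IsFiniteMeasure m₃] [IsFiniteMeasure m₄] : quad m₁ m₂ m₃ m₄ = quad m₂ m₁ m₃ m₄ :=
  q1_gswap12 measurable_Nn Nn_swap12 m₁ m₂ m₃ m₄

theorem q1_swap23 (m₁ m₂ m₃ m₄ : Measure (ℝ × ℝ)) [IsFiniteMeasure m₁] [IsFiniteMeasure m₂]
    [IsFiniteMeasure m₃] [IsFiniteMeasure m₄] : quad m₁ m₂ m₃ m₄ = quad m₁ m₃ m₂ m₄ :=
  q1_gswap23 measurable_Nn Nn_swap23 m₁ m₂ m₃ m₄

theorem q1_swap34 (m₁ m₂ m₃ m₄ : Measure (ℝ × ℝ)) [IsFiniteMeasure m₁] [IsFiniteMeasure m₂]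
    [IsFiniteMeasure m₃] [IsFiniteMeasure m₄] : quad m₁ m₂ m₃ m₄ = quad m₁ m₂ m₄ m₃ :=
  q1_gswap34 measurable_Nn Nn_swap34 m₁ m₂ m₃ m₄

theorem q1_add1 (m m' m₂ m₃ m₄ : Measure (ℝ × ℝ)) :
    quad (m + m') m₂ m₃ m₄ = quad m m₂ m₃ m₄ + quad m' m₂ m₃ m₄ := by
  unfold quad
  rw [lintegral_add_measure]

theorem q1_add2 (m m' m₁ m₃ m₄ : Measure (ℝ × ℝ)) [IsFiniteMeasure m] [IsFiniteMeasure m']
    [IsFiniteMeasure m₁] [IsFiniteMeasure m₃] [IsFiniteMeasure m₄] :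
    quad m₁ (m + m') m₃ m₄ = quad m₁ m m₃ m₄ + quad m₁ m' m₃ m₄ := by
  rw [q1_swap12 m₁ (m + m'), q1_add1, q1_swap12 m m₁, q1_swap12 m' m₁]

theorem q1_add3 (m m' m₁ m₂ m₄ : Measure (ℝ × ℝ)) [IsFiniteMeasure m] [IsFiniteMeasure m']
    [IsFiniteMeasure m₁] [IsFiniteMeasure m₂] [IsFiniteMeasure m₄] :
    quad m₁ m₂ (m + m') m₄ = quad m₁ m₂ m m₄ + quad m₁ m₂ m' m₄ := by
  rw [q1_swap23 m₁ m₂ (m + m'), q1_add2, q1_swap23 m₁ m m₂, q1_swap23 m₁ m' m₂]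

theorem q1_add4 (m m' m₁ m₂ m₃ : Measure (ℝ × ℝ)) [IsFiniteMeasure m] [IsFiniteMeasure m']
    [IsFiniteMeasure m₁] [IsFiniteMeasure m₂] [IsFiniteMeasure m₃] :
    quad m₁ m₂ m₃ (m + m') = quad m₁ m₂ m₃ m + quad m₁ m₂ m₃ m' := by
  rw [q1_swap34 m₁ m₂ m₃ (m + m'), q1_add3, q1_swap34 m₁ m₂ m m₃, q1_swap34 m₁ m₂ m' m₃]

theorem quad_le (m₁ m₂ m₃ m₄ : Measure (ℝ × ℝ)) :
    quad m₁ m₂ m₃ m₄ ≤ 3 * m₁ univ * m₂ univ * m₃ univ * m₄ univ := by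
  unfold quad
  calc (∫⁻ a, ∫⁻ b, ∫⁻ c, ∫⁻ d, Nn a b c d ∂m₄ ∂m₃ ∂m₂ ∂m₁)
      ≤ ∫⁻ _ : ℝ × ℝ, ∫⁻ _ : ℝ × ℝ, ∫⁻ _ : ℝ × ℝ, ∫⁻ _ : ℝ × ℝ, 3 ∂m₄ ∂m₃ ∂m₂ ∂m₁ :=
        lintegral_mono (fun a => lintegral_mono (fun b => lintegral_mono (fun c =>
          lintegral_mono (fun d => Nn_le_three a b c d))))
    _ = 3 * m₁ univ * m₂ univ * m₃ univ * m₄ univ := by
        simp only [lintegral_const]
        ring

theorem quad_expand (τ σ : Measure (ℝ × ℝ)) [IsFiniteMeasure τ] [IsFiniteMeasure σ] :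
    quad (τ + σ) (τ + σ) (τ + σ) (τ + σ) = quad τ τ τ τ + 4 * quad σ τ τ τ + 6 * quad σ σ τ τ +
      4 * quad σ σ σ τ + quad σ σ σ σ := by
  simp only [q1_add1, q1_add2, q1_add3, q1_add4]
  have a1 : quad τ σ τ τ = quad σ τ τ τ := q1_swap12 _ _ _ _
  have a2 : quad τ τ σ τ = quad σ τ τ τ := by rw [q1_swap23, a1]
  have a3 : quad τ τ τ σ = quad σ τ τ τ := by rw [q1_swap34, a2]
  have b1 : quad σ τ σ τ = quad σ σ τ τ := q1_swap23 _ _ _ _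
  have b2 : quad σ τ τ σ = quad σ σ τ τ := by rw [q1_swap34, b1]
  have b3 : quad τ σ σ τ = quad σ σ τ τ := by rw [q1_swap12, b1]
  have b4 : quad τ σ τ σ = quad σ σ τ τ := by rw [q1_swap34, b3]
  have b5 : quad τ τ σ σ = quad σ σ τ τ := by rw [q1_swap23, b4]
  have c1 : quad σ σ τ σ = quad σ σ σ τ := q1_swap34 _ _ _ _
  have c2 : quad σ τ σ σ = quad σ σ σ τ := by rw [q1_swap23, c1]
  have c3 : quad τ σ σ σ = quad σ σ σ τ := by rw [q1_swap12, c2]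
  rw [a1, a2, a3, b1, b2, b3, b4, b5, c1, c2, c3]
  ring

end Pool.Agent.LibCX37
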