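import Pool.Agent.LibCX37.G1
import Pool.Agent.LibCX37.G2

/-!
[CX Q2] **The energy and the crossing density.**
PROOF. `volume` on the product is the product measure. The integral of each of the three indicators `ind (f a) (f b) (f c) (f d)`,
`ind (f a) (f c) (f b) (f d)`, `ind (f a) (f d) (f b) (f c)` equals the measure of the set in `cd f`: write it as iterated integrals
(`lintegral_prod`, twice or three times) and permute the variables (`lintegral_lintegral_swap`), or use the measure preserving
permutations of the product. (`En_eq_quad`) iterated integrals and `lintegral_map`.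
(`Attains.En_le`) `En = 3 * volume {..}` and `cd f ≤ cd g` says that the measures (finite, `≤ 1`) are ordered.
-/

set_option autoImplicit false

namespace Pool.Agent.LibCX37

open MeasureTheory Set Filter Topology
open scoped ENNReal

section Gen

variable {X : Type*} [MeasurableSpace X] {F : X → X → X → X → ℝ≥0∞}

theorem q2_gen4 (hF : Measurable (fun x : X × X × X × X => F x.1 x.2.1 x.2.2.1 x.2.2.2)) :
    Measurable (fun z : ((X × X) × X) × X => F z.1.1.1 z.1.1.2 z.1.2 z.2) := by
  have h : Measurable (fun z : ((X × X) × X) × X =>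
      ((z.1.1.1, z.1.1.2, z.1.2, z.2) : X × X × X × X)) :=
    Measurable.prodMk (measurable_fst.fst.fst) (Measurable.prodMk (measurable_fst.fst.snd)
      (Measurable.prodMk measurable_fst.snd measurable_snd))
  exact hF.comp h

theorem q2_gen3 (hF : Measurable (fun x : X × X × X × X => F x.1 x.2.1 x.2.2.1 x.2.2.2))
    (m : Measure X) [IsFiniteMeasure m] :
    Measurable (fun z : (X × X) × X => ∫⁻ d, F z.1.1 z.1.2 z.2 d ∂m) :=
  (q2_gen4 hF).lintegral_prod_right'

theorem q2_gen23 (hF : Measurable (fun x : X × X × X × X => F x.1 x.2.1 x.2.2.1 x.2.2.2))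
    (m : Measure X) [IsFiniteMeasure m] (a : X) :
    Measurable (fun z : X × X => ∫⁻ d, F a z.1 z.2 d ∂m) := by
  have h : Measurable (fun z : X × X => (((a, z.1), z.2) : (X × X) × X)) :=
    Measurable.prodMk (Measurable.prodMk measurable_const measurable_fst) measurable_snd
  exact (q2_gen3 hF m).comp h

theorem q2_gen34 (hF : Measurable (fun x : X × X × X × X => F x.1 x.2.1 x.2.2.1 x.2.2.2))
    (a b : X) : Measurable (fun z : X × X => F a b z.1 z.2) := by
  have h : Measurable (fun z : X × X => ((a, b, z.1, z.2) : X × X × X × X)) :=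
    Measurable.prodMk measurable_const (Measurable.prodMk measurable_const
      (Measurable.prodMk measurable_fst measurable_snd))
  exact hF.comp h

/-- Swap of the second and the third variable. -/
theorem q2_swap23 (hF : Measurable (fun x : X × X × X × X => F x.1 x.2.1 x.2.2.1 x.2.2.2))
    (m : Measure X) [IsFiniteMeasure m] :
    (∫⁻ a, ∫⁻ b, ∫⁻ c, ∫⁻ d, F a c b d ∂m ∂m ∂m ∂m) =
      ∫⁻ a, ∫⁻ b, ∫⁻ c, ∫⁻ d, F a b c d ∂m ∂m ∂m ∂m := by
  refine lintegral_congr (fun a => ?_)
  have h := lintegral_lintegral_swap (μ := m) (ν := m)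
    (f := fun b c => ∫⁻ d, F a b c d ∂m) (q2_gen23 hF m a).aemeasurable
  exact h.symm

/-- Swap of the third and the fourth variable. -/
theorem q2_swap34 (hF : Measurable (fun x : X × X × X × X => F x.1 x.2.1 x.2.2.1 x.2.2.2))
    (m : Measure X) [IsFiniteMeasure m] :
    (∫⁻ a, ∫⁻ b, ∫⁻ c, ∫⁻ d, F a b d c ∂m ∂m ∂m ∂m) =
      ∫⁻ a, ∫⁻ b, ∫⁻ c, ∫⁻ d, F a b c d ∂m ∂m ∂m ∂m := by
  refine lintegral_congr (fun a => lintegral_congr (fun b => ?_))
  have h := lintegral_lintegral_swap (μ := m) (ν := m)
    (f := fun c d => F a b c d) (q2_gen34 hF a b).aemeasurable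
  exact h.symm

/-- The integral over the fourfold product as an iterated integral. -/
theorem q2_iter (hF : Measurable (fun x : X × X × X × X => F x.1 x.2.1 x.2.2.1 x.2.2.2))
    (m : Measure X) [IsFiniteMeasure m] :
    (∫⁻ x : X × X × X × X, F x.1 x.2.1 x.2.2.1 x.2.2.2 ∂(m.prod (m.prod (m.prod m)))) =
      ∫⁻ a, ∫⁻ b, ∫⁻ c, ∫⁻ d, F a b c d ∂m ∂m ∂m ∂m := by
  rw [lintegral_prod _ hF.aemeasurable]
  refine lintegral_congr (fun a => ?_)
  have ha : Measurable (fun x : X × X × X => F a x.1 x.2.1 x.2.2) :=
    hF.comp (Measurable.prodMk measurable_const measurable_id)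
  rw [lintegral_prod _ ha.aemeasurable]
  refine lintegral_congr (fun b => ?_)
  have hb : Measurable (fun x : X × X => F a b x.1 x.2) := q2_gen34 hF a b
  rw [lintegral_prod _ hb.aemeasurable]

end Gen

/-- The indicator composed with a measurable map. -/
theorem q2_meas_ind (f : unitInterval → ℝ × ℝ) (hf : Measurable f) :
    Measurable (fun x : unitInterval × unitInterval × unitInterval × unitInterval =>
      ind (f x.1) (f x.2.1) (f x.2.2.1) (f x.2.2.2)) ∧
    MeasurableSet {x : unitInterval × unitInterval × unitInterval × unitInterval |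
      Meets (f x.1) (f x.2.1) (f x.2.2.1) (f x.2.2.2)} := by
  classical
  have hmap : Measurable (fun x : unitInterval × unitInterval × unitInterval × unitInterval =>
      ((f x.1, f x.2.1, f x.2.2.1, f x.2.2.2) :
        (ℝ × ℝ) × (ℝ × ℝ) × (ℝ × ℝ) × (ℝ × ℝ))) :=
    Measurable.prodMk (hf.comp measurable_fst) (Measurable.prodMk
      (hf.comp (measurable_fst.comp measurable_snd)) (Measurable.prodMk
        (hf.comp (measurable_fst.comp (measurable_snd.comp measurable_snd)))
        (hf.comp (measurable_snd.comp (measurable_snd.comp measurable_snd)))))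
  have hS : MeasurableSet {x : unitInterval × unitInterval × unitInterval × unitInterval |
      Meets (f x.1) (f x.2.1) (f x.2.2.1) (f x.2.2.2)} :=
    hmap isClosed_meets.measurableSet
  refine ⟨?_, hS⟩
  unfold ind
  exact Measurable.ite hS measurable_const measurable_const

theorem q2_ind_int (f : unitInterval → ℝ × ℝ) (hf : Measurable f) :
    (∫⁻ x : unitInterval × unitInterval × unitInterval × unitInterval,
      ind (f x.1) (f x.2.1) (f x.2.2.1) (f x.2.2.2)) =
    volume {x : unitInterval × unitInterval × unitInterval × unitInterval |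
      Meets (f x.1) (f x.2.1) (f x.2.2.1) (f x.2.2.2)} := by
  classical
  obtain ⟨_, hS⟩ := q2_meas_ind f hf
  rw [← lintegral_indicator_one hS]
  refine lintegral_congr (fun x => ?_)
  unfold ind
  by_cases hx : Meets (f x.1) (f x.2.1) (f x.2.2.1) (f x.2.2.2)
  · rw [if_pos hx, Set.indicator_of_mem]
    · rfl
    · exact hx
  · rw [if_neg hx, Set.indicator_of_notMem]
    exact hx

theorem En_eq (f : unitInterval → ℝ × ℝ) (hf : Measurable f) :
    En f = 3 * volume {x : unitInterval × unitInterval × unitInterval × unitInterval |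
      Meets (f x.1) (f x.2.1) (f x.2.2.1) (f x.2.2.2)} := by
  obtain ⟨hm, _⟩ := q2_meas_ind f hf
  have hm2 : Measurable (fun x : unitInterval × unitInterval × unitInterval × unitInterval =>
      ind (f x.1) (f x.2.2.1) (f x.2.1) (f x.2.2.2)) := by
    have hp : Measurable (fun x : unitInterval × unitInterval × unitInterval × unitInterval =>
        ((x.1, x.2.2.1, x.2.1, x.2.2.2) :
          unitInterval × unitInterval × unitInterval × unitInterval)) :=
      Measurable.prodMk measurable_fst (Measurable.prodMk
        (measurable_fst.comp (measurable_snd.comp measurable_snd)) (Measurable.prodMk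
          (measurable_fst.comp measurable_snd)
          (measurable_snd.comp (measurable_snd.comp measurable_snd))))
    exact hm.comp hp
  have hm3 : Measurable (fun x : unitInterval × unitInterval × unitInterval × unitInterval =>
      ind (f x.1) (f x.2.2.2) (f x.2.1) (f x.2.2.1)) := by
    have hp : Measurable (fun x : unitInterval × unitInterval × unitInterval × unitInterval =>
        ((x.1, x.2.2.2, x.2.1, x.2.2.1) :
          unitInterval × unitInterval × unitInterval × unitInterval)) :=
      Measurable.prodMk measurable_fst (Measurable.prodMk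
        (measurable_snd.comp (measurable_snd.comp measurable_snd)) (Measurable.prodMk
          (measurable_fst.comp measurable_snd)
          (measurable_fst.comp (measurable_snd.comp measurable_snd))))
    exact hm.comp hp
  have i1 := q2_iter (F := fun a b c d => ind (f a) (f b) (f c) (f d)) hm
    (volume : Measure unitInterval)
  have i2 := q2_iter (F := fun a b c d => ind (f a) (f c) (f b) (f d)) hm2
    (volume : Measure unitInterval)
  have i3 := q2_iter (F := fun a b c d => ind (f a) (f d) (f b) (f c)) hm3
    (volume : Measure unitInterval)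
  have s1 := q2_swap23 (F := fun a b c d => ind (f a) (f b) (f c) (f d)) hm
    (volume : Measure unitInterval)
  have s2 := q2_swap34 (F := fun a b c d => ind (f a) (f c) (f b) (f d)) hm2
    (volume : Measure unitInterval)
  have h0 := q2_ind_int f hf
  have e : En f = (∫⁻ x : unitInterval × unitInterval × unitInterval × unitInterval,
        ind (f x.1) (f x.2.1) (f x.2.2.1) (f x.2.2.2)) +
      (∫⁻ x : unitInterval × unitInterval × unitInterval × unitInterval,
        ind (f x.1) (f x.2.2.1) (f x.2.1) (f x.2.2.2)) +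
      ∫⁻ x : unitInterval × unitInterval × unitInterval × unitInterval,
        ind (f x.1) (f x.2.2.2) (f x.2.1) (f x.2.2.1) := by
    unfold En Nn
    rw [lintegral_add_right _ hm3, lintegral_add_right _ hm2]
  have v1 : (∫⁻ x : unitInterval × unitInterval × unitInterval × unitInterval,
        ind (f x.1) (f x.2.2.1) (f x.2.1) (f x.2.2.2)) =
      ∫⁻ x : unitInterval × unitInterval × unitInterval × unitInterval,
        ind (f x.1) (f x.2.1) (f x.2.2.1) (f x.2.2.2) :=
    i2.trans (s1.trans i1.symm)
  have v2 : (∫⁻ x : unitInterval × unitInterval × unitInterval × unitInterval,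
        ind (f x.1) (f x.2.2.2) (f x.2.1) (f x.2.2.1)) =
      ∫⁻ x : unitInterval × unitInterval × unitInterval × unitInterval,
        ind (f x.1) (f x.2.1) (f x.2.2.1) (f x.2.2.2) :=
    i3.trans (s2.trans (s1.trans i1.symm))
  rw [e, v1, v2, h0]
  ring

theorem q2_map_iter {X Y : Type*} [MeasurableSpace X] [MeasurableSpace Y]
    {G : Y → Y → Y → Y → ℝ≥0∞}
    (hG : Measurable (fun x : Y × Y × Y × Y => G x.1 x.2.1 x.2.2.1 x.2.2.2))
    (f : X → Y) (hf : Measurable f) (m : Measure X) [IsFiniteMeasure m] :
    (∫⁻ a, ∫⁻ b, ∫⁻ c, ∫⁻ d, G a b c d ∂(m.map f) ∂(m.map f) ∂(m.map f) ∂(m.map f)) =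
      ∫⁻ a, ∫⁻ b, ∫⁻ c, ∫⁻ d, G (f a) (f b) (f c) (f d) ∂m ∂m ∂m ∂m := by
  haveI : IsFiniteMeasure (m.map f) := Measure.isFiniteMeasure_map m f
  have m1 : Measurable (fun a => ∫⁻ b, ∫⁻ c, ∫⁻ d, G a b c d ∂(m.map f) ∂(m.map f) ∂(m.map f)) :=
    ((q2_gen3 hG (m.map f)).lintegral_prod_right').lintegral_prod_right'
  rw [lintegral_map m1 hf]
  refine lintegral_congr (fun a => ?_)
  have m2 : Measurable (fun b => ∫⁻ c, ∫⁻ d, G (f a) b c d ∂(m.map f) ∂(m.map f)) :=
    (q2_gen23 hG (m.map f) (f a)).lintegral_prod_right'
  rw [lintegral_map m2 hf]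
  refine lintegral_congr (fun b => ?_)
  have m3 : Measurable (fun c => ∫⁻ d, G (f a) (f b) c d ∂(m.map f)) :=
    (q2_gen34 hG (f a) (f b)).lintegral_prod_right'
  rw [lintegral_map m3 hf]
  refine lintegral_congr (fun c => ?_)
  have m4 : Measurable (fun d => G (f a) (f b) (f c) d) :=
    (q2_gen34 hG (f a) (f b)).comp (Measurable.prodMk measurable_const measurable_id)
  rw [lintegral_map m4 hf]

theorem q2_meas_comp {X Y : Type*} [MeasurableSpace X] [MeasurableSpace Y]
    {G : Y → Y → Y → Y → ℝ≥0∞}
    (hG : Measurable (fun x : Y × Y × Y × Y => G x.1 x.2.1 x.2.2.1 x.2.2.2))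
    (f : X → Y) (hf : Measurable f) :
    Measurable (fun x : X × X × X × X => G (f x.1) (f x.2.1) (f x.2.2.1) (f x.2.2.2)) := by
  have hmap : Measurable (fun x : X × X × X × X =>
      ((f x.1, f x.2.1, f x.2.2.1, f x.2.2.2) : Y × Y × Y × Y)) :=
    Measurable.prodMk (hf.comp measurable_fst) (Measurable.prodMk
      (hf.comp (measurable_fst.comp measurable_snd)) (Measurable.prodMk
        (hf.comp (measurable_fst.comp (measurable_snd.comp measurable_snd)))
        (hf.comp (measurable_snd.comp (measurable_snd.comp measurable_snd)))))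
  exact hG.comp hmap

theorem En_eq_quad (f : unitInterval → ℝ × ℝ) (hf : Measurable f) :
    En f = quad (law f) (law f) (law f) (law f) := by
  have h1 := q2_iter (F := fun a b c d => Nn (f a) (f b) (f c) (f d))
    (q2_meas_comp measurable_Nn f hf) (volume : Measure unitInterval)
  have h2 := q2_map_iter measurable_Nn f hf (volume : Measure unitInterval)
  exact h1.trans h2.symm

theorem Attains.En_le {f : unitInterval → ℝ × ℝ} (h : Attains f) {g : unitInterval → ℝ × ℝ}
    (hg : IsDrawing g) : En f ≤ En g := by
  have h1 := h.2 g hg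
  rw [En_eq f h.1.1, En_eq g hg.1]
  unfold cd at h1
  refine mul_le_mul_right ?_ _
  rw [← ENNReal.toReal_le_toReal (measure_ne_top _ _) (measure_ne_top _ _)]
  linarith

theorem En_le_three (f : unitInterval → ℝ × ℝ) : En f ≤ 3 := by
  unfold En
  calc (∫⁻ x : unitInterval × unitInterval × unitInterval × unitInterval,
        Nn (f x.1) (f x.2.1) (f x.2.2.1) (f x.2.2.2))
      ≤ ∫⁻ _ : unitInterval × unitInterval × unitInterval × unitInterval, 3 :=
        lintegral_mono (fun x => Nn_le_three _ _ _ _)
    _ = 3 := by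
        rw [lintegral_const, measure_univ, mul_one]

end Pool.Agent.LibCX37
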