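import Pool.Agent.LibCX37.C2
import Pool.Agent.LibCX37.H1
import Pool.Agent.LibCX37.Q1
import Pool.Agent.LibCX37.Q2

/-!
[CX C3] **The cluster competitor.**
PROOF. `τ = lawOn f Sᶜ` is finite, `τ univ ≤ 1`, `NoLines τ` (`τ ≤ law f`). Take `u` from `exists_halving τ`. `g n ω = x + (ω/(n+1)) u` on `S`,
`g n = f` off `S`: a drawing, `law (g n) = τ + clus S x u n` (split `volume = volume.restrict Sᶜ + volume.restrict S`).
`En (g n) = quad (law (g n))^4` (`En_eq_quad`), expand by `quad_expand`; the terms with one resp. two cluster points are bounded by `cluster_one`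
resp. `cluster_two` (with `η/11` or similar; `(τ univ)² ≤ 1`), the terms with three and four by `quad_le` and `clus_univ`:
`4 · 3 t³ + 3 t⁴ ≤ 15 t³`, `t = volume S ≤ 1`.
-/

set_option autoImplicit false

namespace Pool.Agent.LibCX37

open MeasureTheory Set Filter Topology
open scoped ENNReal

private theorem c3_vol_le (S : Set unitInterval) : volume S ≤ 1 := prob_le_one

private theorem c3_lawOn_univ (f : unitInterval → ℝ × ℝ) (hf : Measurable f)
    (S : Set unitInterval) : lawOn f S univ ≤ 1 := by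
  unfold lawOn
  rw [Measure.map_apply hf MeasurableSet.univ, preimage_univ, Measure.restrict_apply_univ]
  exact prob_le_one

private theorem c3_finite (f : unitInterval → ℝ × ℝ) (S : Set unitInterval) :
    IsFiniteMeasure (lawOn f S) := by
  unfold lawOn
  infer_instance

private theorem c3_clus_finite (S : Set unitInterval) (x u : ℝ × ℝ) (n : ℕ) :
    IsFiniteMeasure (clus S x u n) := by
  unfold clus
  infer_instance

private theorem c3_noLines (f : unitInterval → ℝ × ℝ) (hf : Measurable f)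
    (hl : NoLines (law f)) (S : Set unitInterval) : NoLines (lawOn f S) := by
  intro p w hw
  have h1 : lawOn f S ≤ law f := Measure.map_mono Measure.restrict_le_self hf
  exact le_antisymm ((h1 _).trans (hl p w hw).le) bot_le

open Classical in
private theorem c3_piece (f : unitInterval → ℝ × ℝ) (hf : IsDrawing f)
    (S : Set unitInterval) (hS : MeasurableSet S) (x u : ℝ × ℝ) (n : ℕ) :
    ∃ g, IsDrawing g ∧ law g = lawOn f Sᶜ + clus S x u n := by
  have hc : Measurable (fun ω : unitInterval => x + ((1 / ((n : ℝ) + 1)) * (ω : ℝ)) • u) := by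
    fun_prop
  refine ⟨S.piecewise (fun ω : unitInterval => x + ((1 / ((n : ℝ) + 1)) * (ω : ℝ)) • u) f,
    ⟨Measurable.piecewise hS hc hf.1, ?_⟩, ?_⟩
  · obtain ⟨C, hC⟩ := isBounded_iff_forall_norm_le.1 hf.2
    refine isBounded_iff_forall_norm_le.2 ⟨max C (‖x‖ + ‖u‖), ?_⟩
    rintro _ ⟨ω, rfl⟩
    by_cases hω : ω ∈ S
    · rw [Set.piecewise_eq_of_mem _ _ _ hω]
      refine le_trans ?_ (le_max_right _ _)
      refine (norm_add_le _ _).trans (add_le_add le_rfl ?_)
      rw [norm_smul]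
      have h1 : ‖(1 / ((n : ℝ) + 1)) * (ω : ℝ)‖ ≤ 1 := by
        rw [Real.norm_eq_abs, abs_of_nonneg (mul_nonneg (by positivity) ω.2.1)]
        have h2 : 1 / ((n : ℝ) + 1) ≤ 1 := by
          rw [div_le_one (by positivity)]
          linarith [(Nat.cast_nonneg n : (0 : ℝ) ≤ n)]
        calc (1 / ((n : ℝ) + 1)) * (ω : ℝ) ≤ 1 * 1 :=
              mul_le_mul h2 ω.2.2 ω.2.1 zero_le_one
          _ = 1 := one_mul 1
      calc ‖(1 / ((n : ℝ) + 1)) * (ω : ℝ)‖ * ‖u‖ ≤ 1 * ‖u‖ :=
            mul_le_mul_of_nonneg_right h1 (norm_nonneg u)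
        _ = ‖u‖ := one_mul _
    · rw [Set.piecewise_eq_of_notMem _ _ _ hω]
      exact (hC _ (mem_range_self ω)).trans (le_max_left _ _)
  · unfold law lawOn clus
    conv_lhs => rw [← Measure.restrict_add_restrict_compl (μ := volume) hS]
    rw [Measure.map_add _ _ (Measurable.piecewise hS hc hf.1), add_comm]
    congr 1
    · refine Measure.map_congr ?_
      filter_upwards [ae_restrict_mem hS.compl] with ω hω
      exact Set.piecewise_eq_of_notMem _ _ _ hω
    · refine Measure.map_congr ?_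
      filter_upwards [ae_restrict_mem hS] with ω hω
      exact Set.piecewise_eq_of_mem _ _ _ hω

theorem cluster (f : unitInterval → ℝ × ℝ) (hf : IsDrawing f) (hl : NoLines (law f))
    (S : Set unitInterval) (hS : MeasurableSet S) (x : ℝ × ℝ) (η : ℝ≥0∞) (hη : 0 < η) :
    ∃ g, IsDrawing g ∧ En g ≤ quad (lawOn f Sᶜ) (lawOn f Sᶜ) (lawOn f Sᶜ) (lawOn f Sᶜ) +
      4 * (volume S * Psi (lawOn f Sᶜ) x) + 3 * (volume S) ^ 2 + 15 * (volume S) ^ 3 + η := by
  have := c3_finite f Sᶜ
  have hτ1 := c3_lawOn_univ f hf.1 Sᶜ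
  have hτl := c3_noLines f hf.1 hl Sᶜ
  have hS1 := c3_vol_le S
  set τ := lawOn f Sᶜ with hτ
  set t := volume S with ht
  obtain ⟨u, hu, h1, h2⟩ := exists_halving τ hτl x
  have hη' : 0 < η / 10 := ENNReal.div_pos hη.ne' (by norm_num)
  obtain ⟨n, hn1, hn2⟩ := ((cluster_one τ S x u (η / 10) hη').and
    (cluster_two τ hτl S x u hu h1 h2 (η / 10) hη')).exists
  have := c3_clus_finite S x u n
  obtain ⟨g, hg, hlaw⟩ := c3_piece f hf S hS x u n
  refine ⟨g, hg, ?_⟩
  rw [En_eq_quad g hg.1, hlaw, quad_expand]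
  have hσ : clus S x u n univ = t := clus_univ S x u n
  set σ := clus S x u n with hσ'
  have e1 : 4 * quad σ τ τ τ ≤ 4 * (t * Psi τ x) + 4 * (η / 10) := by
    rw [← mul_add]
    exact mul_le_mul_right hn1 4
  have e2 : 6 * quad σ σ τ τ ≤ 3 * t ^ 2 + 6 * (η / 10) := by
    have h3 : t ^ 2 * (τ univ) ^ 2 / 2 ≤ t ^ 2 / 2 := by
      refine ENNReal.div_le_div_right ?_ 2
      calc t ^ 2 * (τ univ) ^ 2 ≤ t ^ 2 * 1 := by
            refine mul_le_mul_right ?_ _
            calc (τ univ) ^ 2 ≤ 1 ^ 2 := by gcongr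
              _ = 1 := one_pow 2
        _ = t ^ 2 := mul_one _
    calc 6 * quad σ σ τ τ ≤ 6 * (t ^ 2 / 2 + η / 10) :=
          mul_le_mul_right (hn2.trans (add_le_add h3 le_rfl)) 6
      _ = 3 * t ^ 2 + 6 * (η / 10) := by
          rw [mul_add]
          congr 1
          rw [← mul_div_assoc]
          have h6 : (6 : ℝ≥0∞) * t ^ 2 = 3 * t ^ 2 * 2 := by ring
          rw [h6, ENNReal.mul_div_cancel_right (by norm_num) (by norm_num)]
  have e3 : 4 * quad σ σ σ τ ≤ 12 * t ^ 3 := by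
    have h3 := quad_le σ σ σ τ
    rw [hσ] at h3
    calc 4 * quad σ σ σ τ ≤ 4 * (3 * t * t * t * τ univ) := mul_le_mul_right h3 4
      _ ≤ 4 * (3 * t * t * t * 1) := by gcongr
      _ = 12 * t ^ 3 := by ring
  have e4 : quad σ σ σ σ ≤ 3 * t ^ 3 := by
    have h3 := quad_le σ σ σ σ
    rw [hσ] at h3
    calc quad σ σ σ σ ≤ 3 * t * t * t * t := h3
      _ ≤ 3 * t * t * t * 1 := by gcongr
      _ = 3 * t ^ 3 := by ring
  have e5 : 4 * (η / 10) + 6 * (η / 10) = η := by
    rw [← add_mul]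
    have h6 : (4 : ℝ≥0∞) + 6 = 10 := by norm_num
    rw [h6, ENNReal.mul_div_cancel (by norm_num) (by norm_num)]
  calc quad τ τ τ τ + 4 * quad σ τ τ τ + 6 * quad σ σ τ τ + 4 * quad σ σ σ τ + quad σ σ σ σ
      ≤ quad τ τ τ τ + (4 * (t * Psi τ x) + 4 * (η / 10)) + (3 * t ^ 2 + 6 * (η / 10)) +
          12 * t ^ 3 + 3 * t ^ 3 :=
        add_le_add (add_le_add (add_le_add (add_le_add le_rfl e1) e2) e3) e4
    _ = quad τ τ τ τ + 4 * (t * Psi τ x) + 3 * t ^ 2 + 15 * t ^ 3 +
          (4 * (η / 10) + 6 * (η / 10)) := by ring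
    _ = quad τ τ τ τ + 4 * (t * Psi τ x) + 3 * t ^ 2 + 15 * t ^ 3 + η := by rw [e5]

end Pool.Agent.LibCX37
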