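import Pool.Agent.LibCX37.Defs

/-!
[CX D1] **A set with a missing pair of tangent directions at every point has Hausdorff dimension at most one.**
PROOF. `u(x,y) = ‖y - x‖⁻¹ • (y - x)`. STEP 1. For `x ∈ E`, `x ≠ x0`, with `v` as in the hypothesis, there is `k ≥ 1` such that for all
`y ∈ E` with `0 < ‖y - x‖ < 1/k`: `‖u(x,y) - v‖ ≥ 1/k` and `‖u(x,y) + v‖ ≥ 1/k` (otherwise there is a sequence `y_k → x` with `u(x,y_k)`
within `1/k` of `v` or of `-v`, infinitely often the same sign: a subsequence contradicts the hypothesis). STEP 2. Let `D` be a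
countable dense subset of the unit sphere of `ℝ × ℝ`, `v' ∈ D` with `‖v' - v‖ ≤ 1/(2k)`: then `x` lies in
`E(v',k) = {x ∈ E | ∀ y ∈ E, 0 < ‖y - x‖ < 1/k → ‖u(x,y) - v'‖ ≥ 1/(2k) ∧ ‖u(x,y) + v'‖ ≥ 1/(2k)}`. STEP 3. On the compact set
`{w | ‖w‖ = 1, ‖w - v'‖ ≥ 1/(2k), ‖w + v'‖ ≥ 1/(2k)}` the continuous function `|v'.1 w.2 - v'.2 w.1|` is positive (it vanishes only for `w`
parallel to `v'`, and `‖w‖ = ‖v'‖ = 1` gives `w = ± v'`), so it is `≥ c > 0`. Hence for `x, y ∈ E(v',k)` with `0 < ‖x - y‖ < 1/k`: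
`c ‖y - x‖ ≤ |π y - π x|`, `π z = v'.1 z.2 - v'.2 z.1`. STEP 4. `ℝ × ℝ` is a countable union of balls of radius `1/(2k)`; on each piece
`E(v',k) ∩ ball` the inverse of `π` is Lipschitz on the image, so the dimension is at most `dimH` of a subset of `ℝ`, `≤ 1`
(`LipschitzOnWith.dimH_image_le` for a (choice) inverse, or `AntilipschitzWith.le_dimH_image` on the subtype; `dimH_mono`,
`Real.dimH_univ`). Countable union: `dimH_iUnion`, `dimH_union`, `dimH_singleton`.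
-/

set_option autoImplicit false

namespace Pool.Agent.LibCX37

open MeasureTheory Set Filter Topology
open scoped ENNReal

private lemma d1_step1 (E : Set (ℝ × ℝ)) (x w : ℝ × ℝ)
    (h : ∀ y : ℕ → ℝ × ℝ, (∀ n, y n ∈ E ∧ y n ≠ x) → Tendsto y atTop (𝓝 x) →
      ¬ Tendsto (fun n => ‖y n - x‖⁻¹ • (y n - x)) atTop (𝓝 w)) :
    ∃ k : ℕ, ∀ y ∈ E, y ≠ x → ‖y - x‖ < 1 / ((k : ℝ) + 1) →
      1 / ((k : ℝ) + 1) ≤ ‖‖y - x‖⁻¹ • (y - x) - w‖ := by
  by_contra hcon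
  push Not at hcon
  choose y hyE hyx hy1 hy2 using hcon
  have hlim : Tendsto (fun n : ℕ => 1 / ((n : ℝ) + 1)) atTop (𝓝 0) :=
    tendsto_one_div_add_atTop_nhds_zero_nat
  refine h y (fun n => ⟨hyE n, hyx n⟩) ?_ ?_
  · rw [tendsto_iff_norm_sub_tendsto_zero]
    exact squeeze_zero (fun n => norm_nonneg _) (fun n => (hy1 n).le) hlim
  · rw [tendsto_iff_norm_sub_tendsto_zero]
    exact squeeze_zero (fun n => norm_nonneg _) (fun n => (hy2 n).le) hlim

private lemma d1_par (v w : ℝ × ℝ) (hv : ‖v‖ = 1) (hw : ‖w‖ = 1)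
    (h : v.1 * w.2 - v.2 * w.1 = 0) : w = v ∨ w = -v := by
  have key : ∃ t : ℝ, w = t • v := by
    by_cases h1 : v.1 = 0
    · have h2 : v.2 ≠ 0 := by
        intro h2
        have : v = 0 := Prod.ext h1 h2
        rw [this, norm_zero] at hv
        exact zero_ne_one hv
      refine ⟨w.2 / v.2, Prod.ext ?_ ?_⟩
      · have hw1 : w.1 = 0 := by
          rw [h1] at h
          have : v.2 * w.1 = 0 := by linarith
          rcases mul_eq_zero.mp this with h3 | h3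
          · exact absurd h3 h2
          · exact h3
        simp [hw1, h1]
      · simp only [Prod.smul_snd, smul_eq_mul]
        field_simp
    · refine ⟨w.1 / v.1, Prod.ext ?_ ?_⟩
      · simp only [Prod.smul_fst, smul_eq_mul]
        field_simp
      · simp only [Prod.smul_snd, smul_eq_mul]
        field_simp
        linarith
  obtain ⟨t, ht⟩ := key
  have habs : |t| = 1 := by
    have := hw
    rw [ht, norm_smul, hv, mul_one, Real.norm_eq_abs] at this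
    exact this
  rcases (abs_eq (by norm_num : (0 : ℝ) ≤ 1)).mp habs with h1 | h1
  · left; rw [ht, h1, one_smul]
  · right; rw [ht, h1, neg_smul, one_smul]

private lemma d1_step3 (v : ℝ × ℝ) (hv : ‖v‖ = 1) (δ : ℝ) (hδ : 0 < δ) :
    ∃ c : ℝ, 0 < c ∧ ∀ w : ℝ × ℝ, ‖w‖ = 1 → δ ≤ ‖w - v‖ → δ ≤ ‖w + v‖ →
      c ≤ |v.1 * w.2 - v.2 * w.1| := by
  set K : Set (ℝ × ℝ) := {w | ‖w‖ = 1 ∧ δ ≤ ‖w - v‖ ∧ δ ≤ ‖w + v‖} with hK
  have hclosed : IsClosed K := by
    refine IsClosed.and ?_ (IsClosed.and ?_ ?_)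
    · exact isClosed_eq continuous_norm continuous_const
    · exact isClosed_le continuous_const (continuous_norm.comp (continuous_id.sub continuous_const))
    · exact isClosed_le continuous_const (continuous_norm.comp (continuous_id.add continuous_const))
  have hcomp : IsCompact K := by
    refine (isCompact_closedBall (0 : ℝ × ℝ) 1).of_isClosed_subset hclosed ?_
    intro w hw
    rw [mem_closedBall_zero_iff]
    exact hw.1.le
  by_cases hne : K.Nonempty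
  · obtain ⟨w0, hw0, hmin⟩ := hcomp.exists_isMinOn hne
      (f := fun w : ℝ × ℝ => |v.1 * w.2 - v.2 * w.1|) (by fun_prop)
    refine ⟨|v.1 * w0.2 - v.2 * w0.1|, ?_, ?_⟩
    · refine abs_pos.mpr ?_
      intro h0
      rcases d1_par v w0 hv hw0.1 h0 with h1 | h1
      · have := hw0.2.1
        rw [h1, sub_self, norm_zero] at this
        linarith
      · have := hw0.2.2
        rw [h1, neg_add_cancel, norm_zero] at this
        linarith
    · intro w h1 h2 h3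
      exact hmin (show w ∈ K from ⟨h1, h2, h3⟩)
  · refine ⟨1, one_pos, ?_⟩
    intro w h1 h2 h3
    exact absurd ⟨w, h1, h2, h3⟩ hne

private lemma d1_piece (P : Set (ℝ × ℝ)) (v : ℝ × ℝ) (c : ℝ) (hc : 0 < c)
    (h : ∀ x ∈ P, ∀ y ∈ P, c * dist x y ≤ |(v.1 * x.2 - v.2 * x.1) - (v.1 * y.2 - v.2 * y.1)|) :
    dimH P ≤ 1 := by
  let f : P → ℝ := fun x => v.1 * x.1.2 - v.2 * x.1.1
  have hf : AntilipschitzWith (Real.toNNReal c⁻¹) f := by
    refine AntilipschitzWith.of_le_mul_dist ?_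
    intro x y
    have h1 := h x.1 x.2 y.1 y.2
    rw [Real.coe_toNNReal _ (inv_nonneg.mpr hc.le), Real.dist_eq]
    rw [Subtype.dist_eq]
    rw [inv_mul_eq_div, le_div_iff₀ hc, mul_comm]
    exact h1
  have h1 : dimH (univ : Set P) ≤ dimH (f '' univ) := hf.le_dimH_image univ
  have h2 : dimH (f '' univ) ≤ 1 := (dimH_mono (subset_univ _)).trans (le_of_eq Real.dimH_univ)
  have h3 : dimH P = dimH (univ : Set P) := by
    have := (isometry_subtype_coe (s := P)).dimH_image (univ : Set P)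
    rw [image_univ, Subtype.range_coe] at this
    exact this
  rw [h3]
  exact h1.trans h2

theorem dimH_le_one_of_missing (E : Set (ℝ × ℝ)) (x0 : ℝ × ℝ)
    (h : ∀ x ∈ E, x ≠ x0 → ∃ v : ℝ × ℝ, ‖v‖ = 1 ∧ ∀ y : ℕ → ℝ × ℝ,
      (∀ n, y n ∈ E ∧ y n ≠ x) → Tendsto y atTop (𝓝 x) →
      ¬ Tendsto (fun n => ‖y n - x‖⁻¹ • (y n - x)) atTop (𝓝 v) ∧
      ¬ Tendsto (fun n => ‖y n - x‖⁻¹ • (y n - x)) atTop (𝓝 (-v))) : dimH E ≤ 1 := by
  obtain ⟨D, hDc, hDd⟩ := TopologicalSpace.exists_countable_dense (Metric.sphere (0 : ℝ × ℝ) 1)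
  let P : Metric.sphere (0 : ℝ × ℝ) 1 → ℕ → ℕ → Set (ℝ × ℝ) := fun v k n =>
    {x | x ∈ E ∧ dist x (TopologicalSpace.denseSeq (ℝ × ℝ) n) < 1 / (2 * ((k : ℝ) + 1)) ∧
      ∀ y ∈ E, y ≠ x → ‖y - x‖ < 1 / ((k : ℝ) + 1) →
        1 / (2 * ((k : ℝ) + 1)) ≤ ‖‖y - x‖⁻¹ • (y - x) - v.1‖ ∧
        1 / (2 * ((k : ℝ) + 1)) ≤ ‖‖y - x‖⁻¹ • (y - x) + v.1‖}
  have hP : ∀ v k n, dimH (P v k n) ≤ 1 := by
    intro v k n
    have hk : (0 : ℝ) < 1 / (2 * ((k : ℝ) + 1)) := by positivity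
    have hv : ‖v.1‖ = 1 := mem_sphere_zero_iff_norm.mp v.2
    obtain ⟨c, hc, hcw⟩ := d1_step3 v.1 hv _ hk
    refine d1_piece _ v.1 c hc ?_
    intro x hx y hy
    by_cases hxy : y = x
    · subst hxy; simp
    · have hd : dist x y < 1 / ((k : ℝ) + 1) := by
        calc dist x y ≤ dist x (TopologicalSpace.denseSeq (ℝ × ℝ) n)
              + dist y (TopologicalSpace.denseSeq (ℝ × ℝ) n) := dist_triangle_right _ _ _
          _ < 1 / (2 * ((k : ℝ) + 1)) + 1 / (2 * ((k : ℝ) + 1)) := add_lt_add hx.2.1 hy.2.1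
          _ = 1 / ((k : ℝ) + 1) := by field_simp; norm_num
      have hd' : ‖y - x‖ < 1 / ((k : ℝ) + 1) := by rwa [← dist_eq_norm, dist_comm]
      have hpos : 0 < ‖y - x‖ := norm_pos_iff.mpr (sub_ne_zero.mpr hxy)
      obtain ⟨h1, h2⟩ := hx.2.2 y hy.1 hxy hd'
      have hn : ‖‖y - x‖⁻¹ • (y - x)‖ = 1 := by
        rw [norm_smul, norm_inv, norm_norm, inv_mul_cancel₀ hpos.ne']
      have h3 := hcw _ hn h1 h2
      have h4 : v.1.1 * (‖y - x‖⁻¹ • (y - x)).2 - v.1.2 * (‖y - x‖⁻¹ • (y - x)).1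
          = ‖y - x‖⁻¹ * ((v.1.1 * y.2 - v.1.2 * y.1) - (v.1.1 * x.2 - v.1.2 * x.1)) := by
        simp only [Prod.smul_snd, Prod.smul_fst, smul_eq_mul, Prod.snd_sub, Prod.fst_sub]
        ring
      rw [h4, abs_mul, abs_of_pos (inv_pos.mpr hpos)] at h3
      have h5 : c * ‖y - x‖ ≤ |(v.1.1 * y.2 - v.1.2 * y.1) - (v.1.1 * x.2 - v.1.2 * x.1)| := by
        have := mul_le_mul_of_nonneg_right h3 hpos.le
        calc c * ‖y - x‖ ≤ ‖y - x‖⁻¹ * |(v.1.1 * y.2 - v.1.2 * y.1)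
              - (v.1.1 * x.2 - v.1.2 * x.1)| * ‖y - x‖ := this
          _ = _ := by field_simp
      rw [dist_comm, dist_eq_norm, abs_sub_comm]
      exact h5
  have hcover : E ⊆ {x0} ∪ ⋃ v ∈ D, ⋃ k : ℕ, ⋃ n : ℕ, P v k n := by
    intro x hx
    by_cases hx0 : x = x0
    · left; exact hx0
    right
    obtain ⟨v, hv, hvy⟩ := h x hx hx0
    obtain ⟨k1, hk1⟩ := d1_step1 E x v (fun y hy hyx => (hvy y hy hyx).1)
    obtain ⟨k2, hk2⟩ := d1_step1 E x (-v) (fun y hy hyx => (hvy y hy hyx).2)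
    set k := max k1 k2 with hkdef
    have e1 : 1 / ((k : ℝ) + 1) ≤ 1 / ((k1 : ℝ) + 1) := by
      apply one_div_le_one_div_of_le (by positivity)
      have : (k1 : ℝ) ≤ k := by exact_mod_cast le_max_left k1 k2
      linarith
    have e2 : 1 / ((k : ℝ) + 1) ≤ 1 / ((k2 : ℝ) + 1) := by
      apply one_div_le_one_div_of_le (by positivity)
      have : (k2 : ℝ) ≤ k := by exact_mod_cast le_max_right k1 k2
      linarith
    have hk : (0 : ℝ) < 1 / (2 * ((k : ℝ) + 1)) := by positivity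
    obtain ⟨v', hv'D, hv'⟩ := hDd.exists_dist_lt
      (⟨v, mem_sphere_zero_iff_norm.mpr hv⟩ : Metric.sphere (0 : ℝ × ℝ) 1) hk
    have hvv : ‖v - v'.1‖ < 1 / (2 * ((k : ℝ) + 1)) := by
      rw [Subtype.dist_eq, dist_eq_norm] at hv'
      exact hv'
    obtain ⟨n, hn⟩ := (TopologicalSpace.denseRange_denseSeq (ℝ × ℝ)).exists_dist_lt x hk
    refine mem_iUnion₂.mpr ⟨v', hv'D, mem_iUnion.mpr ⟨k, mem_iUnion.mpr ⟨n, hx, hn, ?_⟩⟩⟩
    intro y hy hyx hyk
    have hhalf : 1 / ((k : ℝ) + 1) = 1 / (2 * ((k : ℝ) + 1)) + 1 / (2 * ((k : ℝ) + 1)) := by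
      field_simp; norm_num
    have a1 := hk1 y hy hyx (hyk.trans_le e1)
    have a2 := hk2 y hy hyx (hyk.trans_le e2)
    constructor
    · have b1 : ‖‖y - x‖⁻¹ • (y - x) - v‖ ≤ ‖‖y - x‖⁻¹ • (y - x) - v'.1‖ + ‖v - v'.1‖ := by
        have := norm_sub_le (‖y - x‖⁻¹ • (y - x) - v'.1) (v - v'.1)
        rwa [sub_sub_sub_cancel_right] at this
      linarith
    · have b1 : ‖‖y - x‖⁻¹ • (y - x) - -v‖ ≤ ‖‖y - x‖⁻¹ • (y - x) + v'.1‖ + ‖v - v'.1‖ := by
        have := norm_add_le (‖y - x‖⁻¹ • (y - x) + v'.1) (v - v'.1)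
        have e3 : ‖y - x‖⁻¹ • (y - x) + v'.1 + (v - v'.1) = ‖y - x‖⁻¹ • (y - x) - -v := by
          abel
        rwa [e3] at this
      linarith
  refine (dimH_mono hcover).trans ?_
  rw [dimH_union, dimH_singleton, dimH_bUnion hDc]
  refine max_le (by simp) (iSup₂_le fun v _ => ?_)
  rw [dimH_iUnion]
  refine iSup_le fun k => ?_
  rw [dimH_iUnion]
  exact iSup_le fun n => hP v k n

end Pool.Agent.LibCX37
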