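import Mathlib

/-!
# Rectilinear crossing density of the complete graphon: definitions

`cd f` is the crossing density of the constant graphon `1` in the drawing `f : [0,1] → ℝ²`.
-/

set_option autoImplicit false

open MeasureTheory Set
open scoped ENNReal

namespace Pool.Agent.LibCX37

/-- The closed segments `pq` and `rs` have a common point. -/
def Meets (p q r s : ℝ × ℝ) : Prop := (segment ℝ p q ∩ segment ℝ r s).Nonempty

/-- The rectilinear crossing density of the constant graphon `1` in the drawing `f`: one eighth of the measure of the set of all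
`(x₁, x₂, x₃, x₄)` in `[0,1]⁴` such that the closed segments `f x₁ f x₂` and `f x₃ f x₄` have a common point. -/
noncomputable def cd (f : unitInterval → ℝ × ℝ) : ℝ :=
  (1 / 8) * (volume {x : unitInterval × unitInterval × unitInterval × unitInterval |
    Meets (f x.1) (f x.2.1) (f x.2.2.1) (f x.2.2.2)}).toReal

/-- `f` is a bounded measurable drawing. -/
def IsDrawing (f : unitInterval → ℝ × ℝ) : Prop := Measurable f ∧ Bornology.IsBounded (range f)

/-- `f` attains the infimum of `cd` over all bounded measurable drawings. -/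
def Attains (f : unitInterval → ℝ × ℝ) : Prop := IsDrawing f ∧ ∀ g, IsDrawing g → cd f ≤ cd g

/-- The essential range of `f`: the points all of whose neighbourhoods have a preimage of positive measure. -/
def essRange (f : unitInterval → ℝ × ℝ) : Set (ℝ × ℝ) :=
  {y | ∀ ε : ℝ, 0 < ε → 0 < volume (f ⁻¹' Metric.ball y ε)}

/-- twice the oriented area of the triangle `pqr` -/
def det (p q r : ℝ × ℝ) : ℝ := (q.1 - p.1) * (r.2 - p.2) - (q.2 - p.2) * (r.1 - p.1)

/-- no three of the four points are collinear -/
def GP (p q r s : ℝ × ℝ) : Prop := det p q r ≠ 0 ∧ det p q s ≠ 0 ∧ det p r s ≠ 0 ∧ det q r s ≠ 0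

open Classical in
/-- the indicator of `Meets` -/
noncomputable def ind (p q r s : ℝ × ℝ) : ℝ≥0∞ := if Meets p q r s then 1 else 0

/-- the number of the three pairings of the four points whose segments meet -/
noncomputable def Nn (p q r s : ℝ × ℝ) : ℝ≥0∞ := ind p q r s + ind p r q s + ind p s q r

/-- the energy of `f`: the integral of `Nn` -/
noncomputable def En (f : unitInterval → ℝ × ℝ) : ℝ≥0∞ :=
  ∫⁻ x : unitInterval × unitInterval × unitInterval × unitInterval,
    Nn (f x.1) (f x.2.1) (f x.2.2.1) (f x.2.2.2)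

/-- the mixed energy of four measures -/
noncomputable def quad (m₁ m₂ m₃ m₄ : Measure (ℝ × ℝ)) : ℝ≥0∞ :=
  ∫⁻ a, ∫⁻ b, ∫⁻ c, ∫⁻ d, Nn a b c d ∂m₄ ∂m₃ ∂m₂ ∂m₁

/-- the potential of the point `x` -/
noncomputable def Psi (m : Measure (ℝ × ℝ)) (x : ℝ × ℝ) : ℝ≥0∞ :=
  ∫⁻ b, ∫⁻ c, ∫⁻ d, Nn x b c d ∂m ∂m ∂m

/-- the pair potential (for a measure which charges no line: the probability that two further points are in convex position
with `y, z`) -/
noncomputable def qq (m : Measure (ℝ × ℝ)) (y z : ℝ × ℝ) : ℝ≥0∞ := ∫⁻ c, ∫⁻ d, Nn y z c d ∂m ∂m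

/-- `m` charges no line -/
def NoLines (m : Measure (ℝ × ℝ)) : Prop :=
  ∀ p w : ℝ × ℝ, w ≠ 0 → m {z | det p (p + w) z = 0} = 0

/-- the law of `f` restricted to `S` -/
noncomputable def lawOn (f : unitInterval → ℝ × ℝ) (S : Set unitInterval) : Measure (ℝ × ℝ) :=
  Measure.map f (volume.restrict S)

/-- the law of `f` -/
noncomputable def law (f : unitInterval → ℝ × ℝ) : Measure (ℝ × ℝ) := Measure.map f volume

end Pool.Agent.LibCX37
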