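import Pool.Agent.LibCX37.Y0

/-!
[CY E1] **The essential range.**
PROOF. `closed`: if `y_k → y`, `y_k ∈ essRange f`, the ball `B(y,ε)` contains a ball `B(y_k, ε/2)`. `null`: every `y ∉ essRange f` has a
ball with null preimage; a countable subcover of the open set `(essRange f)ᶜ` (second countable: `TopologicalSpace.isOpen_iUnion_countable`,
or `measure_null_of_locally_null`) gives `law f (essRange f)ᶜ = 0`. `pos`: `Measure.map_apply`. Compact: closed and contained in the closure
of `range f` (bounded): if `y` is not in the closure then some ball has empty preimage. Nonempty: otherwise `law f univ = 0`.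
(`essRange_eq_range`) `f` continuous: `range f` is compact; `f ω ∈ essRange f` as `f ⁻¹' ball (f ω) ε` is a nonempty open subset of
`unitInterval` and `volume` is positive on nonempty open sets (`IsOpenPosMeasure`; if the instance is missing: a nonempty open set of
`unitInterval` contains a relatively open interval, of positive length).
-/

set_option autoImplicit false

namespace Pool.Agent.LibCX37

open MeasureTheory Set Filter Topology
open scoped ENNReal

theorem e1_law_ball (f : unitInterval → ℝ × ℝ) (hf : Measurable f) (y : ℝ × ℝ) (ε : ℝ) :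
    law f (Metric.ball y ε) = volume (f ⁻¹' Metric.ball y ε) := by
  unfold law
  exact Measure.map_apply hf measurableSet_ball

theorem e1_closed (f : unitInterval → ℝ × ℝ) : IsClosed (essRange f) := by
  rw [← closure_subset_iff_isClosed]
  intro y hy ε hε
  obtain ⟨z, hz, hyz⟩ := Metric.mem_closure_iff.1 hy (ε / 2) (by positivity)
  refine lt_of_lt_of_le (hz (ε / 2) (by positivity)) (measure_mono (preimage_mono ?_))
  intro t ht
  rw [Metric.mem_ball] at ht ⊢
  rw [dist_comm] at hyz
  calc dist t y ≤ dist t z + dist z y := dist_triangle _ _ _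
    _ < ε / 2 + ε / 2 := add_lt_add ht hyz
    _ = ε := by ring

theorem supp_essRange (f : unitInterval → ℝ × ℝ) (hf : Measurable f) :
    Supp (law f) (essRange f) := by
  refine ⟨e1_closed f, ?_, ?_⟩
  · refine measure_null_of_locally_null _ fun y hy => ?_
    have h1 : ∃ ε : ℝ, 0 < ε ∧ volume (f ⁻¹' Metric.ball y ε) = 0 := by
      by_contra h
      push Not at h
      exact hy fun ε hε => pos_iff_ne_zero.2 (h ε hε)
    obtain ⟨ε, hε, h2⟩ := h1
    exact ⟨Metric.ball y ε, mem_nhdsWithin_of_mem_nhds (Metric.ball_mem_nhds y hε),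
      by rw [e1_law_ball f hf, h2]⟩
  · intro y hy ε hε
    rw [e1_law_ball f hf]
    exact hy ε hε

theorem e1_sub_closure (f : unitInterval → ℝ × ℝ) : essRange f ⊆ closure (range f) := by
  intro y hy
  rw [Metric.mem_closure_iff]
  intro ε hε
  have h1 := hy ε hε
  have h2 : (f ⁻¹' Metric.ball y ε).Nonempty := by
    by_contra h
    rw [Set.not_nonempty_iff_eq_empty] at h
    rw [h, measure_empty] at h1
    exact lt_irrefl _ h1
  obtain ⟨t, ht⟩ := h2
  refine ⟨f t, mem_range_self t, ?_⟩
  rw [dist_comm]
  exact ht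

theorem isCompact_essRange (f : unitInterval → ℝ × ℝ) (hf : IsDrawing f) :
    IsCompact (essRange f) :=
  (hf.2.isCompact_closure).of_isClosed_subset (e1_closed f) (e1_sub_closure f)

theorem nonempty_essRange (f : unitInterval → ℝ × ℝ) (hf : Measurable f) :
    (essRange f).Nonempty := by
  by_contra h
  rw [Set.not_nonempty_iff_eq_empty] at h
  have h1 := (supp_essRange f hf).null
  rw [h, compl_empty] at h1
  unfold law at h1
  rw [Measure.map_apply hf MeasurableSet.univ, preimage_univ, measure_univ] at h1
  exact one_ne_zero h1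

theorem e1_pos (U : Set unitInterval) (hU : IsOpen U) (hne : U.Nonempty) : 0 < volume U := by
  obtain ⟨t, ht⟩ := hne
  obtain ⟨ε, hε, hb⟩ := Metric.isOpen_iff.1 hU t ht
  have ht0 := t.2.1
  have ht1 := t.2.2
  obtain ⟨a, ha⟩ : ∃ a : unitInterval, (a : ℝ) = max 0 ((t : ℝ) - ε / 2) :=
    ⟨⟨max 0 ((t : ℝ) - ε / 2), le_max_left _ _, max_le zero_le_one (by linarith)⟩, rfl⟩
  obtain ⟨b, hb'⟩ : ∃ b : unitInterval, (b : ℝ) = min 1 ((t : ℝ) + ε / 2) :=
    ⟨⟨min 1 ((t : ℝ) + ε / 2), le_min zero_le_one (by linarith), min_le_left _ _⟩, rfl⟩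
  have hab : 0 < (b : ℝ) - a := by
    rw [ha, hb', sub_pos]
    refine max_lt (lt_min one_pos (by linarith)) (lt_min (by linarith) (by linarith))
  have h1 : Icc a b ⊆ U := by
    intro s hs
    refine hb ?_
    have h2 : (a : ℝ) ≤ s := hs.1
    have h3 : (s : ℝ) ≤ b := hs.2
    have h4 : (t : ℝ) - ε / 2 ≤ a := by rw [ha]; exact le_max_right _ _
    have h5 : (b : ℝ) ≤ t + ε / 2 := by rw [hb']; exact min_le_right _ _
    rw [Metric.mem_ball, Subtype.dist_eq, Real.dist_eq, abs_lt]
    constructor <;> linarith
  refine lt_of_lt_of_le ?_ (measure_mono h1)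
  rw [unitInterval.volume_Icc]
  exact ENNReal.ofReal_pos.2 hab

theorem essRange_eq_range (f : unitInterval → ℝ × ℝ) (hf : Continuous f) :
    essRange f = range f := by
  refine Subset.antisymm ?_ ?_
  · have h1 : IsClosed (range f) := (isCompact_range hf).isClosed
    have h2 := e1_sub_closure f
    rwa [h1.closure_eq] at h2
  · rintro _ ⟨t, rfl⟩ ε hε
    exact e1_pos _ (Metric.isOpen_ball.preimage hf) ⟨t, Metric.mem_ball_self hε⟩

end Pool.Agent.LibCX37
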