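import Pool.Agent.LibCX37.G2

/-!
[CX G3] **`Nn` is locally constant from below at points in general position.**
PROOF. In general position each of the three pairings meets iff two strict sign conditions hold (see G2; use `sign_of_meets` in one
direction and `meets_of_sign` in the other), `det` is continuous, so the strict sign conditions persist near `(p, q)`; hence
each indicator is eventually at least its value at `(p, q, r, s)`.
-/

set_option autoImplicit false

namespace Pool.Agent.LibCX37

open MeasureTheory Set Filter Topology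
open scoped ENNReal

theorem g3_ind {X : Type} [TopologicalSpace X] (P Q R S : X → ℝ × ℝ) (hP : Continuous P)
    (hQ : Continuous Q) (hR : Continuous R) (hS : Continuous S) (x₀ : X)
    (h : GP (P x₀) (Q x₀) (R x₀) (S x₀)) :
    ∀ᶠ x in 𝓝 x₀, ind (P x₀) (Q x₀) (R x₀) (S x₀) ≤ ind (P x) (Q x) (R x) (S x) := by
  classical
  by_cases hm : Meets (P x₀) (Q x₀) (R x₀) (S x₀)
  · obtain ⟨h1, h2⟩ := sign_of_meets _ _ _ _ h hm
    have c1 : Continuous fun x => det (P x) (Q x) (R x) * det (P x) (Q x) (S x) := by
      unfold det
      fun_prop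
    have c2 : Continuous fun x => det (P x) (R x) (S x) * det (Q x) (R x) (S x) := by
      unfold det
      fun_prop
    have e1 := (c1.tendsto x₀).eventually_lt_const h1
    have e2 := (c2.tendsto x₀).eventually_lt_const h2
    filter_upwards [e1, e2] with x hx1 hx2
    have hmx : Meets (P x) (Q x) (R x) (S x) := meets_of_sign _ _ _ _ hx1 hx2
    unfold ind
    rw [if_pos hm, if_pos hmx]
  · refine Filter.Eventually.of_forall fun x => ?_
    unfold ind
    rw [if_neg hm]
    exact zero_le

theorem Nn_lsc (p q r s : ℝ × ℝ) (h : GP p q r s) :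
    ∀ᶠ z : (ℝ × ℝ) × (ℝ × ℝ) in 𝓝 (p, q), Nn p q r s ≤ Nn z.1 z.2 r s := by
  obtain ⟨h1, h2, h3, h4⟩ := h
  have g2 : GP p r q s := by
    refine ⟨?_, h3, h2, ?_⟩
    · intro hh
      apply h1
      unfold det at hh ⊢
      linarith
    · intro hh
      apply h4
      unfold det at hh ⊢
      linarith
  have g3 : GP p s q r := by
    refine ⟨?_, ?_, h1, ?_⟩
    · intro hh
      apply h2
      unfold det at hh ⊢
      linarith
    · intro hh
      apply h3
      unfold det at hh ⊢
      linarith
    · intro hh
      apply h4
      unfold det at hh ⊢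
      linarith
  have e1 := g3_ind (X := (ℝ × ℝ) × (ℝ × ℝ)) (fun z => z.1) (fun z => z.2) (fun _ => r)
    (fun _ => s) continuous_fst continuous_snd continuous_const continuous_const (p, q)
    ⟨h1, h2, h3, h4⟩
  have e2 := g3_ind (X := (ℝ × ℝ) × (ℝ × ℝ)) (fun z => z.1) (fun _ => r) (fun z => z.2)
    (fun _ => s) continuous_fst continuous_const continuous_snd continuous_const (p, q) g2
  have e3 := g3_ind (X := (ℝ × ℝ) × (ℝ × ℝ)) (fun z => z.1) (fun _ => s) (fun z => z.2)
    (fun _ => r) continuous_fst continuous_const continuous_snd continuous_const (p, q) g3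
  filter_upwards [e1, e2, e3] with z hz1 hz2 hz3
  unfold Nn
  exact add_le_add (add_le_add hz1 hz2) hz3

end Pool.Agent.LibCX37
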