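import Pool.Agent.LibCX37.C2
import Pool.Agent.LibCX37.G3

/-!
[CY F1] **The potential is lower semicontinuous.**
PROOF. For a.e. `(b,c,d)` (`m.prod (m.prod m)`) the four points `x,b,c,d` are in general position: `det x b c ≠ 0` for a.e. `(b,c)`
(`c2_ae_det_ne` in C2), the same for `(b,d)`, `(c,d)`, and `det b c d ≠ 0` for every `b` and a.e. `(c,d)` (`c2_ae_det_ne` with `b` in place of `x`).
By `Nn_lsc` (G3; take `Tendsto (fun x' => (x', b)) (𝓝 x) (𝓝 (x, b))`) `Nn x b c d ≤ Nn x' b c d` for all `x'` near `x`. Fatou for sequences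
`x_n → x` (`lintegral_liminf_le`) gives `Psi m x ≤ liminf Psi m (x_n)`; argue by contradiction with `x_n ∈ ball x (1/(n+1))`,
`Psi m x_n + c < Psi m x` (`Psi m x ≤ 3` is finite).
-/

set_option autoImplicit false

namespace Pool.Agent.LibCX37

open MeasureTheory Set Filter Topology
open scoped ENNReal

private theorem f1_Psi_eq (m : Measure (ℝ × ℝ)) [IsProbabilityMeasure m] (x : ℝ × ℝ) :
    Psi m x = ∫⁻ z, Nn x z.1 z.2.1 z.2.2 ∂(m.prod (m.prod m)) := by
  have hN : Measurable (fun z : (ℝ × ℝ) × ((ℝ × ℝ) × (ℝ × ℝ)) => Nn x z.1 z.2.1 z.2.2) :=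
    c2_meas_Nn measurable_const (by fun_prop) (by fun_prop) (by fun_prop)
  rw [lintegral_prod _ hN.aemeasurable]
  unfold Psi
  refine lintegral_congr fun b => ?_
  have h2 : Measurable (fun q : (ℝ × ℝ) × (ℝ × ℝ) => Nn x b q.1 q.2) :=
    c2_meas_Nn measurable_const measurable_const measurable_fst measurable_snd
  rw [lintegral_prod _ h2.aemeasurable]

private theorem f1_ae (m : Measure (ℝ × ℝ)) [IsProbabilityMeasure m] (hm : NoLines m) (x : ℝ × ℝ) :
    ∀ᵐ z ∂(m.prod (m.prod m)), GP x z.1 z.2.1 z.2.2 := by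
  have hms : MeasurableSet {z : (ℝ × ℝ) × ((ℝ × ℝ) × (ℝ × ℝ)) | GP x z.1 z.2.1 z.2.2} := by
    have e : ∀ f : (ℝ × ℝ) × ((ℝ × ℝ) × (ℝ × ℝ)) → ℝ, Measurable f →
        MeasurableSet {z | f z ≠ 0} := fun f hf =>
      (measurableSet_eq_fun hf measurable_const).compl
    unfold GP
    refine (e (fun z => det x z.1 z.2.1) ?_).inter ((e (fun z => det x z.1 z.2.2) ?_).inter
      ((e (fun z => det x z.2.1 z.2.2) ?_).inter (e (fun z => det z.1 z.2.1 z.2.2) ?_)))
    all_goals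
      unfold det
      fun_prop
  rw [Measure.ae_prod_iff_ae_ae hms]
  have h0 : ∀ᵐ b ∂m, b ≠ x := by
    rw [ae_iff]
    simpa using c2_null_singleton m hm x
  filter_upwards [h0] with b hb
  have h1 : ∀ᵐ c ∂m, det x b c ≠ 0 := by
    have h2 := hm x (b - x) (sub_ne_zero.mpr hb)
    rw [add_sub_cancel] at h2
    rw [ae_iff]
    simpa using h2
  have a1 : ∀ᵐ q ∂(m.prod m), det x b q.1 ≠ 0 := Measure.quasiMeasurePreserving_fst.ae h1
  have a2 : ∀ᵐ q ∂(m.prod m), det x b q.2 ≠ 0 := Measure.quasiMeasurePreserving_snd.ae h1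
  filter_upwards [a1, a2, c2_ae_det_ne m hm x, c2_ae_det_ne m hm b] with q q1 q2 q3 q4
  exact ⟨q1, q2, q3, q4⟩

private theorem f1_fatou (m : Measure (ℝ × ℝ)) [IsProbabilityMeasure m] (hm : NoLines m)
    (x : ℝ × ℝ) (y : ℕ → ℝ × ℝ) (hy : Tendsto y atTop (𝓝 x)) :
    Psi m x ≤ liminf (fun n => Psi m (y n)) atTop := by
  have hN : ∀ n, Measurable (fun z : (ℝ × ℝ) × ((ℝ × ℝ) × (ℝ × ℝ)) =>
      Nn (y n) z.1 z.2.1 z.2.2) := fun n =>
    c2_meas_Nn measurable_const (by fun_prop) (by fun_prop) (by fun_prop)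
  have h1 := lintegral_liminf_le (μ := m.prod (m.prod m)) (u := (atTop : Filter ℕ)) hN
  simp only [← f1_Psi_eq] at h1
  refine le_trans ?_ h1
  rw [f1_Psi_eq]
  apply lintegral_mono_ae
  filter_upwards [f1_ae m hm x] with z hz
  have h2 := Nn_lsc _ _ _ _ hz
  have h3 : Tendsto (fun n => (y n, z.1)) atTop (𝓝 (x, z.1)) := hy.prodMk_nhds tendsto_const_nhds
  exact le_liminf_of_le (by isBoundedDefault) (h3.eventually h2)

private theorem f1_fin (m : Measure (ℝ × ℝ)) [IsProbabilityMeasure m] (x : ℝ × ℝ) :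
    Psi m x ≠ ∞ := by
  rw [f1_Psi_eq]
  have h1 : ∫⁻ z, Nn x z.1 z.2.1 z.2.2 ∂(m.prod (m.prod m)) ≤
      ∫⁻ _, (3 : ℝ≥0∞) ∂(m.prod (m.prod m)) := lintegral_mono fun z => Nn_le_three _ _ _ _
  rw [lintegral_const, measure_univ, mul_one] at h1
  exact ne_top_of_le_ne_top (by norm_num) h1

theorem Psi_lsc (m : Measure (ℝ × ℝ)) [IsProbabilityMeasure m] (hm : NoLines m) (x : ℝ × ℝ)
    (c : ℝ≥0∞) (hc : 0 < c) :
    ∃ ε : ℝ, 0 < ε ∧ ∀ x' ∈ Metric.ball x ε, Psi m x ≤ Psi m x' + c := by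
  by_contra hcon
  push Not at hcon
  have hch : ∀ n : ℕ, ∃ x' ∈ Metric.ball x (1 / ((n : ℝ) + 1)), Psi m x' + c < Psi m x :=
    fun n => hcon _ (by positivity)
  choose y hy1 hy2 using hch
  have hlim : Tendsto y atTop (𝓝 x) := by
    rw [tendsto_iff_dist_tendsto_zero]
    exact squeeze_zero (fun _ => dist_nonneg) (fun n => (Metric.mem_ball.1 (hy1 n)).le)
      tendsto_one_div_add_atTop_nhds_zero_nat
  have hF := f1_fatou m hm x y hlim
  have hx := f1_fin m x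
  have hc1 : c ≠ ∞ := by
    rintro rfl
    have := hy2 0
    rw [add_top] at this
    exact not_top_lt this
  have hx0 : Psi m x ≠ 0 := by
    intro h
    have := hy2 0
    rw [h] at this
    exact not_lt_zero this
  have hlt : Psi m x - c < Psi m x := ENNReal.sub_lt_self hx hx0 hc.ne'
  obtain ⟨n, hn⟩ := (eventually_lt_of_lt_liminf (hlt.trans_le hF)).exists
  exact absurd (ENNReal.le_sub_of_add_le_right hc1 (hy2 n).le) (not_le.2 hn)

end Pool.Agent.LibCX37
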