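import Pool.Agent.LibCX37.Defs

/-!
[CX K3] **Subsets of prescribed measure.**
PROOF. `F r = (volume (A ∩ {ω | (ω:ℝ) ≤ r})).toReal` is monotone, `|F r - F r'| ≤ |r - r'|` (the measure of an interval of `unitInterval`), so
continuous; `F (-1) = 0`, `F 1 = volume A`. Intermediate value theorem.
-/

set_option autoImplicit false

namespace Pool.Agent.LibCX37

open MeasureTheory Set Filter Topology
open scoped ENNReal

private theorem k3_lip (A : Set unitInterval) (x y : unitInterval) (hxy : x ≤ y) :
    (volume (A ∩ Iic y)).toReal - (volume (A ∩ Iic x)).toReal ≤ (y : ℝ) - x := by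
  have h1 : A ∩ Iic y ⊆ (A ∩ Iic x) ∪ Icc x y := by
    rintro ω ⟨hA, hω⟩
    rcases le_or_gt ω x with h | h
    · exact Or.inl ⟨hA, h⟩
    · exact Or.inr ⟨h.le, hω⟩
  have h2 : volume (A ∩ Iic y) ≤ volume (A ∩ Iic x) + ENNReal.ofReal ((y : ℝ) - x) := by
    refine (measure_mono h1).trans ((measure_union_le _ _).trans ?_)
    rw [unitInterval.volume_Icc]
  have h3 : (0 : ℝ) ≤ (y : ℝ) - x := sub_nonneg.2 hxy
  have h4 := ENNReal.toReal_mono (ENNReal.add_ne_top.2 ⟨measure_ne_top _ _, ENNReal.ofReal_ne_top⟩)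
    h2
  rw [ENNReal.toReal_add (measure_ne_top _ _) ENNReal.ofReal_ne_top,
    ENNReal.toReal_ofReal h3] at h4
  linarith

private theorem k3_mono (A : Set unitInterval) (x y : unitInterval) (hxy : x ≤ y) :
    (volume (A ∩ Iic x)).toReal ≤ (volume (A ∩ Iic y)).toReal :=
  ENNReal.toReal_mono (measure_ne_top _ _)
    (measure_mono (inter_subset_inter_right A (Iic_subset_Iic.2 hxy)))

private theorem k3_cont (A : Set unitInterval) :
    Continuous fun x : unitInterval => (volume (A ∩ Iic x)).toReal := by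
  have h1 : LipschitzWith 1 fun x : unitInterval => (volume (A ∩ Iic x)).toReal := by
    refine LipschitzWith.of_dist_le_mul fun x y => ?_
    rw [NNReal.coe_one, one_mul, Subtype.dist_eq, Real.dist_eq, Real.dist_eq]
    rcases le_total x y with h | h
    · have h2 := k3_lip A x y h
      have h3 := k3_mono A x y h
      have h4 : (x : ℝ) ≤ y := h
      rw [abs_sub_comm, abs_of_nonneg (by linarith), abs_sub_comm, abs_of_nonneg (by linarith)]
      exact h2
    · have h2 := k3_lip A y x h
      have h3 := k3_mono A y x h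
      have h4 : (y : ℝ) ≤ x := h
      rw [abs_of_nonneg (by linarith), abs_of_nonneg (by linarith)]
      exact h2
  exact h1.continuous

theorem exists_subset_volume (A : Set unitInterval) (hA : MeasurableSet A) (s : ℝ≥0∞)
    (hs : s ≤ volume A) : ∃ S ⊆ A, MeasurableSet S ∧ volume S = s := by
  have hst : s ≠ ⊤ := ne_top_of_le_ne_top (measure_ne_top _ _) hs
  have h0 : (volume (A ∩ Iic (0 : unitInterval))).toReal ≤ s.toReal := by
    have h1 : volume (A ∩ Iic (0 : unitInterval)) = 0 := by
      refine le_antisymm ((measure_mono inter_subset_right).trans ?_) bot_le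
      rw [unitInterval.volume_Iic]
      simp
    rw [h1, ENNReal.toReal_zero]
    exact ENNReal.toReal_nonneg
  have h1 : s.toReal ≤ (volume (A ∩ Iic (1 : unitInterval))).toReal := by
    have h2 : A ∩ Iic (1 : unitInterval) = A := by
      refine inter_eq_left.2 fun ω _ => ?_
      exact ω.2.2
    rw [h2]
    exact ENNReal.toReal_mono (measure_ne_top _ _) hs
  obtain ⟨x, hx⟩ := mem_range_of_exists_le_of_exists_ge (k3_cont A) ⟨0, h0⟩ ⟨1, h1⟩
  refine ⟨A ∩ Iic x, inter_subset_left, hA.inter measurableSet_Iic, ?_⟩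
  exact (ENNReal.toReal_eq_toReal_iff' (measure_ne_top _ _) hst).1 hx

end Pool.Agent.LibCX37
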