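import Pool.Agent.LibCX37.P0
import Pool.Agent.LibCX37.C3
import Pool.Agent.LibCX37.A2

/-!
[CX P1] **The second order condition.**
PROOF. Let `t = volume S > 0` (for `t = 0` both sides are `0`). `Psi τ ∘ f` is measurable (`measurable_Nn`), bounded by `3`; there is `ω₀ ∈ S` (or any
`ω₀`) with `t * Psi τ (f ω₀) ≤ ∫⁻ ω in S, Psi τ (f ω)` (`exists_le_setLAverage` or `exists_le_laverage`). For every `η > 0` the cluster
competitor at `x = f ω₀` (`cluster`) and `Attains.En_le` give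
`quad τ⁴ + 4 ∫_S Psi + 6 ∫∫ qq τ ≤ En f ≤ En g ≤ quad τ⁴ + 4 ∫_S Psi + 3 t² + 15 t³ + η`; cancel the finite terms, let `η → 0`:
`6 ∫∫ qq τ ≤ 3 t² + 15 t³`. With `qq_le`: `6 ∫∫ qq (law f) ≤ 3 t² + 15 t³ + 36 t³`, divide by `6` (`51/6 ≤ 9`).
-/

set_option autoImplicit false

namespace Pool.Agent.LibCX37

open MeasureTheory Set Filter Topology
open scoped ENNReal

/-- a point of `S` at which the function is almost at most its average (no measurability) -/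
theorem p1_exists {Ω : Type*} [MeasurableSpace Ω] (μ : Measure Ω) (S : Set Ω)
    (hS : MeasurableSet S) (h0 : μ S ≠ 0) (h1 : μ S ≠ ∞) (F : Ω → ℝ≥0∞)
    (hL : ∫⁻ a in S, F a ∂μ ≠ ∞) (η : ℝ≥0∞) (hη : 0 < η) :
    ∃ ω ∈ S, μ S * F ω ≤ (∫⁻ a in S, F a ∂μ) + η := by
  by_contra hcon
  have hcon' : ∀ ω ∈ S, (∫⁻ a in S, F a ∂μ) + η < μ S * F ω := by
    intro ω hω
    by_contra h
    exact hcon ⟨ω, hω, not_lt.mp h⟩
  have hint : ∫⁻ _ in S, ((∫⁻ a in S, F a ∂μ) + η) ∂μ ≤ ∫⁻ ω in S, μ S * F ω ∂μ := by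
    refine setLIntegral_mono' hS ?_
    intro ω hω
    exact (hcon' ω hω).le
  rw [setLIntegral_const, lintegral_const_mul' _ _ h1, mul_comm] at hint
  have h2 : (∫⁻ a in S, F a ∂μ) + η ≤ ∫⁻ a in S, F a ∂μ :=
    (ENNReal.mul_le_mul_iff_right h0 h1).1 hint
  have h3 : (∫⁻ a in S, F a ∂μ) < (∫⁻ a in S, F a ∂μ) + η :=
    ENNReal.lt_add_right hL hη.ne'
  exact absurd h2 (not_le.mpr h3)

theorem p1_arith (t D : ℝ≥0∞) (ht : t ≠ ∞) (h : 6 * D ≤ 3 * t ^ 2 + 15 * t ^ 3) :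
    D + 6 * t ^ 3 ≤ t ^ 2 / 2 + 9 * t ^ 3 := by
  have hfin : 3 * t ^ 2 + 15 * t ^ 3 ≠ ∞ := by
    refine ENNReal.add_ne_top.mpr ⟨ENNReal.mul_ne_top (by norm_num) (ENNReal.pow_ne_top ht),
      ENNReal.mul_ne_top (by norm_num) (ENNReal.pow_ne_top ht)⟩
  have hD : D ≠ ∞ := by
    intro hD
    rw [hD] at h
    rw [ENNReal.mul_top (by norm_num)] at h
    exact hfin (top_le_iff.mp h)
  lift t to NNReal using ht
  lift D to NNReal using hD
  have h' : 6 * D ≤ 3 * t ^ 2 + 15 * t ^ 3 := by exact_mod_cast h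
  have h2 : ((t : ℝ≥0∞) ^ 2 / 2) = ((t ^ 2 / 2 : NNReal) : ℝ≥0∞) := by
    rw [ENNReal.coe_div two_ne_zero]
    norm_cast
  rw [h2]
  have h3 : D + 6 * t ^ 3 ≤ t ^ 2 / 2 + 9 * t ^ 3 := by
    rw [← NNReal.coe_le_coe] at h' ⊢
    push_cast at h' ⊢
    have ht3 : 0 ≤ (t : ℝ) ^ 3 := pow_nonneg t.2 3
    linarith
  exact_mod_cast h3

theorem Attains.second_order {f : unitInterval → ℝ × ℝ} (h : Attains f) (S : Set unitInterval)
    (hS : MeasurableSet S) :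
    ∫⁻ a in S, ∫⁻ b in S, qq (law f) (f a) (f b) ≤
      (volume S) ^ 2 / 2 + 9 * (volume S) ^ 3 := by
  have hf : Measurable f := h.1.1
  by_cases h0 : volume S = 0
  · have hz : ∫⁻ a in S, ∫⁻ b in S, qq (law f) (f a) (f b) = 0 := by
      rw [Measure.restrict_eq_zero.mpr h0]
      simp
    rw [hz]
    exact zero_le
  have h1 : volume S ≠ ∞ := measure_ne_top _ _
  have hEn : En f ≠ ∞ := ne_top_of_le_ne_top (by norm_num) (En_le_three f)
  have hlow := En_lower f hf S hS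
  -- finiteness
  have hsum : quad (lawOn f Sᶜ) (lawOn f Sᶜ) (lawOn f Sᶜ) (lawOn f Sᶜ) +
      4 * ∫⁻ ω in S, Psi (lawOn f Sᶜ) (f ω) ≠ ∞ :=
    ne_top_of_le_ne_top hEn (le_trans le_self_add hlow)
  have hL : ∫⁻ ω in S, Psi (lawOn f Sᶜ) (f ω) ≠ ∞ := by
    intro hL
    apply hsum
    rw [hL, ENNReal.mul_top (by norm_num)]
    exact ENNReal.add_eq_top.mpr (Or.inr rfl)
  -- the main bound
  have hmain : 6 * (∫⁻ a in S, ∫⁻ b in S, qq (lawOn f Sᶜ) (f a) (f b)) ≤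
      3 * (volume S) ^ 2 + 15 * (volume S) ^ 3 := by
    have hfin : 3 * (volume S) ^ 2 + 15 * (volume S) ^ 3 ≠ ∞ := by
      refine ENNReal.add_ne_top.mpr ⟨ENNReal.mul_ne_top (by norm_num) (ENNReal.pow_ne_top h1),
        ENNReal.mul_ne_top (by norm_num) (ENNReal.pow_ne_top h1)⟩
    refine ENNReal.le_of_forall_pos_le_add ?_
    intro ε hε _
    have hε5 : 0 < ε / 5 := by positivity
    have hη : (0 : ℝ≥0∞) < ((ε / 5 : NNReal) : ℝ≥0∞) := ENNReal.coe_pos.mpr hε5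
    obtain ⟨ω, _, hω⟩ := p1_exists volume S hS h0 h1 (fun ω => Psi (lawOn f Sᶜ) (f ω)) hL
      ((ε / 5 : NNReal) : ℝ≥0∞) hη
    obtain ⟨g, hg, hgE⟩ := cluster f h.1 h.noLines S hS (f ω) ((ε / 5 : NNReal) : ℝ≥0∞) hη
    have hle := le_trans hlow (le_trans (h.En_le hg) hgE)
    have hle2 : quad (lawOn f Sᶜ) (lawOn f Sᶜ) (lawOn f Sᶜ) (lawOn f Sᶜ) +
        4 * (∫⁻ ω in S, Psi (lawOn f Sᶜ) (f ω)) +
        6 * (∫⁻ a in S, ∫⁻ b in S, qq (lawOn f Sᶜ) (f a) (f b)) ≤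
        quad (lawOn f Sᶜ) (lawOn f Sᶜ) (lawOn f Sᶜ) (lawOn f Sᶜ) +
        4 * (∫⁻ ω in S, Psi (lawOn f Sᶜ) (f ω)) +
        (3 * (volume S) ^ 2 + 15 * (volume S) ^ 3 + ε) := by
      refine le_trans hle ?_
      have h4 : 4 * (volume S * Psi (lawOn f Sᶜ) (f ω)) ≤
          4 * ((∫⁻ ω in S, Psi (lawOn f Sᶜ) (f ω)) + ((ε / 5 : NNReal) : ℝ≥0∞)) := by
        gcongr
      have h5 : 4 * ((ε / 5 : NNReal) : ℝ≥0∞) + ((ε / 5 : NNReal) : ℝ≥0∞) = (ε : ℝ≥0∞) := by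
        have : 4 * (ε / 5) + ε / 5 = ε := by
          have h55 : (ε / 5) * 5 = ε := div_mul_cancel₀ ε (by norm_num)
          calc 4 * (ε / 5) + ε / 5 = (ε / 5) * 5 := by ring
            _ = ε := h55
        exact_mod_cast congrArg (fun z : NNReal => (z : ℝ≥0∞)) this
      calc quad (lawOn f Sᶜ) (lawOn f Sᶜ) (lawOn f Sᶜ) (lawOn f Sᶜ) +
            4 * (volume S * Psi (lawOn f Sᶜ) (f ω)) + 3 * (volume S) ^ 2 +
            15 * (volume S) ^ 3 + ((ε / 5 : NNReal) : ℝ≥0∞)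
          ≤ quad (lawOn f Sᶜ) (lawOn f Sᶜ) (lawOn f Sᶜ) (lawOn f Sᶜ) +
            4 * ((∫⁻ ω in S, Psi (lawOn f Sᶜ) (f ω)) + ((ε / 5 : NNReal) : ℝ≥0∞)) +
            3 * (volume S) ^ 2 + 15 * (volume S) ^ 3 + ((ε / 5 : NNReal) : ℝ≥0∞) := by
              gcongr
        _ = quad (lawOn f Sᶜ) (lawOn f Sᶜ) (lawOn f Sᶜ) (lawOn f Sᶜ) +
            4 * (∫⁻ ω in S, Psi (lawOn f Sᶜ) (f ω)) +
            (3 * (volume S) ^ 2 + 15 * (volume S) ^ 3 +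
              (4 * ((ε / 5 : NNReal) : ℝ≥0∞) + ((ε / 5 : NNReal) : ℝ≥0∞))) := by ring
        _ = _ := by rw [h5]
    exact (ENNReal.add_le_add_iff_left hsum).1 hle2
  have hmeas : MeasurableSet S := hS
  calc ∫⁻ a in S, ∫⁻ b in S, qq (law f) (f a) (f b)
      ≤ ∫⁻ a in S, ∫⁻ b in S, (qq (lawOn f Sᶜ) (f a) (f b) + 6 * volume S) := by
        refine lintegral_mono ?_
        intro a
        refine lintegral_mono ?_
        intro b
        exact qq_le f hf S hS (f a) (f b)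
    _ = (∫⁻ a in S, ∫⁻ b in S, qq (lawOn f Sᶜ) (f a) (f b)) + 6 * (volume S) ^ 3 := by
        have hin : ∀ a, ∫⁻ b in S, (qq (lawOn f Sᶜ) (f a) (f b) + 6 * volume S) =
            (∫⁻ b in S, qq (lawOn f Sᶜ) (f a) (f b)) + 6 * volume S * volume S := by
          intro a
          rw [lintegral_add_right _ measurable_const, setLIntegral_const]
        simp_rw [hin]
        rw [lintegral_add_right _ measurable_const, setLIntegral_const]
        ring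
    _ ≤ _ := p1_arith _ _ h1 hmain

end Pool.Agent.LibCX37
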