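import Pool.Agent.LibCX37.F1
import Pool.Agent.LibCX37.P1
import Pool.Agent.LibCX37.K3

/-!
[CY F2] **The first order condition: the potential of an optimal drawing is minimal on the essential range.**
PROOF. `m = law f`. It is enough: `Psi m x ≤ Psi m z + 15 c` for every `c ∈ (0, 1]`. Take `ε` from `Psi_lsc m x c`, `A = f ⁻¹' ball x ε` (positive
volume as `x ∈ essRange f`), `s = min (volume A) c`, `S ⊆ A` with `volume S = s` (`exists_subset_volume`), `τ = lawOn f Sᶜ`.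
`cluster` (C3) at the point `z` with `η = s²`, `Attains.En_le` and `En_lower` (P0, drop the last term) give, after cancelling the finite
`quad τ τ τ τ`: `4 ∫_S Psi τ (f ω) ≤ 4 s Psi τ z + 3 s² + 15 s³ + s² ≤ 4 s Psi τ z + 19 s²`.
`Psi m y ≤ Psi τ y + 9 s` for every `y` (`law f = τ + lawOn f S`, expand the three measures: each of the 7 other terms has a factor
`lawOn f S univ = s`, total at most `3 (3 s)`; or: `Psi (τ+σ) y ≤ Psi τ y + 3 * (3 s)` by replacing one measure at a time) and `Psi τ z ≤ Psi m z`.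
`s Psi m x ≤ ∫_S (Psi m (f ω) + c) ≤ ∫_S Psi τ (f ω) + 9 s² + c s`. So `4 s Psi m x ≤ 4 s Psi m z + 19 s² + 36 s² + 4 c s`; divide by `4 s`:
`Psi m x ≤ Psi m z + 14 s + c ≤ Psi m z + 15 c`.
-/

set_option autoImplicit false

namespace Pool.Agent.LibCX37

open MeasureTheory Set Filter Topology
open scoped ENNReal

theorem f2_qq_le (m : Measure (ℝ × ℝ)) (hm : m univ ≤ 1) (y b : ℝ × ℝ) : qq m y b ≤ 3 := by
  have h1 : ∀ c : ℝ × ℝ, ∫⁻ d, Nn y b c d ∂m ≤ 3 := by
    intro c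
    calc ∫⁻ d, Nn y b c d ∂m ≤ ∫⁻ _, 3 ∂m := lintegral_mono fun d => p0_Nn_le _ _ _ _
      _ = 3 * m univ := lintegral_const _
      _ ≤ 3 * 1 := mul_le_mul_right hm _
      _ = 3 := mul_one _
  calc qq m y b ≤ ∫⁻ _, 3 ∂m := lintegral_mono h1
    _ = 3 * m univ := lintegral_const _
    _ ≤ 3 * 1 := mul_le_mul_right hm _
    _ = 3 := mul_one _

theorem f2_Psi_le (m : Measure (ℝ × ℝ)) (hm : m univ ≤ 1) (y : ℝ × ℝ) : Psi m y ≤ 3 := by
  calc Psi m y = ∫⁻ b, qq m y b ∂m := rfl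
    _ ≤ ∫⁻ _, 3 ∂m := lintegral_mono fun b => f2_qq_le m hm y b
    _ = 3 * m univ := lintegral_const _
    _ ≤ 3 * 1 := mul_le_mul_right hm _
    _ = 3 := mul_one _

theorem f2_Psi_mono (m m' : Measure (ℝ × ℝ)) (h : m ≤ m') (z : ℝ × ℝ) : Psi m z ≤ Psi m' z := by
  unfold Psi
  refine lintegral_mono' h fun b => ?_
  refine lintegral_mono' h fun c => ?_
  exact lintegral_mono' h le_rfl

theorem f2_Psi_add (f : unitInterval → ℝ × ℝ) (hf : Measurable f) (S : Set unitInterval)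
    (hS : MeasurableSet S) (y : ℝ × ℝ) :
    Psi (law f) y ≤ Psi (lawOn f Sᶜ) y + 9 * volume S := by
  have hfin := p0_fin f S
  have hfin' := p0_fin f Sᶜ
  have hu := p0_univ f hf S
  have hu' := p0_univ f hf Sᶜ
  have hsum : volume Sᶜ + volume S = (1 : ℝ≥0∞) := by
    rw [add_comm, measure_add_measure_compl hS]
    exact measure_univ
  have hq : ∀ b, qq (law f) y b ≤ qq (lawOn f Sᶜ) y b + 6 * volume S := fun b =>
    qq_le f hf S hS y b
  have h0 : Psi (law f) y ≤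
      ∫⁻ b, (qq (lawOn f Sᶜ) y b + 6 * volume S) ∂(lawOn f Sᶜ + lawOn f S) := by
    calc Psi (law f) y = ∫⁻ b, qq (law f) y b ∂(law f) := rfl
      _ ≤ ∫⁻ b, (qq (lawOn f Sᶜ) y b + 6 * volume S) ∂(law f) := lintegral_mono hq
      _ = _ := by rw [p0_law_add f hf S hS]
  generalize lawOn f S = σ at *
  generalize lawOn f Sᶜ = τ at *
  rw [← hu] at h0 ⊢
  rw [← hu, ← hu'] at hsum
  have hτ : τ univ ≤ 1 := by rw [← hsum]; exact le_self_add
  have h2 : ∫⁻ b, (qq τ y b + 6 * σ univ) ∂τ = Psi τ y + 6 * σ univ * τ univ := by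
    rw [lintegral_add_right _ measurable_const, lintegral_const]
    rfl
  have h3 : ∫⁻ b, (qq τ y b + 6 * σ univ) ∂σ ≤ (3 + 6 * σ univ) * σ univ := by
    calc ∫⁻ b, (qq τ y b + 6 * σ univ) ∂σ ≤ ∫⁻ _, (3 + 6 * σ univ) ∂σ :=
          lintegral_mono fun b => add_le_add (f2_qq_le τ hτ y b) le_rfl
      _ = (3 + 6 * σ univ) * σ univ := lintegral_const _
  calc Psi (law f) y ≤ ∫⁻ b, (qq τ y b + 6 * σ univ) ∂(τ + σ) := h0
    _ = ∫⁻ b, (qq τ y b + 6 * σ univ) ∂τ + ∫⁻ b, (qq τ y b + 6 * σ univ) ∂σ :=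
        lintegral_add_measure _ _ _
    _ ≤ (Psi τ y + 6 * σ univ * τ univ) + (3 + 6 * σ univ) * σ univ := add_le_add h2.le h3
    _ = Psi τ y + (3 * σ univ + 6 * σ univ * (τ univ + σ univ)) := by ring
    _ = Psi τ y + 9 * σ univ := by
        rw [hsum]
        ring

theorem f2_arith (s c X Z I : ℝ≥0∞) (hs0 : s ≠ 0) (hs1 : s ≤ 1) (hsc : s ≤ c)
    (h1 : 4 * I ≤ 4 * (s * Z) + 3 * s ^ 2 + 15 * s ^ 3 + s ^ 2)
    (h2 : s * X ≤ I + (9 * s + c) * s) : X ≤ Z + 15 * c := by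
  have hst : s ≠ ∞ := ne_top_of_le_ne_top (by norm_num) hs1
  have h3 : s * (4 * X) ≤ s * (4 * (Z + 15 * c)) := by
    calc s * (4 * X) = 4 * (s * X) := by ring
      _ ≤ 4 * (I + (9 * s + c) * s) := mul_le_mul_right h2 _
      _ = 4 * I + 4 * ((9 * s + c) * s) := mul_add _ _ _
      _ ≤ (4 * (s * Z) + 3 * s ^ 2 + 15 * s ^ 3 + s ^ 2) + 4 * ((9 * s + c) * s) :=
          add_le_add h1 le_rfl
      _ = s * (4 * Z + 40 * s + 15 * (s * s) + 4 * c) := by ring
      _ ≤ s * (4 * Z + 40 * c + 15 * (1 * c) + 4 * c) := by gcongr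
      _ = s * (4 * Z + 59 * c) := by ring
      _ ≤ s * (4 * Z + 60 * c) := by
          gcongr
          norm_num
      _ = s * (4 * (Z + 15 * c)) := by ring
  have h4 : 4 * X ≤ 4 * (Z + 15 * c) := (ENNReal.mul_le_mul_iff_right hs0 hst).1 h3
  exact (ENNReal.mul_le_mul_iff_right (by norm_num) (by norm_num)).1 h4

theorem f2_step {f : unitInterval → ℝ × ℝ} (h : Attains f) {x : ℝ × ℝ}
    (hx : x ∈ essRange f) (z : ℝ × ℝ) (c : ℝ≥0∞) (hc : 0 < c) (hc1 : c ≤ 1) :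
    Psi (law f) x ≤ Psi (law f) z + 15 * c := by
  have hf : Measurable f := h.1.1
  have hprob : IsProbabilityMeasure (law f) := by
    unfold law
    exact Measure.isProbabilityMeasure_map hf.aemeasurable
  obtain ⟨ε, hε, hball⟩ := Psi_lsc (law f) h.noLines x c hc
  have hApos := hx ε hε
  have hA : MeasurableSet (f ⁻¹' Metric.ball x ε) := hf Metric.isOpen_ball.measurableSet
  obtain ⟨S, hSA, hS, hSv⟩ := exists_subset_volume (f ⁻¹' Metric.ball x ε) hA
    (min (volume (f ⁻¹' Metric.ball x ε)) c) (min_le_left _ _)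
  have hs0 : volume S ≠ 0 := by
    rw [hSv]
    exact (lt_min hApos hc).ne'
  have hsc : volume S ≤ c := by
    rw [hSv]
    exact min_le_right _ _
  have hs1 : volume S ≤ 1 := hsc.trans hc1
  have hη : 0 < volume S ^ 2 := pos_iff_ne_zero.2 (pow_ne_zero 2 hs0)
  obtain ⟨g, hg, hgE⟩ := cluster f h.1 h.noLines S hS z (volume S ^ 2) hη
  have hlow := En_lower f hf S hS
  have hEn : En f ≠ ∞ := ne_top_of_le_ne_top (by norm_num) (En_le_three f)
  have hQ : quad (lawOn f Sᶜ) (lawOn f Sᶜ) (lawOn f Sᶜ) (lawOn f Sᶜ) ≠ ∞ :=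
    ne_top_of_le_ne_top hEn (le_trans le_self_add (le_trans le_self_add hlow))
  have hle := le_trans (le_trans le_self_add hlow) (le_trans (h.En_le hg) hgE)
  have h1 : 4 * (∫⁻ ω in S, Psi (lawOn f Sᶜ) (f ω)) ≤
      4 * (volume S * Psi (lawOn f Sᶜ) z) + 3 * volume S ^ 2 + 15 * volume S ^ 3 +
        volume S ^ 2 := by
    have h2 : quad (lawOn f Sᶜ) (lawOn f Sᶜ) (lawOn f Sᶜ) (lawOn f Sᶜ) +
        4 * (∫⁻ ω in S, Psi (lawOn f Sᶜ) (f ω)) ≤
        quad (lawOn f Sᶜ) (lawOn f Sᶜ) (lawOn f Sᶜ) (lawOn f Sᶜ) +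
        (4 * (volume S * Psi (lawOn f Sᶜ) z) + 3 * volume S ^ 2 + 15 * volume S ^ 3 +
          volume S ^ 2) := by
      refine le_trans hle (le_of_eq ?_)
      ring
    exact (ENNReal.add_le_add_iff_left hQ).1 h2
  have hmono : Psi (lawOn f Sᶜ) z ≤ Psi (law f) z := by
    refine f2_Psi_mono _ _ ?_ z
    unfold lawOn law
    exact Measure.map_mono Measure.restrict_le_self hf
  have h1' : 4 * (∫⁻ ω in S, Psi (lawOn f Sᶜ) (f ω)) ≤
      4 * (volume S * Psi (law f) z) + 3 * volume S ^ 2 + 15 * volume S ^ 3 +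
        volume S ^ 2 := by
    refine le_trans h1 ?_
    gcongr
  have h2 : volume S * Psi (law f) x ≤
      (∫⁻ ω in S, Psi (lawOn f Sᶜ) (f ω)) + (9 * volume S + c) * volume S := by
    calc volume S * Psi (law f) x = ∫⁻ _ in S, Psi (law f) x := by
          rw [setLIntegral_const, mul_comm]
      _ ≤ ∫⁻ ω in S, (Psi (lawOn f Sᶜ) (f ω) + (9 * volume S + c)) := by
          refine setLIntegral_mono' hS ?_
          intro ω hω
          calc Psi (law f) x ≤ Psi (law f) (f ω) + c := hball _ (hSA hω)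
            _ ≤ (Psi (lawOn f Sᶜ) (f ω) + 9 * volume S) + c :=
                add_le_add (f2_Psi_add f hf S hS (f ω)) le_rfl
            _ = _ := add_assoc _ _ _
      _ = _ := by rw [lintegral_add_right _ measurable_const, setLIntegral_const]
  exact f2_arith (volume S) c _ _ _ hs0 hs1 hsc h1' h2

theorem Attains.psi_le {f : unitInterval → ℝ × ℝ} (h : Attains f) {x : ℝ × ℝ}
    (hx : x ∈ essRange f) (z : ℝ × ℝ) : Psi (law f) x ≤ Psi (law f) z := by
  refine ENNReal.le_of_forall_pos_le_add ?_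
  intro ε hε _
  have hc : (0 : ℝ≥0∞) < min 1 ((ε / 15 : NNReal) : ℝ≥0∞) := by
    refine lt_min (by norm_num) ?_
    exact ENNReal.coe_pos.mpr (by positivity)
  refine le_trans (f2_step h hx z _ hc (min_le_left _ _)) ?_
  gcongr
  calc 15 * min 1 ((ε / 15 : NNReal) : ℝ≥0∞) ≤ 15 * ((ε / 15 : NNReal) : ℝ≥0∞) := by
        gcongr
        exact min_le_right _ _
    _ = (ε : ℝ≥0∞) := by
        have h55 : 15 * (ε / 15) = ε := mul_div_cancel₀ ε (by norm_num)
        exact_mod_cast congrArg (fun z : NNReal => (z : ℝ≥0∞)) h55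

end Pool.Agent.LibCX37
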