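import Pool.Agent.LibCX37.Defs

/-!
[CX G0] **Segments and orientations.**
PROOF. Identities (ring): `det r s p = det p r s`, `det r s q = det q r s`, and for `z = (1-t) p + t q`:
`det r s z = (1-t) det r s p + t det r s q`, also `det p q z = 0`, and for `z = (1-t) r + t s`:
`det p q z = (1-t) det p q r + t det p q s`.
(`meets_of_sign`) With `α = det p r s`, `β = det q r s`, `αβ < 0`: `t = α/(α-β) ∈ (0,1)` and `z = (1-t) p + t q` satisfies `det r s z = 0`;
in the same way `γ = det p q r`, `δ = det p q s`, `t' = γ/(γ-δ)`, `z' = (1-t') r + t' s`; the two points are equal: `z` is on both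
lines. (Or check `z = z'` coordinatewise with `field_simp; ring`: note the identity `det q r s - det p r s + det p q s - det p q r = 0`, so
`α - β = δ - γ`.)
(`sign_of_meets`) a common point `z = (1-t) p + t q = (1-t') r + t' s` gives `0 = det p q z = (1-t') γ + t' δ` and
`0 = det r s z = (1-t) α + t β` with `t, t' ∈ [0,1]` and all of `α, β, γ, δ` nonzero: the signs are opposite.
-/

set_option autoImplicit false

namespace Pool.Agent.LibCX37

open MeasureTheory Set

theorem det_rel (p q r s : ℝ × ℝ) : det q r s - det p r s + det p q s - det p q r = 0 := by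
  unfold det; ring

private theorem g0_div_nonneg {x y D : ℝ} (h : 0 < x * y) (hD : x + y = D) : 0 ≤ x / D := by
  have h1 : 0 ≤ x * D := by
    rw [← hD]
    nlinarith [sq_nonneg x]
  rcases le_or_gt 0 D with hD0 | hD0
  · rcases hD0.eq_or_lt with h0 | h0
    · rw [← h0, div_zero]
    · exact div_nonneg (by by_contra hc; push Not at hc; nlinarith) h0.le
  · exact div_nonneg_of_nonpos (by by_contra hc; push Not at hc; nlinarith) hD0.le

theorem meets_of_sign (p q r s : ℝ × ℝ) (h1 : det p q r * det p q s < 0)
    (h2 : det p r s * det q r s < 0) : Meets p q r s := by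
  have hrel := det_rel p q r s
  set D : ℝ := det p r s - det q r s with hD
  have hD0 : D ≠ 0 := by
    intro h0
    have h3 : det p r s = det q r s := by linarith
    rw [h3] at h2
    nlinarith [mul_self_nonneg (det q r s)]
  have e1 : det p r s + -det q r s = D := by rw [hD]; ring
  have e2 : det p q s + -det p q r = D := by rw [hD]; linarith
  have a1 : 0 ≤ det p r s / D := g0_div_nonneg (by linarith) e1
  have a2 : 0 ≤ -det q r s / D := g0_div_nonneg (y := det p r s) (by linarith) (by linarith)
  have a3 : 0 ≤ det p q s / D := g0_div_nonneg (by linarith) e2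
  have a4 : 0 ≤ -det p q r / D := g0_div_nonneg (y := det p q s) (by linarith) (by linarith)
  have s1 : -det q r s / D + det p r s / D = 1 := by
    rw [← add_div, add_comm, e1, div_self hD0]
  have s2 : det p q s / D + -det p q r / D = 1 := by
    rw [← add_div, e2, div_self hD0]
  refine ⟨(-det q r s / D) • p + (det p r s / D) • q, ⟨_, _, a2, a1, s1, rfl⟩,
    ⟨_, _, a3, a4, s2, ?_⟩⟩
  ext
  · simp only [Prod.fst_add, Prod.smul_fst, smul_eq_mul]
    rw [div_mul_eq_mul_div, div_mul_eq_mul_div, div_mul_eq_mul_div, div_mul_eq_mul_div, ← add_div,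
      ← add_div]
    congr 1
    unfold det
    ring
  · simp only [Prod.snd_add, Prod.smul_snd, smul_eq_mul]
    rw [div_mul_eq_mul_div, div_mul_eq_mul_div, div_mul_eq_mul_div, div_mul_eq_mul_div, ← add_div,
      ← add_div]
    congr 1
    unfold det
    ring

private theorem g0_opp {a b x y : ℝ} (ha : 0 ≤ a) (hb : 0 ≤ b) (hab : a + b = 1) (hx : x ≠ 0)
    (hy : y ≠ 0) (h : a * x + b * y = 0) : x * y < 0 := by
  have ha' : 0 < a := by
    rcases ha.eq_or_lt with h0 | h0
    · exfalso
      rw [← h0] at h hab
      have hb1 : b = 1 := by linarith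
      rw [hb1] at h
      exact hy (by linarith)
    · exact h0
  have hb' : 0 < b := by
    rcases hb.eq_or_lt with h0 | h0
    · exfalso
      rw [← h0] at h hab
      have ha1 : a = 1 := by linarith
      rw [ha1] at h
      exact hx (by linarith)
    · exact h0
  have h1 : a * (x * y) = -(b * y ^ 2) := by
    have : a * (x * y) = (a * x) * y := by ring
    rw [this, show a * x = -(b * y) by linarith]
    ring
  have h2 : 0 < b * y ^ 2 := by positivity
  by_contra hc
  push Not at hc
  have h3 : 0 ≤ a * (x * y) := mul_nonneg ha hc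
  linarith

theorem sign_of_meets (p q r s : ℝ × ℝ) (h : GP p q r s) (hm : Meets p q r s) :
    det p q r * det p q s < 0 ∧ det p r s * det q r s < 0 := by
  obtain ⟨g1, g2, g3, g4⟩ := h
  obtain ⟨z, ⟨a, b, ha, hb, hab, hz⟩, ⟨c, d, hc, hd, hcd, hz'⟩⟩ := hm
  have z1 : a * p.1 + b * q.1 = z.1 := by rw [← hz]; rfl
  have z2 : a * p.2 + b * q.2 = z.2 := by rw [← hz]; rfl
  have z3 : c * r.1 + d * s.1 = z.1 := by rw [← hz']; rfl
  have z4 : c * r.2 + d * s.2 = z.2 := by rw [← hz']; rfl
  have ha' : a = 1 - b := by linarith
  have hc' : c = 1 - d := by linarith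
  have k1 : det p q z = c * det p q r + d * det p q s := by
    unfold det
    rw [← z3, ← z4, hc']
    ring
  have k2 : det p q z = 0 := by
    unfold det
    rw [← z1, ← z2, ha']
    ring
  have k3 : det z r s = a * det p r s + b * det q r s := by
    unfold det
    rw [← z1, ← z2, ha']
    ring
  have k4 : det z r s = 0 := by
    unfold det
    rw [← z3, ← z4, hc']
    ring
  exact ⟨g0_opp hc hd hcd g1 g2 (by rw [← k1, k2]), g0_opp ha hb hab g3 g4 (by rw [← k3, k4])⟩

end Pool.Agent.LibCX37
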