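import Pool.Agent.LibCX37.Defs

/-!
[CX G1] **`Meets` is a closed condition; measurability and upper semicontinuity of `Nn`.**
PROOF. `Meets p q r s` iff there are `t, t' ∈ [0,1]` with `(1-t) p + t q = (1-t') r + t' s`: the set is the image under the projection
`X × (I × I) → X` (`I = unitInterval` compact, so `isClosedMap_fst_of_compactSpace` or `IsClosedMap`/`isProperMap`) of a closed set.
(`segment_eq_image`). So the indicator of the closed set is measurable, hence `Nn` (three closed sets: compose with the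
coordinate permutations). Upper semicontinuity: if `Meets` fails at the limit it fails eventually (complement open), so each
indicator is eventually `≤` its value at the limit.
-/

set_option autoImplicit false

namespace Pool.Agent.LibCX37

open MeasureTheory Set Filter Topology

/-- the parametrised set upstairs is closed -/
theorem g1_up_closed :
    IsClosed {z : ((ℝ × ℝ) × (ℝ × ℝ) × (ℝ × ℝ) × (ℝ × ℝ)) × (unitInterval × unitInterval) |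
      (1 - (z.2.1 : ℝ)) • z.1.1 + (z.2.1 : ℝ) • z.1.2.1
        = (1 - (z.2.2 : ℝ)) • z.1.2.2.1 + (z.2.2 : ℝ) • z.1.2.2.2} := by
  apply isClosed_eq
  · fun_prop
  · fun_prop

theorem g1_image :
    {x : (ℝ × ℝ) × (ℝ × ℝ) × (ℝ × ℝ) × (ℝ × ℝ) | Meets x.1 x.2.1 x.2.2.1 x.2.2.2}
      = Prod.fst '' {z : ((ℝ × ℝ) × (ℝ × ℝ) × (ℝ × ℝ) × (ℝ × ℝ)) × (unitInterval × unitInterval) |
      (1 - (z.2.1 : ℝ)) • z.1.1 + (z.2.1 : ℝ) • z.1.2.1
        = (1 - (z.2.2 : ℝ)) • z.1.2.2.1 + (z.2.2 : ℝ) • z.1.2.2.2} := by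
  ext x
  constructor
  · intro hx
    obtain ⟨y, hy1, hy2⟩ := hx
    rw [segment_eq_image] at hy1 hy2
    obtain ⟨t, ht, rfl⟩ := hy1
    obtain ⟨t', ht', hh⟩ := hy2
    refine ⟨(x, (⟨t, ht⟩, ⟨t', ht'⟩)), ?_, rfl⟩
    exact hh.symm
  · rintro ⟨z, hz, rfl⟩
    refine ⟨(1 - (z.2.1 : ℝ)) • z.1.1 + (z.2.1 : ℝ) • z.1.2.1, ?_, ?_⟩
    · rw [segment_eq_image]
      exact ⟨(z.2.1 : ℝ), z.2.1.2, rfl⟩
    · rw [segment_eq_image]
      exact ⟨(z.2.2 : ℝ), z.2.2.2, hz.symm⟩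

theorem isClosed_meets :
    IsClosed {x : (ℝ × ℝ) × (ℝ × ℝ) × (ℝ × ℝ) × (ℝ × ℝ) | Meets x.1 x.2.1 x.2.2.1 x.2.2.2} := by
  rw [g1_image]
  exact isClosedMap_fst_of_compactSpace _ g1_up_closed

theorem g1_meas_ind :
    Measurable (fun x : (ℝ × ℝ) × (ℝ × ℝ) × (ℝ × ℝ) × (ℝ × ℝ) => ind x.1 x.2.1 x.2.2.1 x.2.2.2) := by
  unfold ind
  exact Measurable.ite isClosed_meets.measurableSet measurable_const measurable_const

theorem measurable_Nn :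
    Measurable (fun x : (ℝ × ℝ) × (ℝ × ℝ) × (ℝ × ℝ) × (ℝ × ℝ) => Nn x.1 x.2.1 x.2.2.1 x.2.2.2) := by
  unfold Nn
  have h1 := g1_meas_ind
  have h2 : Measurable (fun x : (ℝ × ℝ) × (ℝ × ℝ) × (ℝ × ℝ) × (ℝ × ℝ) =>
      ind x.1 x.2.2.1 x.2.1 x.2.2.2) :=
    g1_meas_ind.comp (g := fun x : (ℝ × ℝ) × (ℝ × ℝ) × (ℝ × ℝ) × (ℝ × ℝ) =>
      ind x.1 x.2.1 x.2.2.1 x.2.2.2)
      (f := fun x : (ℝ × ℝ) × (ℝ × ℝ) × (ℝ × ℝ) × (ℝ × ℝ) => (x.1, x.2.2.1, x.2.1, x.2.2.2))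
      (by fun_prop)
  have h3 : Measurable (fun x : (ℝ × ℝ) × (ℝ × ℝ) × (ℝ × ℝ) × (ℝ × ℝ) =>
      ind x.1 x.2.2.2 x.2.1 x.2.2.1) :=
    g1_meas_ind.comp (g := fun x : (ℝ × ℝ) × (ℝ × ℝ) × (ℝ × ℝ) × (ℝ × ℝ) =>
      ind x.1 x.2.1 x.2.2.1 x.2.2.2)
      (f := fun x : (ℝ × ℝ) × (ℝ × ℝ) × (ℝ × ℝ) × (ℝ × ℝ) => (x.1, x.2.2.2, x.2.1, x.2.2.1))
      (by fun_prop)
  exact (h1.add h2).add h3

theorem ind_usc {ι : Type*} (l : Filter ι) (P Q R S : ι → ℝ × ℝ) (p q r s : ℝ × ℝ)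
    (hP : Tendsto P l (𝓝 p)) (hQ : Tendsto Q l (𝓝 q)) (hR : Tendsto R l (𝓝 r))
    (hS : Tendsto S l (𝓝 s)) : ∀ᶠ i in l, ind (P i) (Q i) (R i) (S i) ≤ ind p q r s := by
  by_cases h : Meets p q r s
  · refine Filter.Eventually.of_forall fun i => ?_
    have : ind p q r s = 1 := by unfold ind; rw [if_pos h]
    rw [this]
    unfold ind
    split_ifs
    · exact le_rfl
    · exact zero_le
  · have ht : Tendsto (fun i => (P i, Q i, R i, S i)) l (𝓝 (p, q, r, s)) :=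
      hP.prodMk_nhds (hQ.prodMk_nhds (hR.prodMk_nhds hS))
    have ho : {x : (ℝ × ℝ) × (ℝ × ℝ) × (ℝ × ℝ) × (ℝ × ℝ) |
        Meets x.1 x.2.1 x.2.2.1 x.2.2.2}ᶜ ∈ 𝓝 (p, q, r, s) :=
      isClosed_meets.isOpen_compl.mem_nhds h
    filter_upwards [ht ho] with i hi
    have hi' : ¬ Meets (P i) (Q i) (R i) (S i) := hi
    have : ind (P i) (Q i) (R i) (S i) = 0 := by unfold ind; rw [if_neg hi']
    rw [this]
    exact zero_le

theorem Nn_usc {ι : Type*} (l : Filter ι) (P Q R S : ι → ℝ × ℝ) (p q r s : ℝ × ℝ)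
    (hP : Tendsto P l (𝓝 p)) (hQ : Tendsto Q l (𝓝 q)) (hR : Tendsto R l (𝓝 r))
    (hS : Tendsto S l (𝓝 s)) : ∀ᶠ i in l, Nn (P i) (Q i) (R i) (S i) ≤ Nn p q r s := by
  filter_upwards [ind_usc l P Q R S p q r s hP hQ hR hS,
    ind_usc l P R Q S p r q s hP hR hQ hS, ind_usc l P S Q R p s q r hP hS hQ hR] with i h1 h2 h3
  unfold Nn
  exact add_le_add (add_le_add h1 h2) h3

end Pool.Agent.LibCX37
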