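import Pool.Agent.LibCX37.Defs

/-!
Definitions for the second part: supports, linear functionals, the same-side indicator.
-/

set_option autoImplicit false

namespace Pool.Agent.LibCX37

open MeasureTheory Set Filter Topology
open scoped ENNReal

/-- the value of the linear functional `n` at `p` -/
def dotp (n p : ℝ × ℝ) : ℝ := n.1 * p.1 + n.2 * p.2

/-- `K` is a closed carrier of `m` each of whose points has neighbourhoods of positive mass -/
structure Supp (m : Measure (ℝ × ℝ)) (K : Set (ℝ × ℝ)) : Prop where
  closed : IsClosed K
  null : m Kᶜ = 0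
  pos : ∀ y ∈ K, ∀ ε : ℝ, 0 < ε → 0 < m (Metric.ball y ε)

open Classical in
/-- the indicator that `z` and `d` are strictly on the same side of the line `bc` -/
noncomputable def same (b c z d : ℝ × ℝ) : ℝ≥0∞ := if 0 < det b c z * det b c d then 1 else 0

/-- the (signed, scaled) height of `p` above the line through `B` with direction `v` -/
def hgt (B v p : ℝ × ℝ) : ℝ := det B (B + v) p

/-- the line through `B` with direction `v` halves `m` -/
def Halves (m : Measure (ℝ × ℝ)) (B v : ℝ × ℝ) : Prop :=
  m {z | 0 < hgt B v z} = 1 / 2 ∧ m {z | hgt B v z < 0} = 1 / 2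

/-- the order of the points of `K` by height is their angular order about `B` -/
def Ordered (K : Set (ℝ × ℝ)) (B v : ℝ × ℝ) : Prop :=
  ∀ b ∈ K, ∀ c ∈ K, 0 ≤ det b c B * (hgt B v c - hgt B v b)

end Pool.Agent.LibCX37
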