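import Pool.Agent.LibCX37.G2
import Pool.Agent.LibCX37.Y0

/-!
[CY G4] **Counting same sides for an outer point.**
PROOF. Put `α = det z b c`, `β = det z b d`, `γ = det z c d`, `o = det b c d`, all nonzero. `det b c z = α`, `det b d z = β`, `det b d c = -o`,
`det c d z = γ`, `det c d b = o` (ring). So the right hand side is `[αo > 0] + [βo < 0] + [γo > 0]`. The left hand side, by the rules
`g2_signs1..3` of G2 (`p,q,r,s = z,b,c,d`): `Nn = [αβ<0 ∧ γo<0] + [αγ>0 ∧ βo>0] + [βγ<0 ∧ αo<0]`.
The linear relation `α (dotp n d - dotp n z) - β (dotp n c - dotp n z) + γ (dotp n b - dotp n z) = 0` (ring identity for vectors in the plane: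
`(b×c) d + (c×d) b + (d×b) c = 0` with `b,c,d` relative to `z`) with three negative factors excludes the two patterns
`(α>0, γ>0, β<0)` and `(α<0, γ<0, β>0)`. In the remaining 12 sign patterns of `(α,β,γ,o)` both sides agree (check by cases;
the relation `o = α - β + γ` is not needed).
-/

set_option autoImplicit false

namespace Pool.Agent.LibCX37

open MeasureTheory Set Filter Topology
open scoped ENNReal

open Classical in
theorem g4_core (a b g o : ℝ) (ha : a ≠ 0) (hb : b ≠ 0) (hg : g ≠ 0) (ho : o ≠ 0)
    (h1 : ¬ (0 < a ∧ 0 < g ∧ b < 0)) (h2 : ¬ (a < 0 ∧ g < 0 ∧ 0 < b)) :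
    (if a * b < 0 ∧ g * o < 0 then (1 : ℝ≥0∞) else 0) +
      (if 0 < a * g ∧ 0 < b * o then 1 else 0) + (if b * g < 0 ∧ a * o < 0 then 1 else 0) + 1 =
    (if 0 < a * o then 1 else 0) + (if b * o < 0 then 1 else 0) +
      (if 0 < g * o then 1 else 0) := by
  rcases lt_or_gt_of_ne ha with a1 | a1 <;> rcases lt_or_gt_of_ne hb with b1 | b1 <;>
  rcases lt_or_gt_of_ne hg with g1 | g1 <;> rcases lt_or_gt_of_ne ho with o1 | o1 <;>
  simp_all [mul_neg_iff, mul_pos_iff, lt_asymm a1, lt_asymm b1, lt_asymm g1, lt_asymm o1]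

theorem g4_rel (z b c d n : ℝ × ℝ) : det z b c * (dotp n d - dotp n z) -
    det z b d * (dotp n c - dotp n z) + det z c d * (dotp n b - dotp n z) = 0 := by
  unfold det dotp
  ring

theorem Nn_add_one (z b c d n : ℝ × ℝ) (h : GP z b c d) (hb : dotp n b < dotp n z)
    (hc : dotp n c < dotp n z) (hd : dotp n d < dotp n z) :
    Nn z b c d + 1 = same b c z d + same b d z c + same c d z b := by
  obtain ⟨ha, hb', hg, ho⟩ := h
  have hGP : GP z b c d := ⟨ha, hb', hg, ho⟩
  have hrel := g4_rel z b c d n
  have e1 : det b c z = det z b c := by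
    unfold det
    ring
  have e2 : det b d z = det z b d := by
    unfold det
    ring
  have e3 : det b d c = - det b c d := by
    unfold det
    ring
  have e4 : det c d z = det z c d := by
    unfold det
    ring
  have e5 : det c d b = det b c d := by
    unfold det
    ring
  have h1 : ¬ (0 < det z b c ∧ 0 < det z c d ∧ det z b d < 0) := by
    rintro ⟨p1, p2, p3⟩
    have q1 := mul_pos p1 (sub_pos.mpr hd)
    have q2 := mul_pos p2 (sub_pos.mpr hb)
    have q3 := mul_pos (neg_pos.mpr p3) (sub_pos.mpr hc)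
    linarith
  have h2 : ¬ (det z b c < 0 ∧ det z c d < 0 ∧ 0 < det z b d) := by
    rintro ⟨p1, p2, p3⟩
    have q1 := mul_pos (neg_pos.mpr p1) (sub_pos.mpr hd)
    have q2 := mul_pos (neg_pos.mpr p2) (sub_pos.mpr hb)
    have q3 := mul_pos p3 (sub_pos.mpr hc)
    linarith
  have key := g4_core (det z b c) (det z b d) (det z c d) (det b c d) ha hb' hg ho h1 h2
  classical
  have i1 : ind z b c d = if det z b c * det z b d < 0 ∧ det z c d * det b c d < 0 then 1 else 0 := by
    unfold ind
    exact if_congr (g2_signs1 z b c d hGP) rfl rfl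
  have i2 : ind z c b d = if 0 < det z b c * det z c d ∧ 0 < det z b d * det b c d then 1 else 0 := by
    unfold ind
    exact if_congr (g2_signs2 z b c d hGP) rfl rfl
  have i3 : ind z d b c = if det z b d * det z c d < 0 ∧ det z b c * det b c d < 0 then 1 else 0 := by
    unfold ind
    exact if_congr (g2_signs3 z b c d hGP) rfl rfl
  have j1 : same b c z d = if 0 < det z b c * det b c d then 1 else 0 := by
    unfold same
    rw [e1]
  have j2 : same b d z c = if det z b d * det b c d < 0 then 1 else 0 := by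
    unfold same
    rw [e2, e3]
    refine if_congr ?_ rfl rfl
    rw [mul_neg, neg_pos]
  have j3 : same c d z b = if 0 < det z c d * det b c d then 1 else 0 := by
    unfold same
    rw [e4, e5]
  unfold Nn
  rw [i1, i2, i3, j1, j2, j3]
  exact key

end Pool.Agent.LibCX37
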