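import Pool.Agent.LibCX37.G4
import Pool.Agent.LibCX37.C2

/-!
[CY G5] **The potential of an outer point.**
PROOF. For a.e. `(b,c,d)`: `GP z b c d` (`c2_ae_det_ne` for `z`, and `c2_ae_det_ne` for `b`) and the three inequalities `dotp n · < dotp n z`, so `Nn_add_one`
holds. Integrate over `b, c, d` (probability measure: `∫∫∫ 1 = 1`). The three terms have the same integral (Tonelli `lintegral_lintegral_swap`):
`∫b∫c∫d same b d z c` is the first one with the names `c, d` exchanged; `∫b∫c∫d same c d z b` is the first one after moving the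
variable `b` inside. Measurability of `(b,c,d) ↦ same b c z d`: `det` is polynomial (`unfold det; fun_prop` + `measurableSet_lt`).
-/

set_option autoImplicit false

namespace Pool.Agent.LibCX37

open MeasureTheory Set Filter Topology
open scoped ENNReal

theorem g5_ae (m : Measure (ℝ × ℝ)) (hm : NoLines m) (p q : ℝ × ℝ) (h : q ≠ p) :
    ∀ᵐ d ∂m, det p q d ≠ 0 := by
  rw [ae_iff]
  simp only [ne_eq, not_not]
  have h1 := hm p (q - p) (sub_ne_zero.mpr h)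
  rw [add_sub_cancel] at h1
  exact h1

theorem g5_ne (m : Measure (ℝ × ℝ)) (hm : NoLines m) (p : ℝ × ℝ) : ∀ᵐ d ∂m, d ≠ p := by
  rw [ae_iff]
  simpa using c2_null_singleton m hm p

theorem g5_same_meas {α : Type*} [MeasurableSpace α] {a b c d : α → ℝ × ℝ} (ha : Measurable a)
    (hb : Measurable b) (hc : Measurable c) (hd : Measurable d) :
    Measurable (fun x => same (a x) (b x) (c x) (d x)) := by
  unfold same
  refine Measurable.ite (measurableSet_lt measurable_const ?_) measurable_const measurable_const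
  unfold det
  fun_prop

theorem g5_add3 (m : Measure (ℝ × ℝ)) [SFinite m] (F G : ℝ × ℝ → ℝ × ℝ → ℝ × ℝ → ℝ≥0∞)
    (hF : Measurable fun x : (ℝ × ℝ) × (ℝ × ℝ) × (ℝ × ℝ) => F x.1 x.2.1 x.2.2) :
    ∫⁻ b, ∫⁻ c, ∫⁻ d, (F b c d + G b c d) ∂m ∂m ∂m =
      ∫⁻ b, ∫⁻ c, ∫⁻ d, F b c d ∂m ∂m ∂m + ∫⁻ b, ∫⁻ c, ∫⁻ d, G b c d ∂m ∂m ∂m := by
  have h1 : ∀ b c, ∫⁻ d, (F b c d + G b c d) ∂m = ∫⁻ d, F b c d ∂m + ∫⁻ d, G b c d ∂m := by
    intro b c
    have h2 : Measurable fun d : ℝ × ℝ => ((b, c, d) : (ℝ × ℝ) × (ℝ × ℝ) × (ℝ × ℝ)) :=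
      measurable_const.prodMk (measurable_const.prodMk measurable_id)
    have h3 := Measurable.comp hF h2
    exact lintegral_add_left h3 _
  have h4 : Measurable fun x : ((ℝ × ℝ) × (ℝ × ℝ)) × (ℝ × ℝ) => F x.1.1 x.1.2 x.2 := by
    have h2 : Measurable fun x : ((ℝ × ℝ) × (ℝ × ℝ)) × (ℝ × ℝ) =>
        ((x.1.1, x.1.2, x.2) : (ℝ × ℝ) × (ℝ × ℝ) × (ℝ × ℝ)) := by fun_prop
    have h3 := Measurable.comp hF h2
    exact h3
  have h5 : Measurable fun x : (ℝ × ℝ) × (ℝ × ℝ) => ∫⁻ d, F x.1 x.2 d ∂m :=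
    h4.lintegral_prod_right'
  have h6 : ∀ b, ∫⁻ c, ∫⁻ d, (F b c d + G b c d) ∂m ∂m =
      ∫⁻ c, ∫⁻ d, F b c d ∂m ∂m + ∫⁻ c, ∫⁻ d, G b c d ∂m ∂m := by
    intro b
    simp only [h1]
    have h2 : Measurable fun c : ℝ × ℝ => ((b, c) : (ℝ × ℝ) × (ℝ × ℝ)) :=
      measurable_const.prodMk measurable_id
    have h3 := Measurable.comp h5 h2
    exact lintegral_add_left h3 _
  simp only [h6]
  exact lintegral_add_left h5.lintegral_prod_right' _

theorem g5_swap2 (m : Measure (ℝ × ℝ)) [SFinite m] (z : ℝ × ℝ) :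
    ∫⁻ b, ∫⁻ c, ∫⁻ d, same b d z c ∂m ∂m ∂m = ∫⁻ b, ∫⁻ c, ∫⁻ d, same b c z d ∂m ∂m ∂m := by
  refine lintegral_congr fun b => ?_
  refine lintegral_lintegral_swap (f := fun c d => same b d z c) ?_
  exact (g5_same_meas measurable_const measurable_snd measurable_const measurable_fst).aemeasurable

theorem g5_swap3 (m : Measure (ℝ × ℝ)) [SFinite m] (z : ℝ × ℝ) :
    ∫⁻ b, ∫⁻ c, ∫⁻ d, same c d z b ∂m ∂m ∂m = ∫⁻ b, ∫⁻ c, ∫⁻ d, same b c z d ∂m ∂m ∂m := by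
  have h1 : Measurable fun x : ((ℝ × ℝ) × (ℝ × ℝ)) × (ℝ × ℝ) => same x.1.2 x.2 z x.1.1 :=
    g5_same_meas (by fun_prop) (by fun_prop) measurable_const (by fun_prop)
  have h2 : Measurable fun x : (ℝ × ℝ) × (ℝ × ℝ) => ∫⁻ d, same x.2 d z x.1 ∂m :=
    h1.lintegral_prod_right'
  have h3 : ∫⁻ b, ∫⁻ c, ∫⁻ d, same c d z b ∂m ∂m ∂m = ∫⁻ c, ∫⁻ b, ∫⁻ d, same c d z b ∂m ∂m ∂m :=
    lintegral_lintegral_swap (f := fun b c => ∫⁻ d, same c d z b ∂m) h2.aemeasurable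
  rw [h3]
  refine lintegral_congr fun c => ?_
  refine lintegral_lintegral_swap (f := fun b d => same c d z b) ?_
  exact (g5_same_meas measurable_const measurable_snd measurable_const measurable_fst).aemeasurable

theorem Psi_add_one (m : Measure (ℝ × ℝ)) [IsProbabilityMeasure m] (hm : NoLines m)
    (z n : ℝ × ℝ) (hz : ∀ᵐ p ∂m, dotp n p < dotp n z) :
    Psi m z + 1 = 3 * ∫⁻ b, ∫⁻ c, ∫⁻ d, same b c z d ∂m ∂m ∂m := by
  have hA : Measurable fun x : (ℝ × ℝ) × (ℝ × ℝ) × (ℝ × ℝ) => same x.1 x.2.1 z x.2.2 :=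
    g5_same_meas (by fun_prop) (by fun_prop) measurable_const (by fun_prop)
  have hB : Measurable fun x : (ℝ × ℝ) × (ℝ × ℝ) × (ℝ × ℝ) => same x.1 x.2.2 z x.2.1 :=
    g5_same_meas (by fun_prop) (by fun_prop) measurable_const (by fun_prop)
  have hN : Measurable fun x : (ℝ × ℝ) × (ℝ × ℝ) × (ℝ × ℝ) => Nn z x.1 x.2.1 x.2.2 :=
    c2_meas_Nn measurable_const (by fun_prop) (by fun_prop) (by fun_prop)
  have h1 : Psi m z + 1 = ∫⁻ b, ∫⁻ c, ∫⁻ d, (Nn z b c d + 1) ∂m ∂m ∂m := by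
    rw [g5_add3 m (fun b c d => Nn z b c d) (fun _ _ _ => 1) hN]
    simp [Psi]
  have h2 : ∫⁻ b, ∫⁻ c, ∫⁻ d, (Nn z b c d + 1) ∂m ∂m ∂m =
      ∫⁻ b, ∫⁻ c, ∫⁻ d, (same b c z d + (same b d z c + same c d z b)) ∂m ∂m ∂m := by
    refine lintegral_congr_ae ?_
    filter_upwards [hz, g5_ne m hm z] with b hb1 hb2
    refine lintegral_congr_ae ?_
    filter_upwards [hz, g5_ne m hm z, g5_ne m hm b, g5_ae m hm z b hb2] with c hc1 hc2 hc3 hc4
    refine lintegral_congr_ae ?_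
    filter_upwards [hz, g5_ae m hm z b hb2, g5_ae m hm z c hc2, g5_ae m hm b c hc3]
      with d hd1 hd2 hd3 hd4
    rw [Nn_add_one z b c d n ⟨hc4, hd2, hd3, hd4⟩ hb1 hc1 hd1, add_assoc]
  rw [h1, h2, g5_add3 m (fun b c d => same b c z d)
    (fun b c d => same b d z c + same c d z b) hA,
    g5_add3 m (fun b c d => same b d z c) (fun b c d => same c d z b) hB, g5_swap2, g5_swap3]
  ring

end Pool.Agent.LibCX37
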