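import Pool.Agent.LibCX37.G1
import Pool.Agent.LibCX37.G2

/-!
[CX K1] **Near points: `qq ≥ 1/2 - c`; lines as functions of two points.**
PROOF. (`ge_same_side`) `Nn y z c d ≥ 1` whenever `det y z c * det y z d > 0` and `det y c d * det z c d > 0` (`one_le_Nn`); so
`qq m y z + (m×m){(c,d) | det y c d * det z c d ≤ 0} ≥ (m×m){det y z c * det y z d > 0} = h₊² + h₋²`, `h± = m{± det y z · > 0}`.
If `y ≠ z` and `m` is a probability measure without lines then `h₊ + h₋ = 1` (`det y z c = det y (y + (z-y)) c`), so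
`h₊² + h₋² ≥ 1/2`.
(`near`) the function `(y₁,y₂) ↦ (m×m){det y₁ c d * det y₂ c d ≤ 0}` tends to `0` as `(y₁,y₂) → (y,y)`: for `(c,d)` with
`det y c d ≠ 0` (a.e.) the product is eventually `> 0`; dominated convergence (`tendsto_lintegral_filter_of_dominated_convergence` for
the indicator, or `tendsto_measure_of_..`).
-/

set_option autoImplicit false

namespace Pool.Agent.LibCX37

open MeasureTheory Set Filter Topology
open scoped ENNReal

theorem k1_measurable_det3 (y : ℝ × ℝ) : Measurable (fun x : (ℝ × ℝ) × (ℝ × ℝ) => det y x.1 x.2) := by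
  unfold det
  fun_prop

theorem k1_measurable_det1 (y z : ℝ × ℝ) : Measurable (fun c : ℝ × ℝ => det y z c) := by
  unfold det
  fun_prop

theorem k1_pair (y z : ℝ × ℝ) :
    Measurable (fun x : (ℝ × ℝ) × (ℝ × ℝ) => (y, z, x.1, x.2)) :=
  measurable_const.prodMk (measurable_const.prodMk (measurable_fst.prodMk measurable_snd))

theorem k1_measurable_Nn (y z : ℝ × ℝ) :
    Measurable (fun x : (ℝ × ℝ) × (ℝ × ℝ) => Nn y z x.1 x.2) := by
  have h := measurable_Nn.comp (k1_pair y z)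
  exact h

theorem k1_qq (m : Measure (ℝ × ℝ)) [SFinite m] (y z : ℝ × ℝ) :
    ∫⁻ x : (ℝ × ℝ) × (ℝ × ℝ), Nn y z x.1 x.2 ∂(m.prod m) = qq m y z := by
  rw [lintegral_prod _ (k1_measurable_Nn y z).aemeasurable]
  rfl

theorem ge_same_side (m : Measure (ℝ × ℝ)) [IsProbabilityMeasure m] (y z : ℝ × ℝ) :
    m {c | 0 < det y z c} ^ 2 + m {c | det y z c < 0} ^ 2 ≤
      qq m y z + (m.prod m) {x | det y x.1 x.2 * det z x.1 x.2 ≤ 0} := by
  set P : Set (ℝ × ℝ) := {c | 0 < det y z c} with hP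
  set N : Set (ℝ × ℝ) := {c | det y z c < 0} with hN
  set B : Set ((ℝ × ℝ) × (ℝ × ℝ)) := {x | det y x.1 x.2 * det z x.1 x.2 ≤ 0} with hB
  have hPm : MeasurableSet P := measurableSet_lt measurable_const (k1_measurable_det1 y z)
  have hNm : MeasurableSet N := measurableSet_lt (k1_measurable_det1 y z) measurable_const
  have hBm : MeasurableSet B :=
    measurableSet_le ((k1_measurable_det3 y).mul (k1_measurable_det3 z)) measurable_const
  have hdis : Disjoint (P ×ˢ P) (N ×ˢ N) := by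
    rw [Set.disjoint_left]
    rintro x ⟨h1, _⟩ ⟨h2, _⟩
    exact lt_asymm (show 0 < det y z x.1 from h1) (show det y z x.1 < 0 from h2)
  have h1 : (m.prod m) ((P ×ˢ P) ∪ (N ×ˢ N)) = m P ^ 2 + m N ^ 2 := by
    rw [measure_union hdis (hNm.prod hNm), Measure.prod_prod, Measure.prod_prod, sq, sq]
  rw [← h1, ← k1_qq]
  have hUm : MeasurableSet ((P ×ˢ P) ∪ (N ×ˢ N)) := (hPm.prod hPm).union (hNm.prod hNm)
  rw [← lintegral_indicator_one hUm, ← lintegral_indicator_one hBm,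
    ← lintegral_add_left (k1_measurable_Nn y z)]
  apply lintegral_mono
  intro x
  show ((P ×ˢ P) ∪ (N ×ˢ N)).indicator 1 x ≤ Nn y z x.1 x.2 + B.indicator 1 x
  by_cases hx : x ∈ (P ×ˢ P) ∪ (N ×ˢ N)
  · rw [indicator_of_mem hx]
    by_cases hxB : x ∈ B
    · rw [indicator_of_mem hxB]
      exact le_add_self
    · rw [indicator_of_notMem hxB, add_zero]
      apply one_le_Nn
      · rcases hx with ⟨h2, h3⟩ | ⟨h2, h3⟩
        · exact mul_pos (show 0 < det y z x.1 from h2) (show 0 < det y z x.2 from h3)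
        · exact mul_pos_of_neg_of_neg (show det y z x.1 < 0 from h2)
            (show det y z x.2 < 0 from h3)
      · exact not_le.1 hxB
  · rw [indicator_of_notMem hx]
    exact bot_le

theorem k1_null (m : Measure (ℝ × ℝ)) [IsProbabilityMeasure m] (hm : NoLines m) (y : ℝ × ℝ) :
    ∀ᵐ x ∂(m.prod m), det y x.1 x.2 ≠ 0 := by
  rw [ae_iff]
  simp only [ne_eq, not_not]
  have hms : MeasurableSet {x : (ℝ × ℝ) × (ℝ × ℝ) | det y x.1 x.2 = 0} :=
    measurableSet_eq_fun (k1_measurable_det3 y) measurable_const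
  rw [Measure.measure_prod_null hms]
  have h0 : m {y} = 0 := by
    have h1 := hm y ((1 : ℝ), (0 : ℝ)) (by simp [Prod.ext_iff])
    apply measure_mono_null _ h1
    intro z hz
    rw [mem_singleton_iff] at hz
    subst hz
    show det z (z + ((1 : ℝ), (0 : ℝ))) z = 0
    unfold det
    simp
  have h1 : ∀ᵐ c ∂m, c ≠ y := by
    rw [ae_iff]
    simpa using h0
  filter_upwards [h1] with c hc
  have h2 := hm y (c - y) (sub_ne_zero.2 hc)
  rw [add_sub_cancel] at h2
  exact h2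

theorem tendsto_sep (m : Measure (ℝ × ℝ)) [IsProbabilityMeasure m] (hm : NoLines m) (y : ℝ × ℝ) :
    Tendsto (fun z : (ℝ × ℝ) × (ℝ × ℝ) =>
      (m.prod m) {x | det z.1 x.1 x.2 * det z.2 x.1 x.2 ≤ 0}) (𝓝 (y, y)) (𝓝 0) := by
  have hBm : ∀ z : (ℝ × ℝ) × (ℝ × ℝ), MeasurableSet {x : (ℝ × ℝ) × (ℝ × ℝ) |
      det z.1 x.1 x.2 * det z.2 x.1 x.2 ≤ 0} := fun z =>
    measurableSet_le ((k1_measurable_det3 z.1).mul (k1_measurable_det3 z.2)) measurable_const
  have h1 : (fun z : (ℝ × ℝ) × (ℝ × ℝ) =>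
      (m.prod m) {x | det z.1 x.1 x.2 * det z.2 x.1 x.2 ≤ 0}) =
      fun z => ∫⁻ x, ({x : (ℝ × ℝ) × (ℝ × ℝ) |
        det z.1 x.1 x.2 * det z.2 x.1 x.2 ≤ 0}).indicator (1 : (ℝ × ℝ) × (ℝ × ℝ) → ℝ≥0∞) x
          ∂(m.prod m) := by
    funext z
    rw [lintegral_indicator_one (hBm z)]
  rw [h1]
  have h2 : (0 : ℝ≥0∞) = ∫⁻ _x : (ℝ × ℝ) × (ℝ × ℝ), (0 : ℝ≥0∞) ∂(m.prod m) := by simp
  rw [h2]
  apply tendsto_lintegral_filter_of_dominated_convergence (fun _ => (1 : ℝ≥0∞))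
  · exact Filter.Eventually.of_forall fun z => measurable_one.indicator (hBm z)
  · refine Filter.Eventually.of_forall fun z => Filter.Eventually.of_forall fun x => ?_
    exact indicator_le_self' (fun _ _ => bot_le) x |>.trans le_rfl
  · simp
  · filter_upwards [k1_null m hm y] with x hx
    have h3 : Tendsto (fun z : (ℝ × ℝ) × (ℝ × ℝ) => det z.1 x.1 x.2 * det z.2 x.1 x.2)
        (𝓝 (y, y)) (𝓝 (det y x.1 x.2 * det y x.1 x.2)) := by
      have h4 : Continuous (fun z : (ℝ × ℝ) × (ℝ × ℝ) =>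
          det z.1 x.1 x.2 * det z.2 x.1 x.2) := by
        unfold det
        fun_prop
      exact h4.tendsto (y, y)
    have h5 : 0 < det y x.1 x.2 * det y x.1 x.2 := mul_self_pos.2 hx
    have h6 := h3.eventually (lt_mem_nhds h5)
    apply tendsto_const_nhds.congr'
    filter_upwards [h6] with z hz
    rw [indicator_of_notMem]
    exact not_le.2 hz

theorem k1_half (m : Measure (ℝ × ℝ)) [IsProbabilityMeasure m] (hm : NoLines m) (y z : ℝ × ℝ)
    (h : y ≠ z) : 1 / 2 ≤ m {c | 0 < det y z c} ^ 2 + m {c | det y z c < 0} ^ 2 := by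
  set P : Set (ℝ × ℝ) := {c | 0 < det y z c} with hP
  set N : Set (ℝ × ℝ) := {c | det y z c < 0} with hN
  have hPm : MeasurableSet P := measurableSet_lt measurable_const (k1_measurable_det1 y z)
  have hNm : MeasurableSet N := measurableSet_lt (k1_measurable_det1 y z) measurable_const
  have hdis : Disjoint P N := by
    rw [Set.disjoint_left]
    intro x h1 h2
    exact lt_asymm (show 0 < det y z x from h1) (show det y z x < 0 from h2)
  have hsum : m P + m N = 1 := by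
    rw [← measure_union hdis hNm, prob_compl_eq_zero_iff (hPm.union hNm) |>.symm]
    apply measure_mono_null _ (hm y (z - y) (sub_ne_zero.2 h.symm))
    intro c hc
    rw [add_sub_cancel]
    rw [mem_compl_iff, mem_union, not_or] at hc
    exact le_antisymm (not_lt.1 hc.1) (not_lt.1 hc.2)
  have hPt : m P ≠ ∞ := measure_ne_top m P
  have hNt : m N ≠ ∞ := measure_ne_top m N
  have h1 : (m P).toReal + (m N).toReal = 1 := by
    rw [← ENNReal.toReal_add hPt hNt, hsum, ENNReal.toReal_one]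
  have h2 : (1 / 2 : ℝ) ≤ (m P).toReal ^ 2 + (m N).toReal ^ 2 := by
    nlinarith [sq_nonneg ((m P).toReal - (m N).toReal)]
  have h3 : (1 / 2 : ℝ≥0∞) = ENNReal.ofReal (1 / 2) := by
    rw [ENNReal.ofReal_div_of_pos (by norm_num)]
    norm_num
  rw [h3, ← ENNReal.ofReal_toReal hPt, ← ENNReal.ofReal_toReal hNt,
    ← ENNReal.ofReal_pow ENNReal.toReal_nonneg, ← ENNReal.ofReal_pow ENNReal.toReal_nonneg,
    ← ENNReal.ofReal_add (by positivity) (by positivity)]
  exact ENNReal.ofReal_le_ofReal h2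

theorem near (m : Measure (ℝ × ℝ)) [IsProbabilityMeasure m] (hm : NoLines m) (y : ℝ × ℝ)
    (c : ℝ≥0∞) (hc : 0 < c) : ∃ ε : ℝ, 0 < ε ∧ ∀ y₁ ∈ Metric.ball y ε, ∀ y₂ ∈ Metric.ball y ε,
      y₁ ≠ y₂ → 1 / 2 ≤ qq m y₁ y₂ + c := by
  have h1 := (tendsto_sep m hm y).eventually (gt_mem_nhds hc)
  obtain ⟨ε, hε, h2⟩ := Metric.eventually_nhds_iff.1 h1
  refine ⟨ε, hε, ?_⟩
  intro y₁ hy₁ y₂ hy₂ hne
  have h3 : (m.prod m) {x | det y₁ x.1 x.2 * det y₂ x.1 x.2 ≤ 0} < c := by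
    apply h2 (y := (y₁, y₂))
    rw [Prod.dist_eq]
    exact max_lt hy₁ hy₂
  calc 1 / 2 ≤ m {c | 0 < det y₁ y₂ c} ^ 2 + m {c | det y₁ y₂ c < 0} ^ 2 := k1_half m hm _ _ hne
    _ ≤ qq m y₁ y₂ + (m.prod m) {x | det y₁ x.1 x.2 * det y₂ x.1 x.2 ≤ 0} := ge_same_side m _ _
    _ ≤ qq m y₁ y₂ + c := by gcongr

end Pool.Agent.LibCX37
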