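import Pool.Agent.LibCX37.G1
import Pool.Agent.LibCX37.G3

/-!
[CX K2] **`qq` is lower semicontinuous off the diagonal.**
PROOF. For `y ≠ z` and a.e. `(c, d)`: `GP y z c d` (`NoLines`: `det y z c = det y (y + (z-y)) c ≠ 0` a.e., the same for `d`; `det y c d ≠ 0`
a.e. as in C2; `det z c d ≠ 0`). By `Nn_lsc`, `Nn y z c d ≤ liminf Nn y' z' c d` as `(y',z') → (y,z)`; Fatou along the filter
`𝓝 (y,z)` (countably generated: `lintegral_liminf_le` for sequences and argue by contradiction with a sequence; twice, or once on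
`m.prod m`): `qq m y z ≤ liminf qq m y' z'`.
-/

set_option autoImplicit false

namespace Pool.Agent.LibCX37

open MeasureTheory Set Filter Topology
open scoped ENNReal

theorem k2_measurable_Nn (y z : ℝ × ℝ) :
    Measurable (fun x : (ℝ × ℝ) × (ℝ × ℝ) => Nn y z x.1 x.2) := by
  have h4 : Measurable (fun x : (ℝ × ℝ) × (ℝ × ℝ) => (y, z, x.1, x.2)) :=
    measurable_const.prodMk (measurable_const.prodMk (measurable_fst.prodMk measurable_snd))
  have h := measurable_Nn.comp h4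
  exact h

theorem k2_qq (m : Measure (ℝ × ℝ)) [SFinite m] (y z : ℝ × ℝ) :
    ∫⁻ x : (ℝ × ℝ) × (ℝ × ℝ), Nn y z x.1 x.2 ∂(m.prod m) = qq m y z := by
  rw [lintegral_prod _ (k2_measurable_Nn y z).aemeasurable]
  rfl

theorem k2_null_singleton (m : Measure (ℝ × ℝ)) (hm : NoLines m) (x : ℝ × ℝ) : m {x} = 0 := by
  refine measure_mono_null ?_ (hm x (1, 0) (by simp))
  rintro z rfl
  simp [det]

theorem k2_ae_det_ne (m : Measure (ℝ × ℝ)) [IsFiniteMeasure m] (hm : NoLines m) (x : ℝ × ℝ) :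
    ∀ᵐ z ∂(m.prod m), det x z.1 z.2 ≠ 0 := by
  have hms : MeasurableSet {z : (ℝ × ℝ) × (ℝ × ℝ) | det x z.1 z.2 = 0} := by
    apply measurableSet_eq_fun _ measurable_const
    unfold det
    fun_prop
  rw [ae_iff]
  simp only [ne_eq, not_not]
  rw [Measure.measure_prod_null hms]
  have h0 : ∀ᵐ c ∂m, c ≠ x := by
    rw [ae_iff]
    simpa using k2_null_singleton m hm x
  filter_upwards [h0] with c hc
  have := hm x (c - x) (sub_ne_zero.mpr hc)
  rw [add_sub_cancel] at this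
  exact this

theorem k2_ae_gp (m : Measure (ℝ × ℝ)) [IsProbabilityMeasure m] (hm : NoLines m) (y z : ℝ × ℝ)
    (hyz : y ≠ z) : ∀ᵐ x ∂(m.prod m), GP y z x.1 x.2 := by
  have h1 : ∀ᵐ c ∂m, det y z c ≠ 0 := by
    rw [ae_iff]
    simp only [ne_eq, not_not]
    have h := hm y (z - y) (sub_ne_zero.2 hyz.symm)
    rwa [add_sub_cancel] at h
  have h2 : ∀ᵐ x ∂(m.prod m), det y z x.1 ≠ 0 :=
    (Measure.quasiMeasurePreserving_fst (μ := m) (ν := m)).ae h1
  have h3 : ∀ᵐ x ∂(m.prod m), det y z x.2 ≠ 0 :=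
    (Measure.quasiMeasurePreserving_snd (μ := m) (ν := m)).ae h1
  filter_upwards [h2, h3, k2_ae_det_ne m hm y, k2_ae_det_ne m hm z] with x a b c d
  exact ⟨a, b, c, d⟩

theorem k2_Nn_le (a b c d : ℝ × ℝ) : Nn a b c d ≤ 3 := by
  unfold Nn
  have h : ∀ p q r s : ℝ × ℝ, ind p q r s ≤ 1 := by
    intro p q r s
    unfold ind
    split_ifs <;> simp
  calc ind a b c d + ind a c b d + ind a d b c ≤ 1 + 1 + 1 := by
        gcongr <;> exact h _ _ _ _
    _ = 3 := by norm_num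

theorem k2_qq_lt (m : Measure (ℝ × ℝ)) [IsProbabilityMeasure m] (y z : ℝ × ℝ) :
    qq m y z < ∞ := by
  rw [← k2_qq]
  refine lt_of_le_of_lt (lintegral_mono (fun x => k2_Nn_le y z x.1 x.2)) ?_
  rw [lintegral_const]
  simp

theorem qq_lsc (m : Measure (ℝ × ℝ)) [IsProbabilityMeasure m] (hm : NoLines m) (y z : ℝ × ℝ)
    (hyz : y ≠ z) (c : ℝ≥0∞) (hc : 0 < c) : ∃ ε : ℝ, 0 < ε ∧ ∀ y₁ ∈ Metric.ball y ε,
      ∀ z₁ ∈ Metric.ball z ε, qq m y z ≤ qq m y₁ z₁ + c := by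
  by_contra hcon
  push Not at hcon
  have hch : ∀ n : ℕ, ∃ w : (ℝ × ℝ) × (ℝ × ℝ), w.1 ∈ Metric.ball y (1 / ((n : ℝ) + 1)) ∧
      w.2 ∈ Metric.ball z (1 / ((n : ℝ) + 1)) ∧ qq m w.1 w.2 + c < qq m y z := by
    intro n
    obtain ⟨y₁, h1, z₁, h2, h3⟩ := hcon (1 / ((n : ℝ) + 1)) (by positivity)
    exact ⟨(y₁, z₁), h1, h2, h3⟩
  choose w hw1 hw2 hw3 using hch
  have ht1 : Tendsto (fun n => (w n).1) atTop (𝓝 y) := by
    rw [tendsto_iff_dist_tendsto_zero]
    refine squeeze_zero (fun n => dist_nonneg) (fun n => (Metric.mem_ball.1 (hw1 n)).le)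
      tendsto_one_div_add_atTop_nhds_zero_nat
  have ht2 : Tendsto (fun n => (w n).2) atTop (𝓝 z) := by
    rw [tendsto_iff_dist_tendsto_zero]
    refine squeeze_zero (fun n => dist_nonneg) (fun n => (Metric.mem_ball.1 (hw2 n)).le)
      tendsto_one_div_add_atTop_nhds_zero_nat
  have ht : Tendsto w atTop (𝓝 (y, z)) := by
    have := ht1.prodMk_nhds ht2
    exact this
  have hpt : ∀ᵐ x ∂(m.prod m), Nn y z x.1 x.2 ≤
      liminf (fun n => Nn (w n).1 (w n).2 x.1 x.2) atTop := by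
    filter_upwards [k2_ae_gp m hm y z hyz] with x hx
    exact le_liminf_of_le (by isBoundedDefault) (ht.eventually (Nn_lsc y z x.1 x.2 hx))
  have hf : qq m y z ≤ liminf (fun n => qq m (w n).1 (w n).2) atTop := by
    calc qq m y z = ∫⁻ x : (ℝ × ℝ) × (ℝ × ℝ), Nn y z x.1 x.2 ∂(m.prod m) := (k2_qq m y z).symm
      _ ≤ ∫⁻ x : (ℝ × ℝ) × (ℝ × ℝ), liminf (fun n => Nn (w n).1 (w n).2 x.1 x.2) atTop
          ∂(m.prod m) := lintegral_mono_ae hpt
      _ ≤ liminf (fun n => ∫⁻ x : (ℝ × ℝ) × (ℝ × ℝ), Nn (w n).1 (w n).2 x.1 x.2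
          ∂(m.prod m)) atTop := lintegral_liminf_le (fun n => k2_measurable_Nn _ _)
      _ = liminf (fun n => qq m (w n).1 (w n).2) atTop := by
          simp only [k2_qq]
  have hle : liminf (fun n => qq m (w n).1 (w n).2) atTop ≤ qq m y z - c := by
    apply liminf_le_of_le (by isBoundedDefault)
    intro b hb
    obtain ⟨n, hn⟩ := hb.exists
    refine hn.trans ?_
    have hct : c ≠ ∞ := by
      rintro rfl
      have := hw3 n
      simp at this
    exact ENNReal.le_sub_of_add_le_right hct (hw3 n).le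
  have hq0 : qq m y z ≠ 0 := by
    intro h0
    have := hw3 0
    rw [h0] at this
    exact absurd this (by simp)
  have hlt : qq m y z - c < qq m y z := ENNReal.sub_lt_self (k2_qq_lt m y z).ne hq0 hc.ne'
  exact absurd (hf.trans hle) (not_le.2 hlt)

end Pool.Agent.LibCX37
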