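import Pool.Agent.LibCX37.Y0

/-!
[CY L1] **Monotone ratio and exceptional levels.**
Notation: `Y p = hgt B v p`, `X p = ((p.1 - B.1) * v.1 + (p.2 - B.2) * v.2) / (v.1^2 + v.2^2)`, `R p = X p / Y p`. Identities (field_simp; ring):
`det b c B = X b * Y c - X c * Y b`, and `p = B + X p • v + (Y p / (v.1^2+v.2^2)) • (-v.2, v.1)`; in particular `X p = X q`, `Y p = Y q` imply `p = q`.
(`ratio_le`) for `b, c ∈ K`, `Y b < Y c`, `0 < Y b * Y c`: `Ordered` gives `X b Y c - X c Y b ≥ 0`; divide by `Y b Y c > 0`: `R c ≤ R b`.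
(`countable_levels`) For a level `η ≠ 0` with two distinct points `b, c ∈ K` the numbers `R b ≠ R c` are different (`X b ≠ X c`); choose a rational `q_η` strictly
between `min` and `max`. For levels `η < η'` of the same sign: `q_η' < max R ≤ ... ≤ min R < q_η` (by `ratio_le` all values of `R` at level `η'` are at most all values at
level `η`), so `η ↦ q_η` is injective on the positive and on the negative levels: countable (`Set.MapsTo.countable_of_injOn`, `Set.to_countable`; union of the two).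
-/

set_option autoImplicit false

namespace Pool.Agent.LibCX37

open MeasureTheory Set Filter Topology
open scoped ENNReal NNReal

/-- the coordinate of `p` along `v` -/
noncomputable def xx (B v p : ℝ × ℝ) : ℝ :=
  ((p.1 - B.1) * v.1 + (p.2 - B.2) * v.2) / (v.1 ^ 2 + v.2 ^ 2)

theorem l1_pos (v : ℝ × ℝ) (hv : v ≠ 0) : 0 < v.1 ^ 2 + v.2 ^ 2 := by
  by_contra hcon
  apply hv
  have h1 : v.1 ^ 2 + v.2 ^ 2 ≤ 0 := not_lt.1 hcon
  have h2 : v.1 = 0 := by nlinarith [sq_nonneg v.1, sq_nonneg v.2]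
  have h3 : v.2 = 0 := by nlinarith [sq_nonneg v.1, sq_nonneg v.2]
  exact Prod.ext h2 h3

theorem det_eq_xx (B v b c : ℝ × ℝ) (hv : v ≠ 0) :
    det b c B = xx B v b * hgt B v c - xx B v c * hgt B v b := by
  have h := (l1_pos v hv).ne'
  simp only [det, hgt, xx, Prod.fst_add, Prod.snd_add]
  field_simp
  ring

theorem l1_repr (B v p : ℝ × ℝ) (hv : v ≠ 0) :
    p.1 = B.1 + xx B v p * v.1 - hgt B v p / (v.1 ^ 2 + v.2 ^ 2) * v.2 ∧
      p.2 = B.2 + xx B v p * v.2 + hgt B v p / (v.1 ^ 2 + v.2 ^ 2) * v.1 := by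
  have h := (l1_pos v hv).ne'
  constructor
  · simp only [det, hgt, xx, Prod.fst_add, Prod.snd_add]
    field_simp
    ring
  · simp only [det, hgt, xx, Prod.fst_add, Prod.snd_add]
    field_simp
    ring

theorem eq_of_xx (B v p q : ℝ × ℝ) (hv : v ≠ 0) (h1 : xx B v p = xx B v q)
    (h2 : hgt B v p = hgt B v q) : p = q := by
  obtain ⟨a1, a2⟩ := l1_repr B v p hv
  obtain ⟨b1, b2⟩ := l1_repr B v q hv
  apply Prod.ext
  · rw [a1, b1, h1, h2]
  · rw [a2, b2, h1, h2]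

theorem ratio_le (K : Set (ℝ × ℝ)) (B v : ℝ × ℝ) (hv : v ≠ 0) (h : Ordered K B v)
    {b c : ℝ × ℝ} (hb : b ∈ K) (hc : c ∈ K) (h1 : hgt B v b < hgt B v c)
    (h2 : 0 < hgt B v b * hgt B v c) : xx B v c / hgt B v c ≤ xx B v b / hgt B v b := by
  have h3 := h b hb c hc
  have h4 : 0 ≤ det b c B := by
    by_contra hcon
    have := mul_neg_of_neg_of_pos (not_le.1 hcon) (sub_pos.2 h1)
    linarith
  rw [det_eq_xx B v b c hv] at h4
  have hb0 : hgt B v b ≠ 0 := by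
    intro h0
    rw [h0, zero_mul] at h2
    exact lt_irrefl _ h2
  have hc0 : hgt B v c ≠ 0 := by
    intro h0
    rw [h0, mul_zero] at h2
    exact lt_irrefl _ h2
  rw [← sub_nonneg]
  have h5 : xx B v b / hgt B v b - xx B v c / hgt B v c =
      (xx B v b * hgt B v c - xx B v c * hgt B v b) / (hgt B v b * hgt B v c) := by
    field_simp
  rw [h5]
  exact div_nonneg h4 h2.le

theorem l1_part (K : Set (ℝ × ℝ)) (B v : ℝ × ℝ) (hv : v ≠ 0) (h : Ordered K B v) (S : Set ℝ)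
    (hS : ∀ η ∈ S, ∀ η' ∈ S, 0 < η * η')
    (hK : ∀ η ∈ S, ∃ b ∈ K, ∃ c ∈ K, b ≠ c ∧ hgt B v b = η ∧ hgt B v c = η) : S.Countable := by
  have h1 : ∀ η : ℝ, ∃ q : ℚ, η ∈ S → ∃ b ∈ K, ∃ c ∈ K, hgt B v b = η ∧ hgt B v c = η ∧
      xx B v b / hgt B v b < q ∧ (q : ℝ) < xx B v c / hgt B v c := by
    intro η
    by_cases hη : η ∈ S
    · obtain ⟨b, hb, c, hc, hbc, hb1, hc1⟩ := hK η hη
      have hη0 : η ≠ 0 := by
        intro h0
        have := hS η hη η hη
        rw [h0, zero_mul] at this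
        exact lt_irrefl _ this
      have hne : xx B v b / hgt B v b ≠ xx B v c / hgt B v c := by
        intro he
        rw [hb1, hc1, div_left_inj' hη0] at he
        exact hbc (eq_of_xx B v b c hv he (hb1.trans hc1.symm))
      rcases lt_or_gt_of_ne hne with hlt | hlt
      · obtain ⟨q, hq1, hq2⟩ := exists_rat_btwn hlt
        exact ⟨q, fun _ => ⟨b, hb, c, hc, hb1, hc1, hq1, hq2⟩⟩
      · obtain ⟨q, hq1, hq2⟩ := exists_rat_btwn hlt
        exact ⟨q, fun _ => ⟨c, hc, b, hb, hc1, hb1, hq1, hq2⟩⟩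
    · exact ⟨0, fun h0 => absurd h0 hη⟩
  choose q hq using h1
  have key : ∀ η ∈ S, ∀ η' ∈ S, η < η' → q η ≠ q η' := by
    intro η hη η' hη' hlt he
    obtain ⟨b, hb, c, hc, hb1, hc1, h2, h3⟩ := hq η hη
    obtain ⟨b', hb', c', hc', hb1', hc1', h2', h3'⟩ := hq η' hη'
    have h4 := ratio_le K B v hv h hb hc' (by rw [hb1, hc1']; exact hlt)
      (by rw [hb1, hc1']; exact hS η hη η' hη')
    rw [he] at h2
    linarith
  apply Set.MapsTo.countable_of_injOn (f := q) (t := Set.univ) (fun _ _ => Set.mem_univ _) ?_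
    (Set.to_countable _)
  intro η hη η' hη' he
  rcases lt_trichotomy η η' with hlt | heq | hgt
  · exact absurd he (key η hη η' hη' hlt)
  · exact heq
  · exact absurd he.symm (key η' hη' η hη hgt)

theorem countable_levels (K : Set (ℝ × ℝ)) (B v : ℝ × ℝ) (hv : v ≠ 0) (h : Ordered K B v) :
    {η : ℝ | η ≠ 0 ∧ ∃ b ∈ K, ∃ c ∈ K, b ≠ c ∧ hgt B v b = η ∧ hgt B v c = η}.Countable := by
  have h1 : {η : ℝ | η ≠ 0 ∧ ∃ b ∈ K, ∃ c ∈ K, b ≠ c ∧ hgt B v b = η ∧ hgt B v c = η} ⊆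
      {η : ℝ | 0 < η ∧ ∃ b ∈ K, ∃ c ∈ K, b ≠ c ∧ hgt B v b = η ∧ hgt B v c = η} ∪
      {η : ℝ | η < 0 ∧ ∃ b ∈ K, ∃ c ∈ K, b ≠ c ∧ hgt B v b = η ∧ hgt B v c = η} := by
    rintro η ⟨h0, h2⟩
    rcases lt_or_gt_of_ne h0 with hlt | hlt
    · exact Or.inr ⟨hlt, h2⟩
    · exact Or.inl ⟨hlt, h2⟩
  refine Set.Countable.mono h1 (Set.Countable.union ?_ ?_)
  · exact l1_part K B v hv h _ (fun η hη η' hη' => mul_pos hη.1 hη'.1) (fun η hη => hη.2)
  · exact l1_part K B v hv h _ (fun η hη η' hη' => mul_pos_of_neg_of_neg hη.1 hη'.1)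
      (fun η hη => hη.2)

end Pool.Agent.LibCX37
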