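import Pool.Agent.LibCX37.L1

/-!
[CY L2] **Lipschitz parametrisation of a set with the order property.**
Notation and `ratio_le` as in L1 (`Y p = hgt B v p`, `xx B v p = X p`, `R p = X p / Y p`).
(`lipschitz_cover`) The points of `K` with `Y p = 0` are on the line `t ↦ B + t • v`. For `i ≥ 1` let `K_i^+ = {p ∈ K | 1/i ≤ Y p ≤ i, |X p| ≤ i}`, `U p = Y p - R p`. For `p, q ∈ K_i^+` with
`Y p ≤ Y q`: if `Y p < Y q` then `R q ≤ R p`, so `U q - U p = (Y q - Y p) + (R p - R q)` is at least each of the two terms; if `Y p = Y q`, `|U p - U q| = |R p - R q|`. So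
`|Y p - Y q| ≤ |U p - U q|`, `|R p - R q| ≤ |U p - U q|`, and `X = R Y` with `|R| ≤ i²`, `|Y| ≤ i`: `dist p q ≤ C |U p - U q|`. So the inverse of `U` on `K_i^+` is Lipschitz on
`U '' K_i^+ ⊆ ℝ` (for a choice function `h` with `h (U p) = p`: `U` is injective on `K_i^+`); extend each coordinate to `ℝ` (`LipschitzOnWith.extend_real`). The same for the negative levels
(`K_i^-`; `R` is again nonincreasing in `Y`). (Empty pieces: any constant map.) Re-index the countable family of maps by `ℕ` (line, pieces `+`, pieces `-`; e.g. `ℕ → ...` by `i % 3`, or `Countable` and `exists_surjective_nat`).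
(`dimH_le_one_of_cover`) `dimH` of the range of a Lipschitz map `ℝ → ℝ × ℝ` is at most `dimH univ = 1` (`LipschitzWith.dimH_range_le`, `Real.dimH_univ`), countable union (`dimH_iUnion`).
-/

set_option autoImplicit false

namespace Pool.Agent.LibCX37

open MeasureTheory Set Filter Topology
open scoped ENNReal NNReal

theorem l2_ext (S : Set (ℝ × ℝ)) (U : ℝ × ℝ → ℝ) (C : ℝ≥0)
    (h : ∀ p ∈ S, ∀ q ∈ S, |p.1 - q.1| ≤ C * |U p - U q| ∧ |p.2 - q.2| ≤ C * |U p - U q|) :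
    ∃ g : ℝ → ℝ × ℝ, (∃ C' : ℝ≥0, LipschitzWith C' g) ∧ S ⊆ range g := by
  have hinj : Set.InjOn U S := by
    intro p hp q hq he
    obtain ⟨h1, h2⟩ := h p hp q hq
    rw [he, sub_self, abs_zero, mul_zero] at h1 h2
    have h3 := abs_nonpos_iff.1 h1
    have h4 := abs_nonpos_iff.1 h2
    exact Prod.ext (by linarith) (by linarith)
  set f : ℝ → ℝ × ℝ := Function.invFunOn U S with hf
  have hfU : ∀ p ∈ S, f (U p) = p := fun p hp => hinj.leftInvOn_invFunOn hp
  have h1 : LipschitzOnWith C (fun u => (f u).1) (U '' S) := by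
    apply LipschitzOnWith.of_dist_le_mul
    rintro _ ⟨p, hp, rfl⟩ _ ⟨q, hq, rfl⟩
    rw [hfU p hp, hfU q hq, Real.dist_eq, Real.dist_eq]
    exact (h p hp q hq).1
  have h2 : LipschitzOnWith C (fun u => (f u).2) (U '' S) := by
    apply LipschitzOnWith.of_dist_le_mul
    rintro _ ⟨p, hp, rfl⟩ _ ⟨q, hq, rfl⟩
    rw [hfU p hp, hfU q hq, Real.dist_eq, Real.dist_eq]
    exact (h p hp q hq).2
  obtain ⟨g1, hg1, he1⟩ := h1.extend_real
  obtain ⟨g2, hg2, he2⟩ := h2.extend_real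
  refine ⟨fun u => (g1 u, g2 u), ⟨max C C, hg1.prodMk hg2⟩, ?_⟩
  intro p hp
  refine ⟨U p, ?_⟩
  have e1 := he1 (mem_image_of_mem U hp)
  have e2 := he2 (mem_image_of_mem U hp)
  simp only [hfU p hp] at e1 e2
  exact Prod.ext e1.symm e2.symm

theorem l2_U (K : Set (ℝ × ℝ)) (B v : ℝ × ℝ) (hv : v ≠ 0) (h : Ordered K B v)
    {p q : ℝ × ℝ} (hp : p ∈ K) (hq : q ∈ K) (hpq : 0 < hgt B v p * hgt B v q) :
    |hgt B v p - hgt B v q| ≤
      |(hgt B v p - xx B v p / hgt B v p) - (hgt B v q - xx B v q / hgt B v q)| ∧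
    |xx B v p / hgt B v p - xx B v q / hgt B v q| ≤
      |(hgt B v p - xx B v p / hgt B v p) - (hgt B v q - xx B v q / hgt B v q)| := by
  rcases lt_trichotomy (hgt B v p) (hgt B v q) with h1 | h1 | h1
  · have h2 := ratio_le K B v hv h hp hq h1 hpq
    have e : (hgt B v p - xx B v p / hgt B v p) - (hgt B v q - xx B v q / hgt B v q) =
      -((hgt B v q - hgt B v p) + (xx B v p / hgt B v p - xx B v q / hgt B v q)) := by ring
    rw [e, abs_neg, abs_of_nonneg (a := (hgt B v q - hgt B v p) + _) (by linarith),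
      abs_of_nonpos (by linarith), abs_of_nonneg (by linarith)]
    constructor <;> linarith
  · rw [h1]
    have e : (hgt B v q - xx B v p / hgt B v q) - (hgt B v q - xx B v q / hgt B v q) =
      -(xx B v p / hgt B v q - xx B v q / hgt B v q) := by ring
    rw [e, abs_neg]
    exact ⟨by rw [sub_self, abs_zero]; exact abs_nonneg _, le_rfl⟩
  · have h2 := ratio_le K B v hv h hq hp h1 (by rw [mul_comm]; exact hpq)
    have e : (hgt B v p - xx B v p / hgt B v p) - (hgt B v q - xx B v q / hgt B v q) =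
      (hgt B v p - hgt B v q) + (xx B v q / hgt B v q - xx B v p / hgt B v p) := by ring
    rw [e, abs_of_nonneg (a := (hgt B v p - hgt B v q) + _) (by linarith),
      abs_of_nonneg (by linarith), abs_of_nonpos (by linarith)]
    constructor <;> linarith

theorem l2_piece (K : Set (ℝ × ℝ)) (B v : ℝ × ℝ) (hv : v ≠ 0) (h : Ordered K B v)
    (S : Set (ℝ × ℝ)) (hSK : S ⊆ K) (a A : ℝ) (ha : 0 < a) (hA : 0 ≤ A)
    (hS : ∀ p ∈ S, a ≤ |hgt B v p| ∧ |hgt B v p| ≤ A ∧ |xx B v p| ≤ A)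
    (hpq : ∀ p ∈ S, ∀ q ∈ S, 0 < hgt B v p * hgt B v q) :
    ∃ g : ℝ → ℝ × ℝ, (∃ C' : ℝ≥0, LipschitzWith C' g) ∧ S ⊆ range g := by
  set s : ℝ := v.1 ^ 2 + v.2 ^ 2 with hs
  have hs0 : 0 < s := l1_pos v hv
  set C : ℝ := (A / a + A) * (|v.1| + |v.2|) + (|v.1| + |v.2|) / s with hC
  have hC0 : 0 ≤ C := by positivity
  apply l2_ext S (fun p => hgt B v p - xx B v p / hgt B v p) ⟨C, hC0⟩
  intro p hp q hq
  obtain ⟨h1, h2⟩ := l2_U K B v hv h (hSK hp) (hSK hq) (hpq p hp q hq)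
  set u : ℝ := |(hgt B v p - xx B v p / hgt B v p) - (hgt B v q - xx B v q / hgt B v q)| with hu
  have hu0 : 0 ≤ u := abs_nonneg _
  obtain ⟨p1, p2, p3⟩ := hS p hp
  obtain ⟨q1, q2, q3⟩ := hS q hq
  have hYp : hgt B v p ≠ 0 := by
    intro h0
    rw [h0, abs_zero] at p1
    linarith
  have hYq : hgt B v q ≠ 0 := by
    intro h0
    rw [h0, abs_zero] at q1
    linarith
  have hR : |xx B v p / hgt B v p| ≤ A / a := by
    rw [abs_div]
    exact div_le_div₀ hA p3 ha p1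
  have hX : |xx B v p - xx B v q| ≤ (A / a + A) * u := by
    have e : xx B v p - xx B v q = xx B v p / hgt B v p * (hgt B v p - hgt B v q) +
        (xx B v p / hgt B v p - xx B v q / hgt B v q) * hgt B v q := by
      field_simp
      ring
    rw [e]
    refine (abs_add_le _ _).trans ?_
    rw [abs_mul, abs_mul, add_mul]
    apply add_le_add
    · exact mul_le_mul hR h1 (abs_nonneg _) (by positivity)
    · rw [mul_comm A]
      exact mul_le_mul h2 q2 (abs_nonneg _) hu0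
  have hY : |hgt B v p / s - hgt B v q / s| ≤ 1 / s * u := by
    rw [← sub_div, abs_div, abs_of_pos hs0, one_div, mul_comm, ← div_eq_mul_inv]
    exact div_le_div_of_nonneg_right h1 hs0.le
  obtain ⟨r1, r2⟩ := l1_repr B v p hv
  obtain ⟨t1, t2⟩ := l1_repr B v q hv
  rw [← hs] at r1 r2 t1 t2
  have hAa : 0 ≤ (A / a + A) * u := by positivity
  have hsu : 0 ≤ 1 / s * u := by positivity
  have hCu : C * u = (A / a + A) * u * (|v.1| + |v.2|) + 1 / s * u * (|v.1| + |v.2|) := by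
    rw [hC]
    ring
  have hv1 := abs_nonneg v.1
  have hv2 := abs_nonneg v.2
  constructor
  · change |p.1 - q.1| ≤ C * u
    have e : p.1 - q.1 = (xx B v p - xx B v q) * v.1 - (hgt B v p / s - hgt B v q / s) * v.2 := by
      rw [r1, t1]
      ring
    rw [e, hCu]
    refine (abs_sub _ _).trans ?_
    rw [abs_mul, abs_mul]
    apply add_le_add
    · exact mul_le_mul hX (by linarith) hv1 hAa
    · exact mul_le_mul hY (by linarith) hv2 hsu
  · change |p.2 - q.2| ≤ C * u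
    have e : p.2 - q.2 = (xx B v p - xx B v q) * v.2 + (hgt B v p / s - hgt B v q / s) * v.1 := by
      rw [r2, t2]
      ring
    rw [e, hCu]
    refine (abs_add_le _ _).trans ?_
    rw [abs_mul, abs_mul]
    apply add_le_add
    · exact mul_le_mul hX (by linarith) hv2 hAa
    · exact mul_le_mul hY (by linarith) hv1 hsu

theorem l2_line (K : Set (ℝ × ℝ)) (B v : ℝ × ℝ) (hv : v ≠ 0) :
    ∃ g : ℝ → ℝ × ℝ, (∃ C' : ℝ≥0, LipschitzWith C' g) ∧ {p | p ∈ K ∧ hgt B v p = 0} ⊆ range g := by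
  apply l2_ext _ (fun p => xx B v p) ⟨|v.1| + |v.2|, by positivity⟩
  rintro p ⟨-, hp⟩ q ⟨-, hq⟩
  obtain ⟨r1, r2⟩ := l1_repr B v p hv
  obtain ⟨t1, t2⟩ := l1_repr B v q hv
  rw [hp, zero_div, zero_mul] at r1 r2
  rw [hq, zero_div, zero_mul] at t1 t2
  have hv1 := abs_nonneg v.1
  have hv2 := abs_nonneg v.2
  constructor
  · change |p.1 - q.1| ≤ (|v.1| + |v.2|) * |xx B v p - xx B v q|
    have e : p.1 - q.1 = v.1 * (xx B v p - xx B v q) := by
      rw [r1, t1]
      ring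
    rw [e, abs_mul]
    exact mul_le_mul_of_nonneg_right (by linarith) (abs_nonneg _)
  · change |p.2 - q.2| ≤ (|v.1| + |v.2|) * |xx B v p - xx B v q|
    have e : p.2 - q.2 = v.2 * (xx B v p - xx B v q) := by
      rw [r2, t2]
      ring
    rw [e, abs_mul]
    exact mul_le_mul_of_nonneg_right (by linarith) (abs_nonneg _)

/-- The pieces: `none` is the part on the line, `some (ε, i)` the points with sign `ε` and coordinates controlled by `i`. -/
def l2_S (K : Set (ℝ × ℝ)) (B v : ℝ × ℝ) : Option (Bool × ℕ) → Set (ℝ × ℝ)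
  | none => {p | p ∈ K ∧ hgt B v p = 0}
  | some (true, i) => {p | p ∈ K ∧ 0 < hgt B v p ∧ 1 / ((i : ℝ) + 1) ≤ |hgt B v p| ∧
      |hgt B v p| ≤ (i : ℝ) + 1 ∧ |xx B v p| ≤ (i : ℝ) + 1}
  | some (false, i) => {p | p ∈ K ∧ hgt B v p < 0 ∧ 1 / ((i : ℝ) + 1) ≤ |hgt B v p| ∧
      |hgt B v p| ≤ (i : ℝ) + 1 ∧ |xx B v p| ≤ (i : ℝ) + 1}

theorem l2_cover (K : Set (ℝ × ℝ)) (B v p : ℝ × ℝ) (hp : p ∈ K) : ∃ o, p ∈ l2_S K B v o := by
  by_cases h0 : hgt B v p = 0
  · exact ⟨none, hp, h0⟩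
  · have h1 : 0 < |hgt B v p| := abs_pos.2 h0
    obtain ⟨i, hi⟩ := exists_nat_ge (max (1 / |hgt B v p|) (max |hgt B v p| |xx B v p|))
    have h2 := (le_max_left _ _).trans hi
    have h3 := ((le_max_left _ _).trans (le_max_right _ _)).trans hi
    have h4 := ((le_max_right _ _).trans (le_max_right _ _)).trans hi
    have h5 : 1 / ((i : ℝ) + 1) ≤ |hgt B v p| := by
      rw [div_le_iff₀ h1] at h2
      rw [div_le_iff₀ (by positivity)]
      nlinarith
    rcases lt_or_gt_of_ne h0 with hlt | hlt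
    · exact ⟨some (false, i), hp, hlt, h5, by linarith, by linarith⟩
    · exact ⟨some (true, i), hp, hlt, h5, by linarith, by linarith⟩

theorem lipschitz_cover (K : Set (ℝ × ℝ)) (B v : ℝ × ℝ) (hv : v ≠ 0) (h : Ordered K B v) :
    ∃ g : ℕ → ℝ → ℝ × ℝ, (∀ i, ∃ C : ℝ≥0, LipschitzWith C (g i)) ∧ K ⊆ ⋃ i, range (g i) := by
  have h1 : ∀ o : Option (Bool × ℕ), ∃ g : ℝ → ℝ × ℝ, (∃ C' : ℝ≥0, LipschitzWith C' g) ∧
      l2_S K B v o ⊆ range g := by
    intro o
    match o with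
    | none => exact l2_line K B v hv
    | some (true, i) =>
      exact l2_piece K B v hv h _ (fun p hp => hp.1) (1 / ((i : ℝ) + 1)) ((i : ℝ) + 1)
        (by positivity) (by positivity) (fun p hp => hp.2.2)
        (fun p hp q hq => mul_pos hp.2.1 hq.2.1)
    | some (false, i) =>
      exact l2_piece K B v hv h _ (fun p hp => hp.1) (1 / ((i : ℝ) + 1)) ((i : ℝ) + 1)
        (by positivity) (by positivity) (fun p hp => hp.2.2)
        (fun p hp q hq => mul_pos_of_neg_of_neg hp.2.1 hq.2.1)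
  choose γ hγ1 hγ2 using h1
  obtain ⟨f, hf⟩ := exists_surjective_nat (Option (Bool × ℕ))
  refine ⟨fun n => γ (f n), fun n => hγ1 (f n), ?_⟩
  intro p hp
  obtain ⟨o, ho⟩ := l2_cover K B v p hp
  obtain ⟨n, hn⟩ := hf o
  exact mem_iUnion.2 ⟨n, hγ2 (f n) (by rw [hn]; exact ho)⟩

theorem dimH_le_one_of_cover (K : Set (ℝ × ℝ)) (g : ℕ → ℝ → ℝ × ℝ)
    (hg : ∀ i, ∃ C : ℝ≥0, LipschitzWith C (g i)) (h : K ⊆ ⋃ i, range (g i)) : dimH K ≤ 1 := by
  refine (dimH_mono h).trans ?_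
  rw [dimH_iUnion]
  apply iSup_le
  intro i
  obtain ⟨C, hC⟩ := hg i
  refine hC.dimH_range_le.trans ?_
  rw [Real.dimH_univ]

end Pool.Agent.LibCX37
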