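import Pool.Agent.LibCX37.Y0

/-!
[CZ M10a] **Two points on the outer rays whose line misses `K`.**
PROOF. `dotp g` is bounded above on the bounded set `K` by some `C`. For `t > max C (dotp g V) (dotp g V')` put `s t = (t - dotp g V)/(-dotp g v) > 0`,
`s' t = (t - dotp g V')/(-dotp g v') > 0`, `z t = V - s t • v`, `z' t = V' - s' t • v'`: `dotp g (z t) = t = dotp g (z' t)`. If `z t ≠ z' t`, the line through
them is the level line `dotp g = t` (`g ≠ 0`), precisely `det (z t) (z' t) p = ρ (t - dotp g p)` with a constant `ρ ≠ 0`: as `dotp g (z' - z) = 0`,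
`z' - z = κ • (-g.2, g.1)` with `κ ≠ 0`, and `det z z' p = (z' - z) × (p - z) = -κ (g.1 (p-z).1 + g.2 (p-z).2) = κ (t - dotp g p)`. So for `p, q ∈ K`
`det z z' p * det z z' q = κ² (t - g p) (t - g q) > 0`.
`z t = z' t` for at most one `t`: if it holds for `t₁ ≠ t₂`, subtract: `(s t₁ - s t₂) • v = (s' t₁ - s' t₂) • v'`, that is
`v / dotp g v = v' / dotp g v'`, `v' = μ v` with `μ = dotp g v' / dotp g v > 0`; and `V - s v = V' - s' μ v`, so `V' = V - κ v` with `κ = s - s' μ`. `κ = 0`: `V = V'`,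
no. `κ > 0`: `dotp n V' = dotp n V - κ dotp n v > dotp n V`, no. `κ < 0`: `V = V' - (-κ/μ) v'`, `dotp n' V > dotp n' V'`, no. So one of two large values of `t` works.
-/

set_option autoImplicit false

namespace Pool.Agent.LibCX37

open MeasureTheory Set Filter Topology
open scoped ENNReal

theorem m10a_det (g z z' : ℝ × ℝ) (t : ℝ) (hg : 0 < g.1 ^ 2 + g.2 ^ 2)
    (hz : dotp g z = t) (hz' : dotp g z' = t) (hne : z ≠ z') :
    ∃ k : ℝ, k ≠ 0 ∧ ∀ p, det z z' p = k * (t - dotp g p) := by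
  obtain ⟨k, hk⟩ : ∃ k, k = (g.1 * (z'.2 - z.2) - g.2 * (z'.1 - z.1)) / (g.1 ^ 2 + g.2 ^ 2) :=
    ⟨_, rfl⟩
  have hN : g.1 ^ 2 + g.2 ^ 2 ≠ 0 := hg.ne'
  have hkN : k * (g.1 ^ 2 + g.2 ^ 2) = g.1 * (z'.2 - z.2) - g.2 * (z'.1 - z.1) := by
    rw [hk, div_mul_cancel₀ _ hN]
  unfold dotp at hz hz'
  have h1 : z'.1 - z.1 = -(k * g.2) := by
    apply mul_right_cancel₀ hN
    linear_combination g.1 * (hz' - hz) + g.2 * hkN
  have h2 : z'.2 - z.2 = k * g.1 := by
    apply mul_right_cancel₀ hN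
    linear_combination g.2 * (hz' - hz) + (-g.1) * hkN
  refine ⟨k, ?_, fun p => ?_⟩
  · rintro rfl
    apply hne
    rw [zero_mul, neg_zero, sub_eq_zero] at h1
    rw [zero_mul, sub_eq_zero] at h2
    exact Prod.ext h1.symm h2.symm
  · unfold det dotp
    rw [h1, h2]
    linear_combination k * hz

theorem exists_far_pair (K : Set (ℝ × ℝ)) (hK : Bornology.IsBounded K)
    (V V' v v' n n' g : ℝ × ℝ) (hVV : V ≠ V') (hv : dotp n v < 0) (hv' : dotp n' v' < 0)
    (hn : dotp n V' ≤ dotp n V) (hn' : dotp n' V ≤ dotp n' V') (hg : dotp g v < 0)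
    (hg' : dotp g v' < 0) : ∃ s s' : ℝ, 0 < s ∧ 0 < s' ∧ V - s • v ≠ V' - s' • v' ∧
      ∀ p ∈ K, ∀ q ∈ K, 0 < det (V - s • v) (V' - s' • v') p * det (V - s • v) (V' - s' • v') q := by
  obtain ⟨R, hR⟩ := hK.exists_norm_le
  have hg0 : 0 < g.1 ^ 2 + g.2 ^ 2 := by
    by_contra h
    have h1 : g.1 = 0 := by nlinarith [sq_nonneg g.1, sq_nonneg g.2]
    have h2 : g.2 = 0 := by nlinarith [sq_nonneg g.1, sq_nonneg g.2]
    unfold dotp at hg
    rw [h1, h2] at hg
    simp at hg
  have hC : ∀ p ∈ K, dotp g p ≤ |g.1| * R + |g.2| * R := by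
    intro p hp
    have h1 := hR p hp
    have h2 : |p.1| ≤ R := le_trans (norm_fst_le p) h1
    have h3 : |p.2| ≤ R := le_trans (norm_snd_le p) h1
    have h4 : g.1 * p.1 ≤ |g.1| * R := by
      calc g.1 * p.1 ≤ |g.1 * p.1| := le_abs_self _
        _ = |g.1| * |p.1| := abs_mul _ _
        _ ≤ |g.1| * R := mul_le_mul_of_nonneg_left h2 (abs_nonneg _)
    have h5 : g.2 * p.2 ≤ |g.2| * R := by
      calc g.2 * p.2 ≤ |g.2 * p.2| := le_abs_self _
        _ = |g.2| * |p.2| := abs_mul _ _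
        _ ≤ |g.2| * R := mul_le_mul_of_nonneg_left h3 (abs_nonneg _)
    unfold dotp
    linarith
  have hsub : ∀ (f X y : ℝ × ℝ) (s : ℝ), dotp f (X - s • y) = dotp f X - s * dotp f y := by
    intro f X y s
    unfold dotp
    simp only [Prod.fst_sub, Prod.snd_sub, Prod.smul_fst, Prod.smul_snd, smul_eq_mul]
    ring
  obtain ⟨a, ha⟩ : ∃ a, a = -dotp g v := ⟨_, rfl⟩
  obtain ⟨b, hb⟩ : ∃ b, b = -dotp g v' := ⟨_, rfl⟩
  have ha0 : 0 < a := by rw [ha]; linarith
  have hb0 : 0 < b := by rw [hb]; linarith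
  -- the conclusion for a large `t` with different points
  have key : ∀ t : ℝ, |g.1| * R + |g.2| * R < t → dotp g V < t → dotp g V' < t →
      V - ((t - dotp g V) / a) • v ≠ V' - ((t - dotp g V') / b) • v' →
      ∃ s s' : ℝ, 0 < s ∧ 0 < s' ∧ V - s • v ≠ V' - s' • v' ∧
      ∀ p ∈ K, ∀ q ∈ K, 0 < det (V - s • v) (V' - s' • v') p *
        det (V - s • v) (V' - s' • v') q := by
    intro t h1 h2 h3 h4
    refine ⟨(t - dotp g V) / a, (t - dotp g V') / b, div_pos (by linarith) ha0,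
      div_pos (by linarith) hb0, h4, fun p hp q hq => ?_⟩
    have h5 : dotp g (V - ((t - dotp g V) / a) • v) = t := by
      rw [hsub]
      have h6 : dotp g v = -a := by rw [ha]; ring
      rw [h6]
      field_simp
      ring
    have h7 : dotp g (V' - ((t - dotp g V') / b) • v') = t := by
      rw [hsub]
      have h6 : dotp g v' = -b := by rw [hb]; ring
      rw [h6]
      field_simp
      ring
    obtain ⟨k, hk, hk'⟩ := m10a_det g _ _ t hg0 h5 h7 h4
    rw [hk' p, hk' q]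
    have h8 : 0 < t - dotp g p := by linarith [hC p hp]
    have h9 : 0 < t - dotp g q := by linarith [hC q hq]
    have h10 : 0 < k * k := mul_self_pos.2 hk
    calc (0 : ℝ) < k * k * ((t - dotp g p) * (t - dotp g q)) := mul_pos h10 (mul_pos h8 h9)
      _ = k * (t - dotp g p) * (k * (t - dotp g q)) := by ring
  obtain ⟨T, hT⟩ : ∃ T, T = max (|g.1| * R + |g.2| * R) (max (dotp g V) (dotp g V')) := ⟨_, rfl⟩
  have hT1 : |g.1| * R + |g.2| * R ≤ T := by rw [hT]; exact le_max_left _ _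
  have hT2 : dotp g V ≤ T := by rw [hT]; exact le_trans (le_max_left _ _) (le_max_right _ _)
  have hT3 : dotp g V' ≤ T := by rw [hT]; exact le_trans (le_max_right _ _) (le_max_right _ _)
  by_cases h1 : V - ((T + 1 - dotp g V) / a) • v = V' - ((T + 1 - dotp g V') / b) • v'
  swap
  · exact key (T + 1) (by linarith) (by linarith) (by linarith) h1
  by_cases h2 : V - ((T + 2 - dotp g V) / a) • v = V' - ((T + 2 - dotp g V') / b) • v'
  swap
  · exact key (T + 2) (by linarith) (by linarith) (by linarith) h2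
  exfalso
  -- `v'` is a multiple of `v`
  have h3 : (1 / a) • v = (1 / b) • v' := by
    have h4 : (V - ((T + 1 - dotp g V) / a) • v) - (V - ((T + 2 - dotp g V) / a) • v) =
        (V' - ((T + 1 - dotp g V') / b) • v') - (V' - ((T + 2 - dotp g V') / b) • v') := by
      rw [h1, h2]
    have h5 : (V - ((T + 1 - dotp g V) / a) • v) - (V - ((T + 2 - dotp g V) / a) • v) =
        (1 / a) • v := by
      have h6 : (1 : ℝ) / a = (T + 2 - dotp g V) / a - (T + 1 - dotp g V) / a := by ring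
      rw [h6, sub_smul]
      abel
    have h7 : (V' - ((T + 1 - dotp g V') / b) • v') - (V' - ((T + 2 - dotp g V') / b) • v') =
        (1 / b) • v' := by
      have h6 : (1 : ℝ) / b = (T + 2 - dotp g V') / b - (T + 1 - dotp g V') / b := by ring
      rw [h6, sub_smul]
      abel
    rw [← h5, ← h7, h4]
  obtain ⟨u, hu⟩ : ∃ u : ℝ, u = b / a := ⟨_, rfl⟩
  have hu0 : 0 < u := by rw [hu]; exact div_pos hb0 ha0
  have h4 : v' = u • v := by
    have h5 : b • ((1 / a) • v) = b • ((1 / b) • v') := by rw [h3]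
    rw [smul_smul, smul_smul, mul_one_div, mul_one_div, div_self hb0.ne', one_smul] at h5
    rw [← h5, hu]
  obtain ⟨κ, hκ⟩ : ∃ κ : ℝ, κ = (T + 1 - dotp g V) / a - (T + 1 - dotp g V') / b * u := ⟨_, rfl⟩
  have h5 : V' = V - κ • v := by
    have h6 : V' = (V' - ((T + 1 - dotp g V') / b) • v') + ((T + 1 - dotp g V') / b) • v' := by
      abel
    rw [h6, ← h1, h4, smul_smul, hκ, sub_smul]
    abel
  have h6 : dotp n V' = dotp n V - κ * dotp n v := by rw [h5, hsub]
  have h7 : V = V' - (-(κ / u)) • v' := by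
    rw [h4, smul_smul, h5, neg_mul, div_mul_cancel₀ _ hu0.ne', neg_smul]
    abel
  have h8 : dotp n' V = dotp n' V' - (-(κ / u)) * dotp n' v' := by
    conv_lhs => rw [h7]
    rw [hsub]
  rcases lt_trichotomy κ 0 with h9 | h9 | h9
  · have h10 : κ / u < 0 := div_neg_of_neg_of_pos h9 hu0
    nlinarith
  · apply hVV
    rw [h5, h9, zero_smul, sub_zero]
  · nlinarith

end Pool.Agent.LibCX37
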