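import Pool.Agent.LibCX37.G2
import Pool.Agent.LibCX37.Y0

/-!
[CZ M9] **Comparison of two quadruples.** `V`, `V'` maximise the functionals `n`, `n'` over `V, V', c, d`; `z`, `z'` lie on the same side of the line
`cd` as `V`, `V'` respectively, and `c, d` are on the same side of the line `z z'`.
PROOF. Abbreviate `X`: `det c d V * det c d V' < 0` (`V, V'` on different sides of `cd`), `Y`: `det V V' c * det V V' d < 0`.
(`Y → X`) With `α = det V V' c`, `β = det V V' d`, `γ = det c d V`, `γ' = det c d V'`: `-β c + α d = γ' V - γ V'`, `γ' - γ = α - β`; apply `n` and `n'`.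
(`X`) Then `det c d z * det c d z' < 0` (signs), and `Nn z z' c d = 0`. If `Y`: `1 ≤ Nn V V' c d` as `Meets V V' c d`.
(not `X`) Then not `Y`. `0 < det c d V * det c d V'`; and `0 < det V V' c * det V V' d`: `1 ≤ Nn V V' c d`, and `Nn z z' c d ≤ 1`.
-/

set_option autoImplicit false

namespace Pool.Agent.LibCX37

open MeasureTheory Set Filter Topology
open scoped ENNReal

theorem m9_comb (V V' c d n : ℝ × ℝ) :
    -det V V' d * dotp n c + det V V' c * dotp n d =
      det c d V' * dotp n V - det c d V * dotp n V' := by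
  unfold det dotp
  ring

theorem m9_sum (V V' c d : ℝ × ℝ) : det c d V' - det c d V = det V V' c - det V V' d := by
  unfold det
  ring

theorem m9_line (V V' c n : ℝ × ℝ) (hn : n ≠ 0) (h1 : dotp n V' = dotp n V)
    (h2 : dotp n c = dotp n V) : det V V' c = 0 := by
  have e1 : n.1 * det V V' c = 0 := by
    have : n.1 * det V V' c = (dotp n V' - dotp n V) * (c.2 - V.2) -
        (dotp n c - dotp n V) * (V'.2 - V.2) := by
      unfold det dotp
      ring
    rw [this, h1, h2]
    ring
  have e2 : n.2 * det V V' c = 0 := by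
    have : n.2 * det V V' c = (dotp n c - dotp n V) * (V'.1 - V.1) -
        (dotp n V' - dotp n V) * (c.1 - V.1) := by
      unfold det dotp
      ring
    rw [this, h1, h2]
    ring
  by_contra hcon
  apply hn
  ext
  · exact (mul_eq_zero.mp e1).resolve_right hcon
  · exact (mul_eq_zero.mp e2).resolve_right hcon

/-- the case `det V V' d < 0 < det V V' c` -/
theorem m9_aux (V V' n n' c d : ℝ × ℝ) (hn : n ≠ 0) (hn' : n' ≠ 0)
    (a1 : dotp n c ≤ dotp n V) (a2 : dotp n d ≤ dotp n V) (a3 : dotp n V' ≤ dotp n V)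
    (b1 : dotp n' c ≤ dotp n' V') (b2 : dotp n' d ≤ dotp n' V') (b3 : dotp n' V ≤ dotp n' V')
    (g1 : det c d V ≠ 0) (g2 : det c d V' ≠ 0)
    (h3 : 0 < det V V' c) (h4 : det V V' d < 0) : det c d V < 0 ∧ 0 < det c d V' := by
  have k := m9_comb V V' c d n
  have k' := m9_comb V V' c d n'
  have s := m9_sum V V' c d
  set α := det V V' c
  set β := det V V' d
  set γ := det c d V
  set γ' := det c d V'
  have K1 : -β * (dotp n V - dotp n c) + α * (dotp n V - dotp n d) +
      γ * (dotp n V - dotp n V') = 0 := by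
    linear_combination (-1) * k - dotp n V * s
  have K2 : -β * (dotp n' V' - dotp n' c) + α * (dotp n' V' - dotp n' d) -
      γ' * (dotp n' V' - dotp n' V) = 0 := by
    linear_combination (-1) * k' - dotp n' V' * s
  have m1 := mul_nonneg (neg_nonneg.mpr h4.le) (sub_nonneg.mpr a1)
  have m2 := mul_nonneg h3.le (sub_nonneg.mpr a2)
  have m3 := mul_nonneg (neg_nonneg.mpr h4.le) (sub_nonneg.mpr b1)
  have m4 := mul_nonneg h3.le (sub_nonneg.mpr b2)
  constructor
  · -- γ < 0
    rcases lt_or_eq_of_le a3 with h | h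
    · have : γ ≤ 0 := by
        by_contra hc
        push Not at hc
        have m5 := mul_pos hc (sub_pos.mpr h)
        linarith
      exact lt_of_le_of_ne this g1
    · exfalso
      have e : dotp n c = dotp n V := by
        by_contra hc
        have hlt : dotp n c < dotp n V := lt_of_le_of_ne a1 hc
        have m5 := mul_pos (neg_pos.mpr h4) (sub_pos.mpr hlt)
        have m6 : γ * (dotp n V - dotp n V') = 0 := by rw [h]; ring
        linarith
      exact h3.ne' (m9_line V V' c n hn h e)
  · rcases lt_or_eq_of_le b3 with h | h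
    · have : 0 ≤ γ' := by
        by_contra hc
        push Not at hc
        have m5 := mul_pos (neg_pos.mpr hc) (sub_pos.mpr h)
        linarith
      exact lt_of_le_of_ne this g2.symm
    · exfalso
      have e : dotp n' c = dotp n' V := by
        by_contra hc
        have hlt : dotp n' c < dotp n' V' := lt_of_le_of_ne b1 (by rw [← h]; exact hc)
        have m5 := mul_pos (neg_pos.mpr h4) (sub_pos.mpr hlt)
        have m6 : γ' * (dotp n' V' - dotp n' V) = 0 := by rw [h]; ring
        linarith
      exact h3.ne' (m9_line V V' c n' hn' h.symm e)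

theorem m9_key (V V' n n' c d : ℝ × ℝ) (hn : n ≠ 0) (hn' : n' ≠ 0)
    (a1 : dotp n c ≤ dotp n V) (a2 : dotp n d ≤ dotp n V) (a3 : dotp n V' ≤ dotp n V)
    (b1 : dotp n' c ≤ dotp n' V') (b2 : dotp n' d ≤ dotp n' V') (b3 : dotp n' V ≤ dotp n' V')
    (g1 : det c d V ≠ 0) (g2 : det c d V' ≠ 0)
    (hY : det V V' c * det V V' d < 0) : det c d V * det c d V' < 0 := by
  rcases mul_neg_iff.mp hY with ⟨h3, h4⟩ | ⟨h3, h4⟩
  · obtain ⟨u1, u2⟩ := m9_aux V V' n n' c d hn hn' a1 a2 a3 b1 b2 b3 g1 g2 h3 h4
    exact mul_neg_of_neg_of_pos u1 u2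
  · have e1 : det d c V = -det c d V := by unfold det; ring
    have e2 : det d c V' = -det c d V' := by unfold det; ring
    obtain ⟨u1, u2⟩ := m9_aux V V' n n' d c hn hn' a2 a1 a3 b2 b1 b3
      (by rw [e1]; exact neg_ne_zero.mpr g1) (by rw [e2]; exact neg_ne_zero.mpr g2) h4 h3
    rw [e1] at u1
    rw [e2] at u2
    nlinarith

theorem m9_swap (z z' c d : ℝ × ℝ) : Nn z z' c d = Nn c d z z' := by
  rw [← Nn_swap23 z z' c d, ← Nn_swap12 z c z' d, ← Nn_swap34 c z z' d, ← Nn_swap23 c z d z']

open Classical in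
theorem edge_point (V V' z z' n n' c d : ℝ × ℝ) (hn : n ≠ 0) (hn' : n' ≠ 0)
    (a1 : dotp n c ≤ dotp n V) (a2 : dotp n d ≤ dotp n V) (a3 : dotp n V' ≤ dotp n V)
    (b1 : dotp n' c ≤ dotp n' V') (b2 : dotp n' d ≤ dotp n' V') (b3 : dotp n' V ≤ dotp n' V')
    (h1 : 0 < det c d V * det c d z) (h2 : 0 < det c d V' * det c d z')
    (h3 : det V V' c ≠ 0) (h4 : det V V' d ≠ 0) (h5 : 0 < det z z' c * det z z' d) :
    Nn z z' c d + (if det V V' c * det V V' d < 0 then 1 else 0) ≤ Nn V V' c d := by
  have g1 : det c d V ≠ 0 := left_ne_zero_of_mul h1.ne'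
  have g1' : det c d z ≠ 0 := right_ne_zero_of_mul h1.ne'
  have g2 : det c d V' ≠ 0 := left_ne_zero_of_mul h2.ne'
  have g2' : det c d z' ≠ 0 := right_ne_zero_of_mul h2.ne'
  have k1 : det z z' c ≠ 0 := left_ne_zero_of_mul h5.ne'
  have k2 : det z z' d ≠ 0 := right_ne_zero_of_mul h5.ne'
  have c1 : det V c d = det c d V := by unfold det; ring
  have c2 : det V' c d = det c d V' := by unfold det; ring
  have c3 : det z c d = det c d z := by unfold det; ring
  have c4 : det z' c d = det c d z' := by unfold det; ring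
  have c5 : det c z z' = det z z' c := by unfold det; ring
  have c6 : det d z z' = det z z' d := by unfold det; ring
  by_cases hX : det c d V * det c d V' < 0
  · have hz : det c d z * det c d z' < 0 := by
      have : 0 < (det c d V * det c d V') * (det c d z * det c d z') := by
        have := mul_pos h1 h2
        linarith
      nlinarith
    have e0 : Nn z z' c d = 0 := by
      rw [m9_swap]
      exact Nn_eq_zero c d z z' hz (by rw [c5, c6]; exact h5)
    rw [e0, zero_add]
    split_ifs with hY
    · have hm : Meets V V' c d := meets_of_sign V V' c d hY (by rw [c1, c2]; exact hX)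
      unfold Nn ind
      rw [if_pos hm, add_assoc]
      exact le_self_add
    · exact bot_le
  · have hY : ¬ det V V' c * det V V' d < 0 := fun hY =>
      hX (m9_key V V' n n' c d hn hn' a1 a2 a3 b1 b2 b3 g1 g2 hY)
    rw [if_neg hY, add_zero]
    have hX' : 0 < det c d V * det c d V' :=
      lt_of_le_of_ne (not_lt.mp hX) (mul_ne_zero g1 g2).symm
    have hY' : 0 < det V V' c * det V V' d :=
      lt_of_le_of_ne (not_lt.mp hY) (mul_ne_zero h3 h4).symm
    have e1 : 1 ≤ Nn V V' c d := one_le_Nn V V' c d hY' (by rw [c1, c2]; exact hX')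
    have e2 : Nn z z' c d ≤ 1 := Nn_le_one z z' c d
      ⟨k1, k2, by rw [c3]; exact g1', by rw [c4]; exact g2'⟩
    exact e2.trans e1

end Pool.Agent.LibCX37
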