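import Pool.Agent.LibCX37.P1
import Pool.Agent.LibCX37.K1
import Pool.Agent.LibCX37.K2
import Pool.Agent.LibCX37.K3

/-!
[CX P2] **The pair condition.**
PROOF. Suppose `qq m y z = 1/2 + c`, `c > 0` (`m = law f`, a probability measure without lines by A2; `qq ≤ 3`). Put `c' = c/4`. Take `ε > 0` which
works in `near m y c'`, `near m z c'`, `qq_lsc m y z c'`, and `2ε ≤ dist y z`. The sets `f⁻¹(B(y,ε))`, `f⁻¹(B(z,ε))` are disjoint and of
positive measure; for every small `s > 0` there are subsets `S₁, S₂` of measure `s` (`exists_subset_volume`). `S = S₁ ∪ S₂`, `volume S = 2s`.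
For a.e. `(a,b)`, `f a ≠ f b` (no atoms: a point is contained in a line). So (sum over the four products, disjoint sets,
`lintegral_union`) `∫_S ∫_S qq m (f a) (f b) + ... ≥`: `2 s² (1/2 - c') + 2 s² (1/2 + c - c') = s² (2 + c)`, using
`1/2 ≤ qq + c'` on `S₁×S₁`, `S₂×S₂` and `1/2 + c ≤ qq + c'` on `S₁×S₂` and `S₂×S₁` (`qq` is symmetric: `Nn_swap12`).
`second_order`: `≤ (2s)²/2 + 9 (2s)³ = 2 s² + 72 s³`. So `c ≤ 72 s` for all small `s > 0`: contradiction.
-/

set_option autoImplicit false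

namespace Pool.Agent.LibCX37

open MeasureTheory Set Filter Topology
open scoped ENNReal

theorem p2_qq_symm (m : Measure (ℝ × ℝ)) (y z : ℝ × ℝ) : qq m y z = qq m z y := by
  unfold qq
  refine lintegral_congr fun c => lintegral_congr fun d => ?_
  exact (Nn_swap12 y z c d).symm

theorem p2_qq_le (m : Measure (ℝ × ℝ)) [IsProbabilityMeasure m] (y z : ℝ × ℝ) :
    qq m y z ≤ 3 := by
  unfold qq
  calc ∫⁻ c, ∫⁻ d, Nn y z c d ∂m ∂m ≤ ∫⁻ _c, ∫⁻ _d, 3 ∂m ∂m :=
        lintegral_mono fun c => lintegral_mono fun d => Nn_le_three y z c d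
    _ = 3 := by simp

/-- the inner integral -/
theorem p2_inner (K : unitInterval → ℝ≥0∞) (S₁ S₂ : Set unitInterval)
    (hS₂ : MeasurableSet S₂) (hd : Disjoint S₁ S₂) (s c' q : ℝ≥0∞)
    (h1 : volume S₁ = s) (h2 : volume S₂ = s)
    (k1 : ∀ᵐ b ∂(volume.restrict S₁), 1 / 2 ≤ K b + c')
    (k2 : ∀ᵐ b ∂(volume.restrict S₂), q ≤ K b + c') :
    (1 / 2 + q) * s ≤ (∫⁻ b in S₁ ∪ S₂, K b) + 2 * c' * s := by
  rw [lintegral_union hS₂ hd]
  have e1 : 1 / 2 * s ≤ (∫⁻ b in S₁, K b) + c' * s := by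
    have := lintegral_mono_ae k1
    rw [lintegral_add_right _ measurable_const] at this
    simpa [h1] using this
  have e2 : q * s ≤ (∫⁻ b in S₂, K b) + c' * s := by
    have := lintegral_mono_ae k2
    rw [lintegral_add_right _ measurable_const] at this
    simpa [h2] using this
  calc (1 / 2 + q) * s = 1 / 2 * s + q * s := by ring
    _ ≤ ((∫⁻ b in S₁, K b) + c' * s) + ((∫⁻ b in S₂, K b) + c' * s) := add_le_add e1 e2
    _ = _ := by ring

theorem p2_final (s c' J : ℝ≥0∞) (hs : s ≠ ∞) (hs0 : s ≠ 0) (hc : c' ≠ ∞)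
    (hsc : 20 * s ≤ c') (h1 : (1 / 2 + (1 / 2 + 4 * c')) * s * (2 * s) ≤
      J + 2 * c' * s * (2 * s)) (h2 : J ≤ (2 * s) ^ 2 / 2 + 9 * (2 * s) ^ 3) : False := by
  have e1 : (1 / 2 + (1 / 2 + 4 * c')) = 1 + 4 * c' := by
    rw [← add_assoc, ENNReal.add_halves]
  have e2 : (2 * s) ^ 2 / 2 = 2 * s ^ 2 := by
    rw [mul_pow, ENNReal.div_eq_inv_mul]
    have h22 : (2 : ℝ≥0∞)⁻¹ * 2 = 1 := ENNReal.inv_mul_cancel (by norm_num) (by norm_num)
    calc (2 : ℝ≥0∞)⁻¹ * (2 ^ 2 * s ^ 2) = (2⁻¹ * 2) * (2 * s ^ 2) := by ring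
      _ = 2 * s ^ 2 := by rw [h22, one_mul]
  rw [e1] at h1
  rw [e2] at h2
  have h3 : (1 + 4 * c') * s * (2 * s) ≤ 2 * s ^ 2 + 9 * (2 * s) ^ 3 + 2 * c' * s * (2 * s) :=
    h1.trans (add_le_add_left h2 _)
  lift s to NNReal using hs
  lift c' to NNReal using hc
  have h3' : (1 + 4 * c') * s * (2 * s) ≤ 2 * s ^ 2 + 9 * (2 * s) ^ 3 + 2 * c' * s * (2 * s) := by
    exact_mod_cast h3
  have hsc' : 20 * s ≤ c' := by exact_mod_cast hsc
  have hs0' : (0 : ℝ) < s := by
    have : s ≠ 0 := by exact_mod_cast hs0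
    exact_mod_cast pos_iff_ne_zero.mpr this
  have h4 : (1 + 4 * (c' : ℝ)) * s * (2 * s) ≤
      2 * (s : ℝ) ^ 2 + 9 * (2 * s) ^ 3 + 2 * c' * s * (2 * s) := by exact_mod_cast h3'
  have h5 : 20 * (s : ℝ) ≤ c' := by exact_mod_cast hsc'
  have h6 : 0 < (s : ℝ) ^ 2 := by positivity
  nlinarith [mul_le_mul_of_nonneg_left h5 h6.le, mul_pos h6 hs0']

theorem Attains.pair {f : unitInterval → ℝ × ℝ} (h : Attains f) {y z : ℝ × ℝ}
    (hy : y ∈ essRange f) (hz : z ∈ essRange f) (hyz : y ≠ z) : qq (law f) y z ≤ 1 / 2 := by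
  have hm : NoLines (law f) := h.noLines
  have hf : Measurable f := h.1.1
  have : IsProbabilityMeasure (law f) := Measure.isProbabilityMeasure_map hf.aemeasurable
  by_contra hcon
  rw [not_le] at hcon
  -- the constants
  obtain ⟨c', hc0, hct, hq⟩ : ∃ c' : ℝ≥0∞, 0 < c' ∧ c' ≠ ∞ ∧ qq (law f) y z = 1 / 2 + 4 * c' := by
    refine ⟨(qq (law f) y z - 1 / 2) / 4, ?_, ?_, ?_⟩
    · exact ENNReal.div_pos (tsub_pos_of_lt hcon).ne' (by norm_num)
    · refine ENNReal.div_ne_top ?_ (by norm_num)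
      exact ne_top_of_le_ne_top (by norm_num : (3 : ℝ≥0∞) ≠ ∞)
        (tsub_le_self.trans (p2_qq_le (law f) y z))
    · rw [ENNReal.mul_div_cancel (by norm_num) (by norm_num), add_tsub_cancel_of_le hcon.le]
  obtain ⟨ε₁, hε₁, n1⟩ := near (law f) hm y c' hc0
  obtain ⟨ε₂, hε₂, n2⟩ := near (law f) hm z c' hc0
  obtain ⟨ε₃, hε₃, n3⟩ := qq_lsc (law f) hm y z hyz c' hc0
  have hdist : 0 < dist y z := dist_pos.mpr hyz
  set ε := min (min ε₁ ε₂) (min ε₃ (dist y z / 2)) with hε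
  have hε0 : 0 < ε := lt_min (lt_min hε₁ hε₂) (lt_min hε₃ (by positivity))
  have le1 : ε ≤ ε₁ := (min_le_left _ _).trans (min_le_left _ _)
  have le2 : ε ≤ ε₂ := (min_le_left _ _).trans (min_le_right _ _)
  have le3 : ε ≤ ε₃ := (min_le_right _ _).trans (min_le_left _ _)
  have le4 : ε ≤ dist y z / 2 := (min_le_right _ _).trans (min_le_right _ _)
  have hA₁ : MeasurableSet (f ⁻¹' Metric.ball y ε) := hf measurableSet_ball
  have hA₂ : MeasurableSet (f ⁻¹' Metric.ball z ε) := hf measurableSet_ball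
  have hdisj : Disjoint (f ⁻¹' Metric.ball y ε) (f ⁻¹' Metric.ball z ε) := by
    apply Disjoint.preimage
    apply Metric.ball_disjoint_ball
    linarith
  -- the small number
  set s : ℝ≥0∞ := min (min (volume (f ⁻¹' Metric.ball y ε)) (volume (f ⁻¹' Metric.ball z ε)))
    (c' / 20) with hs
  have hs0 : s ≠ 0 := by
    apply ne_of_gt
    exact lt_min (lt_min (hy ε hε0) (hz ε hε0)) (ENNReal.div_pos hc0.ne' (by norm_num))
  have hst : s ≠ ∞ := ne_top_of_le_ne_top (ENNReal.div_ne_top hct (by norm_num))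
    (min_le_right _ _)
  have hsc : 20 * s ≤ c' := by
    calc 20 * s ≤ 20 * (c' / 20) := mul_le_mul_right (min_le_right _ _) _
      _ = c' := ENNReal.mul_div_cancel (by norm_num) (by norm_num)
  obtain ⟨S₁, hS₁A, hS₁, hv₁⟩ := exists_subset_volume _ hA₁ s
    ((min_le_left _ _).trans (min_le_left _ _))
  obtain ⟨S₂, hS₂A, hS₂, hv₂⟩ := exists_subset_volume _ hA₂ s
    ((min_le_left _ _).trans (min_le_right _ _))
  have hd : Disjoint S₁ S₂ := hdisj.mono hS₁A hS₂A
  have hvS : volume (S₁ ∪ S₂) = 2 * s := by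
    rw [measure_union hd hS₂, hv₁, hv₂, two_mul]
  have hso := h.second_order (S₁ ∪ S₂) (hS₁.union hS₂)
  rw [hvS] at hso
  -- almost everywhere distinct
  have hae : ∀ a : unitInterval, ∀ S : Set unitInterval,
      ∀ᵐ b ∂(volume.restrict S), f b ≠ f a := by
    intro a S
    apply ae_restrict_of_ae
    rw [ae_iff]
    simp only [ne_eq, not_not]
    have h0 : law f {f a} = 0 := by
      refine measure_mono_null ?_ (hm (f a) (1, 0) (by simp))
      rintro z rfl
      simp [det]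
    unfold law at h0
    rw [Measure.map_apply hf (measurableSet_singleton _)] at h0
    exact h0
  have key : ∀ a ∈ S₁ ∪ S₂, (1 / 2 + (1 / 2 + 4 * c')) * s ≤
      (∫⁻ b in S₁ ∪ S₂, qq (law f) (f a) (f b)) + 2 * c' * s := by
    intro a ha
    rcases ha with ha | ha
    · rw [← hq]
      have hfa : f a ∈ Metric.ball y ε := hS₁A ha
      refine p2_inner _ S₁ S₂ hS₂ hd s c' _ hv₁ hv₂ ?_ ?_
      · filter_upwards [hae a S₁, ae_restrict_mem hS₁] with b hb hbS
        have hfb : f b ∈ Metric.ball y ε := hS₁A hbS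
        exact n1 _ (Metric.ball_subset_ball le1 hfa) _ (Metric.ball_subset_ball le1 hfb) hb.symm
      · filter_upwards [ae_restrict_mem hS₂] with b hbS
        have hfb : f b ∈ Metric.ball z ε := hS₂A hbS
        exact n3 _ (Metric.ball_subset_ball le3 hfa) _ (Metric.ball_subset_ball le3 hfb)
    · rw [← hq, union_comm]
      have hfa : f a ∈ Metric.ball z ε := hS₂A ha
      refine p2_inner _ S₂ S₁ hS₁ hd.symm s c' _ hv₂ hv₁ ?_ ?_
      · filter_upwards [hae a S₂, ae_restrict_mem hS₂] with b hb hbS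
        have hfb : f b ∈ Metric.ball z ε := hS₂A hbS
        exact n2 _ (Metric.ball_subset_ball le2 hfa) _ (Metric.ball_subset_ball le2 hfb) hb.symm
      · filter_upwards [ae_restrict_mem hS₁] with b hbS
        have hfb : f b ∈ Metric.ball y ε := hS₁A hbS
        rw [p2_qq_symm (law f) (f a) (f b)]
        exact n3 _ (Metric.ball_subset_ball le3 hfb) _ (Metric.ball_subset_ball le3 hfa)
  have houter : (1 / 2 + (1 / 2 + 4 * c')) * s * (2 * s) ≤
      (∫⁻ a in S₁ ∪ S₂, ∫⁻ b in S₁ ∪ S₂, qq (law f) (f a) (f b)) + 2 * c' * s * (2 * s) := by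
    have hmono : ∀ᵐ a ∂(volume.restrict (S₁ ∪ S₂)), (1 / 2 + (1 / 2 + 4 * c')) * s ≤
        (∫⁻ b in S₁ ∪ S₂, qq (law f) (f a) (f b)) + 2 * c' * s := by
      filter_upwards [ae_restrict_mem (hS₁.union hS₂)] with a ha using key a ha
    have := lintegral_mono_ae hmono
    rw [lintegral_add_right _ measurable_const] at this
    simp only [lintegral_const, Measure.restrict_apply_univ, hvS] at this
    exact this
  exact p2_final s c' _ hst hs0 hct hsc houter hso

end Pool.Agent.LibCX37
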