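import Pool.Agent.LibCX37.M4
import Pool.Agent.LibCX37.M9
import Pool.Agent.LibCX37.M10a
import Pool.Agent.LibCX37.P2

/-!
[CZ M10] **Two hull points span an edge.**
PROOF. `s, s'` from `exists_far_pair` (M10a), `z = V - s v`, `z' = V' - s' v'`. `z ≠ V` etc.: `dotp n z > dotp n V ≥ dotp n p` for `p ∈ K`, so `z ∉ K`, same for `z'`.
By M4: `1/2 ≤ qq m z V`, `1/2 ≤ qq m z' V'`, `qq m z V' = qq m V V'`, `qq m z' V = qq m V' V = qq m V V'` (`p2_qq_symm`). With `hfour s s'`:
`1/2 + qq m V V' + (qq m V V' + 1/2) ≤ 1 + qq m V V' + qq m z z'`, and `qq m V V'` is finite (`p2_qq_le`): `qq m V V' ≤ qq m z z'`.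
For a.e. `(c, d)` (nested a.e. as in `Psi_add_one`, G5) the hypotheses of `edge_point` (M9) hold: `c, d ∈ K`; `det c d V ≠ 0`, ...; the signs `h1, h2` by `ray_sign`
(M4, nonzero a.e.); `h5` by the choice of `s, s'`. Integrate (`lintegral_mono_ae`, additivity with the measurable indicator):
`qq m z z' + (m.prod m) {x | det V V' x.1 * det V V' x.2 < 0} ≤ qq m V V' ≤ qq m z z'`; `qq` is finite, so this set is null. It contains
`{det V V' > 0} ×ˢ {det V V' < 0}`, so one of the two open half-planes is `m`-null, and contains no point of `K` (`Supp.pos`: a ball around a point of `K` inside the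
open half-plane has positive measure).
-/

set_option autoImplicit false

namespace Pool.Agent.LibCX37

open MeasureTheory Set Filter Topology
open scoped ENNReal

theorem m10_open_pos (V V' : ℝ × ℝ) : IsOpen {c : ℝ × ℝ | 0 < det V V' c} := by
  refine isOpen_lt continuous_const ?_
  unfold det
  fun_prop

theorem m10_open_neg (V V' : ℝ × ℝ) : IsOpen {c : ℝ × ℝ | det V V' c < 0} := by
  refine isOpen_lt ?_ continuous_const
  unfold det
  fun_prop

theorem m10_cyc (a b c : ℝ × ℝ) : det a b c = det c a b := by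
  unfold det
  ring

/-- positivity of open sets meeting `K` -/
theorem m10_pos (m : Measure (ℝ × ℝ)) (K : Set (ℝ × ℝ)) (hK : Supp m K) (U : Set (ℝ × ℝ))
    (hU : IsOpen U) (p : ℝ × ℝ) (hp : p ∈ K) (hpU : p ∈ U) : m U ≠ 0 := by
  obtain ⟨ε, hε, hb⟩ := Metric.isOpen_iff.mp hU p hpU
  intro h
  have h1 := hK.pos p hp ε hε
  have h2 : m (Metric.ball p ε) ≤ m U := measure_mono hb
  rw [h] at h2
  exact absurd h1 (not_lt.mpr h2)

/-- the integral of the indicator of a rectangle -/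
theorem m10_rect (m : Measure (ℝ × ℝ)) [IsProbabilityMeasure m] (F : ℝ × ℝ → ℝ × ℝ → ℝ≥0∞)
    (hF : Measurable fun x : (ℝ × ℝ) × (ℝ × ℝ) => F x.1 x.2) (P N : Set (ℝ × ℝ))
    (hP : MeasurableSet P) (hN : MeasurableSet N) :
    ∫⁻ c, ∫⁻ d, (F c d + P.indicator (fun _ => N.indicator (fun _ => (1 : ℝ≥0∞)) d) c) ∂m ∂m =
      ∫⁻ c, ∫⁻ d, F c d ∂m ∂m + m N * m P := by
  have h1 : ∀ c, ∫⁻ d, (F c d + P.indicator (fun _ => N.indicator (fun _ => (1 : ℝ≥0∞)) d) c) ∂m
      = ∫⁻ d, F c d ∂m + P.indicator (fun _ => m N) c := by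
    intro c
    have h2 : Measurable fun d : ℝ × ℝ => ((c, d) : (ℝ × ℝ) × (ℝ × ℝ)) :=
      measurable_const.prodMk measurable_id
    have h3 : Measurable fun d => F c d := by
      have h3' := Measurable.comp hF h2
      exact h3'
    rw [lintegral_add_left h3]
    congr 1
    by_cases hc : c ∈ P
    · simp only [indicator_of_mem hc]
      rw [lintegral_indicator hN]
      simp
    · simp only [indicator_of_notMem hc]
      simp
  simp only [h1]
  rw [lintegral_add_left hF.lintegral_prod_right', lintegral_indicator hP]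
  simp

theorem m10_arith (Q R A B C D : ℝ≥0∞) (hQ : Q ≠ ∞) (hA : 1 / 2 ≤ A) (hB : B = Q) (hC : C = Q)
    (hD : 1 / 2 ≤ D) (h : A + B + (C + D) ≤ 1 + Q + R) : Q ≤ R := by
  have h1 : 1 + Q + Q ≤ 1 + Q + R := by
    calc 1 + Q + Q = (1 / 2 + 1 / 2) + Q + Q := by rw [ENNReal.add_halves]
      _ = 1 / 2 + Q + (Q + 1 / 2) := by ring
      _ ≤ A + B + (C + D) := by
        rw [hB, hC]
        exact add_le_add (add_le_add hA le_rfl) (add_le_add le_rfl hD)
      _ ≤ _ := h
  exact (ENNReal.add_le_add_iff_left (ENNReal.add_ne_top.mpr ⟨ENNReal.one_ne_top, hQ⟩)).mp h1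

theorem edge_of_four (m : Measure (ℝ × ℝ)) [IsProbabilityMeasure m] (hm : NoLines m)
    (K : Set (ℝ × ℝ)) (hK : Supp m K) (hKb : Bornology.IsBounded K) (V V' v v' n n' g : ℝ × ℝ)
    (hV : V ∈ K) (hV' : V' ∈ K) (hVV : V ≠ V')
    (hsup : ∀ p ∈ K, dotp n p ≤ dotp n V) (hsup' : ∀ p ∈ K, dotp n' p ≤ dotp n' V')
    (hv : dotp n v < 0) (hv' : dotp n' v' < 0) (hH : Halves m V v) (hH' : Halves m V' v')
    (ho : Ordered K V v) (ho' : Ordered K V' v') (hg : dotp g v < 0) (hg' : dotp g v' < 0)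
    (hfour : ∀ s s' : ℝ, 0 < s → 0 < s' →
      qq m (V - s • v) V + qq m (V - s • v) V' + (qq m (V' - s' • v') V + qq m (V' - s' • v') V') ≤
        1 + qq m V V' + qq m (V - s • v) (V' - s' • v')) :
    (∀ p ∈ K, det V V' p ≤ 0) ∨ (∀ p ∈ K, 0 ≤ det V V' p) := by
  obtain ⟨s, s', hs, hs', hzz, hsame⟩ := exists_far_pair K hKb V V' v v' n n' g hVV hv hv'
    (hsup V' hV') (hsup' V hV) hg hg'
  have hf := hfour s s' hs hs'
  have hv0 : v ≠ 0 := by
    rintro rfl
    simp [dotp] at hv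
  have hv0' : v' ≠ 0 := by
    rintro rfl
    simp [dotp] at hv'
  have hn0 : n ≠ 0 := by
    rintro rfl
    simp [dotp] at hv
  have hn0' : n' ≠ 0 := by
    rintro rfl
    simp [dotp] at hv'
  have hz : dotp n V < dotp n (V - s • v) := by
    have h1 : dotp n (V - s • v) = dotp n V - s * dotp n v := by
      simp only [dotp, Prod.fst_sub, Prod.snd_sub, Prod.smul_fst, Prod.smul_snd, smul_eq_mul]
      ring
    rw [h1]
    nlinarith
  have hz' : dotp n' V' < dotp n' (V' - s' • v') := by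
    have h1 : dotp n' (V' - s' • v') = dotp n' V' - s' * dotp n' v' := by
      simp only [dotp, Prod.fst_sub, Prod.snd_sub, Prod.smul_fst, Prod.smul_snd, smul_eq_mul]
      ring
    rw [h1]
    nlinarith
  have a1 := qq_ray_half m hm K hK V v hv0 ho hH s hs
  have a2 := qq_ray_half m hm K hK V' v' hv0' ho' hH' s' hs'
  have a3 : qq m (V - s • v) V' = qq m V V' := by
    refine qq_ray m hm K hK V v ho s hs.le V' hV' hVV.symm ?_
    intro h
    rw [← h] at hz
    exact absurd hz (not_lt.mpr (hsup V' hV'))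
  have a4 : qq m (V' - s' • v') V = qq m V V' := by
    rw [p2_qq_symm m V V']
    refine qq_ray m hm K hK V' v' ho' s' hs'.le V hV hVV ?_
    intro h
    rw [← h] at hz'
    exact absurd hz' (not_lt.mpr (hsup' V hV))
  have hQ : qq m V V' ≠ ∞ := ne_top_of_le_ne_top (by norm_num) (p2_qq_le m V V')
  have hQR : qq m V V' ≤ qq m (V - s • v) (V' - s' • v') :=
    m10_arith _ _ _ _ _ _ hQ a1 a3 a4 a2 hf
  have hR : qq m (V - s • v) (V' - s' • v') ≠ ∞ :=
    ne_top_of_le_ne_top (by norm_num) (p2_qq_le m _ _)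
  clear hf a1 a2 a3 a4 hfour
  obtain ⟨z, hzd⟩ : ∃ z, z = V - s • v := ⟨_, rfl⟩
  obtain ⟨z', hzd'⟩ : ∃ z', z' = V' - s' • v' := ⟨_, rfl⟩
  have hae : ∀ᵐ c ∂m, c ∈ K := by
    rw [ae_iff]
    exact hK.null
  have hF : Measurable fun x : (ℝ × ℝ) × (ℝ × ℝ) => Nn z z' x.1 x.2 :=
    c2_meas_Nn measurable_const measurable_const measurable_fst measurable_snd
  have hP : MeasurableSet {c : ℝ × ℝ | 0 < det V V' c} := (m10_open_pos V V').measurableSet
  have hN : MeasurableSet {c : ℝ × ℝ | det V V' c < 0} := (m10_open_neg V V').measurableSet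
  have hmain : ∫⁻ c, ∫⁻ d, (Nn z z' c d + {c : ℝ × ℝ | 0 < det V V' c}.indicator
      (fun _ => {c : ℝ × ℝ | det V V' c < 0}.indicator (fun _ => (1 : ℝ≥0∞)) d) c) ∂m ∂m ≤
      qq m V V' := by
    unfold qq
    refine lintegral_mono_ae ?_
    filter_upwards [hae, g5_ae m hm V V' hVV.symm, g5_ne m hm V, g5_ne m hm V', g5_ne m hm z,
      g5_ne m hm z'] with c hcK hc1 hc2 hc3 hc4 hc5
    refine lintegral_mono_ae ?_
    filter_upwards [hae, g5_ae m hm V V' hVV.symm, g5_ae m hm V c hc2, g5_ae m hm V' c hc3,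
      g5_ae m hm z c hc4, g5_ae m hm z' c hc5] with d hdK hd1 hd2 hd3 hd4 hd5
    have e1 : 0 < det c d V * det c d z := by
      have h1 := ray_sign K V v ho s hs.le c d hcK hdK
      rw [← hzd] at h1
      refine lt_of_le_of_ne h1 (Ne.symm (mul_ne_zero ?_ ?_))
      · rw [m10_cyc]
        exact hd2
      · rw [m10_cyc]
        exact hd4
    have e2 : 0 < det c d V' * det c d z' := by
      have h1 := ray_sign K V' v' ho' s' hs'.le c d hcK hdK
      rw [← hzd'] at h1
      refine lt_of_le_of_ne h1 (Ne.symm (mul_ne_zero ?_ ?_))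
      · rw [m10_cyc]
        exact hd3
      · rw [m10_cyc]
        exact hd5
    have e3 : 0 < det z z' c * det z z' d := by
      rw [hzd, hzd']
      exact hsame c hcK d hdK
    have e4 := edge_point V V' z z' n n' c d hn0 hn0' (hsup c hcK) (hsup d hdK) (hsup V' hV')
      (hsup' c hcK) (hsup' d hdK) (hsup' V hV) e1 e2 hc1 hd1 e3
    refine le_trans (add_le_add le_rfl ?_) e4
    by_cases h1 : c ∈ {c : ℝ × ℝ | 0 < det V V' c}
    · rw [indicator_of_mem h1]
      by_cases h2 : d ∈ {c : ℝ × ℝ | det V V' c < 0}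
      · rw [indicator_of_mem h2]
        have h3 : det V V' c * det V V' d < 0 := mul_neg_of_pos_of_neg h1 h2
        rw [if_pos h3]
      · rw [indicator_of_notMem h2]
        exact zero_le
    · rw [indicator_of_notMem h1]
      exact zero_le
  rw [m10_rect m (fun c d => Nn z z' c d) hF _ _ hP hN] at hmain
  have hmain2 : qq m z z' + m {c : ℝ × ℝ | det V V' c < 0} * m {c : ℝ × ℝ | 0 < det V V' c} ≤
      qq m V V' := hmain
  rw [← hzd, ← hzd'] at hQR hR
  have h0 : m {c : ℝ × ℝ | det V V' c < 0} * m {c : ℝ × ℝ | 0 < det V V' c} = 0 := by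
    have h1 : qq m z z' + m {c : ℝ × ℝ | det V V' c < 0} * m {c : ℝ × ℝ | 0 < det V V' c} ≤
        qq m z z' + 0 := by
      rw [add_zero]
      exact hmain2.trans hQR
    have h2 := (ENNReal.add_le_add_iff_left hR).mp h1
    exact le_antisymm h2 zero_le
  by_contra hcon
  rw [not_or] at hcon
  obtain ⟨hc1, hc2⟩ := hcon
  push Not at hc1 hc2
  obtain ⟨p, hpK, hp⟩ := hc1
  obtain ⟨q, hqK, hq⟩ := hc2
  have h1 := m10_pos m K hK _ (m10_open_pos V V') p hpK hp
  have h2 := m10_pos m K hK _ (m10_open_neg V V') q hqK hq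
  exact mul_ne_zero h2 h1 h0

end Pool.Agent.LibCX37
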