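import Pool.Agent.LibCX37.M4
import Pool.Agent.LibCX37.G5

/-!
[CZ M11] **Antiparallel outer rays force the potential `1/2`.**
PROOF. `z = V - 1 • v`, `z' = V' - 1 • v'`. `Psi m z = Psi m V`, `Psi m z' = Psi m V'` (`psi_ray`, M4). `dotp n z = dotp n V - dotp n v > dotp n V ≥ dotp n p` for a.e. `p`, so
`Psi_add_one` (G5): `Psi m z + 1 = 3 ∫∫∫ same b c z d`, and the same for `z'` with `n'`. Sum: it is enough that `same b c z d + same b c z' d = 1` for a.e. `(b,c,d)`
(then the sum of the two right sides is `3`, so `Psi m V + Psi m V' + 2 = 3`; cancel `2`).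
Put `H = hgt V v c - hgt V v b` (`= v.1 (c.2-b.2) - v.2 (c.1-b.1)`), `D = det b c V`. `Ordered K V v`: `0 ≤ D * H` for `b, c ∈ K`. `det b c z = D + H` so
`det b c z * H = D H + H² > 0` when `H ≠ 0`; for fixed `b`, `H ≠ 0` for a.e. `c` (`NoLines` at `b` in the direction `v`: `det b (b + v) c = H`).
In the same way with `H' = hgt V' v' c - hgt V' v' b = -lam * H`: `det b c z' * H' > 0`. So `det b c z` and `det b c z'` are nonzero with opposite signs, and for a.e. `d`
`det b c d ≠ 0`: exactly one of `0 < det b c z * det b c d`, `0 < det b c z' * det b c d` holds.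
-/

set_option autoImplicit false

namespace Pool.Agent.LibCX37

open MeasureTheory Set Filter Topology
open scoped ENNReal

theorem m11_det (b c V v : ℝ × ℝ) :
    det b c (V - (1 : ℝ) • v) = det b c V + (hgt V v c - hgt V v b) := by
  unfold hgt det
  simp only [Prod.fst_sub, Prod.snd_sub, Prod.smul_fst, Prod.smul_snd, smul_eq_mul, Prod.fst_add,
    Prod.snd_add]
  ring

theorem m11_hgt (b c V v : ℝ × ℝ) : hgt V v c - hgt V v b = det b (b + v) c := by
  unfold hgt det
  simp only [Prod.fst_add, Prod.snd_add]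
  ring

theorem m11_one (b c z z' d : ℝ × ℝ) (hXY : det b c z * det b c z' < 0) (hE : det b c d ≠ 0) :
    same b c z d + same b c z' d = 1 := by
  unfold same
  have h : (det b c z * det b c d) * (det b c z' * det b c d) < 0 := by
    have h0 : 0 < det b c d * det b c d := mul_self_pos.2 hE
    have h1 : (det b c z * det b c d) * (det b c z' * det b c d) =
        (det b c z * det b c z') * (det b c d * det b c d) := by ring
    rw [h1]
    exact mul_neg_of_neg_of_pos hXY h0
  by_cases h1 : 0 < det b c z * det b c d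
  · have h2 : ¬ 0 < det b c z' * det b c d := by
      intro h3
      have h4 := mul_pos h1 h3
      linarith
    rw [if_pos h1, if_neg h2, add_zero]
  · have h2 : 0 < det b c z' * det b c d := by
      by_contra h3
      have h4 := mul_nonneg_of_nonpos_of_nonpos (not_lt.1 h1) (not_lt.1 h3)
      linarith
    rw [if_neg h1, if_pos h2, zero_add]

theorem psi_add_of_antiparallel (m : Measure (ℝ × ℝ)) [IsProbabilityMeasure m] (hm : NoLines m)
    (K : Set (ℝ × ℝ)) (hK : Supp m K) (V V' v v' n n' : ℝ × ℝ)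
    (hsup : ∀ p ∈ K, dotp n p ≤ dotp n V) (hsup' : ∀ p ∈ K, dotp n' p ≤ dotp n' V')
    (hv : dotp n v < 0) (hv' : dotp n' v' < 0) (ho : Ordered K V v) (ho' : Ordered K V' v')
    (lam : ℝ) (hlam : 0 < lam) (hvv : v' = -(lam • v)) : Psi m V + Psi m V' = 1 := by
  have hv0 : v ≠ 0 := by
    rintro rfl
    simp [dotp] at hv
  have hae : ∀ᵐ p ∂m, p ∈ K := by
    rw [ae_iff]
    exact hK.null
  have hdz : ∀ (f X y : ℝ × ℝ), dotp f (X - (1 : ℝ) • y) = dotp f X - dotp f y := by
    intro f X y
    unfold dotp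
    simp only [Prod.fst_sub, Prod.snd_sub, Prod.smul_fst, Prod.smul_snd, smul_eq_mul]
    ring
  have h1 := psi_ray m hm K hK V v ho 1 zero_le_one
  have h2 := psi_ray m hm K hK V' v' ho' 1 zero_le_one
  have h3 := Psi_add_one m hm (V - (1 : ℝ) • v) n (by
    filter_upwards [hae] with p hp
    have h4 := hsup p hp
    rw [hdz]
    linarith)
  have h4 := Psi_add_one m hm (V' - (1 : ℝ) • v') n' (by
    filter_upwards [hae] with p hp
    have h4 := hsup' p hp
    rw [hdz]
    linarith)
  rw [h1] at h3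
  rw [h2] at h4
  have hF : Measurable fun x : (ℝ × ℝ) × (ℝ × ℝ) × (ℝ × ℝ) =>
      same x.1 x.2.1 (V - (1 : ℝ) • v) x.2.2 :=
    g5_same_meas (by fun_prop) (by fun_prop) measurable_const (by fun_prop)
  have h5 : ∫⁻ b, ∫⁻ c, ∫⁻ d, same b c (V - (1 : ℝ) • v) d ∂m ∂m ∂m +
      ∫⁻ b, ∫⁻ c, ∫⁻ d, same b c (V' - (1 : ℝ) • v') d ∂m ∂m ∂m = 1 := by
    rw [← g5_add3 m (fun b c d => same b c (V - (1 : ℝ) • v) d)
      (fun b c d => same b c (V' - (1 : ℝ) • v') d) hF]
    have h6 : ∫⁻ b, ∫⁻ c, ∫⁻ d, (same b c (V - (1 : ℝ) • v) d +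
        same b c (V' - (1 : ℝ) • v') d) ∂m ∂m ∂m = ∫⁻ _b, ∫⁻ _c, ∫⁻ _d, 1 ∂m ∂m ∂m := by
      refine lintegral_congr_ae ?_
      filter_upwards [hae] with b hb
      refine lintegral_congr_ae ?_
      have hl : ∀ᵐ c ∂m, det b (b + v) c ≠ 0 := by
        rw [ae_iff]
        simp only [ne_eq, not_not]
        exact hm b v hv0
      filter_upwards [hae, g5_ne m hm b, hl] with c hc hc2 hc3
      refine lintegral_congr_ae ?_
      filter_upwards [g5_ae m hm b c hc2] with d hd
      refine m11_one b c _ _ d ?_ hd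
      rw [m11_det, m11_det]
      have h7 := ho b hb c hc
      have h8 := ho' b hb c hc
      have h9 : hgt V' v' c - hgt V' v' b = -(lam * (hgt V v c - hgt V v b)) := by
        rw [hvv]
        unfold hgt det
        simp only [Prod.fst_add, Prod.snd_add, Prod.fst_neg, Prod.snd_neg, Prod.smul_fst,
          Prod.smul_snd, smul_eq_mul]
        ring
      have h10 : hgt V v c - hgt V v b ≠ 0 := by
        rw [m11_hgt]
        exact hc3
      rw [h9] at h8 ⊢
      obtain ⟨H, hH⟩ : ∃ H, H = hgt V v c - hgt V v b := ⟨_, rfl⟩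
      obtain ⟨D, hD⟩ : ∃ D, D = det b c V := ⟨_, rfl⟩
      obtain ⟨D', hD'⟩ : ∃ D', D' = det b c V' := ⟨_, rfl⟩
      rw [← hH] at h7 h8 h10 ⊢
      rw [← hD] at h7 ⊢
      rw [← hD'] at h8 ⊢
      have h11 : 0 < H * H := mul_self_pos.2 h10
      have h12 : 0 < (D + H) * H := by nlinarith
      have h13 : D' * H ≤ 0 := by
        by_contra hcon
        have h14 : 0 < lam * (D' * H) := mul_pos hlam (not_le.1 hcon)
        have h15 : D' * -(lam * H) = -(lam * (D' * H)) := by ring
        rw [h15] at h8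
        linarith
      have h14 : (D' + -(lam * H)) * H < 0 := by
        have h15 : 0 < lam * (H * H) := mul_pos hlam h11
        have h16 : (D' + -(lam * H)) * H = D' * H - lam * (H * H) := by ring
        rw [h16]
        linarith
      have h15 : ((D + H) * H) * ((D' + -(lam * H)) * H) < 0 := mul_neg_of_pos_of_neg h12 h14
      have h16 : ((D + H) * H) * ((D' + -(lam * H)) * H) =
          ((D + H) * (D' + -(lam * H))) * (H * H) := by ring
      rw [h16] at h15
      by_contra hcon
      have h17 := mul_nonneg (not_lt.1 hcon) h11.le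
      linarith
    rw [h6]
    simp
  have h6 : (Psi m V + Psi m V') + 2 = 1 + 2 := by
    calc (Psi m V + Psi m V') + 2 = (Psi m V + 1) + (Psi m V' + 1) := by ring
      _ = 3 * (∫⁻ b, ∫⁻ c, ∫⁻ d, same b c (V - (1 : ℝ) • v) d ∂m ∂m ∂m +
          ∫⁻ b, ∫⁻ c, ∫⁻ d, same b c (V' - (1 : ℝ) • v') d ∂m ∂m ∂m) := by
          rw [h3, h4, mul_add]
      _ = 1 + 2 := by
          rw [h5]
          norm_num
  exact (ENNReal.add_left_inj (by norm_num)).1 h6

end Pool.Agent.LibCX37
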