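import Pool.Agent.LibCX37.Y0

/-!
[CZ M12a] **Two elementary lemmas.**
PROOF. (`exists_functional`) Let `D = v.1 v'.2 - v.2 v'.1`. If `D ≠ 0`: `g = ((v.2 - v'.2)/D, (v'.1 - v.1)/D)`, `dotp g v = dotp g v' = -1`. If `D = 0`: `v' = μ v`, `μ ≠ 0`; `μ > 0` by
`hnot` (with `lam = -μ`); `g = -v`: `dotp g v = -|v|² < 0`, `dotp g v' = -μ |v|² < 0`.
(`tri_mem`) `D = det A B C ≠ 0`; `p = α A + β B + γ C` with `α = det B C p / D`, `β = det C A p / D`, `γ = det A B p / D`: nonnegative by the hypotheses, sum `1` (identity
`det B C p + det C A p + det A B p = det A B C`); coordinates by `field_simp; ring` after unfolding `det`. Membership in the convex hull of the three points: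
`convexHull_insert` / `Convex.sum_mem` / `mem_convexHull_iff`-style: the convex hull is convex and contains the three points.
-/

set_option autoImplicit false

namespace Pool.Agent.LibCX37

open MeasureTheory Set Filter Topology
open scoped ENNReal

theorem exists_functional (v v' : ℝ × ℝ) (hv : v ≠ 0) (hv' : v' ≠ 0)
    (hnot : ∀ lam : ℝ, 0 < lam → v' ≠ -(lam • v)) : ∃ g : ℝ × ℝ, dotp g v < 0 ∧ dotp g v' < 0 := by
  obtain ⟨a, b⟩ := v
  obtain ⟨c, d⟩ := v'
  by_cases hD : a * d - b * c = 0
  · have hpos : 0 < a ^ 2 + b ^ 2 := by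
      rcases eq_or_ne a 0 with ha | ha
      · have hb : b ≠ 0 := by
          rintro rfl
          exact hv (by rw [ha]; rfl)
        positivity
      · positivity
    obtain ⟨mu, hmu⟩ : ∃ mu : ℝ, mu = (a * c + b * d) / (a ^ 2 + b ^ 2) := ⟨_, rfl⟩
    have h1 : c = mu * a := by
      rw [hmu, div_mul_eq_mul_div, eq_div_iff hpos.ne']
      linear_combination (-b) * hD
    have h2 : d = mu * b := by
      rw [hmu, div_mul_eq_mul_div, eq_div_iff hpos.ne']
      linear_combination a * hD
    have h0 : mu ≠ 0 := by
      rintro h
      apply hv'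
      rw [h1, h2, h, zero_mul, zero_mul]
      rfl
    have hmpos : 0 < mu := by
      by_contra hcon
      have hneg : mu < 0 := lt_of_le_of_ne (not_lt.mp hcon) h0
      refine hnot (-mu) (by linarith) ?_
      ext
      · simp [h1]
      · simp [h2]
    refine ⟨(-a, -b), ?_, ?_⟩
    · change -a * a + -b * b < 0
      nlinarith
    · change -a * c + -b * d < 0
      rw [h1, h2]
      have h3 := mul_pos hmpos hpos
      nlinarith
  · refine ⟨((b - d) / (a * d - b * c), (c - a) / (a * d - b * c)), ?_, ?_⟩
    · have h1 : (b - d) / (a * d - b * c) * a + (c - a) / (a * d - b * c) * b = -1 := by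
        rw [div_mul_eq_mul_div, div_mul_eq_mul_div, ← add_div, div_eq_iff hD]
        ring
      change (b - d) / (a * d - b * c) * a + (c - a) / (a * d - b * c) * b < 0
      rw [h1]
      norm_num
    · have h1 : (b - d) / (a * d - b * c) * c + (c - a) / (a * d - b * c) * d = -1 := by
        rw [div_mul_eq_mul_div, div_mul_eq_mul_div, ← add_div, div_eq_iff hD]
        ring
      change (b - d) / (a * d - b * c) * c + (c - a) / (a * d - b * c) * d < 0
      rw [h1]
      norm_num

theorem tri_mem (A B C p : ℝ × ℝ) (hD : det A B C ≠ 0) (h1 : 0 ≤ det A B C * det A B p)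
    (h2 : 0 ≤ det A B C * det B C p) (h3 : 0 ≤ det A B C * det C A p) :
    p ∈ convexHull ℝ {A, B, C} := by
  have key : ∀ x : ℝ, 0 ≤ det A B C * x → 0 ≤ x / det A B C := by
    intro x hx
    have h4 : x / det A B C = (det A B C * x) / (det A B C) ^ 2 := by
      field_simp
    rw [h4]
    positivity
  have hA : A ∈ convexHull ℝ {A, B, C} := subset_convexHull ℝ _ (by simp)
  have hB : B ∈ convexHull ℝ {A, B, C} := subset_convexHull ℝ _ (by simp)
  have hC : C ∈ convexHull ℝ {A, B, C} := subset_convexHull ℝ _ (by simp)
  have ha := key _ h2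
  have hb := key _ h3
  have hc := key _ h1
  have hsum : det B C p / det A B C + det C A p / det A B C + det A B p / det A B C = 1 := by
    rw [← add_div, ← add_div, div_eq_one_iff_eq hD]
    unfold det
    ring
  have hp : p = (det B C p / det A B C) • A + (det C A p / det A B C) • B +
      (det A B p / det A B C) • C := by
    ext
    · simp only [Prod.fst_add, Prod.smul_fst, smul_eq_mul]
      field_simp
      unfold det
      ring
    · simp only [Prod.snd_add, Prod.smul_snd, smul_eq_mul]
      field_simp
      unfold det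
      ring
  have hconv := convex_convexHull ℝ ({A, B, C} : Set (ℝ × ℝ))
  rw [hp]
  have h5 := hconv.sum_mem (t := Finset.univ)
    (w := ![det B C p / det A B C, det C A p / det A B C, det A B p / det A B C])
    (z := ![A, B, C]) (by
      intro i _
      fin_cases i
      · exact ha
      · exact hb
      · exact hc) (by
      rw [Fin.sum_univ_three]
      exact hsum) (by
      intro i _
      fin_cases i
      · exact hA
      · exact hB
      · exact hC)
  rw [Fin.sum_univ_three] at h5
  exact h5

end Pool.Agent.LibCX37
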