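import Pool.Agent.LibCX37.G2

/-!
[CZ M3] **`Nn` depends only on the orientations.**
PROOF. `GP` for both quadruples (third component from `h3`; cyclic: `det z b c = det b c z`). Each of the three `Meets` is equivalent by
`g2_signs1`, `g2_signs2`, `g2_signs3` (G2) to sign conditions on `det p q r, det p q s, det p r s, det q r s` (with `p = z` resp. `p = B`); under the
hypotheses `det z b c`, `det z b d`, `det z c d` have the same signs as `det B b c`, `det B b d`, `det B c d`. Then `ind` agrees (`if_congr`).
-/

set_option autoImplicit false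

namespace Pool.Agent.LibCX37

open MeasureTheory Set Filter Topology
open scoped ENNReal

theorem m3_pos {x x' y y' : ℝ} (h : 0 < x * x') (h' : 0 < y * y') :
    0 < x * y ↔ 0 < x' * y' := by
  have h2 : 0 < (x * y) * (x' * y') := by
    have h3 := mul_pos h h'
    have h4 : (x * x') * (y * y') = (x * y) * (x' * y') := by ring
    rw [h4] at h3
    exact h3
  exact pos_iff_pos_of_mul_pos h2

theorem m3_neg {x x' y y' : ℝ} (h : 0 < x * x') (h' : 0 < y * y') :
    x * y < 0 ↔ x' * y' < 0 := by
  have h2 : 0 < (x * y) * (x' * y') := by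
    have h3 := mul_pos h h'
    have h4 : (x * x') * (y * y') = (x * y) * (x' * y') := by ring
    rw [h4] at h3
    exact h3
  exact neg_iff_neg_of_mul_pos h2

theorem Nn_congr_left (B z b c d : ℝ × ℝ) (h0 : det b c d ≠ 0) (h1 : 0 < det b c B * det b c z)
    (h2 : 0 < det b d B * det b d z) (h3 : 0 < det c d B * det c d z) :
    Nn z b c d = Nn B b c d := by
  have e1 : ∀ w, det w b c = det b c w := fun w => by unfold det; ring
  have e2 : ∀ w, det w b d = det b d w := fun w => by unfold det; ring
  have e3 : ∀ w, det w c d = det c d w := fun w => by unfold det; ring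
  have gz : GP z b c d := by
    refine ⟨?_, ?_, ?_, h0⟩
    · rw [e1]; exact right_ne_zero_of_mul h1.ne'
    · rw [e2]; exact right_ne_zero_of_mul h2.ne'
    · rw [e3]; exact right_ne_zero_of_mul h3.ne'
  have gB : GP B b c d := by
    refine ⟨?_, ?_, ?_, h0⟩
    · rw [e1]; exact left_ne_zero_of_mul h1.ne'
    · rw [e2]; exact left_ne_zero_of_mul h2.ne'
    · rw [e3]; exact left_ne_zero_of_mul h3.ne'
  have k1 : 0 < det z b c * det B b c := by rw [e1, e1, mul_comm]; exact h1
  have k2 : 0 < det z b d * det B b d := by rw [e2, e2, mul_comm]; exact h2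
  have k3 : 0 < det z c d * det B c d := by rw [e3, e3, mul_comm]; exact h3
  have k0 : 0 < det b c d * det b c d := mul_self_pos.mpr h0
  have m1 : Meets z b c d ↔ Meets B b c d := by
    rw [g2_signs1 z b c d gz, g2_signs1 B b c d gB]
    exact and_congr (m3_neg k1 k2) (m3_neg k3 k0)
  have m2 : Meets z c b d ↔ Meets B c b d := by
    rw [g2_signs2 z b c d gz, g2_signs2 B b c d gB]
    exact and_congr (m3_pos k1 k3) (m3_pos k2 k0)
  have m3 : Meets z d b c ↔ Meets B d b c := by
    rw [g2_signs3 z b c d gz, g2_signs3 B b c d gB]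
    exact and_congr (m3_neg k2 k3) (m3_neg k1 k0)
  unfold Nn
  rw [g2_ind_congr m1, g2_ind_congr m2, g2_ind_congr m3]

end Pool.Agent.LibCX37
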