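import Pool.Agent.LibCX37.M3
import Pool.Agent.LibCX37.G5
import Pool.Agent.LibCX37.K2
import Pool.Agent.LibCX37.Y0
import Pool.Agent.LibCX37.K1

/-!
[CZ M4] **Moving a hull point out along its halving line.** `K` carries `m` (`Supp`), `Ordered K B v`, `z = B - s v`, `s ≥ 0`.
PROOF. (`ray_sign`) `det b c (B - s • v) = det b c B + s * (hgt B v c - hgt B v b)` (ring). With `D = det b c B`, `H = hgt B v c - hgt B v b`:
`D (D + s H) = D² + s D H ≥ 0`.
(`psi_ray`) For a.e. `(b,c,d)` (nested, `m Kᶜ = 0` and `NoLines`; see `g5_ae`, `g5_ne` in G5 for the a.e. statements) all of `b, c, d` are in `K` and all of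
`det b c d, det b c B, det b d B, det c d B, det b c z, det b d z, det c d z` are nonzero, so by `ray_sign` the products are positive and
`Nn z b c d = Nn B b c d` (M3). Three times `lintegral_congr_ae`.
(`qq_ray`) The same with `b = y` fixed, `y ∈ K`, `y ≠ B`, `y ≠ z`: `Nn z y c d = Nn B y c d` for a.e. `(c,d)` (`det y c B ≠ 0`, `det y c z ≠ 0` for a.e. `c` as
`y ≠ B, z`).
(`qq_ray_half`) `s > 0`: `det z B c = det (B - s v) B c = s * hgt B v c` (ring). For a.e. `(c,d)` in `{0 < hgt c}²` or `{hgt c < 0}²`: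
`0 < det z B c * det z B d`, and `0 < det z c d * det B c d` by `ray_sign`, so `1 ≤ Nn z B c d` (`one_le_Nn`). The two sets have measure `1/4` each
(`Halves`): `qq m z B ≥ 1/4 + 1/4 = 1/2` (compare `k1_half`, `c2_prod_pos`, or integrate the indicator).
-/

set_option autoImplicit false

namespace Pool.Agent.LibCX37

open MeasureTheory Set Filter Topology
open scoped ENNReal

theorem ray_sign (K : Set (ℝ × ℝ)) (B v : ℝ × ℝ) (ho : Ordered K B v) (s : ℝ) (hs : 0 ≤ s)
    (b c : ℝ × ℝ) (hb : b ∈ K) (hc : c ∈ K) : 0 ≤ det b c B * det b c (B - s • v) := by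
  have e : det b c (B - s • v) = det b c B + s * (hgt B v c - hgt B v b) := by
    unfold hgt det
    simp only [Prod.fst_sub, Prod.snd_sub, Prod.smul_fst, Prod.smul_snd, Prod.fst_add,
      Prod.snd_add, smul_eq_mul]
    ring
  rw [e]
  have h := ho b hb c hc
  nlinarith [mul_nonneg hs h, mul_self_nonneg (det b c B)]

theorem m4_pos (K : Set (ℝ × ℝ)) (B v : ℝ × ℝ) (ho : Ordered K B v) (s : ℝ) (hs : 0 ≤ s)
    (b c : ℝ × ℝ) (hb : b ∈ K) (hc : c ∈ K) (h1 : det b c B ≠ 0)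
    (h2 : det b c (B - s • v) ≠ 0) : 0 < det b c B * det b c (B - s • v) :=
  lt_of_le_of_ne (ray_sign K B v ho s hs b c hb hc) (mul_ne_zero h1 h2).symm

theorem m4_mem (m : Measure (ℝ × ℝ)) (K : Set (ℝ × ℝ)) (hK : Supp m K) : ∀ᵐ b ∂m, b ∈ K := by
  rw [ae_iff]
  exact hK.null

/-- `det b c w ≠ 0` for almost all `c` -/
theorem m4_ae (m : Measure (ℝ × ℝ)) (hm : NoLines m) (b w : ℝ × ℝ) (h : b ≠ w) :
    ∀ᵐ c ∂m, det b c w ≠ 0 := by
  filter_upwards [g5_ae m hm w b h] with c hc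
  have e : det b c w = det w b c := by unfold det; ring
  rw [e]
  exact hc

theorem qq_ray (m : Measure (ℝ × ℝ)) [IsProbabilityMeasure m] (hm : NoLines m)
    (K : Set (ℝ × ℝ)) (hK : Supp m K) (B v : ℝ × ℝ) (ho : Ordered K B v) (s : ℝ) (hs : 0 ≤ s)
    (y : ℝ × ℝ) (hy : y ∈ K) (hyB : y ≠ B) (hyz : y ≠ B - s • v) :
    qq m (B - s • v) y = qq m B y := by
  unfold qq
  apply lintegral_congr_ae
  filter_upwards [m4_mem m K hK, m4_ae m hm y B hyB, m4_ae m hm y (B - s • v) hyz,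
    g5_ne m hm B, g5_ne m hm (B - s • v), g5_ne m hm y] with c hc h1 h2 h3 h4 h5
  apply lintegral_congr_ae
  filter_upwards [m4_mem m K hK, m4_ae m hm y B hyB, m4_ae m hm y (B - s • v) hyz,
    m4_ae m hm c B h3, m4_ae m hm c (B - s • v) h4, g5_ae m hm y c h5] with d hd g1 g2 g3 g4 g5
  exact Nn_congr_left B (B - s • v) y c d g5 (m4_pos K B v ho s hs y c hy hc h1 h2)
    (m4_pos K B v ho s hs y d hy hd g1 g2) (m4_pos K B v ho s hs c d hc hd g3 g4)

theorem psi_ray (m : Measure (ℝ × ℝ)) [IsProbabilityMeasure m] (hm : NoLines m)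
    (K : Set (ℝ × ℝ)) (hK : Supp m K) (B v : ℝ × ℝ) (ho : Ordered K B v) (s : ℝ) (hs : 0 ≤ s) :
    Psi m (B - s • v) = Psi m B := by
  unfold Psi
  apply lintegral_congr_ae
  filter_upwards [m4_mem m K hK, g5_ne m hm B, g5_ne m hm (B - s • v)] with b hb h1 h2
  exact qq_ray m hm K hK B v ho s hs b hb h1 h2

theorem qq_ray_half (m : Measure (ℝ × ℝ)) [IsProbabilityMeasure m] (hm : NoLines m)
    (K : Set (ℝ × ℝ)) (hK : Supp m K) (B v : ℝ × ℝ) (hv : v ≠ 0) (ho : Ordered K B v)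
    (hH : Halves m B v) (s : ℝ) (hs : 0 < s) : 1 / 2 ≤ qq m (B - s • v) B := by
  have hne : B - s • v ≠ B := by
    intro h
    have h1 : s • v = 0 := by
      have h2 := sub_eq_self.mp h
      exact h2
    rcases smul_eq_zero.mp h1 with h2 | h2
    · exact hs.ne' h2
    · exact hv h2
  have h1 := ge_same_side m (B - s • v) B
  have h2 := k1_half m hm (B - s • v) B hne
  have h3 : (m.prod m) {x : (ℝ × ℝ) × (ℝ × ℝ) |
      det (B - s • v) x.1 x.2 * det B x.1 x.2 ≤ 0} = 0 := by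
    have h4 : ∀ᵐ x : (ℝ × ℝ) × (ℝ × ℝ) ∂(m.prod m),
        ¬ (det (B - s • v) x.1 x.2 * det B x.1 x.2 ≤ 0) := by
      filter_upwards [k1_null m hm B, k1_null m hm (B - s • v),
        (Measure.quasiMeasurePreserving_fst (μ := m) (ν := m)).ae (m4_mem m K hK),
        (Measure.quasiMeasurePreserving_snd (μ := m) (ν := m)).ae (m4_mem m K hK)]
        with x g1 g2 g3 g4
      have e : ∀ w, det w x.1 x.2 = det x.1 x.2 w := fun w => by unfold det; ring
      rw [e] at g1 g2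
      rw [e, e, not_le, mul_comm]
      exact m4_pos K B v ho s hs.le x.1 x.2 g3 g4 g1 g2
    rw [ae_iff] at h4
    simp only [not_not] at h4
    exact h4
  rw [h3, add_zero] at h1
  exact le_trans h2 h1

end Pool.Agent.LibCX37
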