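import Pool.Agent.LibCX37.K2
import Pool.Agent.LibCX37.C1

/-!
[CZ M5] **Upper semicontinuity of the pair potential; the cross term of two clusters.**
PROOF. (`qq_seq_usc`) `y n → y`, `z n → z`: `limsup Nn (y n) (z n) c d ≤ Nn y z c d` (`Nn_usc`), so by reverse Fatou (`limsup_lintegral_le`, bound `3`,
`qq` is one integral over `m.prod m`, `k2_qq`) `limsup qq m (y n) (z n) ≤ qq m y z`; as in `c1_Psi_usc` (C1).
(`qq_usc`) By contradiction: for `ε = 1/(k+1)` there are `y k ∈ ball y ε`, `z k ∈ ball z ε` with `qq m y z + c < qq m (y k) (z k)`; then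
`qq m y z + c ≤ limsup ≤ qq m y z`, but `qq m y z` is finite (`≤ 3 (m univ)²`).
(`cluster_cross`) As `cluster_one` (C1): `quad (clus S₁ x₁ u₁ n) (clus S₂ x₂ u₂ n) m m = ∫⁻ a in S₁, ∫⁻ b in S₂, qq m (x₁ + ...) (x₂ + ...)`
(`lintegral_map` twice; `(a, b) ↦ qq m a b` is measurable, `p0_meas_qq` in P0, or write it again: `measurable_Nn.lintegral_prod_right'`), the two
points tend to `x₁`, `x₂`, reverse Fatou over `(volume.restrict S₁).prod (volume.restrict S₂)` and `qq_seq_usc`; then `eventually_lt_of_limsup_lt`.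
-/

set_option autoImplicit false

namespace Pool.Agent.LibCX37

open MeasureTheory Set Filter Topology
open scoped ENNReal

theorem m5_meas_qq (m : Measure (ℝ × ℝ)) [IsFiniteMeasure m] :
    Measurable (fun p : (ℝ × ℝ) × (ℝ × ℝ) => qq m p.1 p.2) := by
  have h0 : Measurable (fun x : (((ℝ × ℝ) × (ℝ × ℝ)) × (ℝ × ℝ)) × (ℝ × ℝ) =>
      (x.1.1.1, x.1.1.2, x.1.2, x.2)) := by fun_prop
  have h1 : Measurable (fun x : (((ℝ × ℝ) × (ℝ × ℝ)) × (ℝ × ℝ)) × (ℝ × ℝ) =>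
      Nn x.1.1.1 x.1.1.2 x.1.2 x.2) := by
    have h := Measurable.comp measurable_Nn h0
    exact h
  have h2 : Measurable (fun x : ((ℝ × ℝ) × (ℝ × ℝ)) × (ℝ × ℝ) =>
      ∫⁻ d, Nn x.1.1 x.1.2 x.2 d ∂m) := h1.lintegral_prod_right'
  exact h2.lintegral_prod_right'

theorem m5_qq_le (m : Measure (ℝ × ℝ)) [IsFiniteMeasure m] (y z : ℝ × ℝ) :
    qq m y z ≤ 3 * (m.prod m) univ := by
  rw [← k2_qq]
  calc _ ≤ ∫⁻ _x : (ℝ × ℝ) × (ℝ × ℝ), 3 ∂(m.prod m) :=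
        lintegral_mono fun x => Nn_le_three _ _ _ _
    _ = 3 * (m.prod m) univ := lintegral_const 3

theorem m5_qq_ne (m : Measure (ℝ × ℝ)) [IsFiniteMeasure m] (y z : ℝ × ℝ) : qq m y z ≠ ∞ :=
  ne_top_of_le_ne_top (ENNReal.mul_ne_top (by norm_num) (measure_ne_top _ _)) (m5_qq_le m y z)

theorem qq_seq_usc (m : Measure (ℝ × ℝ)) [IsFiniteMeasure m] (y z : ℕ → ℝ × ℝ) (y₀ z₀ : ℝ × ℝ)
    (hy : Tendsto y atTop (𝓝 y₀)) (hz : Tendsto z atTop (𝓝 z₀)) :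
    limsup (fun n => qq m (y n) (z n)) atTop ≤ qq m y₀ z₀ := by
  simp only [← k2_qq]
  refine (limsup_lintegral_le (fun _ => (3 : ℝ≥0∞)) (fun n => k2_measurable_Nn (y n) (z n))
    (fun n => Filter.Eventually.of_forall fun x => Nn_le_three _ _ _ _) ?_).trans ?_
  · rw [lintegral_const]
    exact ENNReal.mul_ne_top (by norm_num) (measure_ne_top _ _)
  · apply lintegral_mono
    intro p
    have h1 := Nn_usc atTop y z (fun _ => p.1) (fun _ => p.2) y₀ z₀ p.1 p.2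
      hy hz tendsto_const_nhds tendsto_const_nhds
    exact limsup_le_of_le (by isBoundedDefault) h1

theorem qq_usc (m : Measure (ℝ × ℝ)) [IsFiniteMeasure m] (y z : ℝ × ℝ) (c : ℝ≥0∞) (hc : 0 < c) :
    ∃ ε : ℝ, 0 < ε ∧ ∀ y₁ ∈ Metric.ball y ε, ∀ z₁ ∈ Metric.ball z ε, qq m y₁ z₁ ≤ qq m y z + c := by
  by_contra hcon
  push Not at hcon
  have hch : ∀ n : ℕ, ∃ w : (ℝ × ℝ) × (ℝ × ℝ), w.1 ∈ Metric.ball y (1 / ((n : ℝ) + 1)) ∧
      w.2 ∈ Metric.ball z (1 / ((n : ℝ) + 1)) ∧ qq m y z + c < qq m w.1 w.2 := by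
    intro n
    obtain ⟨y₁, h1, z₁, h2, h3⟩ := hcon (1 / ((n : ℝ) + 1)) (by positivity)
    exact ⟨(y₁, z₁), h1, h2, h3⟩
  choose w hw1 hw2 hw3 using hch
  have ht1 : Tendsto (fun n => (w n).1) atTop (𝓝 y) := by
    rw [tendsto_iff_dist_tendsto_zero]
    refine squeeze_zero (fun n => dist_nonneg) (fun n => (Metric.mem_ball.1 (hw1 n)).le)
      tendsto_one_div_add_atTop_nhds_zero_nat
  have ht2 : Tendsto (fun n => (w n).2) atTop (𝓝 z) := by
    rw [tendsto_iff_dist_tendsto_zero]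
    refine squeeze_zero (fun n => dist_nonneg) (fun n => (Metric.mem_ball.1 (hw2 n)).le)
      tendsto_one_div_add_atTop_nhds_zero_nat
  have hf := qq_seq_usc m (fun n => (w n).1) (fun n => (w n).2) y z ht1 ht2
  have hge : qq m y z + c ≤ limsup (fun n => qq m (w n).1 (w n).2) atTop :=
    le_limsup_of_frequently_le (Eventually.of_forall fun n => (hw3 n).le).frequently
      (by isBoundedDefault)
  exact absurd (hge.trans hf) (not_le.2 (ENNReal.lt_add_right (m5_qq_ne m y z) hc.ne'))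

theorem m5_tendsto (x u : ℝ × ℝ) (ω : unitInterval) :
    Tendsto (fun n : ℕ => x + ((1 / ((n : ℝ) + 1)) * (ω : ℝ)) • u) atTop (𝓝 x) := by
  have h3 : Tendsto (fun n : ℕ => x + ((1 / ((n : ℝ) + 1)) * (ω : ℝ)) • u) atTop
      (𝓝 (x + ((0 : ℝ) * (ω : ℝ)) • u)) := by
    apply Tendsto.const_add
    apply Tendsto.smul_const
    apply Tendsto.mul_const
    exact tendsto_one_div_add_atTop_nhds_zero_nat
  simpa using h3

theorem m5_fin (S : Set unitInterval) (x u : ℝ × ℝ) (n : ℕ) : IsFiniteMeasure (clus S x u n) := by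
  unfold clus
  infer_instance

theorem m5_meas_v (m : Measure (ℝ × ℝ)) [IsFiniteMeasure m] (x₁ u₁ x₂ u₂ : ℝ × ℝ) (n : ℕ) :
    Measurable (fun p : unitInterval × unitInterval =>
      qq m (x₁ + ((1 / ((n : ℝ) + 1)) * (p.1 : ℝ)) • u₁)
        (x₂ + ((1 / ((n : ℝ) + 1)) * (p.2 : ℝ)) • u₂)) := by
  have h1 : Measurable (fun p : unitInterval × unitInterval =>
      (x₁ + ((1 / ((n : ℝ) + 1)) * (p.1 : ℝ)) • u₁,
        x₂ + ((1 / ((n : ℝ) + 1)) * (p.2 : ℝ)) • u₂)) :=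
    ((c1_measurable_v x₁ u₁ n).comp measurable_fst).prodMk
      ((c1_measurable_v x₂ u₂ n).comp measurable_snd)
  have h2 := Measurable.comp (m5_meas_qq m) h1
  exact h2

theorem m5_quad (m : Measure (ℝ × ℝ)) [IsFiniteMeasure m] (S₁ S₂ : Set unitInterval)
    (x₁ u₁ x₂ u₂ : ℝ × ℝ) (n : ℕ) :
    quad (clus S₁ x₁ u₁ n) (clus S₂ x₂ u₂ n) m m =
      ∫⁻ p : unitInterval × unitInterval, qq m (x₁ + ((1 / ((n : ℝ) + 1)) * (p.1 : ℝ)) • u₁)
        (x₂ + ((1 / ((n : ℝ) + 1)) * (p.2 : ℝ)) • u₂)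
        ∂((volume.restrict S₁).prod (volume.restrict S₂)) := by
  have hfin := m5_fin S₂ x₂ u₂ n
  have h1 : Measurable (fun a : ℝ × ℝ => ∫⁻ b, qq m a b ∂(clus S₂ x₂ u₂ n)) :=
    (m5_meas_qq m).lintegral_prod_right'
  have h2 : ∀ a : ℝ × ℝ, ∫⁻ b, qq m a b ∂(clus S₂ x₂ u₂ n) =
      ∫⁻ ω in S₂, qq m a (x₂ + ((1 / ((n : ℝ) + 1)) * (ω : ℝ)) • u₂) := by
    intro a
    have h3 : Measurable (fun b : ℝ × ℝ => qq m a b) := by
      have h := (m5_meas_qq m).comp (measurable_prodMk_left (x := a))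
      exact h
    rw [clus, lintegral_map h3 (c1_measurable_v x₂ u₂ n)]
  show ∫⁻ a, ∫⁻ b, qq m a b ∂(clus S₂ x₂ u₂ n) ∂(clus S₁ x₁ u₁ n) = _
  have h4 : ∫⁻ a, ∫⁻ b, qq m a b ∂(clus S₂ x₂ u₂ n) ∂(clus S₁ x₁ u₁ n) =
      ∫⁻ ω in S₁, ∫⁻ b, qq m (x₁ + ((1 / ((n : ℝ) + 1)) * (ω : ℝ)) • u₁) b
        ∂(clus S₂ x₂ u₂ n) := by
    unfold clus
    unfold clus at h1
    exact lintegral_map h1 (c1_measurable_v x₁ u₁ n)
  rw [h4, lintegral_prod _ (m5_meas_v m x₁ u₁ x₂ u₂ n).aemeasurable]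
  exact lintegral_congr fun ω => h2 _

theorem cluster_cross (m : Measure (ℝ × ℝ)) [IsFiniteMeasure m] (S₁ S₂ : Set unitInterval)
    (x₁ u₁ x₂ u₂ : ℝ × ℝ) (η : ℝ≥0∞) (hη : 0 < η) :
    ∀ᶠ n in atTop, quad (clus S₁ x₁ u₁ n) (clus S₂ x₂ u₂ n) m m ≤
      volume S₁ * volume S₂ * qq m x₁ x₂ + η := by
  have hfin : volume S₁ * volume S₂ * qq m x₁ x₂ ≠ ∞ :=
    ENNReal.mul_ne_top (ENNReal.mul_ne_top (measure_ne_top _ _) (measure_ne_top _ _))
      (m5_qq_ne m x₁ x₂)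
  have h2 : limsup (fun n : ℕ => quad (clus S₁ x₁ u₁ n) (clus S₂ x₂ u₂ n) m m) atTop
      ≤ volume S₁ * volume S₂ * qq m x₁ x₂ := by
    simp only [m5_quad]
    refine (limsup_lintegral_le (fun _ => 3 * (m.prod m) univ)
      (fun n => m5_meas_v m x₁ u₁ x₂ u₂ n) (fun n =>
      Filter.Eventually.of_forall fun p => m5_qq_le _ _ _) ?_).trans ?_
    · rw [lintegral_const]
      exact ENNReal.mul_ne_top (ENNReal.mul_ne_top (by norm_num) (measure_ne_top _ _))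
        (measure_ne_top _ _)
    · calc _ ≤ ∫⁻ _p : unitInterval × unitInterval, qq m x₁ x₂
              ∂((volume.restrict S₁).prod (volume.restrict S₂)) := by
            apply lintegral_mono
            intro p
            exact qq_seq_usc m (fun n : ℕ => x₁ + ((1 / ((n : ℝ) + 1)) * (p.1 : ℝ)) • u₁)
              (fun n : ℕ => x₂ + ((1 / ((n : ℝ) + 1)) * (p.2 : ℝ)) • u₂) x₁ x₂
              (m5_tendsto x₁ u₁ p.1) (m5_tendsto x₂ u₂ p.2)
        _ = volume S₁ * volume S₂ * qq m x₁ x₂ := by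
            rw [lintegral_const, ← univ_prod_univ, Measure.prod_prod,
              Measure.restrict_apply_univ, Measure.restrict_apply_univ, mul_comm]
  have h3 : volume S₁ * volume S₂ * qq m x₁ x₂ < volume S₁ * volume S₂ * qq m x₁ x₂ + η :=
    ENNReal.lt_add_right hfin hη.ne'
  have h4 := eventually_lt_of_limsup_lt (lt_of_le_of_lt h2 h3)
  filter_upwards [h4] with n hn
  exact hn.le

end Pool.Agent.LibCX37
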