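import Pool.Agent.LibCX37.M5
import Pool.Agent.LibCX37.C3

/-!
[CZ M7] **The competitor with two clusters.**
PROOF. As `cluster` (C3; its private lemmas have to be copied under new names). `τ = lawOn f (S₁ ∪ S₂)ᶜ` is finite, `τ univ ≤ 1`, `NoLines τ`. Directions
`u₁, u₂` from `exists_halving τ` at `x₁`, `x₂`. `g n ω = x₁ + (ω/(n+1)) u₁` on `S₁`, `x₂ + (ω/(n+1)) u₂` on `S₂`, `f` elsewhere;
`law (g n) = τ + (σ₁ + σ₂)`, `σᵢ = clus Sᵢ xᵢ uᵢ n` (apply the piece lemma of C3 twice, or directly). `quad_expand` with `σ = σ₁ + σ₂`: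
`quad σ τ τ τ = quad σ₁ τ τ τ + quad σ₂ τ τ τ` (`q1_add1`), `≤ |S₁| Psi τ x₁ + |S₂| Psi τ x₂ + 2 η'` (`cluster_one`);
`quad σ σ τ τ = quad σ₁ σ₁ τ τ + 2 quad σ₁ σ₂ τ τ + quad σ₂ σ₂ τ τ` (`q1_add1`, `q1_add2`, `q1_swap12`)
`≤ |S₁|²/2 + |S₂|²/2 + 2 |S₁| |S₂| qq τ x₁ x₂ + 4 η'` (`cluster_two`, `(τ univ)² ≤ 1`; `cluster_cross`);
the terms with three and four points of `σ`: `quad_le`, `σ univ = |S₁| + |S₂| = volume (S₁ ∪ S₂) ≤ 1`: `4 · 3 t³ + 3 t⁴ ≤ 15 t³`, `t = |S₁| + |S₂|`.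
-/

set_option autoImplicit false

namespace Pool.Agent.LibCX37

open MeasureTheory Set Filter Topology
open scoped ENNReal

private theorem m7_lawOn_univ (f : unitInterval → ℝ × ℝ) (hf : Measurable f)
    (S : Set unitInterval) : lawOn f S univ ≤ 1 := by
  unfold lawOn
  rw [Measure.map_apply hf MeasurableSet.univ, preimage_univ, Measure.restrict_apply_univ]
  exact prob_le_one

private theorem m7_finite (f : unitInterval → ℝ × ℝ) (S : Set unitInterval) :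
    IsFiniteMeasure (lawOn f S) := by
  unfold lawOn
  infer_instance

private theorem m7_clus_finite (S : Set unitInterval) (x u : ℝ × ℝ) (n : ℕ) :
    IsFiniteMeasure (clus S x u n) := by
  unfold clus
  infer_instance

private theorem m7_noLines (f : unitInterval → ℝ × ℝ) (hf : Measurable f)
    (hl : NoLines (law f)) (S : Set unitInterval) : NoLines (lawOn f S) := by
  intro p w hw
  have h1 : lawOn f S ≤ law f := Measure.map_mono Measure.restrict_le_self hf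
  exact le_antisymm ((h1 _).trans (hl p w hw).le) bot_le

open Classical in
private theorem m7_piece (f : unitInterval → ℝ × ℝ) (hf : IsDrawing f)
    (S : Set unitInterval) (hS : MeasurableSet S) (x u : ℝ × ℝ) (n : ℕ) :
    ∃ g, IsDrawing g ∧
      ∀ R : Set unitInterval, lawOn g R = lawOn f (Sᶜ ∩ R) + clus (S ∩ R) x u n := by
  have hc : Measurable (fun ω : unitInterval => x + ((1 / ((n : ℝ) + 1)) * (ω : ℝ)) • u) := by
    fun_prop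
  refine ⟨S.piecewise (fun ω : unitInterval => x + ((1 / ((n : ℝ) + 1)) * (ω : ℝ)) • u) f,
    ⟨Measurable.piecewise hS hc hf.1, ?_⟩, fun R => ?_⟩
  · obtain ⟨C, hC⟩ := isBounded_iff_forall_norm_le.1 hf.2
    refine isBounded_iff_forall_norm_le.2 ⟨max C (‖x‖ + ‖u‖), ?_⟩
    rintro _ ⟨ω, rfl⟩
    by_cases hω : ω ∈ S
    · rw [Set.piecewise_eq_of_mem _ _ _ hω]
      refine le_trans ?_ (le_max_right _ _)
      refine (norm_add_le _ _).trans (add_le_add le_rfl ?_)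
      rw [norm_smul]
      have h1 : ‖(1 / ((n : ℝ) + 1)) * (ω : ℝ)‖ ≤ 1 := by
        rw [Real.norm_eq_abs, abs_of_nonneg (mul_nonneg (by positivity) ω.2.1)]
        have h2 : 1 / ((n : ℝ) + 1) ≤ 1 := by
          rw [div_le_one (by positivity)]
          linarith [(Nat.cast_nonneg n : (0 : ℝ) ≤ n)]
        calc (1 / ((n : ℝ) + 1)) * (ω : ℝ) ≤ 1 * 1 :=
              mul_le_mul h2 ω.2.2 ω.2.1 zero_le_one
          _ = 1 := one_mul 1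
      calc ‖(1 / ((n : ℝ) + 1)) * (ω : ℝ)‖ * ‖u‖ ≤ 1 * ‖u‖ :=
            mul_le_mul_of_nonneg_right h1 (norm_nonneg u)
        _ = ‖u‖ := one_mul _
    · rw [Set.piecewise_eq_of_notMem _ _ _ hω]
      exact (hC _ (mem_range_self ω)).trans (le_max_left _ _)
  · unfold lawOn clus
    conv_lhs => rw [← Measure.restrict_add_restrict_compl (μ := volume.restrict R) hS]
    rw [Measure.map_add _ _ (Measurable.piecewise hS hc hf.1), add_comm,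
      Measure.restrict_restrict hS, Measure.restrict_restrict hS.compl]
    congr 1
    · refine Measure.map_congr ?_
      rw [← Measure.restrict_restrict hS.compl]
      filter_upwards [ae_restrict_mem hS.compl] with ω hω
      exact Set.piecewise_eq_of_notMem _ _ _ hω
    · refine Measure.map_congr ?_
      rw [← Measure.restrict_restrict hS]
      filter_upwards [ae_restrict_mem hS] with ω hω
      exact Set.piecewise_eq_of_mem _ _ _ hω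

private theorem m7_pieces (f : unitInterval → ℝ × ℝ) (hf : IsDrawing f)
    (S₁ S₂ : Set unitInterval) (hS₁ : MeasurableSet S₁) (hS₂ : MeasurableSet S₂)
    (hd : Disjoint S₁ S₂) (x₁ u₁ x₂ u₂ : ℝ × ℝ) (n : ℕ) :
    ∃ g, IsDrawing g ∧
      law g = lawOn f (S₁ ∪ S₂)ᶜ + (clus S₁ x₁ u₁ n + clus S₂ x₂ u₂ n) := by
  obtain ⟨g₁, hg₁, h₁⟩ := m7_piece f hf S₁ hS₁ x₁ u₁ n
  obtain ⟨g, hg, h₂⟩ := m7_piece g₁ hg₁ S₂ hS₂ x₂ u₂ n
  refine ⟨g, hg, ?_⟩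
  have h3 : law g = lawOn g univ := by
    unfold law lawOn
    rw [Measure.restrict_univ]
  rw [h3, h₂ univ, h₁, inter_univ, inter_univ]
  have h4 : S₁ ∩ S₂ᶜ = S₁ := by
    rw [← Set.sdiff_eq]
    exact hd.sdiff_eq_left
  rw [h4, ← Set.compl_union, add_assoc]

private theorem m7_one (τ σ : Measure (ℝ × ℝ)) [IsFiniteMeasure τ] [IsFiniteMeasure σ]
    (hτ : τ univ ≤ 1) (t : ℝ≥0∞) (ht : σ univ = t) (ht1 : t ≤ 1) :
    4 * quad σ σ σ τ + quad σ σ σ σ ≤ 15 * t ^ 3 := by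
  have e3 : 4 * quad σ σ σ τ ≤ 12 * t ^ 3 := by
    have h3 := quad_le σ σ σ τ
    rw [ht] at h3
    calc 4 * quad σ σ σ τ ≤ 4 * (3 * t * t * t * τ univ) := mul_le_mul_right h3 4
      _ ≤ 4 * (3 * t * t * t * 1) := by gcongr
      _ = 12 * t ^ 3 := by ring
  have e4 : quad σ σ σ σ ≤ 3 * t ^ 3 := by
    have h3 := quad_le σ σ σ σ
    rw [ht] at h3
    calc quad σ σ σ σ ≤ 3 * t * t * t * t := h3
      _ ≤ 3 * t * t * t * 1 := by gcongr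
      _ = 3 * t ^ 3 := by ring
  calc 4 * quad σ σ σ τ + quad σ σ σ σ ≤ 12 * t ^ 3 + 3 * t ^ 3 := add_le_add e3 e4
    _ = 15 * t ^ 3 := by ring

private theorem m7_sq (t a η q : ℝ≥0∞) (ha : a ≤ 1) (h : q ≤ t ^ 2 * a ^ 2 / 2 + η) :
    6 * q ≤ 3 * t ^ 2 + 6 * η := by
  have h3 : t ^ 2 * a ^ 2 / 2 ≤ t ^ 2 / 2 := by
    refine ENNReal.div_le_div_right ?_ 2
    calc t ^ 2 * a ^ 2 ≤ t ^ 2 * 1 := by
          refine mul_le_mul_right ?_ _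
          calc a ^ 2 ≤ 1 ^ 2 := by gcongr
            _ = 1 := one_pow 2
      _ = t ^ 2 := mul_one _
  calc 6 * q ≤ 6 * (t ^ 2 / 2 + η) := mul_le_mul_right (h.trans (add_le_add h3 le_rfl)) 6
    _ = 3 * t ^ 2 + 6 * η := by
        rw [mul_add]
        congr 1
        rw [← mul_div_assoc]
        have h6 : (6 : ℝ≥0∞) * t ^ 2 = 3 * t ^ 2 * 2 := by ring
        rw [h6, ENNReal.mul_div_cancel_right (by norm_num) (by norm_num)]

theorem cluster2 (f : unitInterval → ℝ × ℝ) (hf : IsDrawing f) (hl : NoLines (law f))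
    (S₁ S₂ : Set unitInterval) (hS₁ : MeasurableSet S₁) (hS₂ : MeasurableSet S₂)
    (hd : Disjoint S₁ S₂) (x₁ x₂ : ℝ × ℝ) (η : ℝ≥0∞) (hη : 0 < η) :
    ∃ g, IsDrawing g ∧ En g ≤
      quad (lawOn f (S₁ ∪ S₂)ᶜ) (lawOn f (S₁ ∪ S₂)ᶜ) (lawOn f (S₁ ∪ S₂)ᶜ) (lawOn f (S₁ ∪ S₂)ᶜ) +
      4 * (volume S₁ * Psi (lawOn f (S₁ ∪ S₂)ᶜ) x₁ + volume S₂ * Psi (lawOn f (S₁ ∪ S₂)ᶜ) x₂) +
      3 * (volume S₁ ^ 2 + volume S₂ ^ 2) +
      12 * (volume S₁ * volume S₂ * qq (lawOn f (S₁ ∪ S₂)ᶜ) x₁ x₂) +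
      15 * (volume S₁ + volume S₂) ^ 3 + η := by
  have := m7_finite f (S₁ ∪ S₂)ᶜ
  have hτ1 := m7_lawOn_univ f hf.1 (S₁ ∪ S₂)ᶜ
  have hτl := m7_noLines f hf.1 hl (S₁ ∪ S₂)ᶜ
  have ht1 : volume S₁ + volume S₂ ≤ 1 := by
    rw [← measure_union hd hS₂]
    exact prob_le_one
  set τ := lawOn f (S₁ ∪ S₂)ᶜ with hτ
  set v := volume S₁ with hv
  set w := volume S₂ with hw
  obtain ⟨u₁, hu₁, h1, h2⟩ := exists_halving τ hτl x₁
  obtain ⟨u₂, hu₂, h3, h4⟩ := exists_halving τ hτl x₂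
  have hη' : 0 < η / 32 := ENNReal.div_pos hη.ne' (by norm_num)
  obtain ⟨n, ⟨⟨⟨hn1, hn2⟩, hn3⟩, hn4⟩, hn5⟩ := (((((cluster_one τ S₁ x₁ u₁ (η / 32) hη').and
    (cluster_two τ hτl S₁ x₁ u₁ hu₁ h1 h2 (η / 32) hη')).and
    (cluster_one τ S₂ x₂ u₂ (η / 32) hη')).and
    (cluster_two τ hτl S₂ x₂ u₂ hu₂ h3 h4 (η / 32) hη')).and
    (cluster_cross τ S₁ S₂ x₁ u₁ x₂ u₂ (η / 32) hη')).exists
  have := m7_clus_finite S₁ x₁ u₁ n
  have := m7_clus_finite S₂ x₂ u₂ n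
  obtain ⟨g, hg, hlaw⟩ := m7_pieces f hf S₁ S₂ hS₁ hS₂ hd x₁ u₁ x₂ u₂ n
  refine ⟨g, hg, ?_⟩
  rw [En_eq_quad g hg.1, hlaw, quad_expand]
  have hσ₁ : clus S₁ x₁ u₁ n univ = v := clus_univ S₁ x₁ u₁ n
  have hσ₂ : clus S₂ x₂ u₂ n univ = w := clus_univ S₂ x₂ u₂ n
  have e34 := m7_one τ (clus S₁ x₁ u₁ n + clus S₂ x₂ u₂ n) hτ1 (v + w)
    (by rw [Measure.add_apply, hσ₁, hσ₂]) ht1
  rw [q1_add1 (clus S₁ x₁ u₁ n) (clus S₂ x₂ u₂ n) τ τ τ]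
  have hsplit : quad (clus S₁ x₁ u₁ n + clus S₂ x₂ u₂ n) (clus S₁ x₁ u₁ n + clus S₂ x₂ u₂ n) τ τ =
      quad (clus S₁ x₁ u₁ n) (clus S₁ x₁ u₁ n) τ τ +
        2 * quad (clus S₁ x₁ u₁ n) (clus S₂ x₂ u₂ n) τ τ +
        quad (clus S₂ x₂ u₂ n) (clus S₂ x₂ u₂ n) τ τ := by
    rw [q1_add1, q1_add2, q1_add2,
      q1_swap12 (clus S₂ x₂ u₂ n) (clus S₁ x₁ u₁ n) τ τ]
    ring
  rw [hsplit]
  generalize quad (clus S₁ x₁ u₁ n) (clus S₁ x₁ u₁ n) τ τ = q11 at *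
  generalize quad (clus S₂ x₂ u₂ n) (clus S₂ x₂ u₂ n) τ τ = q22 at *
  generalize quad (clus S₁ x₁ u₁ n) (clus S₂ x₂ u₂ n) τ τ = q12 at *
  generalize quad (clus S₁ x₁ u₁ n) τ τ τ = q1 at *
  generalize quad (clus S₂ x₂ u₂ n) τ τ τ = q2 at *
  generalize quad (clus S₁ x₁ u₁ n + clus S₂ x₂ u₂ n) (clus S₁ x₁ u₁ n + clus S₂ x₂ u₂ n)
    (clus S₁ x₁ u₁ n + clus S₂ x₂ u₂ n) τ = q3 at *
  generalize quad (clus S₁ x₁ u₁ n + clus S₂ x₂ u₂ n) (clus S₁ x₁ u₁ n + clus S₂ x₂ u₂ n)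
    (clus S₁ x₁ u₁ n + clus S₂ x₂ u₂ n) (clus S₁ x₁ u₁ n + clus S₂ x₂ u₂ n) = q4 at *
  have e1 : 4 * (q1 + q2) ≤ 4 * (v * Psi τ x₁ + w * Psi τ x₂) + 8 * (η / 32) := by
    calc 4 * (q1 + q2) ≤ 4 * ((v * Psi τ x₁ + η / 32) + (w * Psi τ x₂ + η / 32)) :=
          mul_le_mul_right (add_le_add hn1 hn3) 4
      _ = 4 * (v * Psi τ x₁ + w * Psi τ x₂) + 8 * (η / 32) := by ring
  have e11 := m7_sq v (τ univ) (η / 32) q11 hτ1 hn2
  have e22 := m7_sq w (τ univ) (η / 32) q22 hτ1 hn4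
  have e12 : 12 * q12 ≤ 12 * (v * w * qq τ x₁ x₂) + 12 * (η / 32) := by
    calc 12 * q12 ≤ 12 * (v * w * qq τ x₁ x₂ + η / 32) := mul_le_mul_right hn5 12
      _ = 12 * (v * w * qq τ x₁ x₂) + 12 * (η / 32) := by ring
  have e5 : 32 * (η / 32) = η := ENNReal.mul_div_cancel (by norm_num) (by norm_num)
  calc quad τ τ τ τ + 4 * (q1 + q2) + 6 * (q11 + 2 * q12 + q22) + 4 * q3 + q4
      = quad τ τ τ τ + 4 * (q1 + q2) + (6 * q11 + 6 * q22 + 12 * q12) + (4 * q3 + q4) := by ring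
    _ ≤ quad τ τ τ τ + (4 * (v * Psi τ x₁ + w * Psi τ x₂) + 8 * (η / 32)) +
          ((3 * v ^ 2 + 6 * (η / 32)) + (3 * w ^ 2 + 6 * (η / 32)) +
            (12 * (v * w * qq τ x₁ x₂) + 12 * (η / 32))) + 15 * (v + w) ^ 3 :=
        add_le_add (add_le_add (add_le_add le_rfl e1) (add_le_add (add_le_add e11 e22) e12)) e34
    _ = quad τ τ τ τ + 4 * (v * Psi τ x₁ + w * Psi τ x₂) + 3 * (v ^ 2 + w ^ 2) +
          12 * (v * w * qq τ x₁ x₂) + 15 * (v + w) ^ 3 + 32 * (η / 32) := by ring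
    _ = quad τ τ τ τ + 4 * (v * Psi τ x₁ + w * Psi τ x₂) + 3 * (v ^ 2 + w ^ 2) +
          12 * (v * w * qq τ x₁ x₂) + 15 * (v + w) ^ 3 + η := by rw [e5]

end Pool.Agent.LibCX37
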