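import Pool.Agent.LibCX37.F2

/-!
[CZ M8a] **Second order expansion of the potential.**
PROOF. `law f = τ + σ`, `τ = lawOn f Sᶜ`, `σ = lawOn f S`, `σ univ = s`, `τ univ + s = 1` (P0: `p0_law_add`, `p0_univ`, `p0_fin`). `Psi` is a triple integral of
`Nn y b c d`, symmetric in `b, c, d` (`Nn_swap23`, `Nn_swap34`, Fubini; compare `q1_swap..`, or use that `Psi m y` is `quad`-like; one may also expand
`∫⁻ b, qq (τ+σ) y b ∂(τ+σ)` and `qq (τ+σ) y b = qq τ y b + 2 ∫∫ (one τ, one σ) + ∫∫ (σσ)`):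
`Psi (τ+σ) y = Psi τ y + 3 ∫⁻ b ∂σ, qq τ y b + 3 (σστ) + (σσσ)`; the last two are `≥ 0` and `≤ 3 * (3 s²) + 3 s³`, more exactly
`3 · 3 s² · τ univ + 3 s³ ≤ 9 s² (τ univ + s) = 9 s²`. And `∫⁻ b ∂σ, qq τ y b = ∫⁻ b in S, qq τ y (f b)` (`p0_outer`, `p0_meas_right`).
(Here: `Psi m y = quad (dirac y) m m m`, so the expansion of `quad` in its last three arguments (Q1) is enough.)
-/

set_option autoImplicit false

namespace Pool.Agent.LibCX37

open MeasureTheory Set Filter Topology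
open scoped ENNReal

theorem m8a_psi (m : Measure (ℝ × ℝ)) (y : ℝ × ℝ) :
    Psi m y = quad (Measure.dirac y) m m m := by
  unfold quad Psi
  rw [lintegral_dirac]

theorem m8a_qq (m₂ m : Measure (ℝ × ℝ)) (y : ℝ × ℝ) :
    quad (Measure.dirac y) m₂ m m = ∫⁻ b, qq m y b ∂m₂ := by
  unfold quad qq
  rw [lintegral_dirac]

theorem m8a_expand (δ τ σ : Measure (ℝ × ℝ)) [IsFiniteMeasure δ] [IsFiniteMeasure τ]
    [IsFiniteMeasure σ] :
    quad δ (τ + σ) (τ + σ) (τ + σ) = quad δ τ τ τ + 3 * quad δ σ τ τ + 3 * quad δ σ σ τ +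
      quad δ σ σ σ := by
  simp only [q1_add2, q1_add3, q1_add4]
  have a1 : quad δ τ σ τ = quad δ σ τ τ := q1_swap23 _ _ _ _
  have a2 : quad δ τ τ σ = quad δ σ τ τ := by rw [q1_swap34, a1]
  have b1 : quad δ σ τ σ = quad δ σ σ τ := q1_swap34 _ _ _ _
  have b2 : quad δ τ σ σ = quad δ σ σ τ := by rw [q1_swap23, b1]
  rw [a1, a2, b1, b2]
  ring

theorem m8a_main (f : unitInterval → ℝ × ℝ) (hf : Measurable f) (S : Set unitInterval)
    (hS : MeasurableSet S) (y : ℝ × ℝ) :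
    Psi (law f) y = Psi (lawOn f Sᶜ) y + 3 * (∫⁻ b in S, qq (lawOn f Sᶜ) y (f b)) +
      3 * quad (Measure.dirac y) (lawOn f S) (lawOn f S) (lawOn f Sᶜ) +
      quad (Measure.dirac y) (lawOn f S) (lawOn f S) (lawOn f S) := by
  have hfin := p0_fin f S
  have hfin' := p0_fin f Sᶜ
  have h1 : ∫⁻ b, qq (lawOn f Sᶜ) y b ∂(lawOn f S) = ∫⁻ b in S, qq (lawOn f Sᶜ) y (f b) :=
    p0_outer f hf S _ (p0_meas_right _ y)
  rw [← h1, ← m8a_qq, m8a_psi (law f), p0_law_add f hf S hS, m8a_expand, ← m8a_psi]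

theorem Psi_second (f : unitInterval → ℝ × ℝ) (hf : Measurable f) (S : Set unitInterval)
    (hS : MeasurableSet S) (y : ℝ × ℝ) :
    Psi (law f) y ≤ Psi (lawOn f Sᶜ) y + 3 * (∫⁻ b in S, qq (lawOn f Sᶜ) y (f b)) +
      9 * volume S ^ 2 := by
  have hu := p0_univ f hf S
  have hu' := p0_univ f hf Sᶜ
  have hsum : volume Sᶜ + volume S = (1 : ℝ≥0∞) := by
    rw [add_comm, measure_add_measure_compl hS]
    exact measure_univ
  have h1 := quad_le (Measure.dirac y) (lawOn f S) (lawOn f S) (lawOn f Sᶜ)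
  have h2 := quad_le (Measure.dirac y) (lawOn f S) (lawOn f S) (lawOn f S)
  rw [measure_univ, hu, hu'] at h1
  rw [measure_univ, hu] at h2
  rw [m8a_main f hf S hS y, add_assoc (Psi (lawOn f Sᶜ) y + _)]
  refine add_le_add le_rfl ?_
  calc 3 * quad (Measure.dirac y) (lawOn f S) (lawOn f S) (lawOn f Sᶜ) +
        quad (Measure.dirac y) (lawOn f S) (lawOn f S) (lawOn f S)
      ≤ 3 * (3 * 1 * volume S * volume S * volume Sᶜ) +
        3 * 1 * volume S * volume S * volume S := add_le_add (mul_le_mul_right h1 _) h2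
    _ = 3 * volume S ^ 2 * (3 * volume Sᶜ + volume S) := by ring
    _ ≤ 3 * volume S ^ 2 * (3 * volume Sᶜ + 3 * volume S) := by
        gcongr
        exact le_mul_of_one_le_left (zero_le) (by norm_num)
    _ = 9 * volume S ^ 2 * (volume Sᶜ + volume S) := by ring
    _ = 9 * volume S ^ 2 := by rw [hsum, mul_one]

theorem Psi_second_lower (f : unitInterval → ℝ × ℝ) (hf : Measurable f) (S : Set unitInterval)
    (hS : MeasurableSet S) (y : ℝ × ℝ) :
    Psi (lawOn f Sᶜ) y + 3 * (∫⁻ b in S, qq (lawOn f Sᶜ) y (f b)) ≤ Psi (law f) y := by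
  rw [m8a_main f hf S hS y]
  exact le_self_add.trans le_self_add

end Pool.Agent.LibCX37
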