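import Pool.Agent.LibCX37.M7
import Pool.Agent.LibCX37.M8a
import Pool.Agent.LibCX37.P2

/-!
[CZ M8] **The second order condition for two points off the essential range.**
PROOF. `m = law f`, `q = Psi m V` (`= Psi m V'`, and `q ≤ Psi m y` for all `y`, by `Attains.psi_le`). It is enough: for every `c ∈ (0,1]` the inequality
with `+ 88 c` on the right. Take `ε > 0` from `qq_lsc` (K2) at `(z,V), (z,V'), (z',V), (z',V')` with `c`, from `qq_usc` (M5) at `(V,V')` with `c`, and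
`2 ε ≤ dist V V'`. `s = min (vol f⁻¹ball V ε) (vol f⁻¹ball V' ε) c`, `S₁ ⊆ f⁻¹ball V ε`, `S₂ ⊆ f⁻¹ball V' ε` of volume `s` (`exists_subset_volume`),
disjoint, `S = S₁ ∪ S₂`, `τ = lawOn f Sᶜ`. Write `P = Psi τ z`, `P' = Psi τ z'`, `W = ∫_S Psi τ (f a)`, `J = ∫_S ∫_S qq τ (f a) (f b)`,
`I = ∫_S qq τ z (f b)`, `I' = ∫_S qq τ z' (f b)` (all finite).
(A) `cluster2` at `z, z'` with `η = s³`, `Attains.En_le`, `En_lower` (P0), cancel `quad τ τ τ τ`: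
`4 W + 6 J ≤ 4 s (P + P') + 6 s² + 12 s² qq τ z z' + 15 (2s)³ + s³`.
(B) `q ≤ Psi m (f a) ≤ Psi τ (f a) + 3 ∫_S qq τ (f a) (f b) + 9 (2s)²` (`Psi_second`), integrate over `S`: `2 s q ≤ W + 3 J + 72 s³`.
(C) `Psi_second_lower`: `P + 3 I ≤ Psi m z ≤ q`, `P' + 3 I' ≤ q`: `4 s (P + P') + 12 s (I + I') ≤ 8 s q`.
(A), (B), (C): `4 s (P+P') + 12 s (I+I') ≤ 4 W + 12 J + 288 s³ ≤ 4 s (P+P') + 6 s² + 12 s² qq τ z z' + 121 s³ + 6 J + 288 s³`; cancel: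
`12 s (I + I') ≤ 6 s² + 12 s² qq τ z z' + 6 J + 409 s³`.
(D) `qq τ ≤ qq m` (monotone in the measure, as `f2_Psi_mono`), `f a ≠ f b` a.e. (no atoms; see P2), so by `Attains.pair` (P2), symmetric on `S₂ × S₁`
by `p2_qq_symm`: `J ≤ s²/2 + s²/2 + 2 s² (qq m V V' + c)`.
(E) `b ∈ S₁`: `qq m z V ≤ qq m z (f b) + c ≤ qq τ z (f b) + 6 (2s) + c` (`qq_le`, P0), so `s (qq m z V + qq m z V') ≤ I + 2 (12 s + c) s`; same for `z'`.
Total, with `s ≤ c`: `12 s² (sum of the four) ≤ 12 s² (1 + qq m z z' + qq m V V') + 60 c s² + 985 s³`; divide by `12 s²`.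
(The pure arithmetic is best done as a separate lemma on `ℝ≥0∞`, lifting to `NNReal`/`ℝ`; all quantities are finite.)
-/

set_option autoImplicit false

namespace Pool.Agent.LibCX37

open MeasureTheory Set Filter Topology
open scoped ENNReal

theorem m8_real (s c P P' W J I I' q Q a₁ a₂ a₃ a₄ QV Qm : ℝ) (hs : 0 < s) (hsc : s ≤ c)
    (hA : 4 * W + 6 * J ≤ 4 * (s * P + s * P') + 3 * (s ^ 2 + s ^ 2) + 12 * (s * s * Q) +
      15 * (s + s) ^ 3 + s ^ 3)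
    (hB : q * (2 * s) ≤ W + 3 * J + 9 * (2 * s) ^ 2 * (2 * s))
    (hC : P + 3 * I ≤ q) (hC' : P' + 3 * I' ≤ q)
    (hD : J ≤ s ^ 2 + 18 * s ^ 3 + 2 * (s * s * (QV + c)))
    (hE : s * (a₁ + a₂) ≤ I + 2 * ((12 * s + c) * s))
    (hE' : s * (a₃ + a₄) ≤ I' + 2 * ((12 * s + c) * s)) (hF : Q ≤ Qm) :
    a₁ + a₂ + (a₃ + a₄) ≤ 1 + QV + Qm + 100 * c := by
  have e1 := mul_le_mul_of_nonneg_left hC hs.le
  have e2 := mul_le_mul_of_nonneg_left hC' hs.le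
  have e3 := mul_le_mul_of_nonneg_left hE hs.le
  have e4 := mul_le_mul_of_nonneg_left hE' hs.le
  have hs2 : 0 < s ^ 2 := by positivity
  have e5 := mul_le_mul_of_nonneg_left hF hs2.le
  have e6 := mul_le_mul_of_nonneg_left hsc hs2.le
  have hc : 0 ≤ s ^ 2 * c := mul_nonneg hs2.le (hs.le.trans hsc)
  have key : s ^ 2 * (a₁ + a₂ + (a₃ + a₄)) ≤ s ^ 2 * (1 + QV + Qm + 100 * c) := by
    nlinarith [e1, e2, e3, e4, e5, e6, hA, hB, hD, hc]
  exact le_of_mul_le_mul_left key hs2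

theorem m8_arith (s c P P' W J I I' q Q a₁ a₂ a₃ a₄ QV Qm : ℝ≥0∞) (fs : s ≠ ∞) (fc : c ≠ ∞)
    (fP : P ≠ ∞) (fP' : P' ≠ ∞) (fW : W ≠ ∞) (fJ : J ≠ ∞) (fI : I ≠ ∞) (fI' : I' ≠ ∞)
    (fq : q ≠ ∞) (fQ : Q ≠ ∞) (f1 : a₁ ≠ ∞) (f2 : a₂ ≠ ∞) (f3 : a₃ ≠ ∞) (f4 : a₄ ≠ ∞)
    (fV : QV ≠ ∞) (fm : Qm ≠ ∞) (hs : s ≠ 0) (hsc : s ≤ c)
    (hA : 4 * W + 6 * J ≤ 4 * (s * P + s * P') + 3 * (s ^ 2 + s ^ 2) + 12 * (s * s * Q) +
      15 * (s + s) ^ 3 + s ^ 3)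
    (hB : q * (2 * s) ≤ W + 3 * J + 9 * (2 * s) ^ 2 * (2 * s))
    (hC : P + 3 * I ≤ q) (hC' : P' + 3 * I' ≤ q)
    (hD : J ≤ s ^ 2 + 18 * s ^ 3 + 2 * (s * s * (QV + c)))
    (hE : s * (a₁ + a₂) ≤ I + 2 * ((12 * s + c) * s))
    (hE' : s * (a₃ + a₄) ≤ I' + 2 * ((12 * s + c) * s)) (hF : Q ≤ Qm) :
    a₁ + a₂ + (a₃ + a₄) ≤ 1 + QV + Qm + 100 * c := by
  lift s to NNReal using fs
  lift c to NNReal using fc
  lift P to NNReal using fP
  lift P' to NNReal using fP'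
  lift W to NNReal using fW
  lift J to NNReal using fJ
  lift I to NNReal using fI
  lift I' to NNReal using fI'
  lift q to NNReal using fq
  lift Q to NNReal using fQ
  lift a₁ to NNReal using f1
  lift a₂ to NNReal using f2
  lift a₃ to NNReal using f3
  lift a₄ to NNReal using f4
  lift QV to NNReal using fV
  lift Qm to NNReal using fm
  have hs' : (0 : ℝ) < s := by
    have h : s ≠ 0 := by exact_mod_cast hs
    exact_mod_cast pos_iff_ne_zero.mpr h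
  have h := m8_real s c P P' W J I I' q Q a₁ a₂ a₃ a₄ QV Qm hs' (by exact_mod_cast hsc)
    (by exact_mod_cast hA) (by exact_mod_cast hB) (by exact_mod_cast hC) (by exact_mod_cast hC')
    (by exact_mod_cast hD) (by exact_mod_cast hE) (by exact_mod_cast hE')
    (by exact_mod_cast hF)
  exact_mod_cast h

theorem m8_qq_mono (m m' : Measure (ℝ × ℝ)) (h : m ≤ m') (y z : ℝ × ℝ) : qq m y z ≤ qq m' y z := by
  unfold qq
  refine lintegral_mono' h fun c => ?_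
  exact lintegral_mono' h le_rfl

theorem m8_vol_le (S : Set unitInterval) : volume S ≤ 1 := prob_le_one

theorem m8_int_le (S : Set unitInterval) (F : unitInterval → ℝ≥0∞) (k : ℝ≥0∞)
    (hF : ∀ ω, F ω ≤ k) : ∫⁻ ω in S, F ω ≤ k := by
  calc ∫⁻ ω in S, F ω ≤ ∫⁻ _ in S, k := lintegral_mono hF
    _ = k * volume S := setLIntegral_const _ _
    _ ≤ k * 1 := mul_le_mul_right (m8_vol_le S) _
    _ = k := mul_one _

/-- (E) -/
theorem m8_E (f : unitInterval → ℝ × ℝ) (hf : Measurable f) (S S₁ S₂ : Set unitInterval)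
    (hS₁ : MeasurableSet S₁) (hS₂ : MeasurableSet S₂) (hd : Disjoint S₁ S₂) (hS : S = S₁ ∪ S₂)
    (s c : ℝ≥0∞) (h1 : volume S₁ = s) (h2 : volume S₂ = s) (z V V' : ℝ × ℝ)
    (k1 : ∀ b ∈ S₁, qq (law f) z V ≤ qq (law f) z (f b) + c)
    (k2 : ∀ b ∈ S₂, qq (law f) z V' ≤ qq (law f) z (f b) + c) :
    s * (qq (law f) z V + qq (law f) z V') ≤
      (∫⁻ b in S, qq (lawOn f Sᶜ) z (f b)) + 2 * ((12 * s + c) * s) := by
  have hSm : MeasurableSet S := by rw [hS]; exact hS₁.union hS₂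
  have hv : volume S = 2 * s := by
    rw [hS, measure_union hd hS₂, h1, h2, two_mul]
  have hq : ∀ b : unitInterval, qq (law f) z (f b) ≤ qq (lawOn f Sᶜ) z (f b) + 12 * s := by
    intro b
    have h := qq_le f hf S hSm z (f b)
    rw [hv] at h
    refine h.trans (le_of_eq ?_)
    ring
  have key : ∀ (T : Set unitInterval) (x : ℝ≥0∞), MeasurableSet T → volume T = s →
      (∀ b ∈ T, x ≤ qq (law f) z (f b) + c) →
      s * x ≤ (∫⁻ b in T, qq (lawOn f Sᶜ) z (f b)) + (12 * s + c) * s := by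
    intro T x hT hTs hx
    calc s * x = ∫⁻ _ in T, x := by rw [setLIntegral_const, hTs, mul_comm]
      _ ≤ ∫⁻ b in T, (qq (lawOn f Sᶜ) z (f b) + (12 * s + c)) := by
          refine setLIntegral_mono' hT fun b hb => ?_
          calc x ≤ qq (law f) z (f b) + c := hx b hb
            _ ≤ (qq (lawOn f Sᶜ) z (f b) + 12 * s) + c := add_le_add (hq b) le_rfl
            _ = _ := add_assoc _ _ _
      _ = _ := by rw [lintegral_add_right _ measurable_const, setLIntegral_const, hTs]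
  have e : (∫⁻ b in S, qq (lawOn f Sᶜ) z (f b)) =
      (∫⁻ b in S₁, qq (lawOn f Sᶜ) z (f b)) + ∫⁻ b in S₂, qq (lawOn f Sᶜ) z (f b) := by
    have h := lintegral_union (μ := volume) (f := fun b => qq (lawOn f Sᶜ) z (f b)) hS₂ hd
    rw [← hS] at h
    exact h
  rw [e, mul_add]
  calc s * qq (law f) z V + s * qq (law f) z V' ≤ _ :=
        add_le_add (key S₁ _ hS₁ h1 k1) (key S₂ _ hS₂ h2 k2)
    _ = _ := by ring

/-- (D) -/
theorem m8_D {f : unitInterval → ℝ × ℝ} (h : Attains f) (S S₁ S₂ : Set unitInterval)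
    (hS₁ : MeasurableSet S₁) (hS₂ : MeasurableSet S₂) (hd : Disjoint S₁ S₂) (hS : S = S₁ ∪ S₂)
    (s k : ℝ≥0∞) (h1 : volume S₁ = s) (h2 : volume S₂ = s)
    (hk : ∀ a ∈ S₁, ∀ b ∈ S₂, qq (law f) (f a) (f b) ≤ k) :
    (∫⁻ a in S, ∫⁻ b in S, qq (lawOn f Sᶜ) (f a) (f b)) ≤
      s ^ 2 + 18 * s ^ 3 + 2 * (s * s * k) := by
  have hf : Measurable f := h.1.1
  have hle : lawOn f Sᶜ ≤ law f := by
    unfold lawOn law
    exact Measure.map_mono Measure.restrict_le_self hf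
  have e1 : (∫⁻ a in S, ∫⁻ b in S, qq (lawOn f Sᶜ) (f a) (f b)) ≤
      ∫⁻ a in S, ((∫⁻ b in S₁, qq (law f) (f a) (f b)) + ∫⁻ b in S₂, qq (law f) (f a) (f b)) := by
    refine lintegral_mono fun a => ?_
    have h3 := lintegral_union (μ := volume) (f := fun b => qq (law f) (f a) (f b)) hS₂ hd
    rw [← hS] at h3
    rw [← h3]
    exact lintegral_mono fun b => m8_qq_mono _ _ hle _ _
  have e2 : (∫⁻ a in S, ((∫⁻ b in S₁, qq (law f) (f a) (f b)) +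
      ∫⁻ b in S₂, qq (law f) (f a) (f b))) =
      (∫⁻ a in S₁, ((∫⁻ b in S₁, qq (law f) (f a) (f b)) +
        ∫⁻ b in S₂, qq (law f) (f a) (f b))) +
      ∫⁻ a in S₂, ((∫⁻ b in S₁, qq (law f) (f a) (f b)) +
        ∫⁻ b in S₂, qq (law f) (f a) (f b)) := by
    rw [hS]
    exact lintegral_union hS₂ hd
  have e3 : (∫⁻ a in S₁, ((∫⁻ b in S₁, qq (law f) (f a) (f b)) +
      ∫⁻ b in S₂, qq (law f) (f a) (f b))) ≤ (s ^ 2 / 2 + 9 * s ^ 3) + k * s * s := by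
    calc (∫⁻ a in S₁, ((∫⁻ b in S₁, qq (law f) (f a) (f b)) +
          ∫⁻ b in S₂, qq (law f) (f a) (f b)))
        ≤ ∫⁻ a in S₁, ((∫⁻ b in S₁, qq (law f) (f a) (f b)) + k * s) := by
          refine setLIntegral_mono' hS₁ fun a ha => add_le_add le_rfl ?_
          calc ∫⁻ b in S₂, qq (law f) (f a) (f b) ≤ ∫⁻ _ in S₂, k :=
                setLIntegral_mono' hS₂ fun b hb => hk a ha b hb
            _ = k * s := by rw [setLIntegral_const, h2]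
      _ = (∫⁻ a in S₁, ∫⁻ b in S₁, qq (law f) (f a) (f b)) + k * s * s := by
          rw [lintegral_add_right _ measurable_const, setLIntegral_const, h1]
      _ ≤ _ := by
          have h4 := h.second_order S₁ hS₁
          rw [h1] at h4
          exact add_le_add h4 le_rfl
  have e4 : (∫⁻ a in S₂, ((∫⁻ b in S₁, qq (law f) (f a) (f b)) +
      ∫⁻ b in S₂, qq (law f) (f a) (f b))) ≤ (s ^ 2 / 2 + 9 * s ^ 3) + k * s * s := by
    calc (∫⁻ a in S₂, ((∫⁻ b in S₁, qq (law f) (f a) (f b)) +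
          ∫⁻ b in S₂, qq (law f) (f a) (f b)))
        ≤ ∫⁻ a in S₂, (k * s + ∫⁻ b in S₂, qq (law f) (f a) (f b)) := by
          refine setLIntegral_mono' hS₂ fun a ha => add_le_add ?_ le_rfl
          calc ∫⁻ b in S₁, qq (law f) (f a) (f b) ≤ ∫⁻ _ in S₁, k :=
                setLIntegral_mono' hS₁ fun b hb => by
                  rw [p2_qq_symm (law f) (f a) (f b)]
                  exact hk b hb a ha
            _ = k * s := by rw [setLIntegral_const, h1]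
      _ = k * s * s + (∫⁻ a in S₂, ∫⁻ b in S₂, qq (law f) (f a) (f b)) := by
          rw [lintegral_add_left measurable_const, setLIntegral_const, h2]
      _ ≤ k * s * s + (s ^ 2 / 2 + 9 * s ^ 3) := by
          have h4 := h.second_order S₂ hS₂
          rw [h2] at h4
          exact add_le_add le_rfl h4
      _ = _ := add_comm _ _
  calc (∫⁻ a in S, ∫⁻ b in S, qq (lawOn f Sᶜ) (f a) (f b)) ≤ _ := e1
    _ = _ := e2
    _ ≤ ((s ^ 2 / 2 + 9 * s ^ 3) + k * s * s) + ((s ^ 2 / 2 + 9 * s ^ 3) + k * s * s) :=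
        add_le_add e3 e4
    _ = (s ^ 2 / 2 + s ^ 2 / 2) + 18 * s ^ 3 + 2 * (s * s * k) := by ring
    _ = _ := by rw [ENNReal.add_halves]

theorem m8_step {f : unitInterval → ℝ × ℝ} (h : Attains f) {V V' z z' : ℝ × ℝ}
    (hV : V ∈ essRange f) (hV' : V' ∈ essRange f) (hVV : V ≠ V')
    (hz : Psi (law f) z ≤ Psi (law f) V) (hz' : Psi (law f) z' ≤ Psi (law f) V')
    (h1 : z ≠ V) (h2 : z ≠ V') (h3 : z' ≠ V) (h4 : z' ≠ V') (c : ℝ≥0∞) (hc : 0 < c)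
    (hc1 : c ≤ 1) :
    qq (law f) z V + qq (law f) z V' + (qq (law f) z' V + qq (law f) z' V') ≤
      1 + qq (law f) V V' + qq (law f) z z' + 100 * c := by
  have hm : NoLines (law f) := h.noLines
  have hf : Measurable f := h.1.1
  have hprob : IsProbabilityMeasure (law f) := Measure.isProbabilityMeasure_map hf.aemeasurable
  obtain ⟨ε₁, p1, n1⟩ := qq_lsc (law f) hm z V h1 c hc
  obtain ⟨ε₂, p2, n2⟩ := qq_lsc (law f) hm z V' h2 c hc
  obtain ⟨ε₃, p3, n3⟩ := qq_lsc (law f) hm z' V h3 c hc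
  obtain ⟨ε₄, p4, n4⟩ := qq_lsc (law f) hm z' V' h4 c hc
  obtain ⟨ε₅, p5, n5⟩ := qq_usc (law f) V V' c hc
  have hdist : 0 < dist V V' := dist_pos.mpr hVV
  obtain ⟨ε, hε0, l1, l2, l3, l4, l5, l6⟩ : ∃ ε : ℝ, 0 < ε ∧ ε ≤ ε₁ ∧ ε ≤ ε₂ ∧ ε ≤ ε₃ ∧ ε ≤ ε₄ ∧
      ε ≤ ε₅ ∧ ε ≤ dist V V' / 2 := by
    refine ⟨min ε₁ (min ε₂ (min ε₃ (min ε₄ (min ε₅ (dist V V' / 2))))), ?_, ?_, ?_, ?_, ?_, ?_,
      ?_⟩
    · simp only [lt_min_iff]
      exact ⟨p1, p2, p3, p4, p5, by positivity⟩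
    all_goals simp
  have hA₁ : MeasurableSet (f ⁻¹' Metric.ball V ε) := hf measurableSet_ball
  have hA₂ : MeasurableSet (f ⁻¹' Metric.ball V' ε) := hf measurableSet_ball
  have hdisj : Disjoint (f ⁻¹' Metric.ball V ε) (f ⁻¹' Metric.ball V' ε) := by
    apply Disjoint.preimage
    apply Metric.ball_disjoint_ball
    linarith
  obtain ⟨s, hs0, hsc, hs1, hs2⟩ : ∃ s : ℝ≥0∞, s ≠ 0 ∧ s ≤ c ∧
      s ≤ volume (f ⁻¹' Metric.ball V ε) ∧ s ≤ volume (f ⁻¹' Metric.ball V' ε) := by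
    refine ⟨min (min (volume (f ⁻¹' Metric.ball V ε)) (volume (f ⁻¹' Metric.ball V' ε))) c,
      ?_, min_le_right _ _, (min_le_left _ _).trans (min_le_left _ _),
      (min_le_left _ _).trans (min_le_right _ _)⟩
    exact (lt_min (lt_min (hV ε hε0) (hV' ε hε0)) hc).ne'
  have hct : c ≠ ∞ := ne_top_of_le_ne_top (by norm_num) hc1
  have hst : s ≠ ∞ := ne_top_of_le_ne_top hct hsc
  obtain ⟨S₁, hS₁A, hS₁, hv₁⟩ := exists_subset_volume _ hA₁ s hs1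
  obtain ⟨S₂, hS₂A, hS₂, hv₂⟩ := exists_subset_volume _ hA₂ s hs2
  have hd : Disjoint S₁ S₂ := hdisj.mono hS₁A hS₂A
  have hη : 0 < s ^ 3 := pos_iff_ne_zero.2 (pow_ne_zero 3 hs0)
  obtain ⟨g, hg, hgE⟩ := cluster2 f h.1 hm S₁ S₂ hS₁ hS₂ hd z z' (s ^ 3) hη
  rw [hv₁, hv₂] at hgE
  obtain ⟨S, hS⟩ : ∃ S : Set unitInterval, S = S₁ ∪ S₂ := ⟨_, rfl⟩
  have hSm : MeasurableSet S := by rw [hS]; exact hS₁.union hS₂
  have hvS : volume S = 2 * s := by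
    rw [hS, measure_union hd hS₂, hv₁, hv₂, two_mul]
  rw [← hS] at hgE
  have hlow := En_lower f hf S hSm
  have hEn : En f ≠ ∞ := ne_top_of_le_ne_top (by norm_num) (En_le_three f)
  have hQ : quad (lawOn f Sᶜ) (lawOn f Sᶜ) (lawOn f Sᶜ) (lawOn f Sᶜ) ≠ ∞ :=
    ne_top_of_le_ne_top hEn (le_trans le_self_add (le_trans le_self_add hlow))
  have hle := le_trans hlow (le_trans (h.En_le hg) hgE)
  have hA : 4 * (∫⁻ ω in S, Psi (lawOn f Sᶜ) (f ω)) +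
      6 * (∫⁻ a in S, ∫⁻ b in S, qq (lawOn f Sᶜ) (f a) (f b)) ≤
      4 * (s * Psi (lawOn f Sᶜ) z + s * Psi (lawOn f Sᶜ) z') + 3 * (s ^ 2 + s ^ 2) +
        12 * (s * s * qq (lawOn f Sᶜ) z z') + 15 * (s + s) ^ 3 + s ^ 3 := by
    have h5 : quad (lawOn f Sᶜ) (lawOn f Sᶜ) (lawOn f Sᶜ) (lawOn f Sᶜ) +
        (4 * (∫⁻ ω in S, Psi (lawOn f Sᶜ) (f ω)) +
        6 * (∫⁻ a in S, ∫⁻ b in S, qq (lawOn f Sᶜ) (f a) (f b))) ≤
        quad (lawOn f Sᶜ) (lawOn f Sᶜ) (lawOn f Sᶜ) (lawOn f Sᶜ) +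
        (4 * (s * Psi (lawOn f Sᶜ) z + s * Psi (lawOn f Sᶜ) z') + 3 * (s ^ 2 + s ^ 2) +
        12 * (s * s * qq (lawOn f Sᶜ) z z') + 15 * (s + s) ^ 3 + s ^ 3) := by
      rw [← add_assoc]
      refine le_trans hle (le_of_eq ?_)
      ring
    exact (ENNReal.add_le_add_iff_left hQ).1 h5
  have hτ1 : lawOn f Sᶜ univ ≤ 1 := by
    rw [p0_univ f hf Sᶜ]
    exact m8_vol_le _
  have hm1 : law f univ ≤ 1 := prob_le_one
  have hqV : Psi (law f) V' = Psi (law f) V := le_antisymm (h.psi_le hV' V) (h.psi_le hV V')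
  have hB : Psi (law f) V * (2 * s) ≤ (∫⁻ ω in S, Psi (lawOn f Sᶜ) (f ω)) +
      3 * (∫⁻ a in S, ∫⁻ b in S, qq (lawOn f Sᶜ) (f a) (f b)) +
        9 * (2 * s) ^ 2 * (2 * s) := by
    have hfin := p0_fin f Sᶜ
    have hmeas : Measurable fun a : unitInterval => Psi (lawOn f Sᶜ) (f a) := by
      have h5 := (p0_meas_Psi (lawOn f Sᶜ)).comp hf
      exact h5
    calc Psi (law f) V * (2 * s) = ∫⁻ _ in S, Psi (law f) V := by
          rw [setLIntegral_const, hvS]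
      _ ≤ ∫⁻ a in S, ((Psi (lawOn f Sᶜ) (f a) +
            3 * ∫⁻ b in S, qq (lawOn f Sᶜ) (f a) (f b)) + 9 * (2 * s) ^ 2) := by
          refine lintegral_mono fun a => ?_
          have h5 := Psi_second f hf S hSm (f a)
          rw [hvS] at h5
          exact (h.psi_le hV (f a)).trans h5
      _ = (∫⁻ a in S, (Psi (lawOn f Sᶜ) (f a) +
            3 * ∫⁻ b in S, qq (lawOn f Sᶜ) (f a) (f b))) + 9 * (2 * s) ^ 2 * (2 * s) := by
          rw [lintegral_add_right _ measurable_const, setLIntegral_const, hvS]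
      _ = _ := by
          rw [lintegral_add_left hmeas, lintegral_const_mul' _ _ (by norm_num)]
  have hC := (Psi_second_lower f hf S hSm z).trans hz
  have hC' := (Psi_second_lower f hf S hSm z').trans (hz'.trans hqV.le)
  have hD := m8_D h S S₁ S₂ hS₁ hS₂ hd hS s (qq (law f) V V' + c) hv₁ hv₂
    (fun a ha b hb => n5 _ (Metric.ball_subset_ball l5 (hS₁A ha)) _
      (Metric.ball_subset_ball l5 (hS₂A hb)))
  have hE := m8_E f hf S S₁ S₂ hS₁ hS₂ hd hS s c hv₁ hv₂ z V V'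
    (fun b hb => n1 _ (Metric.mem_ball_self p1) _ (Metric.ball_subset_ball l1 (hS₁A hb)))
    (fun b hb => n2 _ (Metric.mem_ball_self p2) _ (Metric.ball_subset_ball l2 (hS₂A hb)))
  have hE' := m8_E f hf S S₁ S₂ hS₁ hS₂ hd hS s c hv₁ hv₂ z' V V'
    (fun b hb => n3 _ (Metric.mem_ball_self p3) _ (Metric.ball_subset_ball l3 (hS₁A hb)))
    (fun b hb => n4 _ (Metric.mem_ball_self p4) _ (Metric.ball_subset_ball l4 (hS₂A hb)))
  have hF : qq (lawOn f Sᶜ) z z' ≤ qq (law f) z z' := by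
    refine m8_qq_mono _ _ ?_ _ _
    unfold lawOn law
    exact Measure.map_mono Measure.restrict_le_self hf
  have t3 : ∀ x : ℝ≥0∞, x ≤ 3 → x ≠ ∞ := fun x hx => ne_top_of_le_ne_top (by norm_num) hx
  refine m8_arith s c _ _ _ _ _ _ _ _ _ _ _ _ _ _ hst hct ?_ ?_ ?_ ?_ ?_ ?_ ?_ ?_ ?_ ?_ ?_ ?_ ?_
    ?_ hs0 hsc hA hB hC hC' hD hE hE' hF
  · exact t3 _ (f2_Psi_le _ hτ1 _)
  · exact t3 _ (f2_Psi_le _ hτ1 _)
  · exact t3 _ (m8_int_le _ _ _ fun ω => f2_Psi_le _ hτ1 _)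
  · exact t3 _ (m8_int_le _ _ _ fun a => m8_int_le _ _ _ fun b => f2_qq_le _ hτ1 _ _)
  · exact t3 _ (m8_int_le _ _ _ fun b => f2_qq_le _ hτ1 _ _)
  · exact t3 _ (m8_int_le _ _ _ fun b => f2_qq_le _ hτ1 _ _)
  · exact t3 _ (f2_Psi_le _ hm1 _)
  · exact t3 _ (f2_qq_le _ hτ1 _ _)
  · exact t3 _ (f2_qq_le _ hm1 _ _)
  · exact t3 _ (f2_qq_le _ hm1 _ _)
  · exact t3 _ (f2_qq_le _ hm1 _ _)
  · exact t3 _ (f2_qq_le _ hm1 _ _)
  · exact t3 _ (f2_qq_le _ hm1 _ _)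
  · exact t3 _ (f2_qq_le _ hm1 _ _)

theorem Attains.four {f : unitInterval → ℝ × ℝ} (h : Attains f) {V V' z z' : ℝ × ℝ}
    (hV : V ∈ essRange f) (hV' : V' ∈ essRange f) (hVV : V ≠ V')
    (hz : Psi (law f) z ≤ Psi (law f) V) (hz' : Psi (law f) z' ≤ Psi (law f) V')
    (h1 : z ≠ V) (h2 : z ≠ V') (h3 : z' ≠ V) (h4 : z' ≠ V') :
    qq (law f) z V + qq (law f) z V' + (qq (law f) z' V + qq (law f) z' V') ≤
      1 + qq (law f) V V' + qq (law f) z z' := by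
  refine ENNReal.le_of_forall_pos_le_add ?_
  intro ε hε _
  have hc : (0 : ℝ≥0∞) < min 1 ((ε / 100 : NNReal) : ℝ≥0∞) := by
    refine lt_min (by norm_num) ?_
    exact ENNReal.coe_pos.mpr (by positivity)
  refine le_trans (m8_step h hV hV' hVV hz hz' h1 h2 h3 h4 _ hc (min_le_left _ _)) ?_
  gcongr
  calc 100 * min 1 ((ε / 100 : NNReal) : ℝ≥0∞) ≤ 100 * ((ε / 100 : NNReal) : ℝ≥0∞) := by
        gcongr
        exact min_le_right _ _
    _ = (ε : ℝ≥0∞) := by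
        have h55 : 100 * (ε / 100) = ε := mul_div_cancel₀ ε (by norm_num)
        exact_mod_cast congrArg (fun z : NNReal => (z : ℝ≥0∞)) h55

end Pool.Agent.LibCX37
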