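import Pool.Agent.LibCX37.Y0

/-!
[CY O1] **A line which separates `B` from a point of the outer ray.**
PROOF. Coordinates `X p = dotp n B - dotp n p`, `Y p = hgt B v p`, `κ = - dotp n v > 0`. Ring identities (expand everything):
(i) `κ * det b c B = X b * Y c - X c * Y b`;  (ii) `det b c (B - s • v) = det b c B + s * (Y c - Y b)`;
(iii) `κ * det b c d = (X b * Y c - X c * Y b) + (X c - X b) * Y d + (Y b - Y c) * X d`.
With `D = X b Y c - X c Y b`: the hypothesis says `D * (D + κ s (Y c - Y b)) < 0`. Case `D > 0` (then `Y c < Y b`; the case `D < 0` follows by exchanging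
`b` and `c`, which changes the sign of all three determinants, or directly): `X b Y c > X c Y b`, `X b, X c > 0`.
If `Y b > 0`: `X b Y c > X c Y b > 0`, so `Y c > 0`. If `Y b ≤ 0`: `Y c < Y b ≤ 0`; `Y b = 0` would give `X b Y c > 0`, impossible; so both are negative.
Second part, `Y d` of the other sign, `X d ≥ 0`: in the first case `X b Y c > X c Y b > X c Y c`, so `X b > X c` and `(X c - X b) Y d > 0`; in the second case
`Y c < Y b < 0` and `X b Y c > X c Y b > X c Y c` give `X b < X c`, `(X c - X b) Y d > 0`. So (iii) is `≥ D > 0`, and the product with `det b c B` is positive.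
-/

set_option autoImplicit false

namespace Pool.Agent.LibCX37

theorem o1_core (Xb Xc Yb Yc D : ℝ) (hXb : 0 < Xb) (hXc : 0 < Xc) (hD : D = Xb * Yc - Xc * Yb)
    (h1 : 0 < D) (h2 : Yc < Yb) :
    0 < Yb * Yc ∧ ∀ Xd Yd : ℝ, 0 ≤ Xd → Yb * Yd < 0 → 0 < D + (Xc - Xb) * Yd + (Yb - Yc) * Xd := by
  have h3 : Xc * Yc < Xc * Yb := mul_lt_mul_of_pos_left h2 hXc
  have h4 : 0 < (Xb - Xc) * Yc := by nlinarith
  rcases lt_trichotomy Yb 0 with hb | hb | hb
  · have hc : Yc < 0 := h2.trans hb
    refine ⟨mul_pos_of_neg_of_neg hb hc, fun Xd Yd hXd hd => ?_⟩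
    have hYd : 0 < Yd := by
      by_contra hcon
      have := mul_nonneg_of_nonpos_of_nonpos hb.le (not_lt.1 hcon)
      linarith
    have h5 : Xb - Xc < 0 := by
      by_contra hcon
      have := mul_nonpos_of_nonneg_of_nonpos (not_lt.1 hcon) hc.le
      linarith
    have h6 : 0 < (Xc - Xb) * Yd := mul_pos (by linarith) hYd
    have h7 : 0 ≤ (Yb - Yc) * Xd := mul_nonneg (by linarith) hXd
    linarith
  · exfalso
    rw [hb] at hD h2
    have := mul_neg_of_pos_of_neg hXb h2
    linarith
  · have hc : 0 < Yc := by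
      by_contra hcon
      have := mul_nonpos_of_nonneg_of_nonpos hXb.le (not_lt.1 hcon)
      have := mul_pos hXc hb
      linarith
    refine ⟨mul_pos hb hc, fun Xd Yd hXd hd => ?_⟩
    have hYd : Yd < 0 := by
      by_contra hcon
      have := mul_nonneg hb.le (not_lt.1 hcon)
      linarith
    have h5 : 0 < Xb - Xc := by
      by_contra hcon
      have := mul_nonpos_of_nonpos_of_nonneg (not_lt.1 hcon) hc.le
      linarith
    have h6 : 0 < (Xc - Xb) * Yd := mul_pos_of_neg_of_neg (by linarith) hYd
    have h7 : 0 ≤ (Yb - Yc) * Xd := mul_nonneg (by linarith) hXd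
    linarith

theorem side_lemma (B v n b c : ℝ × ℝ) (s : ℝ) (hs : 0 < s) (hv : dotp n v < 0)
    (hb : dotp n b < dotp n B) (hc : dotp n c < dotp n B)
    (hsep : det b c B * det b c (B - s • v) < 0) :
    0 < hgt B v b * hgt B v c ∧ ∀ d : ℝ × ℝ, dotp n d ≤ dotp n B → hgt B v b * hgt B v d < 0 →
      0 < det b c B * det b c d := by
  have e1 : -dotp n v * det b c B = (dotp n B - dotp n b) * hgt B v c -
      (dotp n B - dotp n c) * hgt B v b := by
    simp only [dotp, det, hgt, Prod.fst_add, Prod.snd_add]
    ring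
  have e2 : det b c (B - s • v) = det b c B + s * (hgt B v c - hgt B v b) := by
    simp only [det, hgt, Prod.fst_add, Prod.snd_add, Prod.fst_sub, Prod.snd_sub, Prod.smul_fst,
      Prod.smul_snd, smul_eq_mul]
    ring
  have e3 : ∀ d : ℝ × ℝ, -dotp n v * det b c d = -dotp n v * det b c B +
      ((dotp n B - dotp n c) - (dotp n B - dotp n b)) * hgt B v d +
      (hgt B v b - hgt B v c) * (dotp n B - dotp n d) := by
    intro d
    simp only [dotp, det, hgt, Prod.fst_add, Prod.snd_add]
    ring
  have hκ : 0 < -dotp n v := by linarith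
  have hXb : 0 < dotp n B - dotp n b := by linarith
  have hXc : 0 < dotp n B - dotp n c := by linarith
  rw [e2] at hsep
  rcases lt_trichotomy (det b c B) 0 with hD | hD | hD
  · have h2 : hgt B v b < hgt B v c := by
      by_contra hcon
      have h3 : s * (hgt B v c - hgt B v b) ≤ 0 :=
        mul_nonpos_of_nonneg_of_nonpos hs.le (by linarith)
      have := mul_nonneg_of_nonpos_of_nonpos hD.le
        (by linarith : det b c B + s * (hgt B v c - hgt B v b) ≤ 0)
      linarith
    have h4 := o1_core (dotp n B - dotp n c) (dotp n B - dotp n b) (hgt B v c) (hgt B v b)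
      (-dotp n v * -det b c B) hXc hXb (by linarith) (mul_pos hκ (by linarith)) h2
    refine ⟨by rw [mul_comm]; exact h4.1, fun d hd hbd => ?_⟩
    have h5 : hgt B v c * hgt B v d < 0 := by
      by_contra hcon
      have h6 := mul_nonneg h4.1.le (not_lt.1 hcon)
      have h7 : hgt B v c * hgt B v b * (hgt B v c * hgt B v d) =
          hgt B v c ^ 2 * (hgt B v b * hgt B v d) := by ring
      have h8 : hgt B v c ≠ 0 := by
        intro h0
        rw [h0] at h4
        simp at h4
      have h9 : hgt B v c ^ 2 * (hgt B v b * hgt B v d) < 0 :=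
        mul_neg_of_pos_of_neg (by positivity) hbd
      linarith
    have h6 := h4.2 (dotp n B - dotp n d) (hgt B v d) (by linarith) h5
    have h7 := e3 d
    have h8 : -dotp n v * det b c d < 0 := by linarith
    have h9 : det b c d < 0 := by
      by_contra hcon
      have := mul_nonneg hκ.le (not_lt.1 hcon)
      linarith
    exact mul_pos_of_neg_of_neg hD h9
  · rw [hD] at hsep
    simp at hsep
  · have h2 : hgt B v c < hgt B v b := by
      by_contra hcon
      have h3 : 0 ≤ s * (hgt B v c - hgt B v b) := mul_nonneg hs.le (by linarith)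
      have := mul_nonneg hD.le
        (by linarith : 0 ≤ det b c B + s * (hgt B v c - hgt B v b))
      linarith
    have h4 := o1_core (dotp n B - dotp n b) (dotp n B - dotp n c) (hgt B v b) (hgt B v c)
      (-dotp n v * det b c B) hXb hXc e1 (mul_pos hκ hD) h2
    refine ⟨h4.1, fun d hd hbd => ?_⟩
    have h6 := h4.2 (dotp n B - dotp n d) (hgt B v d) (by linarith) hbd
    have h7 := e3 d
    have h8 : 0 < -dotp n v * det b c d := by linarith
    exact mul_pos hD ((mul_pos_iff_of_pos_left hκ).1 h8)

end Pool.Agent.LibCX37
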