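import Pool.Agent.LibCX37.O1
import Pool.Agent.LibCX37.G5

/-!
[CY O2] **No line through two random points separates `B` from a point of the outer ray.**
Notation: `z = B - s • v`, `S = {(b,c) | det b c B * det b c z < 0}`, `Mq(b,c) = ∫⁻ d, same b c q d ∂m` (`= m {d | 0 < det b c q * det b c d}`).
PROOF. STEP 1. `dotp n p < dotp n B` for a.e. `p` (the line `dotp n · = dotp n B` is null: it is `{p | det B (B + w) p = 0}` with `w = (-n.2, n.1) ≠ 0`), and
`dotp n z = dotp n B - s * dotp n v > dotp n B`. So `Psi_add_one` (G5) holds for `B` and `z` and `Psi m B ≤ Psi m z` gives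
`∫∫ M_B ≤ ∫∫ M_z` (over `m.prod m`). STEP 2. For a.e. `(b,c) ∉ S` the determinants `det b c B`, `det b c z` are nonzero of the same sign, so `M_B = M_z`; all
is finite, so `∫∫_S M_B ≤ ∫∫_S M_z`. STEP 3. For a.e. `(b,c) ∈ S`: `M_B + M_z = 1` (a.e. `d` is strictly on one side of the line `bc`: `b ≠ c` a.e., `NoLines`), and
by `side_lemma` (O1) `{d | hgt B v b * hgt B v d < 0}`, of measure `1/2` (one of the two halves), is contained up to a null set in
`{d | 0 < det b c B * det b c d}`: `M_B ≥ 1/2 ≥ M_z`. So `M_B = 1/2` for a.e. `(b,c) ∈ S`, hence for a.e. `(b,c) ∈ S` and a.e. `d` with `0 < hgt B v b * hgt B v d`: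
NOT `0 < det b c B * det b c d`, so (a.e. nonzero) `0 < det b c z * det b c d`. STEP 4. Suppose `(m.prod m) S > 0`. Split `S` into four parts by the signs of
`hgt B v b` and of `det b c z`; one part `S'` has positive measure (`hgt B v b ≠ 0` a.e.). Then `∫ m {b | (b,c) ∈ S'}² dm(c) > 0`: the set
`T = {((b,b'),c) | (b,c) ∈ S', (b',c) ∈ S'}` has positive measure in `(m.prod m).prod m`. But for a.e. `((b,b'),c) ∈ T`: step 3 for `(b,c)` and `d = b'`
(`hgt b`, `hgt b'` have the same sign) gives `0 < det b c z * det b c b'`, step 3 for `(b',c)` and `d = b` gives `0 < det b' c z * det b' c b`; as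
`det b' c b = - det b c b'` and `det b c z`, `det b' c z` have the same sign this is a contradiction. So `(m.prod m) S = 0`.
(It may be convenient to prove first, as a lemma: if for a.e. `(b,c) ∈ S'` and a.e. `b'` one has `P b c b'`, then for a.e. `((b,b'),c)` with both pairs in `S'`:
`P b c b' ∧ P b' c b`: `Measure.ae_prod_iff_ae_ae`/`Measure.measure_prod_null` and Tonelli.)
-/

set_option autoImplicit false

namespace Pool.Agent.LibCX37

open MeasureTheory Set Filter Topology
open scoped ENNReal

theorem o2_meas_det (b c : ℝ × ℝ) : Measurable (fun d : ℝ × ℝ => det b c d) := by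
  unfold det
  fun_prop

theorem o2_meas_hgt (B v : ℝ × ℝ) : Measurable (fun d : ℝ × ℝ => hgt B v d) := by
  unfold hgt
  exact o2_meas_det B (B + v)

theorem o2_half (a b : ℝ≥0∞) (h1 : 1 / 2 ≤ a) (h2 : a + b ≤ 1) : b ≤ 1 / 2 := by
  by_contra h
  push Not at h
  have h3 : (1 / 2 : ℝ≥0∞) + 1 / 2 < a + b :=
    ENNReal.add_lt_add_of_le_of_lt (by norm_num) h1 h
  rw [ENNReal.add_halves] at h3
  exact absurd (lt_of_lt_of_le h3 h2) (lt_irrefl _)

theorem o2_zero_of_add (a b : ℝ≥0∞) (h1 : 1 / 2 ≤ a) (h2 : a + b ≤ 1 / 2) : b = 0 := by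
  by_contra h
  have h3 : 0 < b := pos_iff_ne_zero.2 h
  have h4 : (1 / 2 : ℝ≥0∞) + 0 < a + b :=
    ENNReal.add_lt_add_of_le_of_lt (by norm_num) h1 h3
  rw [add_zero] at h4
  exact absurd (lt_of_lt_of_le h4 h2) (lt_irrefl _)

theorem o2_same (m : Measure (ℝ × ℝ)) (b c q : ℝ × ℝ) :
    ∫⁻ d, same b c q d ∂m = m {d | 0 < det b c q * det b c d} := by
  have hs : MeasurableSet {d : ℝ × ℝ | 0 < det b c q * det b c d} :=
    measurableSet_lt measurable_const ((o2_meas_det b c).const_mul _)
  rw [← lintegral_indicator_one hs]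
  refine lintegral_congr fun d => ?_
  unfold same
  by_cases h : 0 < det b c q * det b c d
  · rw [if_pos h, indicator_of_mem (by exact h)]
    rfl
  · rw [if_neg h, indicator_of_notMem (by exact h)]

theorem o2_meas_M (m : Measure (ℝ × ℝ)) [SFinite m] (q : ℝ × ℝ) :
    Measurable (fun x : (ℝ × ℝ) × (ℝ × ℝ) => m {d | 0 < det x.1 x.2 q * det x.1 x.2 d}) := by
  have hs : MeasurableSet {y : ((ℝ × ℝ) × (ℝ × ℝ)) × (ℝ × ℝ) |
      0 < det y.1.1 y.1.2 q * det y.1.1 y.1.2 y.2} := by
    apply measurableSet_lt measurable_const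
    unfold det
    fun_prop
  exact measurable_measure_prodMk_left hs

theorem o2_int (m : Measure (ℝ × ℝ)) [IsProbabilityMeasure m] (q : ℝ × ℝ) :
    ∫⁻ b, ∫⁻ c, ∫⁻ d, same b c q d ∂m ∂m ∂m =
      ∫⁻ x : (ℝ × ℝ) × (ℝ × ℝ), m {d | 0 < det x.1 x.2 q * det x.1 x.2 d} ∂(m.prod m) := by
  rw [lintegral_prod _ (o2_meas_M m q).aemeasurable]
  refine lintegral_congr fun b => lintegral_congr fun c => ?_
  exact o2_same m b c q

theorem o2_line (m : Measure (ℝ × ℝ)) (hm : NoLines m) (b c : ℝ × ℝ) (h : b ≠ c) :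
    ∀ᵐ d ∂m, det b c d ≠ 0 := by
  rw [ae_iff]
  simp only [ne_eq, not_not]
  have h1 := hm b (c - b) (sub_ne_zero.2 h.symm)
  rw [add_sub_cancel] at h1
  exact h1

theorem o2_point (m : Measure (ℝ × ℝ)) [IsProbabilityMeasure m] (hm : NoLines m)
    (B v n : ℝ × ℝ) (hv : dotp n v < 0) (hstr : ∀ᵐ p ∂m, dotp n p < dotp n B)
    (hh : Halves m B v) (s : ℝ) (hs : 0 < s) (b c : ℝ × ℝ) (hb : dotp n b < dotp n B)
    (hc : dotp n c < dotp n B) (hb0 : hgt B v b ≠ 0)
    (hsep : det b c B * det b c (B - s • v) < 0) :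
    1 / 2 ≤ m {d | 0 < det b c B * det b c d} ∧
    m {d | 0 < det b c B * det b c d} + m {d | 0 < det b c (B - s • v) * det b c d} ≤ 1 ∧
    (m {d | 0 < det b c B * det b c d} = m {d | 0 < det b c (B - s • v) * det b c d} →
      ∀ᵐ d ∂m, 0 < hgt B v b * hgt B v d → 0 < det b c (B - s • v) * det b c d) := by
  set z : ℝ × ℝ := B - s • v with hz
  obtain ⟨-, hside⟩ := side_lemma B v n b c s hs hv hb hc hsep
  have hbc : b ≠ c := by
    rintro rfl
    have h0 : det b b B = 0 := by
      unfold det
      ring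
    rw [h0, zero_mul] at hsep
    exact lt_irrefl _ hsep
  set QB : Set (ℝ × ℝ) := {d | 0 < det b c B * det b c d} with hQB
  set Qz : Set (ℝ × ℝ) := {d | 0 < det b c z * det b c d} with hQz
  set Hm : Set (ℝ × ℝ) := {d | hgt B v b * hgt B v d < 0} with hHm
  have hQBm : MeasurableSet QB :=
    measurableSet_lt measurable_const ((o2_meas_det b c).const_mul _)
  have hQzm : MeasurableSet Qz :=
    measurableSet_lt measurable_const ((o2_meas_det b c).const_mul _)
  have hHmm : MeasurableSet Hm :=
    measurableSet_lt ((o2_meas_hgt B v).const_mul _) measurable_const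
  have hH : m Hm = 1 / 2 := by
    rcases lt_or_gt_of_ne hb0 with h | h
    · have h1 : Hm = {d | 0 < hgt B v d} := by
        ext d
        simp only [hHm, mem_ofPred_eq]
        constructor
        · intro h2
          by_contra h3
          push Not at h3
          have := mul_nonneg_of_nonpos_of_nonpos h.le h3
          linarith
        · intro h2
          exact mul_neg_of_neg_of_pos h h2
      rw [h1]
      exact hh.1
    · have h1 : Hm = {d | hgt B v d < 0} := by
        ext d
        simp only [hHm, mem_ofPred_eq]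
        constructor
        · intro h2
          by_contra h3
          push Not at h3
          have := mul_nonneg h.le h3
          linarith
        · intro h2
          exact mul_neg_of_pos_of_neg h h2
      rw [h1]
      exact hh.2
  have hsub : ∀ᵐ d ∂m, d ∈ Hm → d ∈ QB := by
    filter_upwards [hstr] with d hd h1
    exact hside d hd.le h1
  have h1 : 1 / 2 ≤ m QB := by
    rw [← hH]
    exact measure_mono_ae hsub
  have hdis : Disjoint QB Qz := by
    rw [Set.disjoint_left]
    intro d h2 h3
    have h2' : 0 < det b c B * det b c d := h2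
    have h3' : 0 < det b c z * det b c d := h3
    have h4 := mul_pos h2' h3'
    have h5 : det b c B * det b c d * (det b c z * det b c d) =
        (det b c B * det b c z) * (det b c d) ^ 2 := by ring
    rw [h5] at h4
    have h6 := mul_nonneg (neg_nonneg.2 hsep.le) (sq_nonneg (det b c d))
    linarith
  refine ⟨h1, ?_, ?_⟩
  · rw [← measure_union hdis hQzm]
    exact prob_le_one
  · intro heq
    have h2 : m QB + m Qz ≤ 1 := by
      rw [← measure_union hdis hQzm]
      exact prob_le_one
    have h3 : m QB ≤ 1 / 2 := by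
      have := o2_half _ _ h1 h2
      rwa [← heq] at this
    have h4 : 1 / 2 ≤ m (QB ∩ Hm) := by
      rw [← hH]
      refine measure_mono_ae ?_
      filter_upwards [hsub] with d hd h5
      exact ⟨hd h5, h5⟩
    have h5 : m (QB \ Hm) = 0 := by
      apply o2_zero_of_add _ _ h4
      rw [measure_inter_add_sdiff QB hHmm]
      exact h3
    have h6 : ∀ᵐ d ∂m, d ∉ QB \ Hm := measure_eq_zero_iff_ae_notMem.1 h5
    filter_upwards [h6, o2_line m hm b c hbc] with d h7 h8 h9
    have h10 : ¬ (0 < det b c B * det b c d) := by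
      intro h11
      refine h7 ⟨h11, fun h12 => ?_⟩
      have h13 : hgt B v b * hgt B v d < 0 := h12
      linarith
    have h11 : det b c B ≠ 0 := by
      intro h0
      rw [h0, zero_mul] at hsep
      exact lt_irrefl _ hsep
    have h12 : det b c B * det b c d < 0 :=
      lt_of_le_of_ne (not_lt.1 h10) (mul_ne_zero h11 h8)
    rcases lt_or_gt_of_ne h11 with h13 | h13
    · have h14 : 0 < det b c z := by
        by_contra h15
        push Not at h15
        have := mul_nonneg_of_nonpos_of_nonpos h13.le h15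
        linarith
      have h15 : 0 < det b c d := by
        by_contra h16
        push Not at h16
        have := mul_nonneg_of_nonpos_of_nonpos h13.le h16
        linarith
      exact mul_pos h14 h15
    · have h14 : det b c z < 0 := by
        by_contra h15
        push Not at h15
        have := mul_nonneg h13.le h15
        linarith
      have h15 : det b c d < 0 := by
        by_contra h16
        push Not at h16
        have := mul_nonneg h13.le h16
        linarith
      exact mul_pos_of_neg_of_neg h14 h15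

theorem o2_slice (m : Measure (ℝ × ℝ)) [IsProbabilityMeasure m] (B v z c : ℝ × ℝ)
    (h : ∀ᵐ b ∂m, ∀ᵐ d ∂m, det b c B * det b c z < 0 → 0 < hgt B v b * hgt B v d →
      0 < det b c z * det b c d) (σ τ : ℝ) :
    m {b | det b c B * det b c z < 0 ∧ 0 < σ * hgt B v b ∧ 0 < τ * det b c z} = 0 := by
  set Q : Set (ℝ × ℝ) :=
    {b | det b c B * det b c z < 0 ∧ 0 < σ * hgt B v b ∧ 0 < τ * det b c z} with hQ
  have hQm : MeasurableSet Q := by
    have h1 : Measurable (fun b : ℝ × ℝ => det b c B * det b c z) := by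
      unfold det
      fun_prop
    have h2 : Measurable (fun b : ℝ × ℝ => τ * det b c z) := by
      unfold det
      fun_prop
    exact (measurableSet_lt h1 measurable_const).inter
      ((measurableSet_lt measurable_const ((o2_meas_hgt B v).const_mul σ)).inter
        (measurableSet_lt measurable_const h2))
  have hP : MeasurableSet {y : (ℝ × ℝ) × (ℝ × ℝ) | det y.1 c B * det y.1 c z < 0 →
      0 < hgt B v y.1 * hgt B v y.2 → 0 < det y.1 c z * det y.1 c y.2} := by
    have h1 : Measurable (fun y : (ℝ × ℝ) × (ℝ × ℝ) => det y.1 c B * det y.1 c z) := by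
      unfold det
      fun_prop
    have h2 : Measurable (fun y : (ℝ × ℝ) × (ℝ × ℝ) => hgt B v y.1 * hgt B v y.2) :=
      ((o2_meas_hgt B v).comp measurable_fst).mul ((o2_meas_hgt B v).comp measurable_snd)
    have h3 : Measurable (fun y : (ℝ × ℝ) × (ℝ × ℝ) => det y.1 c z * det y.1 c y.2) := by
      unfold det
      fun_prop
    exact (measurableSet_lt h1 measurable_const).imp
      ((measurableSet_lt measurable_const h2).imp (measurableSet_lt measurable_const h3))
  have h1 := (Measure.ae_prod_iff_ae_ae (μ := m) (ν := m) hP).2 h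
  have h2 := (Measure.measurePreserving_swap (μ := m) (ν := m)).quasiMeasurePreserving.ae h1
  have h3 : (m.prod m) (Q ×ˢ Q) = 0 := by
    have h4 : ∀ᵐ y ∂(m.prod m), y ∉ Q ×ˢ Q := by
      filter_upwards [h1, h2] with y h5 h6 h7
      obtain ⟨⟨a1, a2, a3⟩, ⟨b1, b2, b3⟩⟩ := h7
      have c1 := h5 a1
      have c2 : det y.2 c B * det y.2 c z < 0 → 0 < hgt B v y.2 * hgt B v y.1 →
        0 < det y.2 c z * det y.2 c y.1 := h6
      have d1 : 0 < hgt B v y.1 * hgt B v y.2 := by
        rcases lt_trichotomy σ 0 with hσ | hσ | hσ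
        · have e1 : hgt B v y.1 < 0 := by nlinarith
          have e2 : hgt B v y.2 < 0 := by nlinarith
          exact mul_pos_of_neg_of_neg e1 e2
        · rw [hσ, zero_mul] at a2
          exact absurd a2 (lt_irrefl _)
        · have e1 : 0 < hgt B v y.1 := by nlinarith
          have e2 : 0 < hgt B v y.2 := by nlinarith
          exact mul_pos e1 e2
      have d2 : 0 < det y.1 c z * det y.2 c z := by
        rcases lt_trichotomy τ 0 with hσ | hσ | hσ
        · have e1 : det y.1 c z < 0 := by nlinarith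
          have e2 : det y.2 c z < 0 := by nlinarith
          exact mul_pos_of_neg_of_neg e1 e2
        · rw [hσ, zero_mul] at a3
          exact absurd a3 (lt_irrefl _)
        · have e1 : 0 < det y.1 c z := by nlinarith
          have e2 : 0 < det y.2 c z := by nlinarith
          exact mul_pos e1 e2
      have f1 := c1 d1
      have f2 := c2 b1 (by linarith [mul_comm (hgt B v y.1) (hgt B v y.2)])
      have f3 : det y.2 c y.1 = - det y.1 c y.2 := by
        unfold det
        ring
      rw [f3] at f2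
      have f4 := mul_pos f1 f2
      have f5 : det y.1 c z * det y.1 c y.2 * (det y.2 c z * -det y.1 c y.2) =
          -((det y.1 c z * det y.2 c z) * (det y.1 c y.2) ^ 2) := by ring
      rw [f5] at f4
      have f6 : 0 ≤ (det y.1 c z * det y.2 c z) * (det y.1 c y.2) ^ 2 :=
        mul_nonneg d2.le (sq_nonneg _)
      linarith
    exact measure_eq_zero_iff_ae_notMem.2 h4
  rw [Measure.prod_prod, mul_self_eq_zero] at h3
  exact h3

theorem sep_null (m : Measure (ℝ × ℝ)) [IsProbabilityMeasure m] (hm : NoLines m)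
    (B v n : ℝ × ℝ) (hv : dotp n v < 0) (hsup : ∀ᵐ p ∂m, dotp n p ≤ dotp n B)
    (hh : Halves m B v) (s : ℝ) (hs : 0 < s) (hpsi : Psi m B ≤ Psi m (B - s • v)) :
    (m.prod m) {x | det x.1 x.2 B * det x.1 x.2 (B - s • v) < 0} = 0 := by
  set z : ℝ × ℝ := B - s • v with hz
  have hn : n ≠ 0 := by
    rintro rfl
    simp [dotp] at hv
  have hv0 : v ≠ 0 := by
    rintro rfl
    simp [dotp] at hv
  -- the strict inequality
  have hstr : ∀ᵐ p ∂m, dotp n p < dotp n B := by
    have hw : ((-n.2, n.1) : ℝ × ℝ) ≠ 0 := by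
      intro h
      apply hn
      rw [Prod.ext_iff] at h ⊢
      simp only [Prod.fst_zero, Prod.snd_zero, neg_eq_zero] at h ⊢
      exact ⟨h.2, h.1⟩
    have h1 := hm B (-n.2, n.1) hw
    have h2 : ∀ᵐ p ∂m, det B (B + (-n.2, n.1)) p ≠ 0 := by
      rw [ae_iff]
      simpa only [ne_eq, not_not] using h1
    filter_upwards [h2, hsup] with p h3 h4
    refine lt_of_le_of_ne h4 fun h5 => h3 ?_
    unfold dotp at h5
    simp only [det, Prod.fst_add, Prod.snd_add]
    linarith
  have hzn : dotp n B < dotp n z := by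
    have h1 : dotp n z = dotp n B - s * dotp n v := by
      rw [hz]
      simp only [dotp, Prod.fst_sub, Prod.snd_sub, Prod.smul_fst, Prod.smul_snd, smul_eq_mul]
      ring
    rw [h1]
    nlinarith
  have hstr2 : ∀ᵐ p ∂m, dotp n p < dotp n z := by
    filter_upwards [hstr] with p hp
    linarith
  -- the integrals
  have hint : ∫⁻ x : (ℝ × ℝ) × (ℝ × ℝ), m {d | 0 < det x.1 x.2 B * det x.1 x.2 d} ∂(m.prod m) ≤
      ∫⁻ x : (ℝ × ℝ) × (ℝ × ℝ), m {d | 0 < det x.1 x.2 z * det x.1 x.2 d} ∂(m.prod m) := by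
    have h1 := Psi_add_one m hm B n hstr
    have h2 := Psi_add_one m hm z n hstr2
    rw [o2_int] at h1 h2
    have h3 : Psi m B + 1 ≤ Psi m z + 1 := add_le_add hpsi le_rfl
    rw [h1, h2] at h3
    exact (ENNReal.mul_le_mul_iff_right (by norm_num) (by norm_num)).1 h3
  -- almost every pair
  have e1 : ∀ᵐ x ∂(m.prod m), dotp n x.1 < dotp n B := Measure.quasiMeasurePreserving_fst.ae hstr
  have e2 : ∀ᵐ x ∂(m.prod m), dotp n x.2 < dotp n B := Measure.quasiMeasurePreserving_snd.ae hstr
  have hh0 : ∀ᵐ b ∂m, hgt B v b ≠ 0 := by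
    rw [ae_iff]
    simp only [ne_eq, not_not]
    exact hm B v hv0
  have e3 : ∀ᵐ x ∂(m.prod m), hgt B v x.1 ≠ 0 := Measure.quasiMeasurePreserving_fst.ae hh0
  have e4 : ∀ᵐ x ∂(m.prod m), det B x.1 x.2 ≠ 0 := c2_ae_det_ne m hm B
  have e5 : ∀ᵐ x ∂(m.prod m), det z x.1 x.2 ≠ 0 := c2_ae_det_ne m hm z
  have hrot : ∀ q b c : ℝ × ℝ, det q b c = det b c q := by
    intro q b c
    unfold det
    ring
  have hle : (fun x : (ℝ × ℝ) × (ℝ × ℝ) => m {d | 0 < det x.1 x.2 z * det x.1 x.2 d})
      ≤ᵐ[m.prod m] fun x => m {d | 0 < det x.1 x.2 B * det x.1 x.2 d} := by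
    filter_upwards [e1, e2, e3, e4, e5] with x h1 h2 h3 h4 h5
    rw [hrot] at h4 h5
    by_cases hx : det x.1 x.2 B * det x.1 x.2 z < 0
    · obtain ⟨h6, h7, -⟩ := o2_point m hm B v n hv hstr hh s hs x.1 x.2 h1 h2 h3 hx
      exact (o2_half _ _ h6 h7).trans h6
    · have h6 : 0 < det x.1 x.2 B * det x.1 x.2 z :=
        lt_of_le_of_ne (not_lt.1 hx) (mul_ne_zero h4 h5).symm
      apply le_of_eq
      congr 1
      ext d
      simp only [mem_ofPred_eq]
      constructor
      · intro h7
        have h8 := mul_pos h6 h7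
        have h9 : det x.1 x.2 B * det x.1 x.2 z * (det x.1 x.2 z * det x.1 x.2 d) =
            (det x.1 x.2 B * det x.1 x.2 d) * (det x.1 x.2 z) ^ 2 := by ring
        rw [h9] at h8
        exact pos_of_mul_pos_left h8 (sq_nonneg _)
      · intro h7
        have h8 := mul_pos h6 h7
        have h9 : det x.1 x.2 B * det x.1 x.2 z * (det x.1 x.2 B * det x.1 x.2 d) =
            (det x.1 x.2 z * det x.1 x.2 d) * (det x.1 x.2 B) ^ 2 := by ring
        rw [h9] at h8
        exact pos_of_mul_pos_left h8 (sq_nonneg _)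
  have hfin : ∫⁻ x : (ℝ × ℝ) × (ℝ × ℝ), m {d | 0 < det x.1 x.2 z * det x.1 x.2 d} ∂(m.prod m) ≠
      ∞ := by
    refine ne_of_lt (lt_of_le_of_lt (lintegral_mono (g := fun _ => 1) fun x => prob_le_one) ?_)
    simp
  have heq := ae_eq_of_ae_le_of_lintegral_le hle hfin (o2_meas_M m B).aemeasurable hint
  -- almost every triple
  have htr : ∀ᵐ x ∂(m.prod m), ∀ᵐ d ∂m, det x.1 x.2 B * det x.1 x.2 z < 0 →
      0 < hgt B v x.1 * hgt B v d → 0 < det x.1 x.2 z * det x.1 x.2 d := by
    filter_upwards [e1, e2, e3, heq] with x h1 h2 h3 h4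
    by_cases hx : det x.1 x.2 B * det x.1 x.2 z < 0
    · obtain ⟨-, -, h5⟩ := o2_point m hm B v n hv hstr hh s hs x.1 x.2 h1 h2 h3 hx
      filter_upwards [h5 h4.symm] with d h6 _
      exact h6
    · exact Eventually.of_forall fun d h5 => absurd h5 hx
  have htr2 := (Measure.measurePreserving_swap (μ := m) (ν := m)).quasiMeasurePreserving.ae htr
  have htr3 := Measure.ae_ae_of_ae_prod htr2
  have hgoal : ∀ᵐ x ∂(m.prod m), ¬ det x.1 x.2 B * det x.1 x.2 z < 0 := by
    have hnot : MeasurableSet {y : (ℝ × ℝ) × (ℝ × ℝ) | ¬ det y.2 y.1 B * det y.2 y.1 z < 0} := by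
      have hmm : Measurable (fun y : (ℝ × ℝ) × (ℝ × ℝ) => det y.2 y.1 B * det y.2 y.1 z) := by
        unfold det
        fun_prop
      exact (measurableSet_lt hmm measurable_const).compl
    have h1 : ∀ᵐ y ∂(m.prod m), ¬ det y.2 y.1 B * det y.2 y.1 z < 0 := by
      rw [Measure.ae_prod_iff_ae_ae hnot]
      filter_upwards [htr3] with c hc
      have h2 := o2_slice m B v z c hc
      have g1 := h2 1 1
      have g2 := h2 1 (-1)
      have g3 := h2 (-1) 1
      have g4 := h2 (-1) (-1)
      have k1 := measure_eq_zero_iff_ae_notMem.1 g1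
      have k2 := measure_eq_zero_iff_ae_notMem.1 g2
      have k3 := measure_eq_zero_iff_ae_notMem.1 g3
      have k4 := measure_eq_zero_iff_ae_notMem.1 g4
      filter_upwards [k1, k2, k3, k4, hh0] with b p1 p2 p3 p4 p5 p6
      have q1 : det b c z ≠ 0 := by
        intro h0
        have p7 : det b c B * det b c z < 0 := p6
        rw [h0, mul_zero] at p7
        exact lt_irrefl _ p7
      rcases lt_or_gt_of_ne p5 with r1 | r1 <;> rcases lt_or_gt_of_ne q1 with r2 | r2
      · exact p4 ⟨p6, by linarith, by linarith⟩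
      · exact p3 ⟨p6, by linarith, by linarith⟩
      · exact p2 ⟨p6, by linarith, by linarith⟩
      · exact p1 ⟨p6, by linarith, by linarith⟩
    exact (Measure.measurePreserving_swap (μ := m) (ν := m)).quasiMeasurePreserving.ae h1
  have := ae_iff.1 hgoal
  simpa only [not_not] using this

end Pool.Agent.LibCX37
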