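import Pool.Agent.LibCX37.O2
import Pool.Agent.LibCX37.H1
import Pool.Agent.LibCX37.E1
import Pool.Agent.LibCX37.F2

/-!
[CY O3] **The order property at the outer points of the essential range.**
PROOF. (`ordered_of_null`) Let `b, c ∈ K` and suppose `det b c B * (hgt c - hgt b) < 0`. `det b c (B - s • v) = det b c B + s * (hgt B v c - hgt B v b)` (ring), so for
large `s` the product `det b c B * det b c (B - s • v)` is negative; it is continuous in `(b,c)`, so negative on a product of two balls around `b` and `c`,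
which has positive `m.prod m`-measure (`Supp.pos`, `Measure.prod_prod`): contradiction.
(`exists_inward`) `exists_halving` (H1) gives `u ≠ 0` with both half planes of measure `m univ / 2 = 1/2`. If `dotp n u = 0` then `u` is a multiple of
`(-n.2, n.1)` and `hgt B u p` is a nonzero multiple of `dotp n p - dotp n B`, which has one sign a.e.: one of the two half planes is null, contradiction. So
`dotp n u ≠ 0`; take `v = u` or `v = -u` (the two half planes are exchanged: `hgt B (-u) p = - hgt B u p`).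
(`Attains.ordered`) `m = law f` is a probability measure without lines (`Attains.noLines`, A2), `K = essRange f`, `Supp m K` (E1), `hsup` for a.e. `p`
because `m Kᶜ = 0`; `Psi m B ≤ Psi m z` for all `z` by `Attains.psi_le` (F2); `sep_null` (O2) for every `s > 0`; `ordered_of_null`.
-/

set_option autoImplicit false

namespace Pool.Agent.LibCX37

open MeasureTheory Set Filter Topology
open scoped ENNReal

theorem o3_det (b c B v : ℝ × ℝ) (s : ℝ) :
    det b c (B - s • v) = det b c B + s * (hgt B v c - hgt B v b) := by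
  simp only [det, hgt, Prod.fst_sub, Prod.snd_sub, Prod.fst_add, Prod.snd_add, Prod.smul_fst,
    Prod.smul_snd, smul_eq_mul]
  ring

theorem o3_cont (B C : ℝ × ℝ) : Continuous fun x : (ℝ × ℝ) × (ℝ × ℝ) =>
    det x.1 x.2 B * det x.1 x.2 C := by
  unfold det
  fun_prop

theorem o3_hgt (B u n p : ℝ × ℝ) (h : dotp n u = 0) :
    hgt B u p * (n.1 ^ 2 + n.2 ^ 2) =
      -((u.2 * n.1 - u.1 * n.2) * (dotp n p - dotp n B)) := by
  have e : hgt B u p * (n.1 ^ 2 + n.2 ^ 2) +
      (u.2 * n.1 - u.1 * n.2) * (dotp n p - dotp n B) =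
      dotp n u * (n.1 * (p.2 - B.2) - n.2 * (p.1 - B.1)) := by
    simp only [det, hgt, dotp, Prod.fst_add, Prod.snd_add]
    ring
  rw [h, zero_mul] at e
  linarith

theorem o3_sq {n : ℝ × ℝ} (hn : n ≠ 0) : 0 < n.1 ^ 2 + n.2 ^ 2 := by
  by_contra h
  apply hn
  have h1 : n.1 ^ 2 = 0 := by nlinarith [sq_nonneg n.1, sq_nonneg n.2]
  have h2 : n.2 ^ 2 = 0 := by nlinarith [sq_nonneg n.1, sq_nonneg n.2]
  exact Prod.ext (pow_eq_zero_iff (two_ne_zero) |>.mp h1) (pow_eq_zero_iff (two_ne_zero) |>.mp h2)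

theorem o3_ne (m : Measure (ℝ × ℝ)) [IsProbabilityMeasure m] (B u n : ℝ × ℝ) (hu : u ≠ 0)
    (hn : n ≠ 0) (hsup : ∀ᵐ p ∂m, dotp n p ≤ dotp n B)
    (h1 : m {z | 0 < hgt B u z} = 1 / 2) (h2 : m {z | hgt B u z < 0} = 1 / 2) :
    dotp n u ≠ 0 := by
  intro h
  have hN := o3_sq hn
  have hU := o3_sq hu
  have hw : u.2 * n.1 - u.1 * n.2 ≠ 0 := by
    intro hw
    have e : (u.2 * n.1 - u.1 * n.2) ^ 2 + (dotp n u) ^ 2 =
        (n.1 ^ 2 + n.2 ^ 2) * (u.1 ^ 2 + u.2 ^ 2) := by
      unfold dotp
      ring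
    rw [hw, h] at e
    have := mul_pos hN hU
    linarith
  have hhalf : (1 / 2 : ℝ≥0∞) ≠ 0 := by simp
  rcases lt_or_gt_of_ne hw with hw | hw
  · apply hhalf
    rw [← h1, ← nonpos_iff_eq_zero]
    have h3 : m {z | ¬ (dotp n z ≤ dotp n B)} = 0 := ae_iff.mp hsup
    rw [← h3]
    refine measure_mono fun z hz => ?_
    intro hle
    have hz' : 0 < hgt B u z := hz
    have e := o3_hgt B u n z h
    have e1 := mul_pos hz' hN
    have e2 := mul_nonneg_of_nonpos_of_nonpos hw.le (sub_nonpos.mpr hle)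
    linarith
  · apply hhalf
    rw [← h2, ← nonpos_iff_eq_zero]
    have h3 : m {z | ¬ (dotp n z ≤ dotp n B)} = 0 := ae_iff.mp hsup
    rw [← h3]
    refine measure_mono fun z hz => ?_
    intro hle
    have hz' : hgt B u z < 0 := hz
    have e := o3_hgt B u n z h
    have e1 := mul_neg_of_neg_of_pos hz' hN
    have e2 := mul_nonpos_of_nonneg_of_nonpos hw.le (sub_nonpos.mpr hle)
    linarith

theorem ordered_of_null (m : Measure (ℝ × ℝ)) [IsProbabilityMeasure m] (K : Set (ℝ × ℝ))
    (hK : Supp m K) (B v : ℝ × ℝ) (h : ∀ s : ℝ, 0 < s →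
      (m.prod m) {x | det x.1 x.2 B * det x.1 x.2 (B - s • v) < 0} = 0) : Ordered K B v := by
  intro b hb c hc
  by_contra hneg
  rw [not_le] at hneg
  set D := det b c B with hD
  set H := hgt B v c - hgt B v b with hH
  have hs0 : 0 ≤ D ^ 2 / (-(D * H)) := div_nonneg (sq_nonneg _) (by linarith)
  set s := D ^ 2 / (-(D * H)) + 1 with hs
  have hspos : 0 < s := by linarith
  have hval : det b c B * det b c (B - s • v) < 0 := by
    rw [o3_det, ← hD, ← hH]
    have h1 : s * (-(D * H)) = D ^ 2 + -(D * H) := by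
      rw [hs, add_mul, one_mul, div_mul_cancel₀ _ (by linarith)]
    nlinarith
  have hopen : IsOpen {x : (ℝ × ℝ) × (ℝ × ℝ) | det x.1 x.2 B * det x.1 x.2 (B - s • v) < 0} :=
    isOpen_lt (o3_cont B (B - s • v)) continuous_const
  obtain ⟨ε, hε, hball⟩ := Metric.isOpen_iff.mp hopen (b, c) hval
  have h0 := h s hspos
  have h1 : (m.prod m) (Metric.ball b ε ×ˢ Metric.ball c ε) = 0 := by
    rw [ball_prod_same]
    exact measure_mono_null hball h0
  rw [Measure.prod_prod, mul_eq_zero] at h1
  rcases h1 with h1 | h1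
  · exact (hK.pos b hb ε hε).ne' h1
  · exact (hK.pos c hc ε hε).ne' h1

theorem exists_inward (m : Measure (ℝ × ℝ)) [IsProbabilityMeasure m] (hm : NoLines m)
    (B n : ℝ × ℝ) (hn : n ≠ 0) (hsup : ∀ᵐ p ∂m, dotp n p ≤ dotp n B) :
    ∃ v : ℝ × ℝ, dotp n v < 0 ∧ Halves m B v := by
  obtain ⟨u, hu, h1, h2⟩ := exists_halving m hm B
  rw [measure_univ] at h1 h2
  have hne := o3_ne m B u n hu hn hsup h1 h2
  rcases lt_or_gt_of_ne hne with h | h
  · exact ⟨u, h, h1, h2⟩
  · refine ⟨-u, ?_, ?_, ?_⟩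
    · have e : dotp n (-u) = -dotp n u := by
        unfold dotp
        simp only [Prod.fst_neg, Prod.snd_neg]
        ring
      rw [e]
      linarith
    · rw [← h2]
      congr 1
      ext z
      have e : hgt B (-u) z = -det B (B + u) z := by
        simp only [det, hgt, Prod.fst_add, Prod.snd_add, Prod.fst_neg, Prod.snd_neg]
        ring
      simp only [mem_ofPred_eq, e]
      constructor <;> intro hh <;> linarith
    · rw [← h1]
      congr 1
      ext z
      have e : hgt B (-u) z = -det B (B + u) z := by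
        simp only [det, hgt, Prod.fst_add, Prod.snd_add, Prod.fst_neg, Prod.snd_neg]
        ring
      simp only [mem_ofPred_eq, e]
      constructor <;> intro hh <;> linarith

theorem Attains.ordered {f : unitInterval → ℝ × ℝ} (h : Attains f) {B n : ℝ × ℝ}
    (hB : B ∈ essRange f) (hn : n ≠ 0) (hsup : ∀ p ∈ essRange f, dotp n p ≤ dotp n B) :
    ∃ v : ℝ × ℝ, dotp n v < 0 ∧ Halves (law f) B v ∧ Ordered (essRange f) B v := by
  have hf : Measurable f := h.1.1
  have : IsProbabilityMeasure (law f) := Measure.isProbabilityMeasure_map hf.aemeasurable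
  have hK := supp_essRange f hf
  have hsup' : ∀ᵐ p ∂(law f), dotp n p ≤ dotp n B := by
    have h1 : ∀ᵐ p ∂(law f), p ∉ (essRange f)ᶜ := measure_eq_zero_iff_ae_notMem.mp hK.null
    filter_upwards [h1] with p hp
    exact hsup p (by simpa using hp)
  obtain ⟨v, hv, hH⟩ := exists_inward (law f) h.noLines B n hn hsup'
  exact ⟨v, hv, hH, ordered_of_null (law f) (essRange f) hK B v fun s hs =>
    sep_null (law f) h.noLines B v n hv hsup' hH s hs (h.psi_le hB _)⟩

end Pool.Agent.LibCX37
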