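import Pool.Agent.LibCX37.Q1
import Pool.Agent.LibCX37.Q2

/-!
[CX P0] **Lower bound of the energy of `f` by the terms with at most two points in `S`.**
PROOF. `law f = lawOn f Sᶜ + lawOn f S` (`Measure.restrict_compl_add_restrict`, `Measure.map_add`), `En_eq_quad`, `quad_expand`, drop the last two
terms; `quad (lawOn f S) τ τ τ = ∫⁻ ω in S, Psi τ (f ω)` and `quad (lawOn f S) (lawOn f S) τ τ = ∫⁻ a in S, ∫⁻ b in S, qq τ (f a) (f b)` by
`lintegral_map` (measurability from `measurable_Nn` and `Measurable.lintegral_prod_right'`).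
(`qq_le`) `law f = τ + σ`, `σ univ = volume S`: `qq (τ+σ) y z = qq τ y z +` three terms, each integral of `Nn ≤ 3`:
`≤ 3 (2 σ(univ) τ(univ) + σ(univ)²) ≤ 6 volume S · ...`: with `τ univ + σ univ = 1`, `2 στ + σ² ≤ 2σ`.
-/

set_option autoImplicit false

namespace Pool.Agent.LibCX37

open MeasureTheory Set Filter Topology
open scoped ENNReal

theorem p0_law_add (f : unitInterval → ℝ × ℝ) (hf : Measurable f) (S : Set unitInterval)
    (hS : MeasurableSet S) : law f = lawOn f Sᶜ + lawOn f S := by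
  unfold law lawOn
  rw [← Measure.map_add _ _ hf, Measure.restrict_compl_add_restrict hS]

theorem p0_univ (f : unitInterval → ℝ × ℝ) (hf : Measurable f) (S : Set unitInterval) :
    lawOn f S univ = volume S := by
  unfold lawOn
  rw [Measure.map_apply hf MeasurableSet.univ, preimage_univ, Measure.restrict_apply_univ]

theorem p0_fin (f : unitInterval → ℝ × ℝ) (S : Set unitInterval) :
    IsFiniteMeasure (lawOn f S) := by
  unfold lawOn
  infer_instance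

theorem p0_Nn_le (p q r s : ℝ × ℝ) : Nn p q r s ≤ 3 := by
  have h : ∀ a b c d : ℝ × ℝ, ind a b c d ≤ 1 := by
    intro a b c d
    unfold ind
    split_ifs
    · exact le_rfl
    · exact zero_le
  unfold Nn
  calc ind p q r s + ind p r q s + ind p s q r ≤ 1 + 1 + 1 :=
        add_le_add (add_le_add (h _ _ _ _) (h _ _ _ _)) (h _ _ _ _)
    _ = 3 := by norm_num

theorem p0_meas_qq (m : Measure (ℝ × ℝ)) [IsFiniteMeasure m] :
    Measurable (fun p : (ℝ × ℝ) × (ℝ × ℝ) => qq m p.1 p.2) := by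
  have h1 : Measurable (fun x : (((ℝ × ℝ) × (ℝ × ℝ)) × (ℝ × ℝ)) × (ℝ × ℝ) =>
      Nn x.1.1.1 x.1.1.2 x.1.2 x.2) :=
    measurable_Nn.comp (g := fun x : (ℝ × ℝ) × (ℝ × ℝ) × (ℝ × ℝ) × (ℝ × ℝ) =>
      Nn x.1 x.2.1 x.2.2.1 x.2.2.2)
      (f := fun x : (((ℝ × ℝ) × (ℝ × ℝ)) × (ℝ × ℝ)) × (ℝ × ℝ) =>
        (x.1.1.1, x.1.1.2, x.1.2, x.2)) (by fun_prop)
  have h2 : Measurable (fun x : ((ℝ × ℝ) × (ℝ × ℝ)) × (ℝ × ℝ) =>
      ∫⁻ d, Nn x.1.1 x.1.2 x.2 d ∂m) := h1.lintegral_prod_right'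
  exact h2.lintegral_prod_right'

theorem p0_meas_Psi (m : Measure (ℝ × ℝ)) [IsFiniteMeasure m] :
    Measurable (fun p : ℝ × ℝ => Psi m p) := by
  have h : Measurable (fun p : ℝ × ℝ => ∫⁻ b, qq m p b ∂m) := (p0_meas_qq m).lintegral_prod_right'
  exact h

theorem p0_outer (f : unitInterval → ℝ × ℝ) (hf : Measurable f) (S : Set unitInterval)
    (F : ℝ × ℝ → ℝ≥0∞) (hF : Measurable F) :
    ∫⁻ b, F b ∂(lawOn f S) = ∫⁻ b in S, F (f b) := by
  unfold lawOn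
  exact lintegral_map hF hf

theorem p0_meas_right (m : Measure (ℝ × ℝ)) [IsFiniteMeasure m] (a : ℝ × ℝ) :
    Measurable (fun b : ℝ × ℝ => qq m a b) := by
  have h := (p0_meas_qq m).comp (measurable_prodMk_left (x := a))
  exact h

theorem p0_quad_psi (m₁ m : Measure (ℝ × ℝ)) :
    quad m₁ m m m = ∫⁻ a, Psi m a ∂m₁ := rfl

theorem p0_quad_qq (m₁ m₂ m : Measure (ℝ × ℝ)) :
    quad m₁ m₂ m m = ∫⁻ a, ∫⁻ b, qq m a b ∂m₂ ∂m₁ := rfl

theorem p0_quad1 (f : unitInterval → ℝ × ℝ) (hf : Measurable f) (S : Set unitInterval)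
    (m : Measure (ℝ × ℝ)) [IsFiniteMeasure m] :
    quad (lawOn f S) m m m = ∫⁻ ω in S, Psi m (f ω) := by
  rw [p0_quad_psi]
  exact p0_outer f hf S _ (p0_meas_Psi m)

theorem p0_quad2 (f : unitInterval → ℝ × ℝ) (hf : Measurable f) (S : Set unitInterval)
    (m : Measure (ℝ × ℝ)) [IsFiniteMeasure m] :
    quad (lawOn f S) (lawOn f S) m m = ∫⁻ a in S, ∫⁻ b in S, qq m (f a) (f b) := by
  have hfin := p0_fin f S
  rw [p0_quad_qq]
  have h1 : ∀ a : ℝ × ℝ, ∫⁻ b, qq m a b ∂(lawOn f S) = ∫⁻ b in S, qq m a (f b) := fun a =>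
    p0_outer f hf S _ (p0_meas_right m a)
  have hm : Measurable (fun a : ℝ × ℝ => ∫⁻ b, qq m a b ∂(lawOn f S)) :=
    (p0_meas_qq m).lintegral_prod_right'
  rw [p0_outer f hf S _ hm]
  exact lintegral_congr fun a => h1 (f a)

theorem En_lower (f : unitInterval → ℝ × ℝ) (hf : Measurable f) (S : Set unitInterval)
    (hS : MeasurableSet S) :
    quad (lawOn f Sᶜ) (lawOn f Sᶜ) (lawOn f Sᶜ) (lawOn f Sᶜ) +
      4 * (∫⁻ ω in S, Psi (lawOn f Sᶜ) (f ω)) +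
      6 * (∫⁻ a in S, ∫⁻ b in S, qq (lawOn f Sᶜ) (f a) (f b)) ≤ En f := by
  have hfin := p0_fin f S
  have hfin' := p0_fin f Sᶜ
  rw [← p0_quad1 f hf S (lawOn f Sᶜ), ← p0_quad2 f hf S (lawOn f Sᶜ), En_eq_quad f hf,
    p0_law_add f hf S hS, quad_expand]
  exact le_self_add.trans le_self_add

theorem qq_le (f : unitInterval → ℝ × ℝ) (hf : Measurable f) (S : Set unitInterval)
    (hS : MeasurableSet S) (y z : ℝ × ℝ) :
    qq (law f) y z ≤ qq (lawOn f Sᶜ) y z + 6 * volume S := by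
  have hfin := p0_fin f S
  have hfin' := p0_fin f Sᶜ
  have hu := p0_univ f hf S
  have hu' := p0_univ f hf Sᶜ
  have hsum : volume Sᶜ + volume S = (1 : ℝ≥0∞) := by
    rw [add_comm, measure_add_measure_compl hS]
    exact measure_univ
  rw [p0_law_add f hf S hS]
  generalize lawOn f S = σ at *
  generalize lawOn f Sᶜ = τ at *
  rw [← hu]
  rw [← hu, ← hu'] at hsum
  have hb : ∀ (m : Measure (ℝ × ℝ)) (c : ℝ × ℝ), ∫⁻ d, Nn y z c d ∂m ≤ 3 * m univ := by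
    intro m c
    calc ∫⁻ d, Nn y z c d ∂m ≤ ∫⁻ _, 3 ∂m := lintegral_mono fun d => p0_Nn_le _ _ _ _
      _ = 3 * m univ := lintegral_const _
  have h1 : ∀ c : ℝ × ℝ, ∫⁻ d, Nn y z c d ∂(τ + σ) ≤ ∫⁻ d, Nn y z c d ∂τ + 3 * σ univ := by
    intro c
    rw [lintegral_add_measure]
    exact add_le_add le_rfl (hb σ c)
  have h2 : ∫⁻ c, (∫⁻ d, Nn y z c d ∂τ + 3 * σ univ) ∂τ = qq τ y z + 3 * σ univ * τ univ := by
    rw [lintegral_add_right _ measurable_const, lintegral_const]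
    rfl
  have h3 : ∫⁻ c, (∫⁻ d, Nn y z c d ∂τ + 3 * σ univ) ∂σ
      ≤ (3 * τ univ + 3 * σ univ) * σ univ := by
    calc ∫⁻ c, (∫⁻ d, Nn y z c d ∂τ + 3 * σ univ) ∂σ
        ≤ ∫⁻ _, (3 * τ univ + 3 * σ univ) ∂σ :=
          lintegral_mono fun c => add_le_add (hb τ c) le_rfl
      _ = (3 * τ univ + 3 * σ univ) * σ univ := lintegral_const _
  have hτ : τ univ ≤ 1 := by rw [← hsum]; exact le_self_add
  calc qq (τ + σ) y z = ∫⁻ c, ∫⁻ d, Nn y z c d ∂(τ + σ) ∂(τ + σ) := rfl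
    _ ≤ ∫⁻ c, (∫⁻ d, Nn y z c d ∂τ + 3 * σ univ) ∂(τ + σ) := lintegral_mono h1
    _ = ∫⁻ c, (∫⁻ d, Nn y z c d ∂τ + 3 * σ univ) ∂τ
        + ∫⁻ c, (∫⁻ d, Nn y z c d ∂τ + 3 * σ univ) ∂σ := lintegral_add_measure _ _ _
    _ ≤ (qq τ y z + 3 * σ univ * τ univ) + (3 * τ univ + 3 * σ univ) * σ univ :=
        add_le_add h2.le h3
    _ = qq τ y z + (3 * σ univ * τ univ + 3 * σ univ * (τ univ + σ univ)) := by ring
    _ ≤ qq τ y z + (3 * σ univ * 1 + 3 * σ univ * 1) := by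
        rw [hsum]
        gcongr
    _ = qq τ y z + 6 * σ univ := by ring

end Pool.Agent.LibCX37
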