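import Pool.Agent.LibCX37.K1

/-!
[CX T1] **Tangent directions are halving.**
PROOF. `v n = ‖y n - x‖⁻¹ • (y n - x) → v`. For `c` with `det x (x+v) c ≠ 0`: `det x (y n) c = ‖y n - x‖ det x (x + v n) c` has eventually
the sign of `det x (x+v) c` (`det x (x+w) c` is continuous, linear in `w`). So `m {0 < det x (y n) c} → m {0 < det x (x+v) c} = h`, and
`m {det x (y n) c < 0} → 1 - h` (dominated convergence of the indicators, `NoLines`, `v ≠ 0` as `‖v‖ = 1`).
By `ge_same_side` for `x, y n`, `hq` and `tendsto_sep` (composed with `n ↦ (x, y n) → (x,x)`): `h² + (1-h)² ≤ 1/2`, so `h = 1/2`.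
-/

set_option autoImplicit false

namespace Pool.Agent.LibCX37

open MeasureTheory Set Filter Topology
open scoped ENNReal

theorem t1_det (x w c : ℝ × ℝ) : det x (x + w) c = w.1 * (c.2 - x.2) - w.2 * (c.1 - x.1) := by
  unfold det
  simp

theorem t1_det_smul (x y c : ℝ × ℝ) (hy : y ≠ x) :
    det x y c = ‖y - x‖ * det x (x + ‖y - x‖⁻¹ • (y - x)) c := by
  have h : ‖y - x‖ ≠ 0 := norm_ne_zero_iff.mpr (sub_ne_zero.mpr hy)
  rw [t1_det]
  unfold det
  simp only [Prod.smul_fst, Prod.smul_snd, Prod.fst_sub, Prod.snd_sub, smul_eq_mul]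
  field_simp

theorem t1_cont (x : ℝ × ℝ) (c : ℝ × ℝ) : Continuous (fun w : ℝ × ℝ => det x (x + w) c) := by
  simp only [t1_det]
  fun_prop

theorem t1_meas (x y : ℝ × ℝ) : Measurable (fun c : ℝ × ℝ => det x y c) := by
  unfold det
  fun_prop

theorem t1_pos (m : Measure (ℝ × ℝ)) [IsProbabilityMeasure m] (hm : NoLines m)
    (x v : ℝ × ℝ) (hv : v ≠ 0) (u : ℕ → ℝ × ℝ) (hu : Tendsto u atTop (𝓝 v)) :
    Tendsto (fun n => m {c | 0 < det x (x + u n) c}) atTop (𝓝 (m {c | 0 < det x (x + v) c})) := by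
  apply tendsto_measure_of_ae_tendsto_indicator_of_isFiniteMeasure atTop
  · exact measurableSet_lt measurable_const (t1_meas x (x + v))
  · intro i
    exact measurableSet_lt measurable_const (t1_meas x (x + u i))
  · have h0 : ∀ᵐ c ∂m, det x (x + v) c ≠ 0 := by
      rw [ae_iff]
      simpa using hm x v hv
    filter_upwards [h0] with c hc
    have ht : Tendsto (fun n => det x (x + u n) c) atTop (𝓝 (det x (x + v) c)) :=
      ((t1_cont x c).tendsto v).comp hu
    rcases lt_or_gt_of_ne hc with h | h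
    · filter_upwards [ht.eventually_lt_const h] with n hn
      constructor
      · intro h1
        exact absurd h1 (by linarith)
      · intro h1
        exact absurd h1 (by linarith)
    · filter_upwards [ht.eventually_const_lt h] with n hn
      constructor
      · intro _; exact h
      · intro _; exact hn

theorem t1_neg (m : Measure (ℝ × ℝ)) [IsProbabilityMeasure m] (hm : NoLines m)
    (x v : ℝ × ℝ) (hv : v ≠ 0) (u : ℕ → ℝ × ℝ) (hu : Tendsto u atTop (𝓝 v)) :
    Tendsto (fun n => m {c | det x (x + u n) c < 0}) atTop (𝓝 (m {c | det x (x + v) c < 0})) := by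
  apply tendsto_measure_of_ae_tendsto_indicator_of_isFiniteMeasure atTop
  · exact measurableSet_lt (t1_meas x (x + v)) measurable_const
  · intro i
    exact measurableSet_lt (t1_meas x (x + u i)) measurable_const
  · have h0 : ∀ᵐ c ∂m, det x (x + v) c ≠ 0 := by
      rw [ae_iff]
      simpa using hm x v hv
    filter_upwards [h0] with c hc
    have ht : Tendsto (fun n => det x (x + u n) c) atTop (𝓝 (det x (x + v) c)) :=
      ((t1_cont x c).tendsto v).comp hu
    rcases lt_or_gt_of_ne hc with h | h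
    · filter_upwards [ht.eventually_lt_const h] with n hn
      constructor
      · intro _; exact h
      · intro _; exact hn
    · filter_upwards [ht.eventually_const_lt h] with n hn
      constructor
      · intro h1
        exact absurd h1 (by linarith)
      · intro h1
        exact absurd h1 (by linarith)

theorem t1_add (m : Measure (ℝ × ℝ)) [IsProbabilityMeasure m] (hm : NoLines m)
    (x v : ℝ × ℝ) (hv : v ≠ 0) :
    m {c | 0 < det x (x + v) c} + m {c | det x (x + v) c < 0} = 1 := by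
  have hmeas : MeasurableSet {c | det x (x + v) c < 0} :=
    measurableSet_lt (t1_meas x (x + v)) measurable_const
  have hd : Disjoint {c | 0 < det x (x + v) c} {c | det x (x + v) c < 0} := by
    rw [Set.disjoint_left]
    intro c h1 h2
    simp only [mem_ofPred_eq] at h1 h2
    linarith
  rw [← measure_union hd hmeas]
  have hc : m ({c | 0 < det x (x + v) c} ∪ {c | det x (x + v) c < 0})ᶜ = 0 := by
    have : ({c | 0 < det x (x + v) c} ∪ {c | det x (x + v) c < 0})ᶜ =
        {c | det x (x + v) c = 0} := by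
      ext c
      simp only [mem_compl_iff, mem_union, mem_ofPred_eq, not_or, not_lt]
      constructor
      · rintro ⟨h1, h2⟩; exact le_antisymm h1 h2
      · intro h; exact ⟨h.le, h.ge⟩
    rw [this]
    exact hm x v hv
  have h := prob_compl_eq_zero_iff₀ (μ := m)
    (s := {c | 0 < det x (x + v) c} ∪ {c | det x (x + v) c < 0})
    (MeasurableSet.nullMeasurableSet
      ((measurableSet_lt measurable_const (t1_meas x (x + v))).union hmeas))
  exact h.mp hc

theorem t1_arith (h k : ℝ≥0∞) (hs : h + k = 1) (hq : h ^ 2 + k ^ 2 ≤ 1 / 2) : h = 1 / 2 := by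
  have hh : h ≠ ∞ := by
    intro e; rw [e] at hs; simp at hs
  have hk : k ≠ ∞ := by
    intro e; rw [e] at hs; simp at hs
  lift h to NNReal using hh
  lift k to NNReal using hk
  have hs' : (h : ℝ) + k = 1 := by
    have : ((h + k : NNReal) : ℝ≥0∞) = ((1 : NNReal) : ℝ≥0∞) := by push_cast; exact hs
    have h2 := ENNReal.coe_injective this
    exact_mod_cast h2
  have hq' : (h : ℝ) ^ 2 + (k : ℝ) ^ 2 ≤ 1 / 2 := by
    have h1 : ((h ^ 2 + k ^ 2 : NNReal) : ℝ≥0∞) ≤ ((1 / 2 : NNReal) : ℝ≥0∞) := by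
      push_cast
      simpa using hq
    have h2 : h ^ 2 + k ^ 2 ≤ (1 / 2 : NNReal) := ENNReal.coe_le_coe.mp h1
    have h3 : ((h ^ 2 + k ^ 2 : NNReal) : ℝ) ≤ ((1 / 2 : NNReal) : ℝ) := NNReal.coe_le_coe.mpr h2
    push_cast at h3
    exact h3
  have h4 : (h : ℝ) = 1 / 2 := by
    have hk' : (k : ℝ) = 1 - h := by linarith
    rw [hk'] at hq'
    have h5 : ((h : ℝ) - 1 / 2) ^ 2 ≤ 0 := by nlinarith
    have h6 : (h : ℝ) - 1 / 2 = 0 := by
      have := sq_nonneg ((h : ℝ) - 1 / 2)
      exact pow_eq_zero_iff (n := 2) (by norm_num) |>.mp (le_antisymm h5 this)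
    linarith
  have h7 : h = (1 / 2 : NNReal) := by
    apply NNReal.coe_injective
    push_cast
    exact h4
  rw [h7, ENNReal.coe_div (by norm_num)]
  push_cast
  rfl

theorem tangent_halving (m : Measure (ℝ × ℝ)) [IsProbabilityMeasure m] (hm : NoLines m)
    (x v : ℝ × ℝ) (y : ℕ → ℝ × ℝ) (hy : ∀ n, y n ≠ x) (hlim : Tendsto y atTop (𝓝 x))
    (hdir : Tendsto (fun n => ‖y n - x‖⁻¹ • (y n - x)) atTop (𝓝 v))
    (hq : ∀ n, qq m x (y n) ≤ 1 / 2) : m {z | 0 < det x (x + v) z} = 1 / 2 := by
  have hpos : ∀ n, 0 < ‖y n - x‖ := fun n => norm_pos_iff.mpr (sub_ne_zero.mpr (hy n))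
  have hv : v ≠ 0 := by
    intro h0
    have h1 : Tendsto (fun n => ‖‖y n - x‖⁻¹ • (y n - x)‖) atTop (𝓝 ‖v‖) := hdir.norm
    have h2 : (fun n => ‖‖y n - x‖⁻¹ • (y n - x)‖) = fun _ => (1 : ℝ) := by
      funext n
      rw [norm_smul, norm_inv, norm_norm]
      exact inv_mul_cancel₀ (hpos n).ne'
    rw [h2] at h1
    have h3 := tendsto_nhds_unique h1 tendsto_const_nhds
    rw [h0, norm_zero] at h3
    norm_num at h3
  have hA : ∀ n, {c | 0 < det x (y n) c} =
      {c | 0 < det x (x + ‖y n - x‖⁻¹ • (y n - x)) c} := by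
    intro n
    ext c
    simp only [mem_ofPred_eq]
    rw [t1_det_smul x (y n) c (hy n)]
    exact mul_pos_iff_of_pos_left (hpos n)
  have hB : ∀ n, {c | det x (y n) c < 0} =
      {c | det x (x + ‖y n - x‖⁻¹ • (y n - x)) c < 0} := by
    intro n
    ext c
    simp only [mem_ofPred_eq]
    rw [t1_det_smul x (y n) c (hy n)]
    constructor
    · intro h
      by_contra h'
      push Not at h'
      have := mul_nonneg (hpos n).le h'
      linarith
    · intro h
      exact mul_neg_of_pos_of_neg (hpos n) h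
  have hP := t1_pos m hm x v hv _ hdir
  have hN := t1_neg m hm x v hv _ hdir
  have hxy : Tendsto (fun n => (x, y n)) atTop (𝓝 (x, x)) :=
    tendsto_const_nhds.prodMk_nhds hlim
  have hS := (tendsto_sep m hm x).comp hxy
  have hle : ∀ n, m {c | 0 < det x (x + ‖y n - x‖⁻¹ • (y n - x)) c} ^ 2 +
      m {c | det x (x + ‖y n - x‖⁻¹ • (y n - x)) c < 0} ^ 2 ≤
      1 / 2 + (m.prod m) {z | det x z.1 z.2 * det (y n) z.1 z.2 ≤ 0} := by
    intro n
    have h := ge_same_side m x (y n)
    rw [hA n, hB n] at h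
    refine h.trans ?_
    gcongr
    exact hq n
  have hL : Tendsto (fun n => m {c | 0 < det x (x + ‖y n - x‖⁻¹ • (y n - x)) c} ^ 2 +
      m {c | det x (x + ‖y n - x‖⁻¹ • (y n - x)) c < 0} ^ 2) atTop
      (𝓝 (m {c | 0 < det x (x + v) c} ^ 2 + m {c | det x (x + v) c < 0} ^ 2)) :=
    (ENNReal.Tendsto.pow hP).add (ENNReal.Tendsto.pow hN)
  have hR : Tendsto (fun n => 1 / 2 + (m.prod m) {z | det x z.1 z.2 * det (y n) z.1 z.2 ≤ 0})
      atTop (𝓝 (1 / 2 + 0)) := tendsto_const_nhds.add hS
  have hfin := le_of_tendsto_of_tendsto' hL hR hle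
  rw [add_zero] at hfin
  exact t1_arith _ _ (t1_add m hm x v hv) hfin

end Pool.Agent.LibCX37
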