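import Pool.Agent.LibCX37.Defs

/-!
[CX T2] **At most one point has only halving lines.**
PROOF. Let `x ≠ x'` and suppose all lines through `x` and through `x'` are halving. For a direction `v` which is not parallel to `x' - x`, the
half planes `{0 < det x (x+v) z}` and `{0 < det x' (x'+v) z}` are nested (`det x' (x'+v) z = det x (x+v) z - det x (x+v) x'`), both of measure
`1/2`, so the strip between them is null (up to the two lines, also null): `m {z | 0 < det x (x+v) z < det x (x+v) x'} = 0` (resp. with
reversed signs). For every `z` off the line `x x'` there is `v` such that `z` is strictly inside this strip: `v₀ = (x+x')/2 - z`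
gives `det x (x+v₀) z = det x (x+v₀) ((x+x')/2) = det x (x+v₀) x' / 2`, and the strict inequalities persist for `v` near `v₀`, in
particular for a rational `v` (countable dense set, e.g. the range of `denseSeq`). So the complement of the line `x x'` is a countable union of null
sets, and the line is null: `m univ = 0`, contradiction.
-/

set_option autoImplicit false

namespace Pool.Agent.LibCX37

open MeasureTheory Set Filter Topology
open scoped ENNReal

theorem t2_det (x v z : ℝ × ℝ) :
    det x (x + v) z = v.1 * (z.2 - x.2) - v.2 * (z.1 - x.1) := by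
  simp only [det, Prod.fst_add, Prod.snd_add]
  ring

/-- the strip between two parallel halving lines is null -/
theorem t2_strip (m : Measure (ℝ × ℝ)) [IsProbabilityMeasure m] (x x' v : ℝ × ℝ)
    (h1 : v ≠ 0 → m {z | 0 < det x (x + v) z} = 1 / 2)
    (h2 : v ≠ 0 → m {z | 0 < det x' (x' + v) z} = 1 / 2) :
    m {z | 0 < det x (x + v) z ∧ det x (x + v) z < det x (x + v) x'} = 0 := by
  by_cases hx : det x (x + v) x' ≤ 0
  · have he : {z : ℝ × ℝ | 0 < det x (x + v) z ∧ det x (x + v) z < det x (x + v) x'} = ∅ := by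
      ext z
      constructor
      · rintro ⟨ha, hb⟩
        exact absurd (lt_trans ha hb) (not_lt.mpr hx)
      · intro h
        exact absurd h (notMem_empty z)
    rw [he]
    exact measure_empty
  have hx' : 0 < det x (x + v) x' := not_le.mp hx
  have hv : v ≠ 0 := by
    intro hv
    rw [t2_det, hv] at hx'
    simp at hx'
  have hdd : ∀ z : ℝ × ℝ, det x' (x' + v) z = det x (x + v) z - det x (x + v) x' := by
    intro z
    rw [t2_det, t2_det, t2_det]
    ring
  have hcont : Continuous (fun z : ℝ × ℝ => det x (x + v) z) := by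
    simp only [t2_det]
    fun_prop
  have hcont' : Continuous (fun z : ℝ × ℝ => det x' (x' + v) z) := by
    simp only [t2_det]
    fun_prop
  have hmeas : MeasurableSet {z : ℝ × ℝ | 0 < det x' (x' + v) z} :=
    (isOpen_lt continuous_const hcont').measurableSet
  have hsub : {z : ℝ × ℝ | 0 < det x' (x' + v) z} ⊆ {z : ℝ × ℝ | 0 < det x (x + v) z} := by
    intro z hz
    have hz' : 0 < det x' (x' + v) z := hz
    rw [hdd z] at hz'
    show 0 < det x (x + v) z
    linarith
  have hdiff : m ({z : ℝ × ℝ | 0 < det x (x + v) z} \ {z : ℝ × ℝ | 0 < det x' (x' + v) z}) = 0 := by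
    rw [measure_sdiff hsub hmeas.nullMeasurableSet (measure_ne_top _ _), h1 hv, h2 hv]
    exact tsub_self _
  refine measure_mono_null ?_ hdiff
  intro z hz
  refine ⟨hz.1, ?_⟩
  intro hz2
  have hz' : 0 < det x' (x' + v) z := hz2
  rw [hdd z] at hz'
  have := hz.2
  linarith

/-- a direction which separates -/
theorem t2_exists (x x' z : ℝ × ℝ) (hz : det x x' z ≠ 0) :
    ∃ v : ℝ × ℝ, 0 < det x (x + v) z ∧ det x (x + v) z < det x (x + v) x' := by
  have hD : ∀ s : ℝ, det x (x + (s * ((x.1 + x'.1) / 2 - z.1), s * ((x.2 + x'.2) / 2 - z.2))) z =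
      s * det x x' z / 2 := by
    intro s
    rw [t2_det]
    simp only [det]
    ring
  have hD' : ∀ s : ℝ, det x (x + (s * ((x.1 + x'.1) / 2 - z.1), s * ((x.2 + x'.2) / 2 - z.2))) x' =
      s * det x x' z := by
    intro s
    rw [t2_det]
    simp only [det]
    ring
  rcases lt_or_gt_of_ne hz with h | h
  · refine ⟨((-1) * ((x.1 + x'.1) / 2 - z.1), (-1) * ((x.2 + x'.2) / 2 - z.2)), ?_, ?_⟩
    · rw [hD]
      linarith
    · rw [hD, hD']
      linarith
  · refine ⟨(1 * ((x.1 + x'.1) / 2 - z.1), 1 * ((x.2 + x'.2) / 2 - z.2)), ?_, ?_⟩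
    · rw [hD]
      linarith
    · rw [hD, hD']
      linarith

theorem not_two_centres (m : Measure (ℝ × ℝ)) [IsProbabilityMeasure m] (hm : NoLines m)
    (x x' : ℝ × ℝ) (hne : x ≠ x') (h1 : ∀ v : ℝ × ℝ, v ≠ 0 → m {z | 0 < det x (x + v) z} = 1 / 2)
    (h2 : ∀ v : ℝ × ℝ, v ≠ 0 → m {z | 0 < det x' (x' + v) z} = 1 / 2) : False := by
  have hline : m {z | det x x' z = 0} = 0 := by
    have h := hm x (x' - x) (sub_ne_zero.mpr hne.symm)
    rw [add_sub_cancel] at h
    exact h
  have hcov : m (⋃ n : ℕ, {z : ℝ × ℝ | 0 < det x (x + TopologicalSpace.denseSeq (ℝ × ℝ) n) z ∧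
      det x (x + TopologicalSpace.denseSeq (ℝ × ℝ) n) z <
        det x (x + TopologicalSpace.denseSeq (ℝ × ℝ) n) x'}) = 0 := by
    rw [measure_iUnion_null_iff]
    intro n
    exact t2_strip m x x' _ (fun hv => h1 _ hv) (fun hv => h2 _ hv)
  have huniv : (univ : Set (ℝ × ℝ)) ⊆ {z | det x x' z = 0} ∪
      (⋃ n : ℕ, {z : ℝ × ℝ | 0 < det x (x + TopologicalSpace.denseSeq (ℝ × ℝ) n) z ∧
      det x (x + TopologicalSpace.denseSeq (ℝ × ℝ) n) z <
        det x (x + TopologicalSpace.denseSeq (ℝ × ℝ) n) x'}) := by
    intro z _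
    by_cases hz : det x x' z = 0
    · exact Or.inl hz
    · right
      obtain ⟨v, hv⟩ := t2_exists x x' z hz
      have hopen : IsOpen {v : ℝ × ℝ | 0 < det x (x + v) z ∧
          det x (x + v) z < det x (x + v) x'} := by
        have c1 : Continuous (fun v : ℝ × ℝ => det x (x + v) z) := by
          simp only [t2_det]
          fun_prop
        have c2 : Continuous (fun v : ℝ × ℝ => det x (x + v) x') := by
          simp only [t2_det]
          fun_prop
        exact (isOpen_lt continuous_const c1).inter (isOpen_lt c1 c2)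
      obtain ⟨w, hw, hwr⟩ := (TopologicalSpace.denseRange_denseSeq (ℝ × ℝ)).exists_mem_open hopen
        ⟨v, hv⟩
      exact mem_iUnion.mpr ⟨w, hw, hwr⟩
  have h0 : m univ = 0 :=
    measure_mono_null huniv (measure_union_null hline hcov)
  rw [measure_univ] at h0
  exact one_ne_zero h0

end Pool.Agent.LibCX37
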