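import Pool.Agent.LibCX37.Y0

/-!
[CY T3] **Cutting a connected set at a one-point level.**
PROOF. Use `isPreconnected_closed_iff`. Let `t, t'` be closed, `Q ∩ {g ≤ ζ} ⊆ t ∪ t'`, both meet `Q ∩ {g ≤ ζ}`; suppose `Q ∩ {g ≤ ζ} ∩ (t ∩ t') = ∅`. The set `Q ∩ {g = ζ}` has at
most one point. If it has a point `p₀`, it is in `t` or in `t'` (not both); by symmetry let `p₀ ∈ t` (if the level is empty take any of the two). Put
`s = (t ∩ {g ≤ ζ}) ∪ {g ≥ ζ}`, `s' = t' ∩ {g ≤ ζ}`: closed, `Q ⊆ s ∪ s'`, both meet `Q`. Since `Q` is preconnected there is `p ∈ Q ∩ s ∩ s'`; `p ∈ t'`, `g p ≤ ζ`. If `p ∈ t` contradiction.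
Otherwise `g p ≥ ζ`, so `g p = ζ`, `p = p₀ ∈ t`: contradiction. (`Q` closed is not needed for this formulation: `isPreconnected_closed_iff` is used for `Q` and for `Q ∩ {g ≤ ζ}`.)
-/

set_option autoImplicit false

namespace Pool.Agent.LibCX37

open MeasureTheory Set Filter Topology
open scoped ENNReal

theorem t3_aux {Q : Set (ℝ × ℝ)} (hQ : IsPreconnected Q) (g : ℝ × ℝ → ℝ)
    (hg : Continuous g) (ζ : ℝ) (t t' : Set (ℝ × ℝ)) (ht : IsClosed t) (ht' : IsClosed t')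
    (hcov : Q ∩ {p | g p ≤ ζ} ⊆ t ∪ t') (hne : ((Q ∩ {p | g p ≤ ζ}) ∩ t).Nonempty)
    (hne' : ((Q ∩ {p | g p ≤ ζ}) ∩ t').Nonempty) (hlev : ∀ p ∈ Q, g p = ζ → p ∈ t) :
    ((Q ∩ {p | g p ≤ ζ}) ∩ (t ∩ t')).Nonempty := by
  have hc1 : IsClosed {p : ℝ × ℝ | g p ≤ ζ} := isClosed_le hg continuous_const
  have hc2 : IsClosed {p : ℝ × ℝ | ζ ≤ g p} := isClosed_le continuous_const hg
  have key := isPreconnected_closed_iff.mp hQ ((t ∩ {p | g p ≤ ζ}) ∪ {p | ζ ≤ g p})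
    (t' ∩ {p | g p ≤ ζ}) ((ht.inter hc1).union hc2) (ht'.inter hc1) (by
      intro p hp
      rcases le_total (g p) ζ with h | h
      · rcases hcov ⟨hp, h⟩ with h2 | h2
        · exact Or.inl (Or.inl ⟨h2, h⟩)
        · exact Or.inr ⟨h2, h⟩
      · exact Or.inl (Or.inr h)) (by
      obtain ⟨p, ⟨hp, h⟩, h2⟩ := hne
      exact ⟨p, hp, Or.inl ⟨h2, h⟩⟩) (by
      obtain ⟨p, ⟨hp, h⟩, h2⟩ := hne'
      exact ⟨p, hp, h2, h⟩)
  obtain ⟨p, hp, hs, hp', hle⟩ := key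
  refine ⟨p, ⟨hp, hle⟩, ?_, hp'⟩
  rcases hs with hs | hs
  · exact hs.1
  · exact hlev p hp (le_antisymm hle hs)

theorem preconnected_cut {Q : Set (ℝ × ℝ)} (hQ : IsPreconnected Q) (g : ℝ × ℝ → ℝ)
    (hg : Continuous g) (ζ : ℝ) (h1 : ∀ p ∈ Q, ∀ q ∈ Q, g p = ζ → g q = ζ → p = q) :
    IsPreconnected (Q ∩ {p | g p ≤ ζ}) := by
  rw [isPreconnected_closed_iff]
  intro t t' ht ht' hcov hne hne'
  by_cases hlev : ∀ p ∈ Q, g p = ζ → p ∈ t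
  · exact t3_aux hQ g hg ζ t t' ht ht' hcov hne hne' hlev
  · push Not at hlev
    obtain ⟨p₀, hp₀, hp₀ζ, hp₀t⟩ := hlev
    have hp₀t' : p₀ ∈ t' := by
      rcases hcov ⟨hp₀, le_of_eq hp₀ζ⟩ with h | h
      · exact absurd h hp₀t
      · exact h
    have hcov' : Q ∩ {p | g p ≤ ζ} ⊆ t' ∪ t := by
      rw [union_comm]
      exact hcov
    have key := t3_aux hQ g hg ζ t' t ht' ht hcov' hne' hne (by
      intro p hp hpζ
      rw [h1 p hp p₀ hp₀ hpζ hp₀ζ]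
      exact hp₀t')
    rw [inter_comm t' t] at key
    exact key

end Pool.Agent.LibCX37
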