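import Pool.Agent.LibCX37.L1

/-!
[CY T4a] **Null levels; a connected part of mass > 1/2 contains every outer point.**
PROOF. (`null_level`) `{z | hgt A v z = η} = {z | det A' (A' + v) z = 0}` with `A' = A + (η/(v.1^2+v.2^2)) • (-v.2, v.1)` (`hgt A v A' = η`, `det A' (A'+v) z = hgt A v z - η`; field_simp, ring).
(`null_levels`) countable union (`measure_biUnion_null_iff` or `measure_iUnion_null`).
(`mem_of_max`) Take `v` from `hord A hA n hn hmax` (`v ≠ 0` since `dotp n v < 0`), `Y = hgt A v` (continuous, affine). `m (Q ∩ {Y > 0}) > 0`: otherwise `m Q ≤ m {Y ≤ 0} ≤ 1 - 1/2` (complement of `{Y > 0}`). In the same way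
`m (Q ∩ {Y < 0}) > 0`. So there are `p₁, p₂ ∈ Q` with `Y p₁ > 0`, `Y p₂ < 0`. `Q` is preconnected, so every level between `Y p₂` and `Y p₁` is attained on `Q` (`IsPreconnected.intermediate_value`). Let `E` be the countable set of levels `η ≠ 0` with two
distinct points of `K` (`countable_levels`, L1). For `p ∈ K` with `Y p₂ < Y p < Y p₁`, `Y p ≠ 0`, `Y p ∉ E`: the level `Y p` is attained at some `q ∈ Q ⊆ K` and `q = p` (otherwise `Y p ∈ E`): `p ∈ Q`. So a.e. point of the open set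
`G = {Y p₂ < Y < Y p₁}` is in `Q` (`m Kᶜ = 0`, `null_levels` for the countable set `E ∪ {0}`). If `A ∉ Q`: `Q` closed, `Y A = 0` (`det A (A+v) A = 0`), so a small ball around `A` is inside `G` and disjoint from `Q`: it is null, against
`Supp.pos`.
-/

set_option autoImplicit false

namespace Pool.Agent.LibCX37

open MeasureTheory Set Filter Topology
open scoped ENNReal

theorem t4a_cont (A v : ℝ × ℝ) : Continuous (hgt A v) := by
  unfold hgt det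
  fun_prop

theorem t4a_self (A v : ℝ × ℝ) : hgt A v A = 0 := by
  unfold hgt det
  ring

theorem t4a_sq_pos (v : ℝ × ℝ) (hv : v ≠ 0) : 0 < v.1 ^ 2 + v.2 ^ 2 := by
  by_contra h
  push Not at h
  have h1 : v.1 = 0 := by nlinarith [sq_nonneg v.1, sq_nonneg v.2]
  have h2 : v.2 = 0 := by nlinarith [sq_nonneg v.1, sq_nonneg v.2]
  exact hv (Prod.ext h1 h2)

theorem t4a_det (A v z : ℝ × ℝ) (hv : v ≠ 0) (η : ℝ) :
    det (A + (η / (v.1 ^ 2 + v.2 ^ 2)) • (-v.2, v.1))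
      (A + (η / (v.1 ^ 2 + v.2 ^ 2)) • (-v.2, v.1) + v) z = hgt A v z - η := by
  have h1 := (t4a_sq_pos v hv).ne'
  obtain ⟨k, hk⟩ : ∃ k : ℝ, k = η / (v.1 ^ 2 + v.2 ^ 2) := ⟨_, rfl⟩
  have hη : η = k * (v.1 ^ 2 + v.2 ^ 2) := by
    rw [hk]
    field_simp
  rw [← hk, hη]
  unfold hgt det
  simp only [Prod.fst_add, Prod.snd_add, Prod.smul_fst, Prod.smul_snd, smul_eq_mul]
  ring

theorem t4a_half (m : Measure (ℝ × ℝ)) [IsProbabilityMeasure m] (Q S : Set (ℝ × ℝ))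
    (hS : MeasurableSet S) (h1 : m S = 1 / 2) (hm2 : 1 / 2 < m Q) : (Q ∩ S).Nonempty := by
  by_contra h
  rw [not_nonempty_iff_eq_empty] at h
  have h2 : Q ⊆ Sᶜ := by
    intro p hp hpS
    have h3 : p ∈ Q ∩ S := ⟨hp, hpS⟩
    rw [h] at h3
    exact h3
  have h3 : m Sᶜ = 1 / 2 := by
    rw [prob_compl_eq_one_sub hS, h1]
    exact ENNReal.sub_half ENNReal.one_ne_top
  exact absurd (measure_mono h2) (not_le.mpr (by rw [h3]; exact hm2))

theorem null_level (m : Measure (ℝ × ℝ)) (hm : NoLines m) (A v : ℝ × ℝ) (hv : v ≠ 0) (η : ℝ) :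
    m {z | hgt A v z = η} = 0 := by
  have h1 : {z : ℝ × ℝ | hgt A v z = η} =
      {z | det (A + (η / (v.1 ^ 2 + v.2 ^ 2)) • (-v.2, v.1))
        (A + (η / (v.1 ^ 2 + v.2 ^ 2)) • (-v.2, v.1) + v) z = 0} := by
    ext z
    rw [mem_ofPred_eq, mem_ofPred_eq, t4a_det A v z hv η, sub_eq_zero]
  rw [h1]
  exact hm _ v hv

theorem null_levels (m : Measure (ℝ × ℝ)) (hm : NoLines m) (A v : ℝ × ℝ) (hv : v ≠ 0)
    (E : Set ℝ) (hE : E.Countable) : m {z | hgt A v z ∈ E} = 0 := by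
  have h1 : {z : ℝ × ℝ | hgt A v z ∈ E} = ⋃ η ∈ E, {z | hgt A v z = η} := by
    ext z
    simp only [mem_iUnion, mem_ofPred_eq]
    constructor
    · intro h
      exact ⟨_, h, rfl⟩
    · rintro ⟨η, h, h2⟩
      rw [h2]
      exact h
  rw [h1, measure_biUnion_null_iff hE]
  intro η _
  exact null_level m hm A v hv η

theorem mem_of_max (m : Measure (ℝ × ℝ)) [IsProbabilityMeasure m] (hm : NoLines m)
    (K : Set (ℝ × ℝ)) (hK : Supp m K)
    (hord : ∀ B ∈ K, ∀ n : ℝ × ℝ, n ≠ 0 → (∀ p ∈ K, dotp n p ≤ dotp n B) →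
      ∃ v : ℝ × ℝ, dotp n v < 0 ∧ Halves m B v ∧ Ordered K B v)
    (Q : Set (ℝ × ℝ)) (hQK : Q ⊆ K) (hQc : IsClosed Q) (hQ : IsPreconnected Q) (hm2 : 1 / 2 < m Q)
    (A n : ℝ × ℝ) (hA : A ∈ K) (hn : n ≠ 0) (hmax : ∀ p ∈ K, dotp n p ≤ dotp n A) : A ∈ Q := by
  obtain ⟨v, hv1, ⟨hHp, hHn⟩, hOrd⟩ := hord A hA n hn hmax
  have hv : v ≠ 0 := by
    rintro rfl
    unfold dotp at hv1
    simp at hv1
  have hYc : Continuous (hgt A v) := t4a_cont A v
  have hS1 : MeasurableSet {z : ℝ × ℝ | 0 < hgt A v z} :=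
    (isOpen_lt continuous_const hYc).measurableSet
  have hS2 : MeasurableSet {z : ℝ × ℝ | hgt A v z < 0} :=
    (isOpen_lt hYc continuous_const).measurableSet
  obtain ⟨p₁, hp₁Q, hp₁⟩ := t4a_half m Q _ hS1 hHp hm2
  obtain ⟨p₂, hp₂Q, hp₂⟩ := t4a_half m Q _ hS2 hHn hm2
  rw [mem_ofPred_eq] at hp₁ hp₂
  obtain ⟨E, hEd⟩ : ∃ E : Set ℝ, E =
    {η : ℝ | η ≠ 0 ∧ ∃ b ∈ K, ∃ c ∈ K, b ≠ c ∧ hgt A v b = η ∧ hgt A v c = η} := ⟨_, rfl⟩
  have hE : E.Countable := by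
    rw [hEd]
    exact countable_levels K A v hv hOrd
  have hclaim : ∀ p ∈ K, hgt A v p₂ < hgt A v p → hgt A v p < hgt A v p₁ → hgt A v p ≠ 0 →
      hgt A v p ∉ E → p ∈ Q := by
    intro p hp h1 h2 h3 h4
    obtain ⟨q, hqQ, hq⟩ := hQ.intermediate_value hp₂Q hp₁Q hYc.continuousOn ⟨h1.le, h2.le⟩
    by_cases h5 : q = p
    · rw [← h5]
      exact hqQ
    · exfalso
      apply h4
      rw [hEd]
      exact ⟨h3, q, hQK hqQ, p, hp, h5, hq, rfl⟩
  by_contra hAQ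
  have hUo : IsOpen (Qᶜ ∩ {z : ℝ × ℝ | hgt A v p₂ < hgt A v z} ∩
      {z : ℝ × ℝ | hgt A v z < hgt A v p₁}) :=
    (hQc.isOpen_compl.inter (isOpen_lt continuous_const hYc)).inter
      (isOpen_lt hYc continuous_const)
  have hAU : A ∈ Qᶜ ∩ {z : ℝ × ℝ | hgt A v p₂ < hgt A v z} ∩
      {z : ℝ × ℝ | hgt A v z < hgt A v p₁} := by
    refine ⟨⟨hAQ, ?_⟩, ?_⟩
    · rw [mem_ofPred_eq, t4a_self]
      exact hp₂
    · rw [mem_ofPred_eq, t4a_self]
      exact hp₁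
  obtain ⟨ε, hε, hball⟩ := Metric.isOpen_iff.mp hUo A hAU
  have h1 := hK.pos A hA ε hε
  have h2 : Metric.ball A ε ⊆ Kᶜ ∪ {z : ℝ × ℝ | hgt A v z ∈ insert 0 E} := by
    intro z hz
    obtain ⟨⟨hz1, hz2⟩, hz3⟩ := hball hz
    by_cases h3 : z ∈ K
    · right
      rw [mem_ofPred_eq]
      by_contra h4
      rw [mem_insert_iff, not_or] at h4
      exact hz1 (hclaim z h3 hz2 hz3 h4.1 h4.2)
    · left
      exact h3
  have h3 : m (Kᶜ ∪ {z : ℝ × ℝ | hgt A v z ∈ insert 0 E}) = 0 :=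
    measure_union_null hK.null (null_levels m hm A v hv _ (hE.insert 0))
  have h4 := measure_mono_null h2 h3
  exact absurd h4 h1.ne'

end Pool.Agent.LibCX37
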