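import Pool.Agent.LibCX37.T3
import Pool.Agent.LibCX37.T4a

/-!
[CY T4] **A connected part of the support has mass at most 1/2.**
Here `hord` is the order property at every point of `K` which maximises a nonzero linear functional. `mem_of_max`, `null_level`, `null_levels`: file T4a.
PROOF. Suppose `m Q > 1/2`. `K` is compact and nonempty (`m Kᶜ = 0`). Let `A ∈ K` maximise `dotp (1,0)`, `v` from `hord`, `Y = hgt A v`, `E` the countable set of levels `η ≠ 0` of `Y` with two distinct points of `K` (`countable_levels`);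
`A ∈ Q` (`mem_of_max`), `Y A = 0`. Let `B ∈ K` maximise `Y` on `K`; `Y p = dotp n' p - dotp n' A` with `n' = (-v.2, v.1) ≠ 0`, so `B` maximises `dotp n'`: `B ∈ Q` by `mem_of_max`; `Y B > 0` because `m {Y > 0} = 1/2 > 0` and `m Kᶜ = 0`.
Take `w` from `hord` for `B, n'`: `dotp n' w < 0`, `Z = hgt B w`, `Z B = 0`, `m {Z < 0} = m {Z > 0} = 1/2`, `E'` the exceptional levels of `Z`.
Since `m {Y > η₀} → m {Y ≥ Y B} = 0` as `η₀ ↑ Y B` (`K ⊆ {Y ≤ Y B}`, the level `{Y = Y B}` is null; e.g. `tendsto_measure_iInter_atTop` for `η₀ = Y B - 1/(k+1)`), fix `0 < η₀ < Y B` with `m {Y > η₀} < m Q - 1/2`. The set `{η₀ < Y < Y B}` has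
positive mass (the open set `{Y > η₀}` contains a ball around `B`, and `{Y ≥ Y B}` is null), so there is `b ∈ K` with `η := Y b ∈ (η₀, Y B)`, `η ∉ E`, `Z b ≠ 0` (all the excluded sets are null). `A, B ∈ Q` and `Q` is preconnected, `0 = Y A < η < Y B`,
so the level `η` is attained on `Q`; it has only one point of `K`, so `b ∈ Q` and `b` is the only point of `K` at the level `η`.
Let `Z b > 0` (for `Z b < 0` the same argument with `-Z`: `preconnected_cut` for `g = -Z`, and `m {Z > 0} = 1/2`). Choose `ζ ∈ (0, Z b)` with `ζ ∉ E'` (`(Set.Countable.dense_compl ℝ hE').exists_between`). `Q₁ = Q ∩ {Z ≤ ζ}` is preconnected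
(`preconnected_cut`, T3), contains `B`, and has no point with `Y = η` (only `b`, and `Z b > ζ`). `Y B > η`, so `Q₁ ⊆ {Y > η}` (otherwise the intermediate value theorem `IsPreconnected.intermediate_value` gives a point of `Q₁` with `Y = η`). So
`m Q - 1/2 ≤ m (Q ∩ {Z < 0}) ≤ m Q₁ ≤ m {Y > η} ≤ m {Y > η₀} < m Q - 1/2`: contradiction. (`m (Q ∩ {Z < 0}) ≥ m Q - m {Z ≥ 0} = m Q - 1/2`.)
-/

set_option autoImplicit false

namespace Pool.Agent.LibCX37

open MeasureTheory Set Filter Topology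
open scoped ENNReal

theorem t4_hcont (A v : ℝ × ℝ) : Continuous (hgt A v) := by
  unfold hgt det
  fun_prop

theorem t4_self (A v : ℝ × ℝ) : hgt A v A = 0 := by
  unfold hgt det
  ring

theorem t4_cont (n : ℝ × ℝ) : Continuous (dotp n) := by
  unfold dotp
  fun_prop

theorem t4_hgt (A v p : ℝ × ℝ) :
    hgt A v p = dotp (-v.2, v.1) p - dotp (-v.2, v.1) A := by
  unfold hgt det dotp
  simp only [Prod.fst_add, Prod.snd_add]
  ring

theorem t4_core (m : Measure (ℝ × ℝ)) [IsProbabilityMeasure m] (K Q : Set (ℝ × ℝ))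
    (hQK : Q ⊆ K) (hQ : IsPreconnected Q)
    (Y g : ℝ × ℝ → ℝ) (hY : Continuous Y) (hg : Continuous g) (B b : ℝ × ℝ) (hBQ : B ∈ Q)
    (η₀ : ℝ) (hb0 : η₀ < Y b) (hbB : Y b < Y B) (huniq : ∀ p ∈ K, Y p = Y b → p = b)
    (hgB : g B = 0) (hgb : 0 < g b) (hgm : m {z | g z < 0} = 1 / 2)
    (E : Set ℝ) (hE : E.Countable)
    (hlev : ∀ ζ, 0 < ζ → ζ ∉ E → ∀ p ∈ K, ∀ q ∈ K, g p = ζ → g q = ζ → p = q)
    (hm2 : m {z | η₀ < Y z} < m Q - 1 / 2) : False := by
  obtain ⟨ζ, hζE, hζ0, hζb⟩ := (hE.dense_compl ℝ).exists_between hgb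
  have hQ₁ : IsPreconnected (Q ∩ {p | g p ≤ ζ}) :=
    preconnected_cut hQ g hg ζ (fun p hp q hq h1 h2 =>
      hlev ζ hζ0 hζE p (hQK hp) q (hQK hq) h1 h2)
  have hBQ₁ : B ∈ Q ∩ {p | g p ≤ ζ} := by
    refine ⟨hBQ, ?_⟩
    rw [mem_ofPred_eq, hgB]
    exact hζ0.le
  have hno : ∀ p ∈ Q ∩ {p | g p ≤ ζ}, Y p ≠ Y b := by
    rintro p ⟨hp, hpζ⟩ h1
    rw [mem_ofPred_eq, huniq p (hQK hp) h1] at hpζ
    exact absurd hζb (not_lt.mpr hpζ)
  have hall : Q ∩ {p | g p ≤ ζ} ⊆ {z | η₀ < Y z} := by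
    intro p hp
    rw [mem_ofPred_eq]
    by_contra h1
    push Not at h1
    obtain ⟨q, hq, hqb⟩ := hQ₁.intermediate_value hp hBQ₁ hY.continuousOn
      ⟨h1.trans hb0.le, hbB.le⟩
    exact hno q hq hqb
  have hS : MeasurableSet {z : ℝ × ℝ | g z < 0} := (isOpen_lt hg continuous_const).measurableSet
  have h1 : m Q ≤ m (Q ∩ {z | g z < 0}) + 1 / 2 := by
    rw [← measure_inter_add_sdiff Q hS]
    refine add_le_add le_rfl ?_
    have h2 : Q \ {z | g z < 0} ⊆ {z : ℝ × ℝ | g z < 0}ᶜ := fun p hp => hp.2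
    refine (measure_mono h2).trans (le_of_eq ?_)
    rw [prob_compl_eq_one_sub hS, hgm]
    exact ENNReal.sub_half ENNReal.one_ne_top
  have h2 : m Q - 1 / 2 ≤ m (Q ∩ {z | g z < 0}) := tsub_le_iff_right.mpr h1
  have h3 : Q ∩ {z | g z < 0} ⊆ {z | η₀ < Y z} := by
    refine Subset.trans ?_ hall
    rintro p ⟨hp, hp0⟩
    refine ⟨hp, ?_⟩
    rw [mem_ofPred_eq] at hp0 ⊢
    linarith
  exact absurd (h2.trans (measure_mono h3)) (not_le.mpr hm2)

theorem t4_eta (m : Measure (ℝ × ℝ)) [IsProbabilityMeasure m] (Y : ℝ × ℝ → ℝ)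
    (hY : Continuous Y) (y : ℝ) (hy : 0 < y) (hnull : m {z | y ≤ Y z} = 0) (δ : ℝ≥0∞)
    (hδ : 0 < δ) : ∃ η₀ : ℝ, 0 < η₀ ∧ η₀ < y ∧ m {z | η₀ < Y z} < δ := by
  have hanti : Antitone (fun k : ℕ => {z : ℝ × ℝ | y - 1 / ((k : ℝ) + 1) < Y z}) := by
    intro k l hkl z hz
    rw [mem_ofPred_eq] at hz ⊢
    have h1 : 1 / ((l : ℝ) + 1) ≤ 1 / ((k : ℝ) + 1) := by
      apply one_div_le_one_div_of_le (by positivity)
      have h2 : (k : ℝ) ≤ l := by exact_mod_cast hkl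
      linarith
    linarith
  have hinter : (⋂ k : ℕ, {z : ℝ × ℝ | y - 1 / ((k : ℝ) + 1) < Y z}) ⊆ {z | y ≤ Y z} := by
    intro z hz
    rw [mem_iInter] at hz
    rw [mem_ofPred_eq]
    by_contra h
    push Not at h
    obtain ⟨k, hk⟩ := exists_nat_one_div_lt (sub_pos.mpr h)
    have h1 : y - 1 / ((k : ℝ) + 1) < Y z := hz k
    linarith
  have hnull' : m (⋂ k : ℕ, {z : ℝ × ℝ | y - 1 / ((k : ℝ) + 1) < Y z}) = 0 :=
    measure_mono_null hinter hnull
  have htend := tendsto_measure_iInter_atTop (μ := m)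
    (s := fun k : ℕ => {z : ℝ × ℝ | y - 1 / ((k : ℝ) + 1) < Y z})
    (fun k => (isOpen_lt continuous_const hY).measurableSet.nullMeasurableSet) hanti
    ⟨0, measure_ne_top m _⟩
  rw [hnull'] at htend
  have he1 := htend.eventually (gt_mem_nhds hδ)
  have he2 : ∀ᶠ k : ℕ in atTop, 1 / ((k : ℝ) + 1) < y :=
    (tendsto_one_div_add_atTop_nhds_zero_nat (𝕜 := ℝ)).eventually (gt_mem_nhds hy)
  obtain ⟨k, hk1, hk2⟩ := (he1.and he2).exists
  refine ⟨y - 1 / ((k : ℝ) + 1), by linarith, ?_, hk1⟩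
  have h1 : 0 < 1 / ((k : ℝ) + 1) := by positivity
  linarith

theorem connected_mass_le (m : Measure (ℝ × ℝ)) [IsProbabilityMeasure m] (hm : NoLines m)
    (K : Set (ℝ × ℝ)) (hK : Supp m K) (hKc : IsCompact K)
    (hord : ∀ B ∈ K, ∀ n : ℝ × ℝ, n ≠ 0 → (∀ p ∈ K, dotp n p ≤ dotp n B) →
      ∃ v : ℝ × ℝ, dotp n v < 0 ∧ Halves m B v ∧ Ordered K B v)
    (Q : Set (ℝ × ℝ)) (hQK : Q ⊆ K) (hQc : IsClosed Q) (hQ : IsPreconnected Q) :
    m Q ≤ 1 / 2 := by
  by_contra hcon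
  push Not at hcon
  have hKne : K.Nonempty := by
    rcases K.eq_empty_or_nonempty with h | h
    · exfalso
      have h1 := hK.null
      rw [h, compl_empty, measure_univ] at h1
      exact one_ne_zero h1
    · exact h
  obtain ⟨A, hA, hAmax⟩ := hKc.exists_isMaxOn hKne (t4_cont (1, 0)).continuousOn
  have hmaxA : ∀ p ∈ K, dotp (1, 0) p ≤ dotp (1, 0) A := fun p hp => hAmax hp
  have hn0 : ((1 : ℝ), (0 : ℝ)) ≠ 0 := by
    intro h
    have h1 := congrArg Prod.fst h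
    exact one_ne_zero h1
  obtain ⟨v, hv1, ⟨hHp, hHn⟩, hOrd⟩ := hord A hA (1, 0) hn0 hmaxA
  have hAQ : A ∈ Q := mem_of_max m hm K hK hord Q hQK hQc hQ hcon A (1, 0) hA hn0 hmaxA
  have hv : v ≠ 0 := by
    rintro rfl
    unfold dotp at hv1
    simp at hv1
  have hYc : Continuous (hgt A v) := t4_hcont A v
  obtain ⟨B, hB, hBmax⟩ := hKc.exists_isMaxOn hKne hYc.continuousOn
  have hmaxB : ∀ p ∈ K, hgt A v p ≤ hgt A v B := fun p hp => hBmax hp
  have hn' : ((-v.2, v.1) : ℝ × ℝ) ≠ 0 := by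
    intro h
    have h1 := congrArg Prod.fst h
    have h2 := congrArg Prod.snd h
    apply hv
    refine Prod.ext h2 ?_
    have h3 : -v.2 = 0 := h1
    show v.2 = 0
    linarith
  have hmaxB' : ∀ p ∈ K, dotp (-v.2, v.1) p ≤ dotp (-v.2, v.1) B := by
    intro p hp
    have h1 := hmaxB p hp
    rw [t4_hgt, t4_hgt] at h1
    linarith
  have hBQ : B ∈ Q := mem_of_max m hm K hK hord Q hQK hQc hQ hcon B (-v.2, v.1) hB hn' hmaxB'
  have hYB : 0 < hgt A v B := by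
    by_contra h
    push Not at h
    have h1 : {z : ℝ × ℝ | 0 < hgt A v z} ⊆ Kᶜ := by
      intro z hz hzK
      rw [mem_ofPred_eq] at hz
      exact absurd hz (not_lt.mpr ((hmaxB z hzK).trans h))
    have h2 := measure_mono_null h1 hK.null
    rw [hHp] at h2
    simp at h2
  obtain ⟨w, hw1, ⟨hHp', hHn'⟩, hOrd'⟩ := hord B hB (-v.2, v.1) hn' hmaxB'
  have hw : w ≠ 0 := by
    rintro rfl
    unfold dotp at hw1
    simp at hw1
  obtain ⟨E, hEd⟩ : ∃ E : Set ℝ, E =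
    {η : ℝ | η ≠ 0 ∧ ∃ b ∈ K, ∃ c ∈ K, b ≠ c ∧ hgt A v b = η ∧ hgt A v c = η} := ⟨_, rfl⟩
  have hE : E.Countable := by
    rw [hEd]
    exact countable_levels K A v hv hOrd
  obtain ⟨E', hEd'⟩ : ∃ E' : Set ℝ, E' =
    {η : ℝ | η ≠ 0 ∧ ∃ b ∈ K, ∃ c ∈ K, b ≠ c ∧ hgt B w b = η ∧ hgt B w c = η} := ⟨_, rfl⟩
  have hE' : E'.Countable := by
    rw [hEd']
    exact countable_levels K B w hw hOrd'
  -- the level
  have hnull : m {z | hgt A v B ≤ hgt A v z} = 0 := by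
    have h1 : {z : ℝ × ℝ | hgt A v B ≤ hgt A v z} ⊆ Kᶜ ∪ {z | hgt A v z = hgt A v B} := by
      intro z hz
      by_cases h2 : z ∈ K
      · right
        exact le_antisymm (hmaxB z h2) hz
      · left
        exact h2
    exact measure_mono_null h1 (measure_union_null hK.null (null_level m hm A v hv _))
  obtain ⟨η₀, hη₀0, hη₀B, hη₀m⟩ := t4_eta m (hgt A v) hYc (hgt A v B) hYB hnull (m Q - 1 / 2)
    (tsub_pos_of_lt hcon)
  -- the point b
  have hopen : IsOpen {z : ℝ × ℝ | η₀ < hgt A v z} := isOpen_lt continuous_const hYc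
  obtain ⟨ε, hε, hball⟩ := Metric.isOpen_iff.mp hopen B hη₀B
  have hbpos := hK.pos B hB ε hε
  have hN : m ((Kᶜ ∪ {z : ℝ × ℝ | hgt A v z ∈ insert (hgt A v B) E}) ∪
      {z | hgt B w z = 0}) = 0 :=
    measure_union_null (measure_union_null hK.null (null_levels m hm A v hv _ (hE.insert _)))
      (null_level m hm B w hw 0)
  have hex : ¬ Metric.ball B ε ⊆ (Kᶜ ∪ {z : ℝ × ℝ | hgt A v z ∈ insert (hgt A v B) E}) ∪
      {z | hgt B w z = 0} := fun h => hbpos.ne' (measure_mono_null h hN)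
  obtain ⟨b, hbball, hbN⟩ := not_subset.mp hex
  rw [mem_union, mem_union, not_or, not_or] at hbN
  obtain ⟨⟨hbK', hbE'⟩, hbZ⟩ := hbN
  have hbK : b ∈ K := not_not.mp hbK'
  rw [mem_ofPred_eq, mem_insert_iff, not_or] at hbE'
  have hbη : η₀ < hgt A v b := hball hbball
  have hbB : hgt A v b < hgt A v B := lt_of_le_of_ne (hmaxB b hbK) hbE'.1
  have huniq : ∀ p ∈ K, hgt A v p = hgt A v b → p = b := by
    intro p hp h1
    by_contra h2
    apply hbE'.2
    rw [hEd]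
    exact ⟨(hη₀0.trans hbη).ne', p, hp, b, hbK, h2, h1, rfl⟩
  have hbZ0 : hgt B w b ≠ 0 := hbZ
  have hZc : Continuous (hgt B w) := t4_hcont B w
  rcases lt_or_gt_of_ne hbZ0 with hneg | hpos
  · refine t4_core m K Q hQK hQ (hgt A v) (fun z => - hgt B w z) hYc hZc.neg B b hBQ η₀ hbη hbB
      huniq ?_ ?_ ?_ ((fun x : ℝ => -x) ⁻¹' E') (hE'.preimage neg_injective) ?_ hη₀m
    · show - hgt B w B = 0
      rw [t4_self, neg_zero]
    · show 0 < - hgt B w b
      linarith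
    · have h1 : {z : ℝ × ℝ | - hgt B w z < 0} = {z | 0 < hgt B w z} := by
        ext z
        rw [mem_ofPred_eq, mem_ofPred_eq]
        constructor
        · intro h
          linarith
        · intro h
          linarith
      rw [h1]
      exact hHp'
    · intro ζ hζ hζE p hp q hq h1 h2
      by_contra h3
      apply hζE
      show -ζ ∈ E'
      rw [hEd']
      refine ⟨by linarith [hζ] |> fun (h : -ζ < 0) => h.ne, p, hp, q, hq, h3, ?_, ?_⟩
      · linarith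
      · linarith
  · refine t4_core m K Q hQK hQ (hgt A v) (hgt B w) hYc hZc B b hBQ η₀ hbη hbB huniq
      (t4_self B w) hpos hHn' E' hE' ?_ hη₀m
    intro ζ hζ hζE p hp q hq h1 h2
    by_contra h3
    apply hζE
    rw [hEd']
    exact ⟨hζ.ne', p, hp, q, hq, h3, h1, h2⟩

end Pool.Agent.LibCX37
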