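import Pool.Agent.LibCX37.P2
import Pool.Agent.LibCX37.T1
import Pool.Agent.LibCX37.T2
import Pool.Agent.LibCX37.D1

/-!
Assembly: an optimal drawing has an essential range of Hausdorff dimension at most one.
-/

set_option autoImplicit false

namespace Pool.Agent.LibCX37

open MeasureTheory Set Filter Topology
open scoped ENNReal

theorem det_smul_dir (x v : ℝ × ℝ) (c : ℝ) (z : ℝ × ℝ) :
    det x (x + c • v) z = c * det x (x + v) z := by
  simp only [det, Prod.fst_add, Prod.snd_add, Prod.smul_fst, Prod.smul_snd, smul_eq_mul]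
  ring

theorem measurable_det_dir (x w : ℝ × ℝ) : Measurable (fun z : ℝ × ℝ => det x w z) := by
  unfold det
  fun_prop

theorem not_half_neg (m : Measure (ℝ × ℝ)) [IsProbabilityMeasure m] (hm : NoLines m)
    (x v : ℝ × ℝ) (hv : v ≠ 0) (h : m {z | 0 < det x (x + v) z} ≠ 1 / 2) :
    m {z | 0 < det x (x + -v) z} ≠ 1 / 2 := by
  intro h2
  apply h
  have e : {z | 0 < det x (x + -v) z} = {z | det x (x + v) z < 0} := by
    ext z
    have := det_smul_dir x v (-1) z
    rw [neg_one_smul] at this
    simp only [mem_setOf_eq, this]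
    constructor <;> intro h <;> linarith
  rw [e] at h2
  have hms : MeasurableSet {z : ℝ × ℝ | 0 < det x (x + v) z} :=
    measurableSet_lt measurable_const (measurable_det_dir x (x + v))
  have hmc := measure_compl hms (measure_ne_top m _)
  have hc : m {z | 0 < det x (x + v) z}ᶜ = 1 / 2 := by
    rw [← h2]
    apply measure_congr
    have h0 : ∀ᵐ z ∂m, det x (x + v) z ≠ 0 := by
      rw [ae_iff]
      simpa using hm x v hv
    filter_upwards [h0] with z hz
    apply propext
    change ¬ (0 < det x (x + v) z) ↔ det x (x + v) z < 0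
    constructor
    · intro h
      exact lt_of_le_of_ne (not_lt.mp h) hz
    · intro h
      exact not_lt.mpr h.le
  rw [hc, measure_univ] at hmc
  have hle : m {z | 0 < det x (x + v) z} ≤ 1 := prob_le_one
  have : m {z | 0 < det x (x + v) z} = 1 - (1 - m {z | 0 < det x (x + v) z}) := by
    rw [ENNReal.sub_sub_cancel ENNReal.one_ne_top hle]
  rw [this, ← hmc]
  rw [one_div, ENNReal.one_sub_inv_two]

theorem Attains.dimH_le_one {f : unitInterval → ℝ × ℝ} (h : Attains f) :
    dimH (essRange f) ≤ 1 := by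
  have hm : NoLines (law f) := h.noLines
  haveI : IsProbabilityMeasure (law f) := Measure.isProbabilityMeasure_map h.1.1.aemeasurable
  -- the exceptional point
  obtain ⟨x0, hx0⟩ : ∃ x0 : ℝ × ℝ, ∀ x, x ≠ x0 →
      ∃ v : ℝ × ℝ, v ≠ 0 ∧ law f {z | 0 < det x (x + v) z} ≠ 1 / 2 := by
    by_cases hc : ∃ x0 : ℝ × ℝ, ∀ v : ℝ × ℝ, v ≠ 0 → law f {z | 0 < det x0 (x0 + v) z} = 1 / 2
    · obtain ⟨x0, hx0⟩ := hc
      refine ⟨x0, fun x hx => ?_⟩
      by_contra hcon
      push Not at hcon
      exact not_two_centres (law f) hm x x0 hx hcon hx0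
    · push Not at hc
      exact ⟨0, fun x _ => hc x⟩
  apply dimH_le_one_of_missing (essRange f) x0
  intro x hx hxx
  obtain ⟨v, hv, hhalf⟩ := hx0 x hxx
  have hnv : (0 : ℝ) < ‖v‖ := norm_pos_iff.mpr hv
  have hhalf' : law f {z | 0 < det x (x + (‖v‖⁻¹ • v)) z} ≠ 1 / 2 := by
    have e : {z | 0 < det x (x + (‖v‖⁻¹ • v)) z} = {z | 0 < det x (x + v) z} := by
      ext z
      simp only [mem_setOf_eq, det_smul_dir]
      constructor
      · intro h
        exact pos_of_mul_pos_right h (by positivity) |> fun h => h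
      · intro h
        positivity
    rw [e]
    exact hhalf
  have hne' : ‖v‖⁻¹ • v ≠ 0 := smul_ne_zero (inv_ne_zero hnv.ne') hv
  refine ⟨‖v‖⁻¹ • v, ?_, ?_⟩
  · rw [norm_smul, norm_inv, norm_norm, inv_mul_cancel₀ hnv.ne']
  · intro y hy hlim
    constructor
    · intro hd
      exact hhalf' (tangent_halving (law f) hm x _ y (fun n => (hy n).2) hlim hd
        (fun n => h.pair hx (hy n).1 (hy n).2.symm))
    · intro hd
      exact not_half_neg (law f) hm x _ hne' hhalf' (tangent_halving (law f) hm x _ y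
        (fun n => (hy n).2) hlim hd (fun n => h.pair hx (hy n).1 (hy n).2.symm))

end Pool.Agent.LibCX37
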