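import Pool.Agent.LibCX37.T4
import Pool.Agent.LibCX37.O3
import Pool.Agent.LibCX37.L2

/-!
Assembly of the second part.
-/

set_option autoImplicit false

namespace Pool.Agent.LibCX37

open MeasureTheory Set Filter Topology
open scoped ENNReal NNReal

/-- an optimal drawing: a preconnected part of the essential range carries mass at most `1/2` -/
theorem Attains.preconnected_le {f : unitInterval → ℝ × ℝ} (h : Attains f) (Q : Set (ℝ × ℝ))
    (hQK : Q ⊆ essRange f) (hQ : IsPreconnected Q) : volume (f ⁻¹' Q) ≤ 1 / 2 := by
  have hS := supp_essRange f h.1.1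
  have : IsProbabilityMeasure (law f) := Measure.isProbabilityMeasure_map h.1.1.aemeasurable
  have hc : closure Q ⊆ essRange f := closure_minimal hQK hS.closed
  have h1 := connected_mass_le (law f) h.noLines (essRange f) hS (isCompact_essRange f h.1)
    (fun B hB n hn hsup => h.ordered hB hn hsup) (closure Q) hc isClosed_closure hQ.closure
  unfold law at h1
  rw [Measure.map_apply h.1.1 isClosed_closure.measurableSet] at h1
  exact (measure_mono (preimage_mono subset_closure)).trans h1

theorem Attains.not_continuous {f : unitInterval → ℝ × ℝ} (h : Attains f) : ¬ Continuous f := by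
  intro hf
  have h1 := h.preconnected_le (essRange f) subset_rfl (by
    rw [essRange_eq_range f hf]
    exact (isConnected_range hf).isPreconnected)
  rw [essRange_eq_range f hf, preimage_range, measure_univ] at h1
  have h2 : (1 : ℝ≥0∞) / 2 < 1 := by
    rw [one_div]
    exact ENNReal.inv_lt_one.mpr (by norm_num)
  exact absurd h1 (not_le.mpr h2)

/-- an optimal drawing: the essential range is covered by countably many Lipschitz curves -/
theorem Attains.cover {f : unitInterval → ℝ × ℝ} (h : Attains f) :
    ∃ g : ℕ → ℝ → ℝ × ℝ, (∀ i, ∃ C : ℝ≥0, LipschitzWith C (g i)) ∧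
      essRange f ⊆ ⋃ i, range (g i) := by
  have hK := isCompact_essRange f h.1
  have hne := nonempty_essRange f h.1.1
  obtain ⟨A, hA, hmax⟩ := hK.exists_isMaxOn hne (f := fun p => dotp (1, 0) p)
    (by unfold dotp; fun_prop)
  obtain ⟨v, hv, -, ho⟩ := h.ordered (n := (1, 0)) hA (by simp) (fun p hp => hmax hp)
  have hv0 : v ≠ 0 := by
    rintro rfl
    simp [dotp] at hv
  exact lipschitz_cover (essRange f) A v hv0 ho

end Pool.Agent.LibCX37
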