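import Pool.Agent.LibCX37.Z
import Pool.Agent.LibCX37.Z2

/-!
Assembly of the local form of the dimension theorem: the essential range of an optimal drawing is, off one point, locally
contained in the graph of a Lipschitz function (in suitable linear coordinates).
PROOF. Take `A` in `K := essRange f` maximising `(1,0)`, with its halving direction `v`; then `B` in `K` maximising the height over
this halving line; the height of `B` is positive (half of the mass is above the line), and the halving direction `w` of `B` given by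
`Attains.ordered` is not parallel to `v`. The two lines have one common point `x₀`. A point `x ≠ x₀` of `K` is off one of the two
lines, and `local_of_ordered` applies.
-/

set_option autoImplicit false

namespace Pool.Agent.LibCX37

open MeasureTheory Set Filter Topology
open scoped ENNReal NNReal

/-- the determinant of two vectors -/
def crs (u w : ℝ × ℝ) : ℝ := u.1 * w.2 - u.2 * w.1

theorem crs_le (u w : ℝ × ℝ) : |crs u w| ≤ 2 * ‖u‖ * ‖w‖ := by
  have h1 : |u.1| ≤ ‖u‖ := norm_fst_le u
  have h2 : |u.2| ≤ ‖u‖ := norm_snd_le u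
  have h3 : |w.1| ≤ ‖w‖ := norm_fst_le w
  have h4 : |w.2| ≤ ‖w‖ := norm_snd_le w
  unfold crs
  calc |u.1 * w.2 - u.2 * w.1| ≤ |u.1 * w.2| + |u.2 * w.1| := abs_sub _ _
    _ = |u.1| * |w.2| + |u.2| * |w.1| := by rw [abs_mul, abs_mul]
    _ ≤ ‖u‖ * ‖w‖ + ‖u‖ * ‖w‖ := by gcongr
    _ = 2 * ‖u‖ * ‖w‖ := by ring

/-- near a point off the line through `A` with direction `v`, an ordered set lies on a Lipschitz graph -/
theorem local_of_ordered (K : Set (ℝ × ℝ)) (A v : ℝ × ℝ) (ho : Ordered K A v) (x : ℝ × ℝ)
    (hx : hgt A v x ≠ 0) : ∃ ε : ℝ, 0 < ε ∧ ∃ w : ℝ × ℝ, w ≠ 0 ∧ ∃ c : ℝ, 0 < c ∧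
      ∀ y ∈ K ∩ Metric.ball x ε, ∀ z ∈ K ∩ Metric.ball x ε, c * ‖z - y‖ ≤ |crs w (z - y)| := by
  set X : ℝ × ℝ := x - A with hX
  have hvX : crs v X = hgt A v x := by
    simp only [crs, hgt, det, hX, Prod.fst_sub, Prod.snd_sub, Prod.fst_add, Prod.snd_add]
    ring
  have hD : 0 < |crs v X| := by
    rw [hvX]
    exact abs_pos.mpr hx
  set M : ℝ := ‖v‖ + ‖X‖ with hM
  have hMpos : 0 < M := by
    rcases eq_or_ne v 0 with h0 | h0
    · exfalso
      rw [h0] at hD
      simp [crs] at hD
    · have : 0 < ‖v‖ := norm_pos_iff.mpr h0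
      have : 0 ≤ ‖X‖ := norm_nonneg X
      linarith
  -- linear independence of the two functionals
  have hind : ∀ u : ℝ × ℝ, |crs v X| * ‖u‖ ≤ M * (|crs v u| + |crs X u|) := by
    intro u
    have e : (crs v X) • u = (crs u X) • v + (crs v u) • X := by
      ext
      · simp only [crs, Prod.smul_fst, Prod.fst_add, smul_eq_mul]
        ring
      · simp only [crs, Prod.smul_snd, Prod.snd_add, smul_eq_mul]
        ring
    have h1 : ‖(crs v X) • u‖ ≤ |crs u X| * ‖v‖ + |crs v u| * ‖X‖ := by
      rw [e]
      refine (norm_add_le _ _).trans ?_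
      rw [norm_smul, norm_smul, Real.norm_eq_abs, Real.norm_eq_abs]
    rw [norm_smul, Real.norm_eq_abs] at h1
    have h2 : |crs u X| = |crs X u| := by
      have : crs u X = -crs X u := by unfold crs; ring
      rw [this, abs_neg]
    rw [h2] at h1
    have a1 := abs_nonneg (crs X u)
    have a2 := abs_nonneg (crs v u)
    have a3 := norm_nonneg v
    have a4 := norm_nonneg X
    nlinarith [mul_nonneg a1 a4, mul_nonneg a2 a3]
  set c0 : ℝ := |crs v X| / M with hc0
  have hc0pos : 0 < c0 := div_pos hD hMpos
  have hind' : ∀ u : ℝ × ℝ, c0 * ‖u‖ ≤ |crs v u| + |crs X u| := by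
    intro u
    rw [hc0, div_mul_eq_mul_div, div_le_iff₀ hMpos]
    linarith [hind u]
  refine ⟨c0 / 8, by positivity, v + X, ?_, c0 / 2, by positivity, ?_⟩
  · intro h0
    have : crs v (v + X) = crs v X := by
      simp only [crs, Prod.fst_add, Prod.snd_add]
      ring
    rw [h0] at this
    rw [← this] at hD
    simp [crs] at hD
  · rintro y ⟨hyK, hy⟩ z ⟨hzK, hz⟩
    set u : ℝ × ℝ := z - y with hu
    set Y : ℝ × ℝ := y - A with hY
    have hprod : 0 ≤ crs Y u * crs v u := by
      have h1 := ho y hyK z hzK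
      have e1 : det y z A = crs Y u := by
        simp only [crs, det, hY, hu, Prod.fst_sub, Prod.snd_sub]
        ring
      have e2 : hgt A v z - hgt A v y = crs v u := by
        simp only [crs, hgt, det, hu, Prod.fst_sub, Prod.snd_sub, Prod.fst_add, Prod.snd_add]
        ring
      rwa [e1, e2] at h1
    have hsum : |crs (v + Y) u| = |crs v u| + |crs Y u| := by
      have e : crs (v + Y) u = crs v u + crs Y u := by
        simp only [crs, Prod.fst_add, Prod.snd_add]
        ring
      rw [e]
      have : (0 ≤ crs v u ∧ 0 ≤ crs Y u) ∨ (crs v u ≤ 0 ∧ crs Y u ≤ 0) := by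
        rcases le_total 0 (crs v u) with h | h <;> rcases le_total 0 (crs Y u) with h' | h'
        · exact Or.inl ⟨h, h'⟩
        · rcases eq_or_lt_of_le h with h0 | h0
          · right
            exact ⟨h0.symm.le, h'⟩
          · left
            refine ⟨h, ?_⟩
            by_contra hcon
            push Not at hcon
            nlinarith
        · rcases eq_or_lt_of_le h with h0 | h0
          · left
            exact ⟨h0.symm.le, h'⟩
          · right
            refine ⟨h, ?_⟩
            by_contra hcon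
            push Not at hcon
            nlinarith
        · exact Or.inr ⟨h, h'⟩
      rcases this with ⟨h1, h2⟩ | ⟨h1, h2⟩
      · rw [abs_of_nonneg h1, abs_of_nonneg h2, abs_of_nonneg (add_nonneg h1 h2)]
      · rw [abs_of_nonpos h1, abs_of_nonpos h2, abs_of_nonpos (add_nonpos h1 h2)]
        ring
    have hdiff : ‖Y - X‖ ≤ c0 / 8 := by
      have : Y - X = y - x := by
        rw [hY, hX]
        abel
      rw [this, ← dist_eq_norm]
      exact (Metric.mem_ball.mp hy).le
    have hYX : |crs (Y - X) u| ≤ c0 / 4 * ‖u‖ := by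
      refine (crs_le _ _).trans ?_
      have := norm_nonneg u
      nlinarith
    have e1 : crs (v + X) u = crs (v + Y) u - crs (Y - X) u := by
      simp only [crs, Prod.fst_add, Prod.snd_add, Prod.fst_sub, Prod.snd_sub]
      ring
    have e2 : crs X u = crs Y u - crs (Y - X) u := by
      simp only [crs, Prod.fst_sub, Prod.snd_sub]
      ring
    have h1 : |crs (v + Y) u| ≤ |crs (v + X) u| + |crs (Y - X) u| := by
      rw [e1]
      have := abs_sub_abs_le_abs_sub (crs (v + Y) u) (crs (Y - X) u)
      linarith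
    have h2 : |crs X u| ≤ |crs Y u| + |crs (Y - X) u| := by
      rw [e2]
      exact abs_sub _ _
    have h3 := hind' u
    linarith

theorem crs_line (A v x y : ℝ × ℝ) (hv : v ≠ 0) (hx : hgt A v x = 0) (hy : hgt A v y = 0) :
    crs v (x - y) = 0 := by
  simp only [hgt, det, Prod.fst_add, Prod.snd_add] at hx hy
  simp only [crs, Prod.fst_sub, Prod.snd_sub]
  linarith

theorem exists_hgt_pos (m : Measure (ℝ × ℝ)) (K : Set (ℝ × ℝ)) (hK : Supp m K) (A v : ℝ × ℝ)
    (hH : Halves m A v) : ∃ p ∈ K, 0 < hgt A v p := by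
  by_contra hcon
  push Not at hcon
  have h1 : m {z | 0 < hgt A v z} ≤ m Kᶜ := by
    apply measure_mono
    intro z hz hzK
    exact absurd hz (not_lt.mpr (hcon z hzK))
  rw [hK.null, hH.1] at h1
  have h2 : (1 : ℝ≥0∞) / 2 = 0 := le_antisymm h1 bot_le
  simp at h2

/-- an optimal drawing: off one point the essential range is locally contained in a Lipschitz graph -/
theorem Attains.local_graph {f : unitInterval → ℝ × ℝ} (h : Attains f) :
    ∃ x₀ : ℝ × ℝ, ∀ x : ℝ × ℝ, x ≠ x₀ → ∃ ε : ℝ, 0 < ε ∧ ∃ w : ℝ × ℝ, w ≠ 0 ∧ ∃ c : ℝ, 0 < c ∧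
      ∀ y ∈ essRange f ∩ Metric.ball x ε, ∀ z ∈ essRange f ∩ Metric.ball x ε,
        c * ‖z - y‖ ≤ |crs w (z - y)| := by
  have hS := supp_essRange f h.1.1
  have hK := isCompact_essRange f h.1
  have hne := nonempty_essRange f h.1.1
  obtain ⟨A, hA, hmaxA⟩ := hK.exists_isMaxOn hne (f := fun p => dotp (1, 0) p)
    (by unfold dotp; fun_prop)
  obtain ⟨v, hv, hHv, hov⟩ := h.ordered (n := (1, 0)) hA (by simp) (fun p hp => hmaxA hp)
  have hv0 : v ≠ 0 := by
    rintro rfl
    simp [dotp] at hv
  obtain ⟨p, hpK, hp⟩ := exists_hgt_pos (law f) (essRange f) hS A v hHv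
  set n : ℝ × ℝ := (-v.2, v.1) with hn
  have hndot : ∀ q : ℝ × ℝ, dotp n q = hgt A v q + dotp n A := by
    intro q
    simp only [dotp, hgt, det, hn, Prod.fst_add, Prod.snd_add]
    ring
  obtain ⟨B, hB, hmaxB⟩ := hK.exists_isMaxOn hne (f := fun p => dotp n p)
    (by unfold dotp; fun_prop)
  have hn0 : n ≠ 0 := by
    intro h0
    apply hv0
    have h1 := congrArg Prod.fst h0
    have h2 := congrArg Prod.snd h0
    simp only [hn, Prod.fst_zero, Prod.snd_zero] at h1 h2
    ext
    · simpa using h2
    · simpa using neg_eq_zero.mp h1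
  obtain ⟨w, hw, hHw, how⟩ := h.ordered (n := n) hB hn0 (fun p hp => hmaxB hp)
  have hvw : crs v w ≠ 0 := by
    have : dotp n w = crs v w := by
      simp only [dotp, hn, crs]
      ring
    rw [← this]
    exact hw.ne
  have hw0 : w ≠ 0 := by
    rintro rfl
    simp [crs] at hvw
  -- the two halving lines have at most one common point
  by_cases hex : ∃ x₀, hgt A v x₀ = 0 ∧ hgt B w x₀ = 0
  · obtain ⟨x₀, h1, h2⟩ := hex
    refine ⟨x₀, fun x hx => ?_⟩
    by_cases hxA : hgt A v x = 0
    · have hxB : hgt B w x ≠ 0 := by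
        intro hxB
        apply hx
        have e1 := crs_line A v x x₀ hv0 hxA h1
        have e2 := crs_line B w x x₀ hw0 hxB h2
        have e3 : (crs v w) • (x - x₀) = (0 : ℝ × ℝ) := by
          have : (crs v w) • (x - x₀) = (crs (x - x₀) w) • v + (crs v (x - x₀)) • w := by
            ext
            · simp only [crs, Prod.smul_fst, Prod.fst_add, smul_eq_mul]
              ring
            · simp only [crs, Prod.smul_snd, Prod.snd_add, smul_eq_mul]
              ring
          rw [this, e1]
          have : crs (x - x₀) w = -crs w (x - x₀) := by unfold crs; ring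
          rw [this, e2]
          simp
        rcases smul_eq_zero.mp e3 with h0 | h0
        · exact absurd h0 hvw
        · exact sub_eq_zero.mp h0
      exact local_of_ordered (essRange f) B w how x hxB
    · exact local_of_ordered (essRange f) A v hov x hxA
  · push Not at hex
    refine ⟨0, fun x _ => ?_⟩
    by_cases hxA : hgt A v x = 0
    · exact local_of_ordered (essRange f) B w how x (hex x hxA)
    · exact local_of_ordered (essRange f) A v hov x hxA

end Pool.Agent.LibCX37
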