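import Pool.Agent.LibCX37.B2
import Pool.Agent.LibCX37.M8
import Pool.Agent.LibCX37.M10
import Pool.Agent.LibCX37.M11
import Pool.Agent.LibCX37.M12a
import Pool.Agent.LibCX37.Z3

/-!
Assembly of the third part: the convex hull of the essential range of an optimal drawing is a triangle.
-/

set_option autoImplicit false

namespace Pool.Agent.LibCX37

open MeasureTheory Set Filter Topology
open scoped ENNReal NNReal

theorem Attains.En_lt_half {f : unitInterval → ℝ × ℝ} (h : Attains f) : En f < 1 / 2 := by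
  obtain ⟨g, hg, hlt⟩ := exists_drawing_lt_half
  exact (h.En_le hg).trans_lt hlt

/-- the potential is constant, equal to the energy, on the essential range -/
theorem Attains.psi_eq {f : unitInterval → ℝ × ℝ} (h : Attains f) {x : ℝ × ℝ}
    (hx : x ∈ essRange f) : Psi (law f) x = En f := by
  have hf : Measurable f := h.1.1
  have : IsProbabilityMeasure (law f) := Measure.isProbabilityMeasure_map hf.aemeasurable
  have hS := supp_essRange f hf
  rw [En_eq_quad f hf, p0_quad_psi]
  have hae : ∀ᵐ y ∂(law f), Psi (law f) y = Psi (law f) x := by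
    have h1 : ∀ᵐ p ∂(law f), p ∉ (essRange f)ᶜ := measure_eq_zero_iff_ae_notMem.mp hS.null
    filter_upwards [h1] with p hp
    have hp' : p ∈ essRange f := by simpa using hp
    exact le_antisymm (h.psi_le hp' x) (h.psi_le hx p)
  rw [lintegral_congr_ae hae]
  simp

theorem dotp_sub_smul (n V v : ℝ × ℝ) (s : ℝ) : dotp n (V - s • v) = dotp n V - s * dotp n v := by
  simp only [dotp, Prod.fst_sub, Prod.snd_sub, Prod.smul_fst, Prod.smul_snd, smul_eq_mul]
  ring

/-- two points of the essential range on the boundary of its convex hull: the essential range is on one side of their line -/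
theorem Attains.edge {f : unitInterval → ℝ × ℝ} (h : Attains f) {V V' n n' : ℝ × ℝ}
    (hV : V ∈ essRange f) (hV' : V' ∈ essRange f) (hVV : V ≠ V') (hn : n ≠ 0) (hn' : n' ≠ 0)
    (hsup : ∀ p ∈ essRange f, dotp n p ≤ dotp n V)
    (hsup' : ∀ p ∈ essRange f, dotp n' p ≤ dotp n' V') :
    (∀ p ∈ essRange f, det V V' p ≤ 0) ∨ (∀ p ∈ essRange f, 0 ≤ det V V' p) := by
  have hf : Measurable f := h.1.1
  have : IsProbabilityMeasure (law f) := Measure.isProbabilityMeasure_map hf.aemeasurable
  have hS := supp_essRange f hf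
  have hKb : Bornology.IsBounded (essRange f) := (isCompact_essRange f h.1).isBounded
  obtain ⟨v, hv, hH, ho⟩ := h.ordered hV hn hsup
  obtain ⟨v', hv', hH', ho'⟩ := h.ordered hV' hn' hsup'
  have hv0 : v ≠ 0 := by
    rintro rfl
    simp [dotp] at hv
  have hv0' : v' ≠ 0 := by
    rintro rfl
    simp [dotp] at hv'
  have hnot : ∀ lam : ℝ, 0 < lam → v' ≠ -(lam • v) := by
    intro lam hlam hvv
    have h1 := psi_add_of_antiparallel (law f) h.noLines (essRange f) hS V V' v v' n n' hsup hsup'
      hv hv' ho ho' lam hlam hvv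
    rw [h.psi_eq hV, h.psi_eq hV'] at h1
    have h2 := h.En_lt_half
    have h3 : En f + En f < 1 / 2 + 1 / 2 := ENNReal.add_lt_add h2 h2
    rw [h1, ENNReal.add_halves] at h3
    exact lt_irrefl _ h3
  obtain ⟨g, hg, hg'⟩ := exists_functional v v' hv0 hv0' hnot
  refine edge_of_four (law f) h.noLines (essRange f) hS hKb V V' v v' n n' g hV hV' hVV hsup hsup'
    hv hv' hH hH' ho ho' hg hg' ?_
  intro s s' hs hs'
  have e1 : dotp n V < dotp n (V - s • v) := by
    rw [dotp_sub_smul]
    nlinarith [mul_pos hs (neg_pos.mpr hv)]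
  have e2 : dotp n' V' < dotp n' (V' - s' • v') := by
    rw [dotp_sub_smul]
    nlinarith [mul_pos hs' (neg_pos.mpr hv')]
  refine h.four hV hV' hVV ?_ ?_ ?_ ?_ ?_ ?_
  · exact (psi_ray (law f) h.noLines (essRange f) hS V v ho s hs.le).le
  · exact (psi_ray (law f) h.noLines (essRange f) hS V' v' ho' s' hs'.le).le
  · intro hz
    rw [hz] at e1
    exact lt_irrefl _ e1
  · intro hz
    rw [hz] at e1
    exact absurd (hsup V' hV') (not_le.mpr e1)
  · intro hz
    rw [hz] at e2
    exact absurd (hsup' V hV) (not_le.mpr e2)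
  · intro hz
    rw [hz] at e2
    exact lt_irrefl _ e2

theorem exists_hgt_neg (m : Measure (ℝ × ℝ)) (K : Set (ℝ × ℝ)) (hK : Supp m K) (A v : ℝ × ℝ)
    (hH : Halves m A v) : ∃ p ∈ K, hgt A v p < 0 := by
  by_contra hcon
  push Not at hcon
  have h1 : m {z | hgt A v z < 0} ≤ m Kᶜ := by
    apply measure_mono
    intro z hz hzK
    exact absurd hz (not_lt.mpr (hcon z hzK))
  rw [hK.null, hH.2] at h1
  have h2 : (1 : ℝ≥0∞) / 2 = 0 := le_antisymm h1 bot_le
  simp at h2

/-- a point of `K` on the line `XY`, other than `X` and `Y`, cannot have `K` on one side of its line to `Z` -/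
theorem strict_aux (K : Set (ℝ × ℝ)) (X Y Z p : ℝ × ℝ) (hX : X ∈ K) (hY : Y ∈ K)
    (hD : det X Y Z ≠ 0) (h1 : 0 ≤ det X Y Z * det Y Z p) (h2 : 0 ≤ det X Y Z * det Z X p)
    (hpX : p ≠ X) (hpY : p ≠ Y)
    (hedge : det X Y p = 0 → (∀ q ∈ K, det p Z q ≤ 0) ∨ (∀ q ∈ K, 0 ≤ det p Z q)) :
    det X Y p ≠ 0 := by
  intro h0
  have hsum : det Y Z p + det Z X p = det X Y Z := by
    have : det Y Z p + det Z X p + det X Y p = det X Y Z := by unfold det; ring
    linarith
  -- the two barycentric coordinates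
  set D : ℝ := det X Y Z with hDdef
  have e1 : D * (p.1 - X.1) = det Z X p * (Y.1 - X.1) := by
    have : D * (p.1 - X.1) - det Z X p * (Y.1 - X.1) = (Z.1 - X.1) * det X Y p := by
      rw [hDdef]
      unfold det
      ring
    rw [h0] at this
    linarith
  have e2 : D * (p.2 - X.2) = det Z X p * (Y.2 - X.2) := by
    have : D * (p.2 - X.2) - det Z X p * (Y.2 - X.2) = (Z.2 - X.2) * det X Y p := by
      rw [hDdef]
      unfold det
      ring
    rw [h0] at this
    linarith
  have hz : det Z X p ≠ 0 := by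
    intro hz
    rw [hz, zero_mul] at e1 e2
    apply hpX
    ext
    · have := (mul_eq_zero.mp e1).resolve_left hD
      linarith
    · have := (mul_eq_zero.mp e2).resolve_left hD
      linarith
  have hy : det Y Z p ≠ 0 := by
    intro hy
    have hzD : det Z X p = D := by linarith
    rw [hzD] at e1 e2
    apply hpY
    ext
    · have := mul_left_cancel₀ hD e1
      linarith
    · have := mul_left_cancel₀ hD e2
      linarith
  have a1 : det p Z X = det Z X p := by unfold det; ring
  have a2 : det p Z Y = -det Y Z p := by unfold det; ring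
  have h1' : 0 < D * det Y Z p := lt_of_le_of_ne h1 (mul_ne_zero hD hy).symm
  have h2' : 0 < D * det Z X p := lt_of_le_of_ne h2 (mul_ne_zero hD hz).symm
  rcases hedge h0 with h | h
  · have b1 := h X hX
    have b2 := h Y hY
    rw [a1] at b1
    rw [a2] at b2
    nlinarith [mul_pos h1' h2', mul_nonneg_of_nonpos_of_nonpos b1 b2, sq_nonneg D]
  · have b1 := h X hX
    have b2 := h Y hY
    rw [a1] at b1
    rw [a2] at b2
    nlinarith [mul_pos h1' h2', mul_nonneg b1 b2, sq_nonneg D]

/-- an optimal drawing: the convex hull of the essential range is a triangle, and the essential range meets its boundary only in the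
three vertices -/
theorem Attains.triangle {f : unitInterval → ℝ × ℝ} (h : Attains f) :
    ∃ A ∈ essRange f, ∃ B ∈ essRange f, ∃ C ∈ essRange f, det A B C ≠ 0 ∧
      ∀ p ∈ essRange f, p ≠ A → p ≠ B → p ≠ C → p ∈ interior (convexHull ℝ {A, B, C}) := by
  have hS := supp_essRange f h.1.1
  have hK := isCompact_essRange f h.1
  have hne := nonempty_essRange f h.1.1
  -- the lexicographic maximum
  obtain ⟨A₀, hA₀, hmax₀⟩ := hK.exists_isMaxOn hne (f := fun p : ℝ × ℝ => p.1) (by fun_prop)
  have hK1 : IsCompact (essRange f ∩ {p : ℝ × ℝ | p.1 = A₀.1}) :=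
    hK.inter_right (isClosed_eq (by fun_prop) (by fun_prop))
  obtain ⟨A, ⟨hA, hA1⟩, hmaxA⟩ := hK1.exists_isMaxOn ⟨A₀, hA₀, rfl⟩
    (f := fun p : ℝ × ℝ => p.2) (by fun_prop)
  have hx : ∀ p ∈ essRange f, p.1 ≤ A.1 := by
    intro p hp
    have h1 : p.1 ≤ A₀.1 := hmax₀ hp
    have h2 : A.1 = A₀.1 := hA1
    linarith
  have hy : ∀ p ∈ essRange f, p.1 = A.1 → p.2 ≤ A.2 := by
    intro p hp hp1
    have h2 : A.1 = A₀.1 := hA1
    exact hmaxA ⟨hp, by rw [mem_setOf_eq, hp1, h2]⟩
  have hsA : ∀ p ∈ essRange f, dotp (1, 0) p ≤ dotp (1, 0) A := by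
    intro p hp
    simpa [dotp] using hx p hp
  obtain ⟨v, hv, hHv, hov⟩ := h.ordered (n := (1, 0)) hA (by simp) hsA
  have hv0 : v ≠ 0 := by
    rintro rfl
    simp [dotp] at hv
  set n : ℝ × ℝ := (-v.2, v.1) with hn
  have hndot : ∀ q : ℝ × ℝ, dotp n q = hgt A v q + dotp n A := by
    intro q
    simp only [dotp, hgt, det, hn, Prod.fst_add, Prod.snd_add]
    ring
  have hn0 : n ≠ 0 := by
    intro h0
    apply hv0
    have h1 := congrArg Prod.fst h0
    have h2 := congrArg Prod.snd h0
    simp only [hn, Prod.fst_zero, Prod.snd_zero] at h1 h2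
    ext
    · simpa using h2
    · simpa using neg_eq_zero.mp h1
  have hdneg : ∀ q : ℝ × ℝ, dotp (-n) q = -dotp n q := by
    intro q
    simp only [dotp, Prod.fst_neg, Prod.snd_neg]
    ring
  obtain ⟨B, hB, hmaxB⟩ := hK.exists_isMaxOn hne (f := fun p => dotp n p)
    (by unfold dotp; fun_prop)
  obtain ⟨C, hC, hmaxC⟩ := hK.exists_isMaxOn hne (f := fun p => dotp (-n) p)
    (by unfold dotp; fun_prop)
  have hsB : ∀ p ∈ essRange f, dotp n p ≤ dotp n B := fun p hp => hmaxB hp
  have hsC : ∀ p ∈ essRange f, dotp (-n) p ≤ dotp (-n) C := fun p hp => hmaxC hp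
  have hBpos : 0 < hgt A v B := by
    obtain ⟨p, hp, hp0⟩ := exists_hgt_pos (law f) (essRange f) hS A v hHv
    have h1 := hsB p hp
    rw [hndot p, hndot B] at h1
    linarith
  have hCneg : hgt A v C < 0 := by
    obtain ⟨p, hp, hp0⟩ := exists_hgt_neg (law f) (essRange f) hS A v hHv
    have h1 := hsC p hp
    rw [hdneg p, hdneg C, hndot p, hndot C] at h1
    linarith
  have hgA : hgt A v A = 0 := by
    simp only [hgt, det, Prod.fst_add, Prod.snd_add]
    ring
  have hAB : A ≠ B := by
    rintro rfl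
    linarith
  have hAC : C ≠ A := by
    rintro rfl
    linarith
  have hBC : B ≠ C := by
    rintro rfl
    linarith
  have hD : det A B C ≠ 0 := by
    intro h0
    have k1 : hgt A v B * (C.1 - A.1) = hgt A v C * (B.1 - A.1) := by
      have : hgt A v B * (C.1 - A.1) - hgt A v C * (B.1 - A.1) = -(v.1 * det A B C) := by
        simp only [hgt, det, Prod.fst_add, Prod.snd_add]
        ring
      rw [h0] at this
      linarith
    have k2 : hgt A v B * (C.2 - A.2) = hgt A v C * (B.2 - A.2) := by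
      have : hgt A v B * (C.2 - A.2) - hgt A v C * (B.2 - A.2) = -(v.2 * det A B C) := by
        simp only [hgt, det, Prod.fst_add, Prod.snd_add]
        ring
      rw [h0] at this
      linarith
    have b1 := hx B hB
    have c1 := hx C hC
    have b1' : B.1 = A.1 := by nlinarith
    have c1' : C.1 = A.1 := by nlinarith
    have b2 := hy B hB b1'
    have c2 := hy C hC c1'
    have b2' : B.2 = A.2 := by nlinarith
    exact hAB (Prod.ext b1'.symm b2'.symm)
  have cyc1 : det B C A = det A B C := by unfold det; ring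
  have cyc2 : det C A B = det A B C := by unfold det; ring
  have fin : ∀ (X Y Z : ℝ × ℝ), Z ∈ essRange f → det X Y Z = det A B C →
      ((∀ q ∈ essRange f, det X Y q ≤ 0) ∨ (∀ q ∈ essRange f, 0 ≤ det X Y q)) →
      ∀ p ∈ essRange f, 0 ≤ det A B C * det X Y p := by
    intro X Y Z hZ hZe hor p hp
    rcases hor with h1 | h1
    · have := h1 Z hZ
      rw [hZe] at this
      exact mul_nonneg_of_nonpos_of_nonpos this (h1 p hp)
    · have := h1 Z hZ
      rw [hZe] at this
      exact mul_nonneg this (h1 p hp)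
  have f1 := fin A B C hC rfl (h.edge hA hB hAB (n := (1, 0)) (by simp) hn0 hsA hsB)
  have f2 := fin B C A hA cyc1 (h.edge hB hC hBC hn0 (neg_ne_zero.mpr hn0) hsB hsC)
  have f3 := fin C A B hB cyc2 (h.edge hC hA hAC (neg_ne_zero.mpr hn0) (n' := (1, 0)) (by simp)
    hsC hsA)
  -- a point of the essential range on an edge line maximises a functional
  have hedge : ∀ (X Y Z nZ : ℝ × ℝ), X ≠ Y → Z ∈ essRange f → nZ ≠ 0 →
      (∀ q ∈ essRange f, dotp nZ q ≤ dotp nZ Z) →
      (∀ q ∈ essRange f, 0 ≤ det A B C * det X Y q) → det X Y Z ≠ 0 →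
      ∀ p ∈ essRange f, det X Y p = 0 →
        (∀ q ∈ essRange f, det p Z q ≤ 0) ∨ (∀ q ∈ essRange f, 0 ≤ det p Z q) := by
    intro X Y Z nZ hXY hZ hnZ hsZ hside hXYZ p hp hp0
    set w : ℝ × ℝ := (-(Y.2 - X.2), Y.1 - X.1) with hw
    have hwd : ∀ q : ℝ × ℝ, det X Y q = dotp w q - dotp w X := by
      intro q
      simp only [det, dotp, hw]
      ring
    have hw0 : w ≠ 0 := by
      intro h0
      have k1 := congrArg Prod.fst h0
      have k2 := congrArg Prod.snd h0
      simp only [hw, Prod.fst_zero, Prod.snd_zero] at k1 k2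
      apply hXY
      ext
      · linarith
      · linarith
    have hsm : ∀ q : ℝ × ℝ, dotp (-(det A B C) • w) q = -(det A B C) * dotp w q := by
      intro q
      simp only [dotp, Prod.smul_fst, Prod.smul_snd, smul_eq_mul]
      ring
    refine h.edge hp hZ ?_ (n := -(det A B C) • w) (n' := nZ)
      (smul_ne_zero (neg_ne_zero.mpr hD) hw0) hnZ ?_ hsZ
    · rintro rfl
      exact hXYZ hp0
    · intro q hq
      rw [hsm, hsm]
      have k1 := hside q hq
      rw [hwd q] at k1
      have k2 : dotp w p = dotp w X := by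
        have := hwd p
        rw [hp0] at this
        linarith
      rw [k2]
      nlinarith
  refine ⟨A, hA, B, hB, C, hC, hD, fun p hp hpA hpB hpC => ?_⟩
  have s1 : det A B p ≠ 0 := strict_aux (essRange f) A B C p hA hB hD (f2 p hp) (f3 p hp) hpA hpB
    (hedge A B C (-n) hAB hC (neg_ne_zero.mpr hn0) hsC f1 hD p hp)
  have s2 : det B C p ≠ 0 := strict_aux (essRange f) B C A p hB hC (by rwa [cyc1])
    (by rw [cyc1]; exact f3 p hp) (by rw [cyc1]; exact f1 p hp) hpB hpC
    (hedge B C A (1, 0) hBC hA (by simp) hsA f2 (by rwa [cyc1]) p hp)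
  have s3 : det C A p ≠ 0 := strict_aux (essRange f) C A B p hC hA (by rwa [cyc2])
    (by rw [cyc2]; exact f1 p hp) (by rw [cyc2]; exact f2 p hp) hpC hpA
    (hedge C A B n hAC hB hn0 hsB f3 (by rwa [cyc2]) p hp)
  rw [mem_interior]
  refine ⟨{q | 0 < det A B C * det A B q ∧ 0 < det A B C * det B C q ∧ 0 < det A B C * det C A q},
    ?_, ?_, ?_⟩
  · rintro q ⟨q1, q2, q3⟩
    exact tri_mem A B C q hD q1.le q2.le q3.le
  · have hop : ∀ X Y : ℝ × ℝ, IsOpen {q : ℝ × ℝ | 0 < det A B C * det X Y q} := by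
      intro X Y
      refine isOpen_lt continuous_const ?_
      unfold det
      fun_prop
    exact (hop A B).inter ((hop B C).inter (hop C A))
  · exact ⟨lt_of_le_of_ne (f1 p hp) (mul_ne_zero hD s1).symm,
      lt_of_le_of_ne (f2 p hp) (mul_ne_zero hD s2).symm,
      lt_of_le_of_ne (f3 p hp) (mul_ne_zero hD s3).symm⟩

end Pool.Agent.LibCX37
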